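import Mathlib
import Pool.Agent.Lib.MP_16ef92_ag.GF.Rep
import Pool.Agent.Lib.MP_16ef92_ag.GF.Tame

set_option autoImplicit false
set_option linter.unusedSectionVars false
set_option linter.unusedVariables false

namespace Pool.Agent.Lib.MP_16ef92_ag.ET

open Polynomial GF
open scoped Classical

noncomputable section

/-- The abscissae of a chain of halvings of a point of order two are distinct. -/
theorem dbl_inj {κ : Type} [Field κ] (h2 : (2 : κ) ≠ 0) {ε : Fin 3 → κ}
    (hε : ∀ i j, i ≠ j → ε i ≠ ε j) {x : ℕ → κ} {α : ℕ → Fin 3 → κ}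
    (hα : ∀ n i, α n i ^ 2 = x n - ε i)
    (hx : ∀ n i j k, i ≠ j → i ≠ k → j ≠ k → x (n + 1) - ε i = (α n i + α n j) * (α n i + α n k))
    {l : Fin 3} (h0 : x 0 = ε l) : Function.Injective x := by
  have h1 : ∀ n i j, i ≠ j → α n i + α n j ≠ 0 := fun n i j hij e => hε i j hij (by
    linear_combination hα n i - hα n j - (α n i - α n j) * e)
  have h3 : ∀ n i, x (n + 1) - ε i ≠ 0 := fun n i => by
    obtain ⟨j, k, a, b, c⟩ := exists_two i
    rw [hx n i j k a b c]
    exact mul_ne_zero (h1 n i j a) (h1 n i k b)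
  have h4 : ∀ n, 2 ^ 2 * ((x (n + 1) - ε 0) * (x (n + 1) - ε 1) * (x (n + 1) - ε 2)) * (x n - ε 0) =
      ((x (n + 1) - ε 0) * (x (n + 1) - ε 2) + (x (n + 1) - ε 0) * (x (n + 1) - ε 1) -
        (x (n + 1) - ε 1) * (x (n + 1) - ε 2)) ^ 2 := fun n => by
    rw [hx n 0 1 2 (by decide) (by decide) (by decide), hx n 1 0 2 (by decide) (by decide)
      (by decide), hx n 2 0 1 (by decide) (by decide) (by decide), ← hα]
    ring
  have h5 : ∀ n m, n < m → x n ≠ x m := by
    intro n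
    induction n with
    | zero =>
      rintro (_ | m) hm e
      · omega
      · exact h3 m l (by rw [← e, h0, sub_self])
    | succ n ih =>
      rintro (_ | m) hm e
      · omega
      refine ih m (by omega) ((sub_left_inj (a := ε 0)).1 (mul_left_cancel₀ (mul_ne_zero
        (pow_ne_zero 2 h2) (mul_ne_zero (mul_ne_zero (h3 m 0) (h3 m 1)) (h3 m 2))) ?_))
      rw [h4 m, ← e, h4 n]
  intro n m e
  rcases lt_trichotomy n m with h | h | h
  exacts [(h5 n m h e).elim, h, (h5 m n h e.symm).elim]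

/-- An eigenvector for the determinant gives a fixed vector. -/
theorem exists_prim_smul {t : V} (ht : t ≠ 0) : ∃ (n : ℕ) (w : V), w ∉ Dv 1 ∧
    t = (2 : ℤ_[2]) ^ n • w := by
  have h : ∃ n, t ∉ Dv (n + 1) := by
    by_contra h
    push Not at h
    exact ht (eq_zero_of_Dv fun n => Dv_mono n.le_succ (h n))
  have h1 : t ∈ Dv (Nat.find h) := by
    cases e : Nat.find h with
    | zero => exact Dv_zero t
    | succ m => exact not_not.1 (Nat.find_min h (by omega))
  obtain ⟨w, hw⟩ := mem_Dv_iff.1 h1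
  exact ⟨_, w, fun e => Nat.find_spec h (hw.symm.subst (motive := (· ∈ Dv (Nat.find h + 1)))
    (smul_mem_Dv_iff.2 e)), hw⟩

theorem fixed_of_eigen {M : Module.End ℤ_[2] V} {Q : ℤ_[2]} (h0 : Q ≠ 0) (h1 : Q ≠ 1)
    (hd : dt M = Q) {t : V} (ht : t ≠ 0) (hM : M t = Q • t) : ∃ w, w ∉ Dv 1 ∧ M w = w := by
  obtain ⟨n, r, hr, rfl⟩ := exists_prim_smul ht
  rw [map_smul, smul_comm] at hM
  have h2 := two_pow_smul_inj hM
  obtain ⟨s, hs⟩ := exists_dual hr
  have h3 := om_map M r s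
  rw [h2, om_smul_left, hd, hs] at h3
  have h4 := dual_expand hs (M s)
  rw [mul_left_cancel₀ h0 h3] at h4
  generalize om (M s) s = l at h4
  obtain ⟨m, w, hw, e⟩ := exists_prim_smul (t := (Q - 1) • s - l • r) fun e => h1 (by
    have := congrArg (om r) e
    rw [om_sub_right, om_smul_right, om_smul_right, hs, om_self, om_zero_right] at this
    linear_combination this)
  refine ⟨w, hw, two_pow_smul_inj (n := m) ?_⟩
  rw [← map_smul, ← e, map_sub, map_smul, map_smul, h2, h4]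
  module

variable {F : Type} [Field F] [Clos F] [Fintype F] [hq : Fact (Odd (Fintype.card F))]
variable {e : Fin 3 → Om F} {T : TD e} {O : ValuationSubring (Om F)} {x : Option (kk F)}
  {f : Gam F} {Q : ℕ} {a : Gam F → V}

/-- A model with good reduction. -/
structure GR (e : Fin 3 → Om F) (O : ValuationSubring (Om F)) (u : Om F) : Prop where
  ne : u ≠ 0
  fix : ∀ g : Gam F, g u = u
  int : ∀ i, O.valuation (e i / u ^ 2) ≤ 1
  diff : ∀ i j, i ≠ j → O.valuation ((e i - e j) / u ^ 2) = 1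

theorem GR.good {u : Om F} (h : GR e O u) (hO : Over O x) : GoodAt T O := fun g hg y => by
  simpa using T.good hO hg h.ne (Or.inl ⟨rfl, rfl⟩) (by rw [h.fix, one_mul]) h.int h.diff y

/-- A Frobenius element at a good place fixes no vector. -/
theorem GR.no_fixed {u : Om F} (h : GR e O u) (hO : Over O x) (hf : f ∈ St O) (hQ : Fr f Q)
    (h1 : 1 < Q) {w : V} (hw : w ∉ Dv 1) (e1 : T.ro f w = w) : False := by
  have hu := h.ne
  have ha2 : ∀ n i, (T.al n i w / u) ^ 2 = T.X n w / u ^ 2 - e i / u ^ 2 := fun n i => by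
    rw [div_pow, T.sq n i w hw, sub_div]
  have hst : ∀ n i j k, i ≠ j → i ≠ k → j ≠ k → T.X (n + 1) w / u ^ 2 - e i / u ^ 2 =
      (T.al n i w / u + T.al n j w / u) * (T.al n i w / u + T.al n k w / u) := by
    intro n i j k a b c
    rw [← sub_div, T.step n i j k w hw a b c]
    field_simp
  have ha : ∀ n i, O.valuation (T.X n w / u ^ 2) ≤ 1 → O.valuation (T.al n i w / u) ≤ 1 :=
    fun n i hn => val_le_of_sq (by rw [ha2]; exact Valuation.map_sub_le _ hn (h.int i))
  obtain ⟨l, hl⟩ := prim_tv hw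
  have hX : ∀ n, O.valuation (T.X n w / u ^ 2) ≤ 1 := by
    intro n
    induction n with
    | zero => rw [T.X0 l w hl]; exact h.int l
    | succ n ih =>
      rw [eq_add_of_sub_eq' (hst n 0 1 2 (by decide) (by decide) (by decide))]
      exact Valuation.map_add_le _ (h.int 0) (val_mul_le O (Valuation.map_add_le _ (ha _ _ ih)
        (ha _ _ ih)) (Valuation.map_add_le _ (ha _ _ ih) (ha _ _ ih)))
  let π := IsLocalRing.residue O
  have hπ : ∀ z : O, π z = 0 ↔ O.valuation z < 1 := fun z => by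
    rw [IsLocalRing.residue_eq_zero_iff, O.valuation_lt_one_iff]
  let Z : ℕ → O := fun n => ⟨_, (O.valuation_le_one_iff _).1 (hX n)⟩
  let E : Fin 3 → O := fun i => ⟨_, (O.valuation_le_one_iff _).1 (h.int i)⟩
  let A : ℕ → Fin 3 → O := fun n i => ⟨_, (O.valuation_le_one_iff _).1 (ha n i (hX n))⟩
  have hinj : Function.Injective fun n => π (Z n) := by
    refine dbl_inj (ε := fun i => π (E i)) (α := fun n i => π (A n i)) (l := l) (fun e => ?_)
      (fun i j hij e => ?_) (fun n i => ?_) (fun n i j k a b c => ?_) ?_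
    · exact (val_two O).not_lt ((hπ 2).1 (by rw [map_ofNat, e]))
    · have := (hπ (E i - E j)).1 (by rw [map_sub, e, sub_self])
      exact (h.diff i j hij).not_lt (by rw [sub_div]; exact this)
    · rw [← map_pow, ← map_sub]
      exact congrArg π (Subtype.ext (ha2 n i))
    · rw [← map_add, ← map_add, ← map_mul, ← map_sub]
      exact congrArg π (Subtype.ext (hst n i j k a b c))
    · exact congrArg π (Subtype.ext (congrArg (· / u ^ 2) (T.X0 l w hl)))
  refine Set.infinite_of_injective_forall_mem hinj (fun n => ?_)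
    (X ^ Q - X : (IsLocalRing.ResidueField O)[X]).roots.toFinset.finite_toSet
  obtain ⟨c, hc⟩ := hO.res (Z n).2
  have h2 := st_lt hf hc
  have h3 : f (Z n) = Z n := by
    change f (T.X n w / u ^ 2) = T.X n w / u ^ 2
    rw [eq_add_of_sub_eq' (ha2 n 0).symm]
    simp only [map_add, map_pow, map_div₀, h.fix, T.efix, T.equiv, e1]
  rw [map_sub, h3, hQ] at h2
  let c' : O := ⟨c, (O.valuation_le_one_iff _).1 (val_const_le O c)⟩
  have h4 := (hπ (Z n - c')).2 hc
  have h5 := (hπ (Z n - c' ^ Q)).2 h2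
  rw [map_sub, sub_eq_zero] at h4 h5
  rw [Finset.mem_coe, Multiset.mem_toFinset, mem_roots (FiniteField.X_pow_card_sub_X_ne_zero _ h1)]
  simp only [IsRoot, eval_sub, eval_pow, eval_X]
  rw [sub_eq_zero, h4, ← map_pow, ← h5, h4]

/-- The tame relation for characters of inertia. -/
theorem conj_of (hf : f ∈ St O) (hQ : Fr f Q) (hp : f (pl x) = pl x) (u : Gam F → ℤ_[2])
    (hu : ∀ (n : ℕ) (z : Om F), IsPrimitiveRoot z (2 ^ n) →
      ∃ v : ZMod (2 ^ n), ∀ g ∈ Ine O, red n (u g) = v * kap z n (pl x) g) {g : Gam F}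
    (hg : g ∈ Ine O) : u (f * g * f⁻¹) = Q * u g := by
  refine sub_eq_zero.1 (eq_zero_of_dvd fun n => red_eq.1 ?_)
  obtain ⟨z, hz⟩ := exists_prim (F := F) n
  obtain ⟨v, hv⟩ := hu n z hz
  have h6 := kap_conj hz (hQ.root (by positivity) hz.pow_eq_one) hg.1 (geo_pl hg.1 x) (pl_ne _)
  rw [hp] at h6
  rw [map_mul, map_natCast, hv _ (st_conj hf hg), hv g hg, h6]
  ring

theorem hom_conj (hO : Over O x) (hf : f ∈ St O) (hQ : Fr f Q) (hp : f (pl x) = pl x)
    (ha : Cy T a) (p : V → ℤ_[2]) (hp1 : ∀ y z, p (y + z) = p y + p z)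
    (hp2 : ∀ g ∈ Ine O, ∀ y, p (T.ro g y) = p y) (hp3 : ∀ n, ∀ y ∈ Dv n, 2 ^ n ∣ p y) {g : Gam F}
    (hg : g ∈ Ine O) : p (a (f * g * f⁻¹)) = Q * p (a g) :=
  conj_of hf hQ hp (fun g => p (a g)) (fun n z hz => hO.local_char hz _
    (fun g hg h hh => by rw [ha.mul g hg.1 h hh.1, hp1, hp2 g hg, map_add])
    ((ha.near n).mono fun g h hg => red_eq_zero.2 (hp3 n _ (h hg.1)))) hg

theorem cy_cob (m : V) : Cy T fun g => T.ro g m - m :=
  ⟨fun g _ h _ => by rw [ro_mul, map_sub]; abel, fun n => (T.near n).mono fun g hg _ => hg m⟩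

/-- A cocycle is determined on inertia by its value at a generator. -/
theorem cy_ext (hO : Over O x) (ha : Cy T a) {γ : Gam F} (hγ : γ ∈ Ine O)
    (h1 : sg (pl x) γ = 1) (h0 : a γ = 0) {g : Gam F} (hg : g ∈ Ine O) : a g = 0 := by
  refine eq_zero_of_Dv fun n => ?_
  induction n generalizing g with
  | zero => exact Dv_zero _
  | succ n ih =>
    have h2 : ∀ g, ∃ z : V, g ∈ Ine O → a g = (2 : ℤ_[2]) ^ n • z := fun g => by
      by_cases hg : g ∈ Ine O
      · exact (mem_Dv_iff.1 (ih hg)).imp fun z hz _ => hz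
      · exact ⟨0, fun h => (hg h).elim⟩
    choose z hz using h2
    have h3 : ∀ i, cc i (z g) = 0 := fun i =>
      ine_zero hO (u := fun g => cc i (z g)) ⟨fun g hg h hh => by
        rw [← cc_ro T i g (z h), ← cc_add]
        refine congrArg _ (two_pow_smul_inj (n := n) ?_)
        rw [smul_add, ← map_smul, ← hz g hg, ← hz h hh, ← hz _ (mul_mem hg hh),
          ha.mul g hg.1 h hh.1],
        (ha.near (n + 1)).mono fun g h hg hg' => cc_of_Dv i (smul_mem_Dv_iff.1 (hz g hg' ▸ h hg))⟩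
        hγ h1 (cc_of_Dv i (smul_mem_Dv_iff.1 (hz γ hγ ▸ h0 ▸ zero_mem (Dv (n + 1))))) g hg
    rw [hz g hg, smul_mem_Dv_iff]
    exact Dv_of_cc (i := 0) (j := 1) (by decide) (h3 0) (h3 1)

theorem loc_of_gen (hO : Over O x) (ha : Cy T a) {γ : Gam F} (hγ : γ ∈ Ine O)
    (h1 : sg (pl x) γ = 1) {j : ℕ} {m : V} (h0 : (2 : ℤ_[2]) ^ j • a γ = T.ro γ m - m) :
    ∃ (j : ℕ) (m : V), ∀ g ∈ Ine O, (2 : ℤ_[2]) ^ j • a g = T.ro g m - m :=
  ⟨j, m, fun g hg => sub_eq_zero.1
    (cy_ext hO ((ha.smul _).sub (cy_cob m)) hγ h1 (sub_eq_zero.2 h0) hg)⟩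

end

end Pool.Agent.Lib.MP_16ef92_ag.ET
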