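import Mathlib
import Pool.Agent.Lib.MP_16ef92_ag.ET.W1
import Pool.Agent.Lib.MP_16ef92_ag.GF.Simple

set_option autoImplicit false
set_option linter.unusedSectionVars false
set_option linter.unusedVariables false

namespace Pool.Agent.Lib.MP_16ef92_ag.ET

open Polynomial GF
open scoped Classical

noncomputable section

variable {F : Type} [Field F] [Clos F] [Fintype F] [hq : Fact (Odd (Fintype.card F))]

section loc

variable {e : Fin 3 → Om F} {T : TD e} {O : ValuationSubring (Om F)} {x : Option (kk F)}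
  {f : Gam F} {Q : ℕ} {a : Gam F → V}

theorem w_twist (hO : Over O x) (ha : Cy T a) (h : TwistAt T O x) :
    ∃ (j : ℕ) (m : V), ∀ g ∈ Ine O, (2 : ℤ_[2]) ^ j • a g = T.ro g m - m := by
  obtain ⟨γ, hγ, h1⟩ := hO.exists_sg
  refine loc_of_gen hO ha hγ h1 (j := 1) (m := -a γ) ?_
  rw [h γ hγ, if_neg (by rw [h1]; decide)]
  module

variable (hO : Over O x) (hf : f ∈ St O) (hQ : Fr f Q) (hp : f (pl x) = pl x) (h1 : 1 < Q)
  (hd : dt (T.ro f) = Q) (ha : Cy T a) {j : ℕ} {m : V}
  (h : ∀ g ∈ Ine O, (2 : ℤ_[2]) ^ j • (tw T f a g - a g) = T.ro g m - m)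
include hO hf hQ hp h1 hd ha h

theorem w_good {u : Om F} (hu : GR e O u) {g : Gam F} (hg : g ∈ Ine O) : a g = 0 := by
  by_contra h0
  have h2 := h _ (st_conj hf hg)
  rw [hu.good hO _ (st_conj hf hg), sub_self, smul_eq_zero, or_iff_right (by simp), tw,
    show f⁻¹ * (f * g * f⁻¹) * f = g by group, sub_eq_zero] at h2
  have h3 : a (f * g * f⁻¹) = (Q : ℤ_[2]) • a g := Prod.ext
    (hom_conj hO hf hQ hp ha Prod.fst (fun _ _ => rfl) (fun g hg y => by rw [hu.good hO g hg])
      (fun n y hy => hy.1) hg)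
    (hom_conj hO hf hQ hp ha Prod.snd (fun _ _ => rfl) (fun g hg y => by rw [hu.good hO g hg])
      (fun n y hy => hy.2) hg)
  obtain ⟨w, hw, e1⟩ := fixed_of_eigen (by exact_mod_cast (by omega : Q ≠ 0))
    (by exact_mod_cast h1.ne') hd h0 (h2.trans h3)
  exact hu.no_fixed hO hf hQ h1 hw e1

theorem w_mult (hgeo : ∀ g ∈ Geo F, dt (T.ro g) = 1) {i k l : Fin 3} (hm : MP e O x i k l) :
    ∃ (j : ℕ) (m : V), ∀ g ∈ Ine O, (2 : ℤ_[2]) ^ j • a g = T.ro g m - m := by
  obtain ⟨r, b, htv⟩ := hm.exists_tv hgeo (T := T)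
  obtain ⟨g, hg, hg1⟩ := hO.exists_sg
  obtain ⟨v, hv⟩ := (unit_of_red ((htv.par hm hg).trans hg1)).exists_right_inv
  obtain ⟨r', hr'⟩ := exists_dual (tv_prim htv.hr)
  have hcj := st_conj hf hg
  have h2 : ∀ g ∈ Ine O, ∀ y, om r (T.ro g y) = om r y := fun g hg y => by
    rw [htv.hb g hg, om_add_right, om_smul_right, om_self, mul_zero, add_zero]
  have h3 : om r (T.ro f r) = 0 := by
    have h4 := htv.fix (st_conj (inv_mem hf) hg)
    have h5 : T.ro g (T.ro f r) = T.ro f r := by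
      rw [← ro_mul, show g * f = f * (f⁻¹ * g * f⁻¹⁻¹) by group, ro_mul, h4]
    rw [htv.hb g hg, add_eq_left] at h5
    have h6 := congrArg (om · r') h5
    simp only [om_smul_left, hr', om_zero_left] at h6
    exact mul_left_cancel₀ two_ne_zero (by linear_combination v * h6 - 2 * om r (T.ro f r) * hv)
  have hl := dual_expand hr' (T.ro f r)
  rw [h3, zero_smul, add_zero] at hl
  generalize om (T.ro f r) r' = c at hl
  have h4 : ∀ y, c * om r (T.ro f y) = Q * om r y := fun y => by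
    rw [← om_smul_left, ← hl, om_map, hd]
  have hQ0 : (Q : ℤ_[2]) ≠ 0 := by exact_mod_cast (by omega : Q ≠ 0)
  have h5 : c ≠ 1 := by
    rintro rfl
    have h6 := congrArg (om · (T.ro f r')) (htv.hb _ hcj (T.ro f r'))
    have h7 := h4 r'
    rw [hr', one_mul] at h7
    rw [one_smul] at hl
    simp only [← ro_mul, inv_mul_cancel_right] at h6
    simp only [ro_mul, htv.hb g hg, map_add, map_smul, hl, hr', om_add_left, om_smul_left, h7,
      conj_of hf hQ hp b (fun n z hz => htv.exists_u hO hz) hg] at h6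
    have h8 : (Q : ℤ_[2]) * Q = 1 := mul_left_cancel₀ (mul_ne_zero two_ne_zero hQ0) (by
      linear_combination -v * h6 + (2 * Q - 2 * Q ^ 3) * hv)
    have h9 : Q * Q = 1 := by exact_mod_cast h8
    nlinarith
  have h6 : om r (a g) = 0 := by
    have h7 := congrArg (om r) (h _ hcj)
    rw [om_sub_right r (T.ro _ m), h2 _ hcj, sub_self, om_smul_right, mul_eq_zero,
      or_iff_right (by simp), om_sub_right, tw, show f⁻¹ * (f * g * f⁻¹) * f = g by group,
      hom_conj hO hf hQ hp ha (om r) (om_add_right r) h2 (fun n y => om_dvd_right r) hg] at h7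
    refine mul_left_cancel₀ (mul_ne_zero hQ0 (sub_ne_zero.2 h5)) ?_
    linear_combination h4 (a g) - c * h7
  refine loc_of_gen hO ha hg hg1 (j := 1) (m := (om (a g) r' * v) • r') ?_
  rw [htv.hb g hg, add_sub_cancel_left, om_smul_right, hr']
  conv_lhs => rw [dual_expand hr' (a g), h6, zero_smul, add_zero, smul_smul]
  congr 1
  linear_combination (-2 * om (a g) r') * hv

end loc

theorem exists_over_of (O : ValuationSubring (Om F)) (hO : O ≠ ⊤) : ∃ x, Over O x := by
  by_contra h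
  push Not at h
  have h0 : O.valuation (tt F) ≤ 1 := by
    rw [O.valuation_le_one_iff]
    by_contra e
    exact h none ((val_lt_one_iff O _).2 (Or.inr (by rwa [pl, inv_inv])))
  have h1 : ∀ P : (kk F)[X], P ≠ 0 → O.valuation (aeval (tt F) P) = 1 := fun P hP => by
    rw [(IsAlgClosed.splits P).eq_prod_roots, map_mul, map_mul, aeval_C, map_multiset_prod,
      map_multiset_prod, Multiset.prod_eq_one, mul_one]
    · exact val_const O (leadingCoeff_ne_zero.2 hP)
    · simp only [Multiset.map_map, Multiset.mem_map, Function.comp]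
      rintro _ ⟨c, -, rfl⟩
      rw [map_sub, aeval_X, aeval_C]
      exact le_antisymm (Valuation.map_sub_le _ h0 (val_const_le O c)) (not_lt.1 (h (some c)))
  have h2 : ∀ p : F[X], p ≠ 0 → O.valuation (ev p) = 1 := fun p hp => by
    rw [ev, ← aeval_map_algebraMap (kk F)]
    exact h1 _ (Polynomial.map_ne_zero hp)
  have h3 : ∀ y : RatFunc F, algebraMap _ (Om F) y ≠ 0 →
      O.valuation (algebraMap _ (Om F) y) = 1 := fun y hy => by
    rw [← RatFunc.num_div_denom y, map_div₀, map_div₀, rf_eq, rf_eq, h2 _ y.denom_ne_zero,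
      h2 _ (RatFunc.num_ne_zero fun e => hy (by rw [e, map_zero])), div_one]
  refine hO (eq_top_iff.2 fun z _ => ?_)
  by_cases e0 : z = 0
  · exact e0 ▸ zero_mem O
  obtain ⟨p, hp0, hp⟩ := Algebra.IsAlgebraic.isAlgebraic (R := RatFunc F) z
  obtain ⟨i, m, hm, a, b, e⟩ := two_terms O.valuation
    ((Polynomial.map_ne_zero_iff (algebraMap (RatFunc F) (Om F)).injective).2 hp0) e0
    (by rw [eval_map_algebraMap, hp])
  rw [coeff_map] at a b e
  rw [coeff_map, h3 _ a, h3 _ b, one_mul] at e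
  exact (O.valuation_le_one_iff z).1 ((pow_le_one_iff_of_nonneg zero_le hm.ne').1 e.ge)

theorem exists_frob {s : Gam F} (hs : Fr s (Fintype.card F)) {O : ValuationSubring (Om F)}
    {x : Option (kk F)} (hO : Over O x) :
    ∃ d, 0 < d ∧ ∃ g ∈ Geo F, g * s ^ d ∈ St O ∧ (g * s ^ d) (pl x) = pl x := by
  cases x with
  | none =>
    obtain ⟨g, hg, h2⟩ := over_trans (O := cm s⁻¹ O) (x := none) (over_cm (by simpa using hO)) hO
    exact ⟨1, one_pos, g, hg, fun z => by
      rw [pow_one, AlgEquiv.mul_apply, ← h2, mem_cm, inv_apply_self], gam_pl _ none⟩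
  | some c =>
    obtain ⟨d, hd, hc⟩ := kk_frob c
    obtain ⟨g, hg, hst⟩ := (hs.pow d).exists_st hc hO
    exact ⟨d, hd, g, hg, hst, ((hs.pow d).geo_mul hg).pl hc⟩

section key

variable {e : Fin 3 → Om F} {T : TD e} {a : Gam F → V} {s : Gam F}

theorem tw_mul (s t : Gam F) (a : Gam F → V) : tw T (s * t) a = tw T s (tw T t a) :=
  funext fun g => by
    simp only [tw, ro_mul]
    rw [show (s * t)⁻¹ * g * (s * t) = t⁻¹ * (s⁻¹ * g * s) * t by group]

theorem lt_pow (h : LT T fun g => tw T s a g - a g) (d : ℕ) :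
    LT T fun g => tw T (s ^ d) a g - a g := by
  induction d with
  | zero => exact fun O x hO => ⟨0, 0, fun g _ => by simp [tw]⟩
  | succ d ih =>
    have := (ih.tw s).sub (h.smul (-1))
    convert this using 2 with g
    rw [pow_succ', tw_mul]
    simp only [tw, map_sub]
    module

theorem lt_geo (ha : Cy T a) {l : Gam F} (hl : l ∈ Geo F) : LT T fun g => tw T l a g - a g :=
  fun O x hO => ⟨0, a l, fun g hg => by
    have h1 := ha.mul l hl _ (geo_conj hg.1 l)
    rw [show l * (l⁻¹ * g * l) = g * l by group, ha.mul g hg.1 l hl] at h1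
    unfold tw
    linear_combination (norm := module) -h1⟩

end key

variable {A B D : F[X]}

theorem gr_of {O : ValuationSubring (Om F)} {u : Om F} (hu0 : u ≠ 0) (hu : ∀ g : Gam F, g u = u)
    (hA : O.valuation (ev (D * A) / u ^ 2) = 1) (hB : O.valuation (ev (D * B) / u ^ 2) = 1)
    (hC : O.valuation (ev (D * (A - B)) / u ^ 2) = 1) : GR (fun i => ev (EE A B D i)) O u := by
  refine ⟨hu0, hu, fun i => ?_, fun i j hij => ?_⟩
  · fin_cases i
    exacts [by simp [EE], hA.le, hB.le]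
  · have := EE_diff (fun p => O.valuation (ev p / u ^ 2) = 1)
      (fun p hp => by rwa [ev, map_neg, neg_div, Valuation.map_neg]) hA hB hC hij
    rwa [ev, map_sub] at this

theorem w_cases (h : Fam0 A B D) (T : TD fun i => ev (EE A B D i)) {O : ValuationSubring (Om F)}
    {x : Option (kk F)} (hO : Over O x) : (∃ u, GR (fun i => ev (EE A B D i)) O u) ∨
      TwistAt T O x ∨ ∃ i j k, MP (fun i => ev (EE A B D i)) O x i j k := by
  obtain ⟨hA, hB, hC, hD⟩ := h.ne
  cases x with
  | none =>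
    by_cases hd : Even (A.natDegree + D.natDegree)
    · obtain ⟨m, hm⟩ := hd
      have h1 : ∀ p : F[X], p ≠ 0 → p.natDegree = A.natDegree →
          O.valuation (ev (D * p) / (tt F ^ m) ^ 2) = 1 := fun p hp hd => by
        have := val_inf_poly hO (mul_ne_zero hD hp)
        rwa [natDegree_mul hD hp, hd, add_comm, hm, ← mul_two, pow_mul] at this
      exact Or.inl ⟨_, gr_of (pow_ne_zero m tt_ne) (fun g => by rw [map_pow, gam_tt])
        (h1 A hA rfl) (h1 B hB h.dB) (h1 _ hC h.dC)⟩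
    · exact Or.inr (Or.inl (h.twist_inf T hd hO))
  | some c =>
    by_cases h1 : aeval c D = 0
    · exact Or.inr (Or.inl (h.twist_fin T h1 hO))
    by_cases hc : aeval c (A * B * (A - B)) = 0
    · have hi : IsIntegral F c := Algebra.IsIntegral.isIntegral c
      obtain ⟨i, j, h2⟩ := h.mult ⟨minpoly.monic hi, minpoly.irreducible hi⟩
        (minpoly.dvd F c hc) (minpoly.aeval F c)
      exact Or.inr (Or.inr ⟨i, j, _, h2 O hO⟩)
    · simp only [map_mul, mul_eq_zero, not_or] at hc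
      have h2 : ∀ p : F[X], aeval c p ≠ 0 → O.valuation (ev (D * p) / 1 ^ 2) = 1 := fun p hp => by
        rw [one_pow, div_one]
        exact over_ev hO (by rw [map_mul]; exact mul_ne_zero h1 hp)
      exact Or.inl ⟨1, gr_of one_ne_zero (fun g => map_one g) (h2 A hc.1.1) (h2 B hc.1.2)
        (h2 _ hc.2)⟩

/-- The eigenvalue one does not occur in the local cohomology. -/
theorem w_key (h : Fam0 A B D) {T : TD fun i => ev (EE A B D i)} {s : Gam F}
    (hs : Fr s (Fintype.card F)) (hd : dt (T.ro s) = Fintype.card F) {a : Gam F → V} (ha : Cy T a)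
    (hl : LT T fun g => tw T s a g - a g) : LT T a := by
  intro O x hO
  have hgeo : ∀ g ∈ Geo F, dt (T.ro g) = 1 := fun g hg => T.dt_geo hs hg
  obtain ⟨d, hd0, l, hl0, h1, h2⟩ := exists_frob hs hO
  have h3 : dt (T.ro (l * s ^ d)) = (Fintype.card F ^ d : ℕ) := by
    rw [map_mul, dt_mul, hgeo l hl0, one_mul]
    clear hd0 h1 h2
    induction d with
    | zero => simpa using dt_one
    | succ d ih => rw [pow_succ, map_mul, dt_mul, ih, hd, pow_succ, Nat.cast_mul]
  obtain ⟨j, m, hm⟩ := ((lt_geo (ha.tw (s ^ d)) hl0).sub ((lt_pow hl d).smul (-1))) O x hO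
  have h4 : ∀ g ∈ Ine O, (2 : ℤ_[2]) ^ j • (tw T (l * s ^ d) a g - a g) = T.ro g m - m :=
    fun g hg => by
      rw [← hm g hg, tw_mul]
      congr 1
      module
  have h5 := (hs.pow d).geo_mul hl0
  have h6 : 1 < Fintype.card F ^ d := Nat.one_lt_pow hd0.ne' Fintype.one_lt_card
  rcases w_cases h T hO with ⟨u, hu⟩ | hu | ⟨i, k, n, hu⟩
  · exact ⟨0, 0, fun g hg => by rw [w_good hO h1 h5 h2 h6 h3 ha h4 hu hg]; simp⟩
  · exact w_twist hO ha hu
  · exact w_mult hO h1 h5 h2 h6 h3 ha h4 hgeo hu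

/-- Classes in the generalised eigenspace of eigenvalue one are locally torsion. -/
theorem weight (hsq : Squarefree (A * B * (A - B) * D)) (hA : 0 < A.natDegree)
    (hB : B.natDegree = A.natDegree) (hC : (A - B).natDegree = A.natDegree) {s : Gam F}
    (hs : Fr s (Fintype.card F)) {c : Gam F → ℕ → Pt (curve A B D)}
    (h1 : ∀ g ∈ Geo F, InTate (c g)) (h2 : ∀ g ∈ Geo F, ∀ h ∈ Geo F, c (g * h) = c g + act g (c h))
    (h3 : ∀ n, IsLocallyConstant fun g : Geo F => c g n) (h : IsNull (subOne s (subOne s c))) :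
    IsClass c := by
  have hF : Fam0 A B D := ⟨hsq, hB, hC, hA⟩
  obtain ⟨T, ev', hin, hsurj, hker, hro⟩ := exists_TD hF.cub fun g i => gam_ev g _
  have hinj : ∀ x y, ev' x = ev' y → x = y := fun x y e => by
    rw [← sub_eq_zero]
    exact eq_zero_of_Dv fun n => (hker n _).1 (by rw [map_sub, e, sub_self]; rfl)
  have hpow : ∀ (j : ℕ) x, ev' ((2 : ℤ_[2]) ^ j • x) = 2 ^ j • ev' x := fun j x => by
    rw [← map_nsmul, ← Nat.cast_smul_eq_nsmul ℤ_[2]]
    simp
  have hy : ∀ g, ∃ x, g ∈ Geo F → ev' x = c g := by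
    intro g
    by_cases hg : g ∈ Geo F
    · exact (hsurj _ (h1 g hg)).imp fun x hx _ => hx
    · exact ⟨0, fun h => (hg h).elim⟩
  choose y hy using hy
  have hCy : ∀ g ∈ Geo F, ∀ l ∈ Geo F, y (g * l) = y g + T.ro g (y l) := fun g hg l hl =>
    hinj _ _ (by rw [map_add, hro, hy _ (mul_mem hg hl), hy g hg, hy l hl, h2 g hg l hl])
  have h4 : y 1 = 0 := by
    have := hCy 1 (one_mem _) 1 (one_mem _)
    rwa [mul_one, ro_one, left_eq_add] at this
  have hcy : Cy T y := ⟨hCy, fun n =>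
    (Near.of_locConst (Geo F) (fun g => c g n) (h3 n)).mono fun g hg hg' => (hker n _).1 (by
      rw [hy g hg', hg hg', ← hy 1 (one_mem _), h4, map_zero]
      rfl)⟩
  have hsub : ∀ (a : Gam F → V) (d : Gam F → ℕ → Pt (curve A B D)), (∀ g ∈ Geo F, ev' (a g) = d g) →
      ∀ g ∈ Geo F, ev' (tw T s a g - a g) = subOne s d g := fun a d had g hg => by
    rw [map_sub, tw, hro, had _ (geo_conj hg s), had g hg]
    rfl
  obtain ⟨j, w, hw, h5⟩ := isNull_iff.1 h
  obtain ⟨w, rfl⟩ := hsurj w hw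
  have hd := hF.det T hin hker hro hs
  have hlt := w_key hF hs hd hcy (w_key hF hs hd ((hcy.tw s).sub hcy) fun O x hO =>
    ⟨j, w, fun g hg => hinj _ _ (by
      rw [hpow, hsub _ _ (hsub y c hy) g hg.1, h5 g hg.1, map_sub, hro])⟩)
  unfold IsClass
  rw [galGeo_eq]
  refine ⟨h1, h2, h3, fun O hO => ?_⟩
  obtain ⟨x, hx⟩ := exists_over_of O hO
  obtain ⟨i, m, hm⟩ := hlt O x hx
  exact ⟨i, ev' m, hin m, fun g hg hg' => by
    rw [← hy g hg, ← hpow, hm g ⟨hg, hg'⟩, map_sub, hro]⟩

end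

end Pool.Agent.Lib.MP_16ef92_ag.ET
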