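import Mathlib

set_option autoImplicit false
set_option backward.isDefEq.respectTransparency false

namespace Pool.Agent.Lib.MP_16ef92_ag.ET

open CategoryTheory AlgebraicGeometry Opposite Limits

noncomputable section

/-- A sieve covers in the small etale topology iff its arrows are jointly surjective. -/
theorem mem_cover {X : Scheme.{0}} {V : X.Etale} (S : Sieve V) :
    S ∈ X.smallEtaleTopology V ↔
      ∀ v : V.left, ∃ (W : X.Etale) (f : W ⟶ V) (w : W.left), S f ∧ f.left w = v := by
  have e : S = Sieve.ofArrows (fun i : S.arrows.category => i.obj.left) fun i => i.obj.hom := by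
    apply le_antisymm
    · intro W f hf
      exact Sieve.ofArrows_mk _ _ (Presieve.categoryMk _ f hf)
    · rw [Sieve.ofArrows, Sieve.generate_le_iff]
      rintro _ _ ⟨i⟩
      exact i.property
  conv_lhs => rw [e]
  rw [Scheme.ofArrows_mem_smallEtaleTopology_iff, Set.eq_univ_iff_forall]
  refine forall_congr' fun v => ?_
  simp only [Set.mem_iUnion, Set.mem_range]
  exact ⟨fun ⟨i, w, h⟩ => ⟨_, _, w, i.property, h⟩,
    fun ⟨W, f, w, hf, h⟩ => ⟨Presieve.categoryMk _ f hf, w, h⟩⟩

end

end Pool.Agent.Lib.MP_16ef92_ag.ET
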