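import Mathlib

set_option autoImplicit false

namespace Pool.Agent.Lib.MP_16ef92_ag.ET

open Polynomial

noncomputable section

/-- The ideal of the affine surface `y^2 = x (x - D A) (x - D B)`, `N D ≠ 0`, in the variables
`t, x, y, z` (numbered 0, 1, 2, 3) with `z = 1 / (N D)`, `N = A B (A - B)`. -/
def surfIdeal {F : Type} [Field F] (A B D : F[X]) : Ideal (MvPolynomial (Fin 4) F) :=
  Ideal.span
    {MvPolynomial.X 2 ^ 2 - MvPolynomial.X 1 *
        (MvPolynomial.X 1 - aeval (MvPolynomial.X 0) (D * A)) *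
        (MvPolynomial.X 1 - aeval (MvPolynomial.X 0) (D * B)),
      MvPolynomial.X 3 * aeval (MvPolynomial.X 0) (A * B * (A - B) * D) - 1}

/-- The coordinate ring of the surface. -/
abbrev surf {F : Type} [Field F] (A B D : F[X]) : Type :=
  MvPolynomial (Fin 4) F ⧸ surfIdeal A B D

end

end Pool.Agent.Lib.MP_16ef92_ag.ET
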