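import Mathlib

/-! Local rings of etale algebras over a smooth surface are factorial. -/

namespace Pool.Agent.Lib.MP_16ef92_ag.ET

open IsLocalRing

section loc

variable {T : Type} [CommRing T] [IsNoetherianRing T] [IsLocalRing T]

theorem reg_pow {x a : T} (hx : x ∈ maximalIdeal T) (ha : a ≠ 0) :
    ∃ (k : ℕ) (b : T), a = x ^ k * b ∧ ¬x ∣ b := by
  classical
  have h : ∃ k, ¬x ^ k ∣ a := by
    by_contra! h
    refine ha ?_
    rw [← Ideal.mem_bot, ← Ideal.iInf_pow_eq_bot_of_isLocalRing (Ideal.span {x})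
      (ne_top_of_le_ne_top (maximalIdeal.isMaximal T).ne_top
        ((Ideal.span_singleton_le_iff_mem _).2 hx)), Submodule.mem_iInf]
    exact fun k => by rw [Ideal.span_singleton_pow, Ideal.mem_span_singleton]; exact h k
  obtain ⟨k, hk⟩ : ∃ k, Nat.find h = k + 1 :=
    Nat.exists_eq_succ_of_ne_zero fun e => Nat.find_spec h (by simp [e])
  obtain ⟨b, hb⟩ := not_not.1 (Nat.find_min h (m := k) (by omega))
  exact ⟨k, b, hb, fun ⟨c, hc⟩ => Nat.find_spec h ⟨c, by rw [hk, hb, hc]; ring⟩⟩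

variable {p w : T} (hm : maximalIdeal T = Ideal.span {p, w})

include hm

theorem reg_mod {a : T} (ha : ¬p ∣ a) : ∃ (k : ℕ) (u : T), IsUnit u ∧ p ∣ a - w ^ k * u := by
  have hp : p ∈ maximalIdeal T := hm ▸ Ideal.subset_span (by simp)
  have hw : w ∈ maximalIdeal T := hm ▸ Ideal.subset_span (by simp)
  have : Nontrivial (T ⧸ Ideal.span {p}) := Ideal.Quotient.nontrivial_iff.2
    (ne_top_of_le_ne_top (maximalIdeal.isMaximal T).ne_top
      ((Ideal.span_singleton_le_iff_mem _).2 hp))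
  have : IsLocalRing (T ⧸ Ideal.span {p}) := .of_surjective' _ Ideal.Quotient.mk_surjective
  have := IsLocalHom.of_surjective _ (Ideal.Quotient.mk_surjective (I := Ideal.span {p}))
  obtain ⟨k, b, h1, h2⟩ := reg_pow (x := Ideal.Quotient.mk (Ideal.span {p}) w)
    (a := Ideal.Quotient.mk _ a) (fun h => hw (IsUnit.of_map _ _ h))
    fun h => ha (Ideal.mem_span_singleton.1 (Ideal.Quotient.eq_zero_iff_mem.1 h))
  obtain ⟨u, rfl⟩ := Ideal.Quotient.mk_surjective b
  refine ⟨k, u, by_contra fun hu => h2 ?_, Ideal.mem_span_singleton.1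
    (Ideal.Quotient.eq.1 (by rw [h1, map_mul, map_pow]))⟩
  obtain ⟨c, d, rfl⟩ := Ideal.mem_span_pair.1 (hm.le hu)
  rw [map_add, map_mul, Ideal.Quotient.eq_zero_iff_mem.2 (Ideal.mem_span_singleton_self p),
    mul_zero, zero_add, map_mul]
  exact dvd_mul_left _ _

theorem reg_prime (hw : ∀ a, p ∣ w * a → p ∣ a) {a b : T} (h : p ∣ a * b) : p ∣ a ∨ p ∣ b := by
  refine or_iff_not_imp_left.2 fun ha => ?_
  obtain ⟨k, u, hu, h1⟩ := reg_mod hm ha
  have h2 : p ∣ w ^ k * (u * b) := by
    have := dvd_sub h (h1.mul_right b)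
    rwa [show a * b - (a - w ^ k * u) * b = w ^ k * (u * b) by ring] at this
  clear h1
  induction k with
  | zero => exact hu.dvd_mul_left.1 (by simpa using h2)
  | succ k ih => exact ih (hw _ (by rwa [pow_succ', mul_assoc] at h2))

theorem reg2_domain (hp : p ∈ nonZeroDivisors T) (hw : ∀ a, p ∣ w * a → p ∣ a) : IsDomain T := by
  have hp' : p ∈ maximalIdeal T := hm ▸ Ideal.subset_span (by simp)
  have : NoZeroDivisors T := ⟨fun {a b} h => by
    by_contra! hab
    obtain ⟨i, a', rfl, ha⟩ := reg_pow hp' hab.1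
    obtain ⟨j, b', rfl, hb⟩ := reg_pow hp' hab.2
    have h1 : a' * b' = 0 := (mul_mem (pow_mem hp i) (pow_mem hp j)).1 _ (by rw [← h]; ring)
    exact (reg_prime hm hw (h1 ▸ dvd_zero p)).elim ha hb⟩
  exact NoZeroDivisors.to_isDomain T

theorem reg2_ufd [IsDomain T] (hp : p ≠ 0) (hw : ∀ a, p ∣ w * a → p ∣ a) :
    UniqueFactorizationMonoid T := by
  classical
  have hp' : p ∈ maximalIdeal T := hm ▸ Ideal.subset_span (by simp)
  refine UniqueFactorizationMonoid.iff_exists_prime_mem_of_isPrime.2 fun I h0 hI => ?_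
  by_cases hpI : p ∈ I
  · exact ⟨p, hpI, hp, hp', fun a b => reg_prime hm hw⟩
  have nak : ∀ a ∈ I, (∀ b ∈ I, ∃ c, p ∣ b - c * a) → I = Ideal.span {a} := fun a ha h => by
    refine le_antisymm (Submodule.le_of_le_smul_of_le_jacobson_bot (IsNoetherian.noetherian I)
      (maximalIdeal_le_jacobson ⊥) fun b hb => ?_) ((Ideal.span_singleton_le_iff_mem _).2 ha)
    obtain ⟨c, d, hd⟩ := h b hb
    have h1 : d ∈ I := (hI.mem_or_mem (hd ▸ I.sub_mem hb (I.mul_mem_left c ha))).resolve_left hpI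
    rw [show b = c * a + p * d by rw [← hd]; ring]
    exact add_mem (Submodule.mem_sup_left (Ideal.mem_span_singleton.2 (dvd_mul_left _ _)))
      (Submodule.mem_sup_right (Submodule.smul_mem_smul hp' h1))
  have h : ∃ k, ∃ a ∈ I, ∃ u, IsUnit u ∧ p ∣ a - w ^ k * u := by
    by_contra! h
    refine h0 ((nak 0 I.zero_mem fun b hb => ⟨0, by_contra fun e => ?_⟩).trans
      (Ideal.span_singleton_eq_bot.2 rfl))
    obtain ⟨k, u, hu, h1⟩ := reg_mod hm (a := b) (by simpa using e)
    exact h k b hb u hu h1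
  obtain ⟨a, ha, u, hu, h1⟩ := Nat.find_spec h
  obtain ⟨u', hu'⟩ := hu.exists_right_inv
  have e := nak a ha fun b hb => by
    by_cases e : p ∣ b
    · exact ⟨0, by simpa using e⟩
    obtain ⟨k, v, hv, h2⟩ := reg_mod hm e
    obtain ⟨d, rfl⟩ := Nat.exists_eq_add_of_le (Nat.find_min' h ⟨b, hb, v, hv, h2⟩)
    refine ⟨w ^ d * v * u', ?_⟩
    have := dvd_sub h2 (h1.mul_left (w ^ d * v * u'))
    rwa [show b - w ^ (Nat.find h + d) * v - w ^ d * v * u' * (a - w ^ Nat.find h * u) =
      b - w ^ d * v * u' * a by linear_combination (w ^ d * v * w ^ Nat.find h) * hu'] at this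
  have ha0 : a ≠ 0 := fun e' => h0 (e.trans (Ideal.span_singleton_eq_bot.2 e'))
  exact ⟨a, ha, (Ideal.span_singleton_prime ha0).1 (e ▸ hI)⟩

end loc

/-- Every maximal ideal is locally generated by a regular sequence of length two. -/
def Good (R : Type) [CommRing R] : Prop :=
  ∀ m : Ideal R, m.IsMaximal → ∃ p ∈ m, ∃ w ∈ m, ∃ s ∉ m, (∀ a ∈ m, s * a ∈ Ideal.span {p, w}) ∧
    p ≠ 0 ∧ ∀ a, p ∣ w * a → p ∣ a

theorem flat_dvd {R T : Type} [CommRing R] [CommRing T] [Algebra R T] [Module.Flat R T] {p w : R}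
    (h : ∀ a, p ∣ w * a → p ∣ a) (a : T) (ha : algebraMap R T p ∣ algebraMap R T w * a) :
    algebraMap R T p ∣ a := by
  obtain ⟨t, ht⟩ := ha
  obtain ⟨k, c, y, h1, h2⟩ := Module.Flat.isTrivialRelation_of_sum_smul_eq_zero
    (f := ![w, -p]) (x := ![a, t]) (by simp [Algebra.smul_def, ht])
  rw [show a = ∑ j, c 0 j • y j from h1 0]
  refine Finset.dvd_sum fun j _ => ?_
  rw [Algebra.smul_def]
  refine (map_dvd _ (h _ ⟨c 1 j, ?_⟩)).mul_right _
  have := h2 j
  simp only [Fin.sum_univ_two, Matrix.cons_val_zero, Matrix.cons_val_one] at this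
  linear_combination this

theorem etale_ufd {R S : Type} [CommRing R] [IsDomain R] [IsNoetherianRing R] [IsJacobsonRing R]
    (hR : Good R) [CommRing S] [Algebra R S] [Algebra.Etale R S] (n : Ideal S) [n.IsMaximal] :
    ∃ _ : IsDomain (Localization.AtPrime n), UniqueFactorizationMonoid (Localization.AtPrime n) := by
  have : IsNoetherianRing S := Algebra.FiniteType.isNoetherianRing R S
  have hm : (n.under R).IsMaximal := by
    let := Ideal.Quotient.field n
    have : Module.Finite R (S ⧸ n) := finite_of_finite_type_of_isJacobsonRing R _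
    have := Ideal.isMaximal_comap_of_isIntegral_of_isMaximal (R := R) (⊥ : Ideal (S ⧸ n))
    rwa [IsScalarTower.algebraMap_eq R S (S ⧸ n), ← Ideal.comap_comap, ← RingHom.ker_eq_comap_bot,
      Ideal.Quotient.algebraMap_eq, Ideal.mk_ker] at this
  obtain ⟨p, hp, w, hw, s, hs, h1, h2, h3⟩ := hR _ hm
  let := Localization.AtPrime.algebraOfLiesOver (n.under R) n
  have e := ((Algebra.isUnramifiedAt_iff_map_eq R (n.under R) n).1 inferInstance).2
  have : Module.Flat R (Localization.AtPrime n) := .trans R S _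
  have hu : IsUnit (algebraMap R (Localization.AtPrime n) s) := by
    rw [IsScalarTower.algebraMap_apply R S]
    exact IsLocalization.map_units _ (⟨algebraMap R S s, hs⟩ : n.primeCompl)
  have e' : maximalIdeal (Localization.AtPrime n) = Ideal.span {algebraMap R _ p, algebraMap R _ w} := by
    rw [← e]
    refine le_antisymm (Ideal.map_le_iff_le_comap.2 fun a ha => ?_) (Ideal.span_le.2 ?_)
    · have := Ideal.mem_map_of_mem (algebraMap R (Localization.AtPrime n)) (h1 a ha)
      rw [Ideal.map_span, Set.image_pair, map_mul] at this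
      exact (Ideal.unit_mul_mem_iff_mem _ hu).1 this
    · rintro _ (rfl | rfl)
      exacts [Ideal.mem_map_of_mem _ hp, Ideal.mem_map_of_mem _ hw]
  have h4 : algebraMap R (Localization.AtPrime n) p ∈ nonZeroDivisors _ :=
    mem_nonZeroDivisors_iff_left.2 fun a ha => by
      simpa using flat_dvd (p := 0) (w := p) (fun a h => by simpa [h2] using h) a (by simpa using ha)
  have := reg2_domain e' h4 (flat_dvd h3)
  exact ⟨this, reg2_ufd e' (nonZeroDivisors.ne_zero h4) (flat_dvd h3)⟩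

end Pool.Agent.Lib.MP_16ef92_ag.ET
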