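import Mathlib

/-! Sheaves of functions on the points of a site. -/

namespace Pool.Agent.Lib.MP_16ef92_ag.ET

open CategoryTheory Limits Opposite Abelian

noncomputable section

universe w' v u

variable {C : Type u} [Category.{v} C] {J : GrothendieckTopology C}

variable (J) in
/-- Elements lift to coverings, and two lifts come from a common one. -/
structure IsPt (T : C ⥤ Type) : Prop where
  lift : ∀ {V : C} (R : Sieve V), R ∈ J V → ∀ x : T.obj V,
    ∃ (Y : C) (f : Y ⟶ V) (y : T.obj Y), R f ∧ T.map f y = x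
  pair : ∀ {V Y Y' : C} (f : Y ⟶ V) (f' : Y' ⟶ V) (y : T.obj Y) (y' : T.obj Y'),
    T.map f y = T.map f' y' → ∃ (W : C) (g : W ⟶ Y) (g' : W ⟶ Y') (z : T.obj W),
      g ≫ f = g' ≫ f' ∧ T.map g z = y ∧ T.map g' z = y'

theorem isPt_point (Φ : J.Point.{0}) : IsPt J Φ.fiber where
  lift R hR x := by
    obtain ⟨Y, f, h, y, e⟩ := Φ.jointly_surjective R hR x
    exact ⟨Y, f, y, h, e⟩
  pair {V Y Y'} f f' y y' h := by
    let a : Φ.fiber.Elements := ⟨Y, y⟩
    let a' : Φ.fiber.Elements := ⟨Y', y'⟩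
    let b : Φ.fiber.Elements := ⟨V, Φ.fiber.map f y⟩
    obtain ⟨W, g, g', e⟩ := IsCofiltered.cospan (CategoryOfElements.homMk a b f rfl)
      (CategoryOfElements.homMk a' b f' h.symm)
    exact ⟨W.1, g.1, g'.1, W.2, congrArg Subtype.val e, g.2, g'.2⟩

/-- The presheaf of functions on `T` with values in `B`. -/
def fnP (T : C ⥤ Type) (B : Type) [AddCommGroup B] : Cᵒᵖ ⥤ AddCommGrpCat.{0} where
  obj V := .of (T.obj V.unop → B)
  map f := AddCommGrpCat.ofHom
    { toFun := fun a x => a (T.map f.unop x), map_zero' := rfl, map_add' := fun _ _ => rfl }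
  map_id _ := by ext a x; simp
  map_comp _ _ := by ext a x; simp

theorem fnP_sheaf {T : C ⥤ Type} (h : IsPt J T) (B : Type) [AddCommGroup B] :
    Presheaf.IsSheaf J (fnP T B) := by
  intro E V R hR x hx
  choose Y f y h1 h2 using h.lift R hR
  let x' : ∀ {W : C} (g : W ⟶ V), R g → E →+ T.obj W → B := fun g hg =>
    AddCommGrpCat.Hom.hom (x g hg)
  have key : ∀ {W : C} (g : W ⟶ V) (hg : R g) (z : T.obj W) (a : E),
      x' (f (T.map g z)) (h1 _) a (y _) = x' g hg a z := fun g hg z a => by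
    obtain ⟨W', b, b', t, e1, e2, e3⟩ := h.pair _ _ _ _ (h2 (T.map g z))
    have : x' _ (h1 _) a (T.map b t) = x' g hg a (T.map b' t) :=
      congrArg (fun φ : E ⟶ (fnP T B).obj (op W') => φ a t) (hx b b' (h1 _) hg e1)
    rwa [e2, e3] at this
  refine ⟨AddCommGrpCat.ofHom (AddMonoidHom.pi fun t => (Pi.evalAddMonoidHom _ (y t)).comp
    (x' (f t) (h1 t))), fun W g hg => AddCommGrpCat.ext fun a => funext fun z =>
      key g hg z a, fun s hs => AddCommGrpCat.ext fun a => funext fun t => ?_⟩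
  exact (congrArg (AddCommGrpCat.Hom.hom s a) (h2 t).symm).trans
    (congrArg (fun φ : E ⟶ (fnP T B).obj (op (Y t)) => φ a (y t)) (hs (f t) (h1 t)))

/-- The sheaf of functions on `T` with values in `B`. -/
def fnS {T : C ⥤ Type} (h : IsPt J T) (B : Type) [AddCommGroup B] :
    Sheaf J AddCommGrpCat.{0} := ⟨fnP T B, fnP_sheaf h B⟩

/-- A morphism of sheaves from its components. -/
def mkH {F F' : Sheaf J AddCommGrpCat.{0}} (φ : ∀ V : C, F.obj.obj (op V) →+ F'.obj.obj (op V))
    (h : ∀ {V W : C} (f : W ⟶ V) (a : F.obj.obj (op V)),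
      φ W (F.obj.map f.op a) = F'.obj.map f.op (φ V a)) : F ⟶ F' :=
  ⟨{ app := fun V => AddCommGrpCat.ofHom (φ V.unop)
     naturality := fun _ _ f => AddCommGrpCat.ext fun a => h f.unop a }⟩

theorem hom_ext' {F F' : Sheaf J AddCommGrpCat.{0}} {φ ψ : F ⟶ F'}
    (h : ∀ (V : C) (a : F.obj.obj (op V)), φ.hom.app (op V) a = ψ.hom.app (op V) a) : φ = ψ :=
  Sheaf.hom_ext (NatTrans.ext (funext fun V => AddCommGrpCat.ext fun a => h V.unop a))

/-- A morphism between sheaves of functions. -/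
def fnH {T T' : C ⥤ Type} (h : IsPt J T) (h' : IsPt J T') {B B' : Type} [AddCommGroup B]
    [AddCommGroup B'] (φ : ∀ V, (T.obj V → B) →+ T'.obj V → B')
    (e : ∀ {V W : C} (f : W ⟶ V) (a : T.obj V → B) (x : T'.obj W),
      φ W (fun y => a (T.map f y)) x = φ V a (T'.map f x)) : fnS h B ⟶ fnS h' B' :=
  mkH φ fun f a => funext (e f a)

/-- Change of the values. -/
def fnM {T : C ⥤ Type} (h : IsPt J T) {B B' : Type} [AddCommGroup B] [AddCommGroup B']
    (φ : B →+ B') : fnS h B ⟶ fnS h B' :=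
  mkH (fun V => φ.compLeft (T.obj V)) fun _ _ => rfl

variable [LocallySmall.{0} C]

theorem fnS_injective (Φ : J.Point.{0}) (I : Type) [AddCommGroup I] [DivisibleBy I ℤ] :
    Injective (fnS (isPt_point Φ) I) where
  factors {A B} g f _ := by
    have := AddCommGrpCat.injective_of_divisible I
    have : Mono (Φ.presheafFiber.map f.hom) := inferInstanceAs (Mono (Φ.sheafFiber.map f))
    let φ : Φ.presheafFiber.obj A.obj ⟶ AddCommGrpCat.of I := Φ.presheafFiberDesc
      (fun X x => g.hom.app (op X) ≫ AddCommGrpCat.ofHom (Pi.evalAddMonoidHom (fun _ => I) x))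
      fun X Y a x => by rw [g.hom.naturality_assoc]; rfl
    let ψ := Injective.factorThru φ (Φ.presheafFiber.map f.hom)
    refine ⟨mkH (fun X => AddMonoidHom.pi fun x => (Φ.toPresheafFiber X x B.obj ≫ ψ).hom)
      fun a b => funext fun x => ?_, hom_ext' fun X a => funext fun x => ?_⟩
    · exact congrArg ψ (Φ.toPresheafFiber_w_apply a x B.obj b)
    · have h1 : Φ.toPresheafFiber X x A.obj ≫ Φ.presheafFiber.map f.hom ≫ ψ = _ :=
        (congrArg _ (Injective.comp_factorThru φ _)).trans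
          (Φ.toPresheafFiber_presheafFiberDesc _ _ X x)
      rw [Φ.toPresheafFiber_naturality_assoc] at h1
      exact congrArg (fun t => t a) h1

variable [HasSheafify J AddCommGrpCat.{0}] [HasExt.{w'} (Sheaf J AddCommGrpCat.{0})]

section

omit [LocallySmall.{0} C] [HasExt.{w'} (Sheaf J AddCommGrpCat.{0})]

theorem inj_of_mono {F F' : Sheaf J AddCommGrpCat.{0}} (φ : F ⟶ F') [Mono φ] (V : Cᵒᵖ) :
    Function.Injective (φ.hom.app V) := by
  have : Mono φ.hom := inferInstanceAs (Mono ((sheafToPresheaf J _).map φ))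
  exact (AddCommGrpCat.mono_iff_injective _).1 inferInstance

theorem mono_of_inj {F F' : Sheaf J AddCommGrpCat.{0}} (φ : F ⟶ F')
    (h : ∀ V, Function.Injective (φ.hom.app V)) : Mono φ := by
  have : ∀ V, Mono (φ.hom.app V) := fun V => (AddCommGrpCat.mono_iff_injective _).2 (h V)
  have : Mono ((sheafToPresheaf J _).map φ) := NatTrans.mono_of_mono_app φ.hom
  exact (sheafToPresheaf J _).mono_of_mono_map this

theorem exact_of_loc (S : ShortComplex (Sheaf J AddCommGrpCat.{0}))
    (h : ∀ (V : C) (a : S.X₂.obj.obj (op V)), S.g.hom.app _ a = 0 → ∃ R ∈ J V,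
      ∀ (W : C) (f : W ⟶ V), R f → ∃ b, S.f.hom.app (op W) b = S.X₂.obj.map f.op a) : S.Exact := by
  rw [ShortComplex.exact_iff_epi_kernel_lift]
  have : Sheaf.IsLocallySurjective (kernel.lift S.g S.f S.zero) := ⟨fun {V} s => by
    obtain ⟨R, hR, h1⟩ := h V ((kernel.ι S.g).hom.app _ s)
      (congrArg (fun φ => φ.hom.app (op V) s) (kernel.condition S.g))
    refine J.superset_covering (fun W f hf => ?_) hR
    obtain ⟨b, hb⟩ := h1 W f hf
    exact ⟨b, inj_of_mono (kernel.ι S.g) _
      (((congrArg (fun φ => φ.hom.app (op W) b) (kernel.lift_ι S.g S.f S.zero)).trans hb).trans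
        ((kernel.ι S.g).hom.naturality_apply f.op s).symm)⟩⟩
  infer_instance

theorem shortExact_of_app (S : ShortComplex (Sheaf J AddCommGrpCat.{0}))
    (h1 : ∀ V, Function.Injective (S.f.hom.app V))
    (h2 : ∀ V a, S.g.hom.app V a = 0 → ∃ b, S.f.hom.app V b = a)
    (h3 : ∀ V, Function.Surjective (S.g.hom.app V)) : S.ShortExact := by
  have : Sheaf.IsLocallySurjective S.g := Presheaf.isLocallySurjective_of_surjective _ _ h3
  exact { exact := exact_of_loc S fun V a ha => ⟨⊤, J.top_mem V, fun W f _ => h2 _ _ (by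
            rw [NatTrans.naturality_apply, ha, map_zero])⟩
          mono_f := mono_of_inj _ h1
          epi_g := inferInstance }

end

section

omit [LocallySmall.{0} C] [HasExt.{w'} (Sheaf J AddCommGrpCat.{0})]

variable (J) in
/-- The constant sheaf of the integers. -/
abbrev zc : Sheaf J AddCommGrpCat.{0} :=
  (constantSheaf J AddCommGrpCat.{0}).obj (AddCommGrpCat.of (ULift ℤ))

variable {X : C} (hX : IsTerminal X) {F F' : Sheaf J AddCommGrpCat.{0}}

/-- The global section given by a morphism from the constant sheaf. -/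
def sec (F : Sheaf J AddCommGrpCat.{0}) : (zc J ⟶ F) ≃+ F.obj.obj (op X) :=
  ((constantSheafAdj J AddCommGrpCat hX).homAddEquiv _ F).trans
    (AddCommGrpCat.uliftZMultiplesAddEquiv _)

theorem sec_comp (z : zc J ⟶ F) (f : F ⟶ F') :
    sec hX F' (z ≫ f) = f.hom.app _ (sec hX F z) := rfl

include hX in
theorem zc_lift (f : F ⟶ F') (h : ∀ V, Function.Surjective (f.hom.app V)) (y : zc J ⟶ F') :
    ∃ x, x ≫ f = y := by
  obtain ⟨a, ha⟩ := h _ (sec hX F' y)
  exact ⟨(sec hX F).symm a, (sec hX F').injective (by rw [sec_comp, AddEquiv.apply_symm_apply, ha])⟩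

theorem loc_of_coker [J.WEqualsLocallyBijective AddCommGrpCat.{0}] (d : F ⟶ F') (z : zc J ⟶ F')
    (h : z ≫ cokernel.π d = 0) : ∃ R ∈ J X, ∀ (W : C) (f : W ⟶ X), R f →
      ∃ c, d.hom.app (op W) c = F'.obj.map f.op (sec hX F' z) := by
  have := (Sheaf.isLocallySurjective_iff_epi' _ (Abelian.factorThruImage d)).2 inferInstance
  refine ⟨_, Presheaf.imageSieve_mem J (Abelian.factorThruImage d).hom
    (sec hX _ (kernel.lift _ z h)), fun W f ⟨c, hc⟩ => ⟨c, ?_⟩⟩
  refine (congrArg (fun φ => φ.hom.app (op W) c) (Abelian.image.fac d)).symm.trans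
    ((congrArg ((Abelian.image.ι d).hom.app (op W)) hc).trans
      ((NatTrans.naturality_apply _ _ _).trans (congrArg _ ?_)))
  exact (sec_comp hX _ _).symm.trans (congrArg _ (kernel.lift_ι _ z h))

end

theorem fnS_acyclic (Φ : J.Point.{0}) {X : C} (hX : IsTerminal X)
    (B : Type) [AddCommGroup B] {n : ℕ} (x : Ext (zc J) (fnS (isPt_point Φ) B) (n + 1)) :
    x = 0 := by
  let I := (B →+ AddCircle (1 : ℚ)) → AddCircle (1 : ℚ)
  let i : B →+ I := AddMonoidHom.pi fun χ => χ
  have hi : Function.Injective i := (injective_iff_map_eq_zero i).2 fun b hb =>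
    CharacterModule.eq_zero_of_character_apply fun χ => congrFun hb χ
  let : DivisibleBy (I ⧸ i.range) ℤ := (QuotientAddGroup.mk'_surjective i.range).divisibleBy _
    fun a n => map_zsmul _ n a
  have := fnS_injective Φ I
  have := fnS_injective Φ (I ⧸ i.range)
  let S : ShortComplex (Sheaf J AddCommGrpCat.{0}) := .mk (fnM (isPt_point Φ) i)
    (fnM _ (QuotientAddGroup.mk' i.range)) (hom_ext' fun V a => funext fun t =>
      (QuotientAddGroup.eq_zero_iff _).2 ⟨_, rfl⟩)
  have h3 : ∀ V, Function.Surjective (S.g.hom.app V) := fun V =>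
    (QuotientAddGroup.mk'_surjective i.range).comp_left
  have hS : S.ShortExact := shortExact_of_app S (fun V => hi.comp_left) (fun V a ha => by
    choose b hb using fun t => (QuotientAddGroup.eq_zero_iff _).1 (congrFun ha t)
    exact ⟨b, funext hb⟩) h3
  obtain ⟨y, rfl⟩ := Ext.covariant_sequence_exact₁ _ hS x (Ext.eq_zero_of_injective _) rfl
  cases n with
  | zero =>
    obtain ⟨y, rfl⟩ := (Ext.mk₀_bijective _ _).2 y
    obtain ⟨t, rfl⟩ := zc_lift hX S.g h3 y
    rw [← Ext.mk₀_comp_mk₀, Ext.comp_assoc_of_second_deg_zero, hS.comp_extClass, Ext.comp_zero]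
  | succ n => rw [Ext.eq_zero_of_injective y, Ext.zero_comp]

end

end Pool.Agent.Lib.MP_16ef92_ag.ET
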