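import Mathlib

set_option autoImplicit false
set_option linter.unusedSectionVars false
set_option linter.unusedVariables false

namespace Pool.Agent.Lib.MP_16ef92_ag.ET

open CategoryTheory Limits Abelian
open scoped Classical

noncomputable section

universe w w' v v' u u'

/-- An augmented complex in low degrees. -/
structure Cx (C : Type u) [Category.{v} C] [Abelian C] where
  F : C
  A0 : C
  A1 : C
  A2 : C
  e : F ⟶ A0
  d0 : A0 ⟶ A1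
  d1 : A1 ⟶ A2
  e_d0 : e ≫ d0 = 0
  d0_d1 : d0 ≫ d1 = 0

variable {C : Type u} [Category.{v} C] [Abelian C] [HasExt.{w} C]

/-- `z` represents the image of `α` in the second cohomology of the complex `Hom (Z, A)`. -/
def Cx.Rep (A : Cx C) {Z : C} (α : Ext Z A.F 2) (z : Z ⟶ A.A2) : Prop :=
  ∃ (S T : ShortComplex C) (hS : S.ShortExact) (hT : T.ShortExact) (f : S.X₁ ⟶ A.F)
    (γ : Ext Z S.X₃ 1) (k : S.X₃ ⟶ T.X₁) (x : Z ⟶ T.X₃) (f0 : S.X₂ ⟶ A.A0) (f1 : T.X₂ ⟶ A.A1)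
    (f2 : T.X₃ ⟶ A.A2),
    α = (γ.comp hS.extClass (one_add_one_eq_two)).comp (Ext.mk₀ f) (add_zero 2) ∧
    γ.comp (Ext.mk₀ k) (add_zero 1) = (Ext.mk₀ x).comp hT.extClass (zero_add 1) ∧
    S.f ≫ f0 = f ≫ A.e ∧ S.g ≫ k ≫ T.f ≫ f1 = f0 ≫ A.d0 ∧ T.g ≫ f2 = f1 ≫ A.d1 ∧ z = x ≫ f2

variable {A B : Cx C} {Z : C} {α α' : Ext Z A.F 2} {z z' : Z ⟶ A.A2}

/-- Functoriality in the complex: keep the witness and compose. -/
theorem Cx.Rep.map (h : A.Rep α z) (f : A.F ⟶ B.F) (g0 : A.A0 ⟶ B.A0) (g1 : A.A1 ⟶ B.A1)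
    (g2 : A.A2 ⟶ B.A2) (h0 : A.e ≫ g0 = f ≫ B.e) (h1 : A.d0 ≫ g1 = g0 ≫ B.d0)
    (h2 : A.d1 ≫ g2 = g1 ≫ B.d1) : B.Rep (α.comp (Ext.mk₀ f) (add_zero 2)) (z ≫ g2) := by
  obtain ⟨S, T, hS, hT, f', γ, k, x, f0, f1, f2, rfl, e2, e3, e4, e5, rfl⟩ := h
  refine ⟨S, T, hS, hT, f' ≫ f, γ, k, x, f0 ≫ g0, f1 ≫ g1, f2 ≫ g2, ?_, e2, ?_, ?_, ?_,
    Category.assoc _ _ _⟩
  · rw [Ext.comp_assoc_of_third_deg_zero _ (Ext.mk₀ f'), Ext.mk₀_comp_mk₀]
  · rw [reassoc_of% e3, h0, Category.assoc]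
  · rw [reassoc_of% e4, h1, Category.assoc]
  · rw [reassoc_of% e5, h2, Category.assoc]

theorem Cx.Rep.pre (h : A.Rep α z) {Z' : C} (a : Z' ⟶ Z) :
    A.Rep ((Ext.mk₀ a).comp α (zero_add 2)) (a ≫ z) := by
  obtain ⟨S, T, hS, hT, f, γ, k, x, f0, f1, f2, rfl, e2, e3, e4, e5, rfl⟩ := h
  refine ⟨S, T, hS, hT, f, (Ext.mk₀ a).comp γ (zero_add 1), k, a ≫ x, f0, f1, f2, ?_, ?_, e3, e4,
    e5, (Category.assoc _ _ _).symm⟩
  · rw [Ext.comp_assoc (Ext.mk₀ a) γ _ (zero_add 1) one_add_one_eq_two rfl,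
      Ext.comp_assoc_of_third_deg_zero (Ext.mk₀ a)]
  · rw [Ext.comp_assoc_of_third_deg_zero, e2, Ext.mk₀_comp_mk₀_assoc]

/-- `T.g` is an epimorphism. -/
theorem Cx.Rep.coc (h : A.Rep α z) {A3 : C} (d2 : A.A2 ⟶ A3) (hd : A.d1 ≫ d2 = 0) :
    z ≫ d2 = 0 := by
  obtain ⟨S, T, hS, hT, f, γ, k, x, f0, f1, f2, -, -, -, -, e5, rfl⟩ := h
  have := hT.epi_g
  have h1 : f2 ≫ d2 = 0 := by
    rw [← cancel_epi T.g, reassoc_of% e5, hd, comp_zero, comp_zero]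
  rw [Category.assoc, h1, comp_zero]

/-- The image of a complex under an exact functor. -/
def Cx.map {D : Type u'} [Category.{v'} D] [Abelian D] (A : Cx C) (P : C ⥤ D) [P.Additive] :
    Cx D :=
  ⟨P.obj A.F, P.obj A.A0, P.obj A.A1, P.obj A.A2, P.map A.e, P.map A.d0, P.map A.d1,
    by rw [← P.map_comp, A.e_d0, P.map_zero], by rw [← P.map_comp, A.d0_d1, P.map_zero]⟩

/-- `mapExactFunctor_extClass`, `mapExactFunctor_comp`, `mapExactFunctor_mk₀`. -/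
theorem Cx.Rep.functor {D : Type u'} [Category.{v'} D] [Abelian D] [HasExt.{w'} D] (P : C ⥤ D)
    [P.Additive] [PreservesFiniteLimits P] [PreservesFiniteColimits P] (h : A.Rep α z) :
    (A.map P).Rep (α.mapExactFunctor P) (P.map z) := by
  obtain ⟨S, T, hS, hT, f, γ, k, x, f0, f1, f2, rfl, e2, e3, e4, e5, rfl⟩ := h
  refine ⟨S.map P, T.map P, hS.map_of_exact P, hT.map_of_exact P, P.map f, γ.mapExactFunctor P,
    P.map k, P.map x, P.map f0, P.map f1, P.map f2, ?_, ?_, ?_, ?_, ?_, P.map_comp _ _⟩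
  · rw [Ext.mapExactFunctor_comp, Ext.mapExactFunctor_comp, Ext.mapExactFunctor_mk₀,
      Ext.mapExactFunctor_extClass]
    rfl
  · have h := congrArg (Ext.mapExactFunctor P) e2
    rwa [Ext.mapExactFunctor_comp, Ext.mapExactFunctor_comp, Ext.mapExactFunctor_mk₀,
      Ext.mapExactFunctor_mk₀, Ext.mapExactFunctor_extClass] at h
  · exact (P.map_comp _ _).symm.trans ((congrArg P.map e3).trans (P.map_comp _ _))
  · have h := congrArg P.map e4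
    rwa [P.map_comp, P.map_comp, P.map_comp, P.map_comp] at h
  · exact (P.map_comp _ _).symm.trans ((congrArg P.map e5).trans (P.map_comp _ _))

/-! For the next four statements: if `A.e` is mono, every witness maps to the canonical one,
`S = (F, A0, coker e)`, `T = (ker d1, A1, coker (ker.ι d1))`, `f = 𝟙` (`extClass_naturality`).
In general replace `A0` by `A0 ⊞ I` with `F ⟶ I` mono, `I` injective, `d0` by `fst ≫ d0`: the
relation `Rep` is the same for the two complexes. -/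

theorem hom_ex {X Y : C} (i : X ⟶ Y) [Mono i] :
    (ShortComplex.mk i (cokernel.π i) (cokernel.condition i)).ShortExact :=
  { exact := ShortComplex.exact_cokernel i }

theorem hom_nat {S : ShortComplex C} (hS : S.ShortExact) {X Y : C} (i : X ⟶ Y) [Mono i]
    (f : S.X₁ ⟶ X) (g : S.X₂ ⟶ Y) (h : S.f ≫ g = f ≫ i) :
    ∃ τ : S.X₃ ⟶ cokernel i, S.g ≫ τ = g ≫ cokernel.π i ∧ hS.extClass.comp (Ext.mk₀ f)
      (add_zero 1) = (Ext.mk₀ τ).comp (hom_ex i).extClass (zero_add 1) := by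
  have := hS.epi_g
  obtain ⟨τ, hτ⟩ := hS.exact.desc' (g ≫ cokernel.π i)
    (by rw [reassoc_of% h, cokernel.condition, comp_zero])
  exact ⟨τ, hτ, hS.extClass_naturality (hom_ex i) ⟨f, g, τ, h.symm, hτ.symm⟩⟩

/-- The map `coker i ⟶ ker d1`. -/
def Cx.homK (A : Cx C) {X : C} {i : A.F ⟶ X} {p : X ⟶ A.A0} (hp : i ≫ p = A.e) :
    cokernel i ⟶ kernel A.d1 :=
  kernel.lift _ (cokernel.desc i (p ≫ A.d0) (by rw [reassoc_of% hp, A.e_d0])) (by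
    rw [← cancel_epi (cokernel.π i), cokernel.π_desc_assoc, Category.assoc, A.d0_d1, comp_zero,
      comp_zero])

theorem Cx.homK_eq (A : Cx C) {X : C} {i : A.F ⟶ X} {p : X ⟶ A.A0} (hp : i ≫ p = A.e) :
    cokernel.π i ≫ A.homK hp ≫ kernel.ι A.d1 = p ≫ A.d0 := by
  rw [Cx.homK, kernel.lift_ι, cokernel.π_desc]

/-- The canonical witnesses. -/
def Cx.Can (A : Cx C) {X : C} {i : A.F ⟶ X} [Mono i] {p : X ⟶ A.A0} (hp : i ≫ p = A.e) {Z : C}
    (α : Ext Z A.F 2) (z : Z ⟶ A.A2) : Prop :=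
  ∃ (γ : Ext Z (cokernel i) 1) (x : Z ⟶ cokernel (kernel.ι A.d1)),
    α = γ.comp (hom_ex i).extClass one_add_one_eq_two ∧
    γ.comp (Ext.mk₀ (A.homK hp)) (add_zero 1) =
      (Ext.mk₀ x).comp (hom_ex (kernel.ι A.d1)).extClass (zero_add 1) ∧
    z = x ≫ Abelian.factorThruCoimage A.d1

theorem Cx.Can.rep {X : C} {i : A.F ⟶ X} [Mono i] {p : X ⟶ A.A0} {hp : i ≫ p = A.e}
    (h : A.Can hp α z) : A.Rep α z := by
  obtain ⟨γ, x, h1, h2, h3⟩ := h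
  exact ⟨_, _, hom_ex i, hom_ex (kernel.ι A.d1), 𝟙 _, γ, A.homK hp, x, p, 𝟙 _, _,
    h1.trans (Ext.comp_mk₀_id _).symm, h2, hp.trans (Category.id_comp _).symm,
    by rw [Category.comp_id]; exact A.homK_eq hp,
    (cokernel.π_desc _ _ _).trans (Category.id_comp _).symm, h3⟩

theorem Cx.Rep.can (h : A.Rep α z) {X : C} {i : A.F ⟶ X} [Mono i] {p : X ⟶ A.A0}
    (hp : i ≫ p = A.e) (hi : ∀ {U V : C} (u : U ⟶ V) [Mono u] (f : U ⟶ A.F) (f0 : V ⟶ A.A0),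
      u ≫ f0 = f ≫ A.e → ∃ g : V ⟶ X, u ≫ g = f ≫ i ∧ g ≫ p = f0) : A.Can hp α z := by
  obtain ⟨S, T, hS, hT, f, γ, k, x, f0, f1, f2, rfl, e2, e3, e4, e5, rfl⟩ := h
  have := hS.mono_f
  have := hS.epi_g
  have := hT.epi_g
  obtain ⟨g, hg, rfl⟩ := hi S.f f f0 e3
  obtain ⟨τ, t1, t2⟩ := hom_nat hS i f g hg
  obtain ⟨σ, hσ⟩ := kernel.lift' A.d1 (T.f ≫ f1) (by rw [Category.assoc, ← e5, T.zero_assoc, zero_comp])
  obtain ⟨ρ, r1, r2⟩ := hom_nat hT (kernel.ι A.d1) σ f1 hσ.symm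
  have h1 : τ ≫ A.homK hp = k ≫ σ := by
    rw [← cancel_epi S.g, ← cancel_mono (kernel.ι A.d1)]
    simp only [Category.assoc]
    rw [reassoc_of% t1, A.homK_eq, hσ, e4, Category.assoc]
  refine ⟨γ.comp (Ext.mk₀ τ) (add_zero 1), x ≫ ρ, ?_, ?_, ?_⟩
  · rw [Ext.comp_assoc_of_third_deg_zero, t2, Ext.comp_assoc_of_second_deg_zero]
  · rw [Ext.comp_assoc_of_third_deg_zero, Ext.mk₀_comp_mk₀, h1, ← Ext.mk₀_comp_mk₀,
      ← Ext.comp_assoc_of_third_deg_zero, e2, Ext.comp_assoc_of_third_deg_zero, r2,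
      Ext.mk₀_comp_mk₀_assoc]
  · rw [Category.assoc]
    congr 1
    rw [← cancel_epi T.g, reassoc_of% r1, e5]
    exact congrArg _ (cokernel.π_desc _ _ _).symm

instance hom_mono [EnoughInjectives C] (A : Cx C) : Mono (biprod.lift A.e (Injective.ι A.F)) :=
  mono_of_mono_fac (biprod.lift_snd _ _)

theorem Cx.Rep.can' [EnoughInjectives C] (h : A.Rep α z) :
    A.Can (biprod.lift_fst A.e (Injective.ι A.F)) α z :=
  h.can _ fun u _ f f0 e => ⟨biprod.lift f0 (Injective.factorThru (f ≫ Injective.ι A.F) u),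
    by ext <;> simp [e], biprod.lift_fst _ _⟩

theorem hom_zero {X I : C} [Injective I] {n : ℕ} (h : ∀ x : Ext Z X (n + 1), x = 0)
    (x : Ext Z (X ⊞ I) (n + 1)) : x = 0 := by
  rw [← Ext.comp_mk₀_id x, ← biprod.total, Ext.mk₀_add, Ext.comp_add, ← Ext.mk₀_comp_mk₀,
    ← Ext.mk₀_comp_mk₀, ← Ext.comp_assoc_of_third_deg_zero, ← Ext.comp_assoc_of_third_deg_zero,
    h (x.comp _ _), Ext.eq_zero_of_injective (x.comp (Ext.mk₀ biprod.snd) _), Ext.zero_comp,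
    Ext.zero_comp, add_zero]

theorem hom_sub {X Y W : C} {a b c : ℕ} (x y : Ext X Y a) (β : Ext Y W b) (h : a + b = c) :
    (x - y).comp β h = x.comp β h - y.comp β h := by
  rw [sub_eq_add_neg, Ext.add_comp, Ext.neg_comp, sub_eq_add_neg]

theorem hom_mk_sub {X Y : C} (f g : X ⟶ Y) : Ext.mk₀ (f - g) = Ext.mk₀ f - Ext.mk₀ g := by
  rw [sub_eq_add_neg, Ext.mk₀_add, Ext.mk₀_neg, sub_eq_add_neg]

theorem Cx.Rep.total [EnoughInjectives C] (h0 : ∀ x : Ext Z A.A0 2, x = 0)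
    (h1 : ∀ x : Ext Z A.A1 1, x = 0) (α : Ext Z A.F 2) : ∃ z, A.Rep α z := by
  obtain ⟨γ, hγ⟩ := Ext.covariant_sequence_exact₁ Z (hom_ex (biprod.lift A.e (Injective.ι A.F))) α
    (hom_zero h0 _) one_add_one_eq_two
  obtain ⟨x, hx⟩ := Ext.covariant_sequence_exact₁ Z (hom_ex (kernel.ι A.d1))
    (γ.comp (Ext.mk₀ (A.homK (biprod.lift_fst _ _))) (add_zero 1)) (h1 _) (zero_add 1)
  obtain ⟨x, rfl⟩ := (Ext.mk₀_bijective _ _).2 x
  exact ⟨_, Cx.Can.rep ⟨γ, x, hγ.symm, hx.symm, rfl⟩⟩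

theorem Cx.Rep.unique [EnoughInjectives C] (h0 : ∀ x : Ext Z A.A0 1, x = 0) (h : A.Rep α z)
    (h' : A.Rep α z') : ∃ y : Z ⟶ A.A1, z' = z + y ≫ A.d1 := by
  obtain ⟨γ, x, h1, h2, rfl⟩ := h.can'
  obtain ⟨γ', x', h1', h2', rfl⟩ := h'.can'
  obtain ⟨u, hu⟩ := Ext.covariant_sequence_exact₃ Z (hom_ex (biprod.lift A.e (Injective.ι A.F)))
    (γ' - γ) one_add_one_eq_two ((hom_sub _ _ _ _).trans (sub_eq_zero.2 (h1'.symm.trans h1)))
  rw [hom_zero h0 u, Ext.zero_comp, eq_comm, sub_eq_zero] at hu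
  subst hu
  obtain ⟨y, hy⟩ := Ext.covariant_sequence_exact₃ Z (hom_ex (kernel.ι A.d1))
    (Ext.mk₀ x' - Ext.mk₀ x) (zero_add 1)
    ((hom_sub _ _ _ _).trans (sub_eq_zero.2 (h2'.symm.trans h2)))
  obtain ⟨y, rfl⟩ := (Ext.mk₀_bijective _ _).2 y
  have h3 : y ≫ cokernel.π (kernel.ι A.d1) = x' - x :=
    (Ext.mk₀_bijective _ _).1 ((Ext.mk₀_comp_mk₀ _ _).symm.trans (hy.trans (hom_mk_sub _ _).symm))
  refine ⟨y, ?_⟩
  rw [eq_add_of_sub_eq' h3.symm, Preadditive.add_comp, Category.assoc, cokernel.π_desc]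

theorem Cx.Rep.sub [EnoughInjectives C] (h : A.Rep α z) (h' : A.Rep α' z') :
    A.Rep (α - α') (z - z') := by
  obtain ⟨γ, x, rfl, h2, rfl⟩ := h.can'
  obtain ⟨γ', x', rfl, h2', rfl⟩ := h'.can'
  refine Cx.Can.rep (hp := biprod.lift_fst A.e (Injective.ι A.F))
    ⟨γ - γ', x - x', (hom_sub _ _ _ _).symm, ?_, (Preadditive.sub_comp _ _ _).symm⟩
  rw [hom_sub, hom_mk_sub, hom_sub, h2, h2']

/-- Here `coker e ⟶ ker d1` is an isomorphism. -/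
theorem Cx.Rep.inj [Mono A.e] (h0 : (ShortComplex.mk A.e A.d0 A.e_d0).Exact)
    (h1 : (ShortComplex.mk A.d0 A.d1 A.d0_d1).Exact) {y : Z ⟶ A.A1} (h : A.Rep α (y ≫ A.d1)) :
    α = 0 := by
  obtain ⟨γ, x, rfl, h2, h3⟩ := h.can (Category.comp_id A.e) fun u _ f f0 e =>
    ⟨f0, e, Category.comp_id _⟩
  have h4 : x = y ≫ cokernel.π (kernel.ι A.d1) := by
    rw [← cancel_mono (Abelian.factorThruCoimage A.d1), ← h3, Category.assoc, cokernel.π_desc]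
  have h5 := (A.homK_eq (Category.comp_id A.e)).trans (Category.id_comp _)
  have h6 : A.homK (Category.comp_id A.e) ≫ kernel.ι A.d1 = cokernel.desc A.e A.d0 A.e_d0 := by
    rw [← cancel_epi (cokernel.π A.e), h5, cokernel.π_desc]
  have h7 : cokernel.π A.e ≫ A.homK (Category.comp_id A.e) = kernel.lift A.d1 A.d0 A.d0_d1 := by
    rw [← cancel_mono (kernel.ι A.d1), Category.assoc, h5, kernel.lift_ι]
  have := (ShortComplex.exact_iff_mono_cokernel_desc _).1 h0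
  have := (ShortComplex.exact_iff_epi_kernel_lift _).1 h1
  have := mono_of_mono_fac h6
  have := epi_of_epi_fac h7
  have := isIso_of_mono_of_epi (A.homK (Category.comp_id A.e))
  rw [h4, ← Ext.mk₀_comp_mk₀_assoc, (hom_ex (kernel.ι A.d1)).comp_extClass, Ext.comp_zero] at h2
  rw [← Ext.comp_mk₀_id γ, ← IsIso.hom_inv_id (A.homK (Category.comp_id A.e)),
    ← Ext.mk₀_comp_mk₀, ← Ext.comp_assoc_of_third_deg_zero, h2, Ext.zero_comp, Ext.zero_comp]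

/-- Here `coker e ⟶ A1` is a monomorphism. -/
theorem Cx.ext_one (A : Cx C) [Mono A.e] (h0 : (ShortComplex.mk A.e A.d0 A.e_d0).Exact)
    (h1 : ∀ x : Ext Z A.A0 1, x = 0)
    (h2 : ∀ y : Z ⟶ A.A1, y ≫ A.d1 = 0 → ∃ x : Z ⟶ A.A0, y = x ≫ A.d0) (β : Ext Z A.F 1) :
    β = 0 := by
  obtain ⟨c, rfl⟩ := Ext.covariant_sequence_exact₁ Z (hom_ex A.e) β (h1 _) (zero_add 1)
  obtain ⟨c, rfl⟩ := (Ext.mk₀_bijective _ _).2 c
  have := (ShortComplex.exact_iff_mono_cokernel_desc _).1 h0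
  have h3 : cokernel.desc A.e A.d0 A.e_d0 ≫ A.d1 = 0 := by
    rw [← cancel_epi (cokernel.π A.e), cokernel.π_desc_assoc, A.d0_d1, comp_zero]
  obtain ⟨x, hx⟩ := h2 (c ≫ cokernel.desc A.e A.d0 A.e_d0) (by rw [Category.assoc, h3, comp_zero])
  have h4 : c = x ≫ cokernel.π A.e := by
    rw [← cancel_mono (cokernel.desc A.e A.d0 A.e_d0), hx, Category.assoc, cokernel.π_desc]
  rw [h4, ← Ext.mk₀_comp_mk₀_assoc, (hom_ex A.e).comp_extClass, Ext.comp_zero]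

end

end Pool.Agent.Lib.MP_16ef92_ag.ET
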