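import Mathlib
import Pool.Agent.Lib.MP_16ef92_ag.ET.Surf

set_option autoImplicit false

namespace Pool.Agent.Lib.MP_16ef92_ag.ET

open Polynomial AlgebraicGeometry

noncomputable section

/-- A presentation becomes submersive after inverting its Jacobian. -/
theorem smo_away {F S ι σ : Type} [CommRing F] [CommRing S] [Algebra F S] [Finite ι] [Finite σ]
    (P : Algebra.PreSubmersivePresentation F S ι σ) {n : ℕ} (hn : P.dimension = n) :
    RingHom.IsStandardSmoothOfRelativeDimension n
      ((algebraMap S (Localization.Away P.jacobian)).comp (algebraMap F S)) := by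
  rw [← IsScalarTower.algebraMap_eq, RingHom.isStandardSmoothOfRelativeDimension_algebraMap]
  let Q := Algebra.PreSubmersivePresentation.localizationAway (Localization.Away P.jacobian)
    P.jacobian
  refine Algebra.SubmersivePresentation.isStandardSmoothOfRelativeDimension ⟨Q.comp P, ?_⟩ ?_
  · rw [Algebra.PreSubmersivePresentation.comp_jacobian_eq_jacobian_smul_jacobian,
      Algebra.PreSubmersivePresentation.localizationAway_jacobian, Algebra.smul_def]
    exact (IsLocalization.Away.algebraMap_isUnit _).mul (IsLocalization.Away.algebraMap_isUnit _)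
  · change (Q.comp P).dimension = _
    rw [Algebra.PreSubmersivePresentation.dimension_comp_eq_dimension_add_dimension, ← hn]
    simp [Algebra.Presentation.dimension]

variable {F : Type} [Field F]

theorem smo_der (i : Fin 4) (hi : i ≠ 0) (p : F[X]) :
    MvPolynomial.pderiv i (aeval (MvPolynomial.X 0 : MvPolynomial (Fin 4) F) p) = 0 := by
  rw [Derivation.map_aeval, MvPolynomial.pderiv_X_of_ne hi.symm, smul_zero]

theorem smo_gen (h2 : (2 : F) ≠ 0) (A B D : F[X]) (v : Fin 2 → MvPolynomial (Fin 4) F)
    (h0 : v 0 = MvPolynomial.X 2 ^ 2 - MvPolynomial.X 1 *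
        (MvPolynomial.X 1 - aeval (MvPolynomial.X 0) (D * A)) *
        (MvPolynomial.X 1 - aeval (MvPolynomial.X 0) (D * B)))
    (h1 : v 1 = MvPolynomial.X 3 * aeval (MvPolynomial.X 0) (A * B * (A - B) * D) - 1) :
    RingHom.Locally (RingHom.IsStandardSmoothOfRelativeDimension 2)
      (algebraMap F (MvPolynomial (Fin 4) F ⧸ Ideal.span (Set.range v))) := by
  let P := fun (i : Fin 4) (hi : Function.Injective ![i, 3]) =>
    Algebra.PreSubmersivePresentation.naive (v := v) ![i, 3] hi
  have hd : ∀ i hi, (P i hi).dimension = 2 := fun i hi => by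
    simp [Algebra.Presentation.dimension]
  have hj : ∀ i hi, i ≠ 0 → (P i hi).jacobian = Ideal.Quotient.mk _ ((v 0).pderiv i *
      aeval (MvPolynomial.X 0) (A * B * (A - B) * D)) := fun i hi i0 => by
    have i3 : (3 : Fin 4) ≠ i := fun e => absurd (hi (a₁ := 0) (a₂ := 1) e.symm) (by decide)
    rw [Algebra.PreSubmersivePresentation.jacobian_eq_jacobiMatrix_det, Matrix.det_fin_two]
    simp only [P, Algebra.PreSubmersivePresentation.jacobiMatrix_naive]
    rw [h1]
    simp only [Matrix.cons_val_zero, Matrix.cons_val_one, map_sub, Derivation.leibniz,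
      Derivation.map_one_eq_zero, smo_der i i0, smo_der 3 (by decide), MvPolynomial.pderiv_X_self,
      MvPolynomial.pderiv_X_of_ne i3, smul_zero, add_zero, zero_add, sub_zero, zero_mul,
      smul_eq_mul, mul_one, mul_zero]
    rfl
  have i1 : Function.Injective ![(1 : Fin 4), 3] := by decide
  have i2 : Function.Injective ![(2 : Fin 4), 3] := by decide
  refine ⟨{(P 1 i1).jacobian, (P 2 i2).jacobian}, ?_, ?_⟩
  · by_contra h
    obtain ⟨m, hm, hle⟩ := Ideal.exists_le_maximal _ h
    let φ : MvPolynomial (Fin 4) F →ₐ[F] _ := (Ideal.Quotient.mkₐ F m).comp (Ideal.Quotient.mkₐ F _)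
    have k : ∀ p, Ideal.Quotient.mk (Ideal.span (Set.range v)) p ∈ m → φ p = 0 := fun p hp =>
      Ideal.Quotient.eq_zero_iff_mem.2 hp
    have r : ∀ j, φ (v j) = 0 := fun j => k _ (by
      rw [Ideal.Quotient.eq_zero_iff_mem.2 (Ideal.subset_span (Set.mem_range_self j))]
      exact zero_mem _)
    have e0 := r 0
    have e1 := r 1
    have e2 := k _ (hj 1 i1 (by decide) ▸ hle (Ideal.subset_span (Or.inl rfl)))
    have e3 := k _ (hj 2 i2 (by decide) ▸ hle (Ideal.subset_span (Or.inr rfl)))
    have t2 : (2 : (MvPolynomial (Fin 4) F ⧸ Ideal.span (Set.range v)) ⧸ m) ≠ 0 := fun e =>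
      h2 ((algebraMap F _).injective ((map_ofNat _ 2).trans (e.trans (map_zero _).symm)))
    rw [h0] at e0 e2 e3
    rw [h1] at e1
    simp only [Derivation.map_sub, Derivation.leibniz, Derivation.leibniz_pow,
      smo_der 1 (by decide), smo_der 2 (by decide), MvPolynomial.pderiv_X_self,
      MvPolynomial.pderiv_X_of_ne (show (1 : Fin 4) ≠ 2 by decide),
      MvPolynomial.pderiv_X_of_ne (show (2 : Fin 4) ≠ 1 by decide)] at e2 e3
    simp only [map_sub, map_mul, map_add, map_pow, map_one, map_zero, smul_eq_mul, map_nsmul,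
      nsmul_eq_mul, map_natCast, Nat.cast_ofNat, map_ofNat] at e0 e1 e2 e3
    generalize φ (MvPolynomial.X 1) = x at *
    generalize φ (MvPolynomial.X 2) = y at *
    generalize φ (MvPolynomial.X 3) = z at *
    generalize φ (aeval (MvPolynomial.X 0) A) = a at *
    generalize φ (aeval (MvPolynomial.X 0) B) = b at *
    generalize φ (aeval (MvPolynomial.X 0) D) = d at *
    have n0 : a * b * (a - b) * d ≠ 0 := fun e => by
      rw [e, mul_zero, zero_sub, neg_eq_zero] at e1
      exact one_ne_zero e1
    have hy : y = 0 := by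
      refine mul_left_cancel₀ (mul_ne_zero t2 n0) ?_
      linear_combination e3
    have hc : x * (x - d * b) + (x * (x - d * a) + (x - d * a) * (x - d * b)) = 0 := by
      refine mul_left_cancel₀ n0 ?_
      linear_combination -e2
    have he : x * (x - d * a) * (x - d * b) = 0 := by
      rw [hy] at e0
      linear_combination -e0
    have hd0 : d ≠ 0 := right_ne_zero_of_mul n0
    rcases mul_eq_zero.1 he with h | h
    · rcases mul_eq_zero.1 h with h | h
      · rw [h] at hc
        exact mul_ne_zero hd0 n0 (by linear_combination (a - b) * hc)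
      · rw [sub_eq_zero.1 h] at hc
        exact mul_ne_zero hd0 n0 (by linear_combination b * hc)
    · rw [sub_eq_zero.1 h] at hc
      exact mul_ne_zero hd0 n0 (by linear_combination (-a) * hc)
  · rintro t (rfl | rfl)
    · exact smo_away (P 1 i1) (hd 1 i1)
    · exact smo_away (P 2 i2) (hd 2 i2)

/-- The surface is smooth of dimension two over `F`. -/
theorem surf_smooth (h2 : (2 : F) ≠ 0) (A B D : F[X]) :
    SmoothOfRelativeDimension 2 (Spec.map (CommRingCat.ofHom (algebraMap F (surf A B D)))) := by
  rw [HasRingHomProperty.Spec_iff (P := @SmoothOfRelativeDimension 2)]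
  have h := smo_gen h2 A B D ![_, _] rfl rfl
  rw [Matrix.range_cons_cons_empty] at h
  exact h

end

end Pool.Agent.Lib.MP_16ef92_ag.ET
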