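import Pool.Agent.Lib.MP_16ef92_ag.ET.Cpx

/-! Functoriality of the complex. -/

set_option backward.isDefEq.respectTransparency false

namespace Pool.Agent.Lib.MP_16ef92_ag.ET

open CategoryTheory Limits AlgebraicGeometry Opposite Abelian

noncomputable section

variable {B Ω : Type} [Field B] [Field Ω] [Algebra B Ω] {R : Type} [CommRing R] [Algebra R Ω]
  {n m : ℕ}

/-- Squaring. -/
def Mu.sq : Mu Ω (n + 1) →+ Mu Ω n := MonoidHom.toAdditive
  (((powMonoidHom 2).comp (rootsOfUnity (2 ^ (n + 1)) Ω).subtype).codRestrict _ fun x => by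
    have : x.1 ^ (2 * 2 ^ n) = 1 := by
      rw [← pow_succ']
      exact x.2
    rwa [pow_mul] at this)

/-- Transport of continuous cochains. -/
def LC.map (φ : Mu Ω n →+ Mu Ω m) (s : Ω ≃ₐ[B] Ω) (π : Gf B Ω R →* Gf B Ω R)
    (h : ∀ g, (π g).1 = s⁻¹ * g * s) : LC B Ω R n →+ LC B Ω R m :=
  .mk' (fun c => ⟨fun g => φ (c.1 (π g)), (Near.conj c.2 s).mono fun l e hl g => by
    have := h ⟨l, hl⟩
    simp only [map_mul]
    rw [← e (this ▸ (π _).2) (π g)]
    exact congrArg (fun t => φ (c.1 (π g * t))) (Subtype.ext this)⟩)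
    fun _ _ => Subtype.ext (funext fun _ => φ.map_add _ _)

variable [IsAlgClosed Ω] {hr : ∀ ⦃g⦄, g ∈ Gf B Ω R → Ru g}
  {β : (Ω ≃ₐ[B] Ω) → (Ω ≃ₐ[B] Ω) → Ω} {e : ValuationSubring Ω → (Ω ≃ₐ[B] Ω) → Ω}

theorem Cls.sq {x : (mu (Spec (.of R)) (2 ^ (n + 1))).H 2} (h : Cls (n + 1) hr β e x) :
    Cls n hr (β ^ 2) (e ^ 2) (Sheaf.H.map (sq (Spec (.of R)) n) 2 x) := by
  obtain ⟨z, h1, h2⟩ := h
  refine ⟨_, h1.map (A' := cx n _ hr) (ET.sq _ n) (fnM (isG Ω R) Mu.sq)
    (fnM (isG Ω R) (LC.map Mu.sq 1 (.id _) fun _ => rfl)) (fnM (isQ B R _) Mu.sq)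
    (hom_ext' fun V a => funext fun x => Mu.ext (map_pow (Ptv.ev x) _ 2).symm)
    (hom_ext' fun V a => funext fun x => Subtype.ext (funext fun g => Mu.sq.map_sub _ _))
    (hom_ext' fun V a => funext fun
      | .gen .. => (Mu.sq.map_add _ _).trans (congrArg (· + _) (Mu.sq.map_sub _ _))
      | .val .. => rfl), fun g l => ?_, fun O hO hP g hg => ?_⟩
  · exact congrArg (· ^ 2) (h2.gen g l)
  · exact congrArg (· ^ 2) (h2.val O hO hP g hg)

theorem Cls.act (σ : R ≃+* R) (s : Ω ≃ₐ[B] Ω)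
    (hs : ∀ r, s (algebraMap R Ω r) = algebraMap R Ω (σ r)) {x : (mu (Spec (.of R)) (2 ^ n)).H 2}
    (h : Cls n hr β e x) :
    Cls n hr (fun g h => s (β (s⁻¹ * g * s) (s⁻¹ * h * s)))
      (fun O g => s (e (tr s⁻¹ O) (s⁻¹ * g * s)))
      (actH (Scheme.Spec.mapIso σ.toCommRingCatIso.op) (2 ^ n) 2 x) := by
  obtain ⟨z, h1, h2⟩ := h
  have hs' : ∀ r, s⁻¹ (algebraMap R Ω (σ r)) = algebraMap R Ω r := fun r => by
    rw [← hs, inv_apply_self]
  let φ := Scheme.Spec.mapIso σ.toCommRingCatIso.op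
  let π : Gf B Ω R →* Gf B Ω R := ((MulAut.conj s⁻¹).toMonoidHom.comp
    (Gf B Ω R).subtype).codRestrict _ fun g r => by
      change s⁻¹ (g.1 (s _)) = _
      rw [hs, g.2, hs']
  let μ : Mu Ω n →+ Mu Ω n := MonoidHom.toAdditive (restrictRootsOfUnity s (2 ^ n))
  let p : ∀ {V}, Pg Ω V → Pg Ω ((tw φ).obj V) := fun x =>
    x.tw σ ((s⁻¹ : Ω ≃ₐ[B] Ω) : Ω →+* Ω) (RingHom.ext hs')
  have hO' : ∀ {O}, Ov (algebraMap R Ω) O → Ov (algebraMap R Ω) (tr s⁻¹ O) := fun hO r =>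
    hs' r ▸ mem_tr.2 (hO _)
  let θ : ∀ O : ValuationSubring Ω, O →+* tr s⁻¹ O := fun O =>
    (((s⁻¹ : Ω ≃ₐ[B] Ω) : Ω →+* Ω).comp O.subtype).codRestrict _ fun a => mem_tr.2 a.2
  let q : ∀ {V}, Q2 B (fun _ : ValuationSubring Ω => True) V →
      Q2 B (fun _ : ValuationSubring Ω => True) ((tw φ).obj V) := fun
    | .gen x g h => .gen (p x) (π g) (π h)
    | .val O hO _ x g hg => .val (tr s⁻¹ O) (hO' hO) trivial
        (Ptv.tw (j := jv hO) σ (θ O) (RingHom.ext fun r => Subtype.ext (hs' r)) x) (π g)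
        (conj_mem_ine.2 hg)
  have p1 : ∀ {V W} (f : W ⟶ V) x, (p x).im ((tw φ).map f) = p (x.im f) := fun f x =>
    (x.tw_im σ _ _ f).symm
  have p2 : ∀ {V} g (x : Pg Ω V), π g • p x = p (g • x) := fun g x =>
    Ptv.ext (spm_sq (fun a => congrArg (fun t => s⁻¹ (g.1 t)) (self_apply_inv s a)) x.hom)
  have h3 := h1.act φ
    (mkH (fun V => .mk' (fun a x => μ (a (p x))) fun _ _ => funext fun _ => μ.map_add _ _)
      fun f a => funext fun x => congrArg (fun t => μ (a t)) (p1 f x))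
    (mkH (fun V => .mk' (fun a x => LC.map μ s π (fun _ => rfl) (a (p x))) fun _ _ =>
      funext fun _ => map_add _ _ _) fun f a => funext fun x =>
        congrArg (fun t => LC.map μ s π (fun _ => rfl) (a t)) (p1 f x))
    (mkH (fun V => .mk' (fun a x => μ (a (q x))) fun _ _ => funext fun _ => μ.map_add _ _)
      fun f a => funext fun
        | .gen x g h => congrArg (fun t => μ (a (.gen t _ _))) (p1 f x)
        | .val _ _ _ x g h => congrArg (fun t => μ (a (.val _ _ _ t _ _))) (x.tw_im σ _ _ f).symm)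
    (hom_ext' fun V a => funext fun x => Mu.ext
      ((congrArg s (Ptv.ev_tw σ _ _ x _)).trans (self_apply_inv s _)))
    (hom_ext' fun V a => funext fun x => Subtype.ext (funext fun g =>
      (μ.map_sub _ _).trans (congrArg (fun t => μ (a t) - _) (p2 g x))))
    (hom_ext' fun V a => funext fun
      | .gen x g h => (μ.map_add _ _).trans (congrArg (· + _) ((μ.map_sub _ _).trans
          (congrArg₂ (fun t u => μ ((a t).1 _) - μ ((a _).1 u)) (p2 h x) (π.map_mul g h).symm)))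
      | .val _ _ _ x g h => congrArg (fun t => μ ((a t).1 _))
          (Ptv.ext (spm_sq (by exact fun _ => rfl) x.hom)))
  refine ⟨_, h3, fun g l => ?_, fun O hO hP g hg => ?_⟩
  · exact (congrArg s (h2.gen (π g) (π l))).trans (congrArg
      (fun t => s (z (.gen t _ _)).val) (Subsingleton.elim _ _))
  · exact (congrArg s (h2.val _ (hO' hO) trivial (π g) (conj_mem_ine.2 hg))).trans (congrArg
      (fun t => s (z (.val _ _ _ t _ _)).val) (Subsingleton.elim _ _))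

end

end Pool.Agent.Lib.MP_16ef92_ag.ET
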