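import Mathlib
import Pool.Agent.Lib.MP_16ef92_ag.ET.GalB

set_option autoImplicit false
set_option linter.unusedSectionVars false
set_option linter.unusedVariables false

namespace Pool.Agent.Lib.MP_16ef92_ag.ET

open Polynomial WeierstrassCurve WeierstrassCurve.Affine
open scoped Classical

noncomputable section

section generic

variable {B Ω : Type} [Field B] [Field Ω] [Algebra B Ω]

theorem tr_one (O : ValuationSubring Ω) : tr (1 : Ω ≃ₐ[B] Ω) O = O := by
  ext z
  exact mem_tr (g := 1)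

theorem tr_mul (g h : Ω ≃ₐ[B] Ω) (O : ValuationSubring Ω) : tr (g * h) O = tr g (tr h O) := by
  ext z
  obtain ⟨w, rfl⟩ := (g * h).surjective z
  rw [mem_tr, AlgEquiv.mul_apply, mem_tr, mem_tr]

theorem inr_top {g : Ω ≃ₐ[B] Ω} (hg : g ∈ Inr B (⊤ : ValuationSubring Ω)) : g = 1 := by
  ext z
  rcases (val_lt_one_iff _ _).1 (hg z (ValuationSubring.mem_top _)) with h | h
  · exact sub_eq_zero.1 h
  · exact absurd (ValuationSubring.mem_top _) h

/-- An open normal subgroup on which `P` holds. -/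
theorem near_sub [Algebra.IsAlgebraic B Ω] {P : (Ω ≃ₐ[B] Ω) → Prop} (h : Near P) :
    ∃ N : Subgroup (Ω ≃ₐ[B] Ω), N.Normal ∧ (∀ g ∈ N, P g) ∧ (Near fun g => g ∈ N) ∧
      N.FiniteIndex := by
  obtain ⟨S, hS⟩ := h
  let N₀ : Subgroup (Ω ≃ₐ[B] Ω) := ⨅ s ∈ S, MulAction.stabilizer (Ω ≃ₐ[B] Ω) s
  have hm : ∀ g, g ∈ N₀ ↔ ∀ s ∈ S, g s = s := fun g => by
    simp only [N₀, Subgroup.mem_iInf, MulAction.mem_stabilizer_iff, AlgEquiv.smul_def]
  have : N₀.FiniteIndex := Subgroup.finiteIndex_iInf' _ fun s _ => ⟨by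
    rw [MulAction.index_stabilizer]
    refine Set.ncard_ne_zero_of_mem (MulAction.mem_orbit_self s)
      (((minpoly B s).rootSet_finite Ω).subset ?_)
    rintro _ ⟨g, rfl⟩
    rw [mem_rootSet]
    refine ⟨minpoly.ne_zero (Algebra.IsIntegral.isIntegral _), ?_⟩
    change aeval (g s) _ = 0
    rw [aeval_algHom_apply, minpoly.aeval, map_zero]⟩
  refine ⟨N₀.normalCore, inferInstance, fun g hg => hS g ((hm g).1 (N₀.normalCore_le hg)), ?_,
    inferInstance⟩
  have : Near fun g => g ∈ N₀ := ⟨S, fun g hg => (hm g).2 hg⟩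
  exact (near_normal this).mono fun g hg b => by simpa using hg b⁻¹

/-- Nonzero elements of a field inside `O` are units. -/
theorem val_of_field {O : ValuationSubring Ω} (K : Subfield Ω) (hK : ∀ c ∈ K, c ∈ O) {c : Ω}
    (hc : c ∈ K) (h0 : c ≠ 0) : O.valuation c = 1 := by
  refine le_antisymm ((O.valuation_le_one_iff _).2 (hK c hc)) (not_lt.1 fun h => ?_)
  rcases (val_lt_one_iff _ _).1 h with h | h
  · exact h0 h
  · exact h (hK _ (K.inv_mem hc))

/-- `π` divides, up to a unit of `O`, every element of `R` of value less than 1, and the values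
of nonzero elements are bounded below by powers of the value of `π`. -/
structure Dd (R : Subring Ω) (O : ValuationSubring Ω) (π : Ω) : Prop where
  le : ∀ a ∈ R, a ∈ O
  mem : π ∈ R
  ne : π ≠ 0
  lt : O.valuation π < 1
  div : ∀ a ∈ R, O.valuation a < 1 → ∃ b ∈ R, ∃ u ∈ R, O.valuation u = 1 ∧ a * u = π * b
  bd : ∀ a ∈ R, a ≠ 0 → ∃ k : ℕ, O.valuation π ^ k ≤ O.valuation a

/-- Induction on the bound `k`. -/
theorem Dd.fac {R : Subring Ω} {O : ValuationSubring Ω} {π : Ω} (h : Dd R O π) {a : Ω}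
    (ha : a ∈ R) (h0 : a ≠ 0) :
    ∃ (k : ℕ), ∃ b ∈ R, ∃ u ∈ R, O.valuation u = 1 ∧ O.valuation b = 1 ∧ a * u = π ^ k * b := by
  obtain ⟨k, hk⟩ := h.bd a ha h0
  have hπ : O.valuation π ≠ 0 := (Valuation.ne_zero_iff _).2 h.ne
  induction k generalizing a with
  | zero =>
    rw [pow_zero] at hk
    exact ⟨0, a, ha, 1, R.one_mem, map_one _,
      le_antisymm ((O.valuation_le_one_iff _).2 (h.le a ha)) hk, by ring⟩
  | succ k ih =>
    rcases ((O.valuation_le_one_iff _).2 (h.le a ha)).eq_or_lt with h1 | h1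
    · exact ⟨0, a, ha, 1, R.one_mem, map_one _, h1, by ring⟩
    obtain ⟨b, hb, u, hu, hv, e⟩ := h.div a ha h1
    have e1 : O.valuation a = O.valuation π * O.valuation b := by
      rw [← map_mul, ← e, map_mul, hv, mul_one]
    have hb0 : b ≠ 0 := fun e0 => by
      rw [e0, map_zero, mul_zero, Valuation.zero_iff] at e1
      exact h0 e1
    rw [e1, pow_succ'] at hk
    obtain ⟨j, c, hc, w, hw, h2, h3, e2⟩ := ih hb hb0
      (le_of_mul_le_mul_left hk (zero_lt_iff.2 hπ))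
    exact ⟨j + 1, c, hc, u * w, R.mul_mem hu hw, by rw [map_mul, hv, h2, mul_one], h3, by
      rw [← mul_assoc, e, mul_assoc, e2, pow_succ', mul_assoc]⟩

theorem Dd.disc [IsAlgClosed Ω] [Algebra.IsAlgebraic B Ω] {R : Subring Ω}
    {O : ValuationSubring Ω} {π : Ω} (h : Dd R O π) (E : IntermediateField B Ω) (hπ : π ∈ E)
    (hE : ∀ a ∈ E, ∃ b ∈ R, ∃ c ∈ R, c ≠ 0 ∧ a * c = b) : Disc E O π := by
  have hv : O.valuation π ≠ 0 := (Valuation.ne_zero_iff _).2 h.ne
  have key : ∀ a ∈ R, a ≠ 0 → ∃ k : ℕ, O.valuation a = O.valuation π ^ k := fun a ha h0 => by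
    obtain ⟨k, b, hb, u, hu, h1, h2, e⟩ := h.fac ha h0
    have := congrArg O.valuation e
    rw [map_mul, map_mul, h1, h2, mul_one, mul_one, map_pow] at this
    exact ⟨k, this⟩
  refine ⟨hπ, h.ne, h.lt, fun a ha h0 => ?_⟩
  obtain ⟨b, hb, c, hc, hc0, e⟩ := hE a ha
  obtain ⟨i, hi⟩ := key b hb (e ▸ mul_ne_zero h0 hc0)
  obtain ⟨j, hj⟩ := key c hc hc0
  refine ⟨i - j, ?_⟩
  rw [zpow_sub₀ hv, zpow_natCast, zpow_natCast, ← hi, ← e, map_mul, hj,
    mul_div_cancel_right₀ _ (pow_ne_zero _ hv)]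

/-- The same centre on `R` gives the same trace on the fraction field (`Dd.fac` for `O₁` is also
a factorisation for `O₂`), hence conjugate valuation subrings (`trans_fix`). -/
theorem Dd.conj [IsAlgClosed Ω] [Algebra.IsAlgebraic B Ω] {R : Subring Ω}
    {O₁ O₂ : ValuationSubring Ω} {π : Ω} (h : Dd R O₁ π) (h2 : ∀ a ∈ R, a ∈ O₂)
    (hc : ∀ a ∈ R, O₁.valuation a < 1 ↔ O₂.valuation a < 1) (E : IntermediateField B Ω)
    (hE : ∀ a ∈ E, ∃ b ∈ R, ∃ c ∈ R, c ≠ 0 ∧ a * c = b) :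
    ∃ g ∈ E.fixingSubgroup, tr g O₁ = O₂ := by
  have hπ : O₂.valuation π < 1 := (hc π h.mem).1 h.lt
  have h1 : ∀ a ∈ R, O₁.valuation a = 1 → O₂.valuation a = 1 := fun a ha e =>
    le_antisymm ((O₂.valuation_le_one_iff _).2 (h2 a ha))
      (not_lt.1 fun e' => ((hc a ha).2 e').ne e)
  have key : ∀ a ∈ R, a ≠ 0 → ∃ k : ℕ, O₁.valuation a = O₁.valuation π ^ k ∧
      O₂.valuation a = O₂.valuation π ^ k := fun a ha h0 => by
    obtain ⟨k, b, hb, u, hu, e1, e2, e⟩ := h.fac ha h0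
    have t1 := congrArg O₁.valuation e
    have t2 := congrArg O₂.valuation e
    rw [map_mul, map_mul, e1, e2, mul_one, mul_one, map_pow] at t1
    rw [map_mul, map_mul, h1 u hu e1, h1 b hb e2, mul_one, mul_one, map_pow] at t2
    exact ⟨k, t1, t2⟩
  have aux : ∀ (O : ValuationSubring Ω) {a b c : Ω} {i j : ℕ}, O.valuation π < 1 → a * c = b →
      O.valuation b = O.valuation π ^ i → O.valuation c = O.valuation π ^ j → (a ∈ O ↔ j ≤ i) := by
    intro O a b c i j hl e hi hj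
    have hv : 0 < O.valuation π := zero_lt_iff.2 ((Valuation.ne_zero_iff _).2 h.ne)
    rw [← O.valuation_le_one_iff, ← pow_le_pow_iff_right_of_lt_one₀ hv hl, ← hi, ← e, map_mul, hj,
      mul_le_iff_le_one_left (pow_pos hv j)]
  refine trans_fix E O₁ O₂ fun a ha => ?_
  by_cases h0 : a = 0
  · rw [h0]
    exact iff_of_true O₁.zero_mem O₂.zero_mem
  obtain ⟨b, hb, c, hc', hc0, e⟩ := hE a ha
  obtain ⟨i, hi, hi'⟩ := key b hb (e ▸ mul_ne_zero h0 hc0)
  obtain ⟨j, hj, hj'⟩ := key c hc' hc0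
  rw [aux O₁ h.lt e hi hj, aux O₂ hπ e hi' hj']

end generic

/-- `a ^ 2 = b ^ 2 * cubic` is impossible by the parity of the multiplicity of the root `e₁`. -/
theorem lin_indep {k Ω : Type} [Field k] [Field Ω] [Algebra k Ω] {x y : Ω}
    (hx : Transcendental k x) {e₁ e₂ e₃ : k} (h12 : e₁ ≠ e₂) (h13 : e₁ ≠ e₃)
    (hy : y ^ 2 = (x - algebraMap k Ω e₁) * (x - algebraMap k Ω e₂) * (x - algebraMap k Ω e₃))
    {a b : k[X]} (h : aeval x a + aeval x b * y = 0) : a = 0 ∧ b = 0 := by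
  have e : a ^ 2 = b ^ 2 * ((X - C e₁) * ((X - C e₂) * (X - C e₃))) := by
    rw [← sub_eq_zero]
    apply transcendental_iff.1 hx
    simp only [map_sub, map_mul, map_pow, aeval_X, aeval_C]
    rw [← mul_assoc (x - _), ← hy]
    linear_combination (aeval x a - aeval x b * y) * h
  have hb : b = 0 := by
    by_contra hb
    have h3 : (X - C e₁) * ((X - C e₂) * (X - C e₃)) ≠ 0 :=
      mul_ne_zero (X_sub_C_ne_zero _) (mul_ne_zero (X_sub_C_ne_zero _) (X_sub_C_ne_zero _))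
    have h4 : b ^ 2 * ((X - C e₁) * ((X - C e₂) * (X - C e₃))) ≠ 0 :=
      mul_ne_zero (pow_ne_zero _ hb) h3
    have ha : a ≠ 0 := fun h0 => h4 (by rw [← e, h0]; simp)
    have h5 := congrArg natDegree e
    rw [natDegree_pow, natDegree_mul (pow_ne_zero _ hb) h3, natDegree_pow,
      natDegree_mul (X_sub_C_ne_zero _) (mul_ne_zero (X_sub_C_ne_zero _) (X_sub_C_ne_zero _)),
      natDegree_mul (X_sub_C_ne_zero _) (X_sub_C_ne_zero _), natDegree_X_sub_C, natDegree_X_sub_C,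
      natDegree_X_sub_C] at h5
    omega
  rw [hb, zero_pow two_ne_zero, zero_mul] at e
  exact ⟨pow_eq_zero_iff two_ne_zero |>.1 e, hb⟩

/-- A valuation subring centred at a given point of the affine line, as `exists_over`. -/
theorem exists_val {k Ω : Type} [Field k] [Field Ω] [Algebra k Ω] {x : Ω}
    (hx : Transcendental k x) :
    ∃ O : ValuationSubring Ω, (∀ c : k, algebraMap k Ω c ∈ O) ∧ O.valuation x < 1 := by
  let A : Subring Ω := (aeval (R := k) x).toRingHom.range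
  let a : A := ⟨x, X, by simp⟩
  have : Ideal.span {a} ≠ ⊤ := by
    rw [Ne, Ideal.span_singleton_eq_top, isUnit_iff_exists_inv]
    rintro ⟨⟨b, P, rfl⟩, h⟩
    have h1 : x * aeval x P = 1 := congrArg Subtype.val h
    have h2 : X * P - 1 = 0 := by
      apply transcendental_iff.1 hx
      simp [h1]
    have := congrArg (eval 0) h2
    simp at this
  obtain ⟨O, h1, hO⟩ := Ideal.image_subset_nonunits_valuationSubring _ this
  exact ⟨O, fun c => h1 ⟨C c, by simp⟩, O.mem_nonunits_iff.1 (hO ⟨a, Ideal.subset_span rfl, rfl⟩)⟩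

/-- Finitely many members of a family of pairwise coprime primes divide a nonzero element. -/
theorem finite_dvd {R : Type} [CommRing R] [IsDomain R] [IsNoetherianRing R] {Pi : Set R}
    (hp : ∀ p ∈ Pi, Prime p) (hd : ∀ p ∈ Pi, ∀ p' ∈ Pi, p ≠ p' → IsUnit (p - p')) {h : R}
    (h0 : h ≠ 0) : {p ∈ Pi | p ∣ h}.Finite := by
  induction h using WfDvdMonoid.induction_on_irreducible with
  | zero => exact absurd rfl h0
  | unit u hu =>
    refine Set.Finite.subset Set.finite_empty fun p hp' => ?_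
    exact (hp p hp'.1).not_isUnit (isUnit_of_dvd_unit hp'.2 hu)
  | mul a i ha hi ih =>
    have h1 : {p ∈ Pi | p ∣ i}.Subsingleton := fun p h1 q h2 => by
      by_contra hne
      have e1 := (hp p h1.1).irreducible.associated_of_dvd hi h1.2
      have e2 := (hp q h2.1).irreducible.associated_of_dvd hi h2.2
      exact hi.not_isUnit (isUnit_of_dvd_unit (dvd_sub e1.symm.dvd e2.symm.dvd)
        (hd p h1.1 q h2.1 hne))
    refine (h1.finite.union (ih ha)).subset fun p hp' => ?_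
    exact ((hp p hp'.1).dvd_or_dvd hp'.2).imp (fun e => ⟨hp'.1, e⟩) fun e => ⟨hp'.1, e⟩

end

end Pool.Agent.Lib.MP_16ef92_ag.ET
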