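import Mathlib
import Pool.Agent.Lib.MP_16ef92_ag.Ell
import Pool.Agent.Lib.MP_16ef92_ag.ET.GalC

set_option autoImplicit false
set_option linter.unusedSectionVars false
set_option linter.unusedVariables false

namespace Pool.Agent.Lib.MP_16ef92_ag.ET

open Polynomial WeierstrassCurve WeierstrassCurve.Affine
open scoped Classical

noncomputable section

variable {B₀ : Type} (B Ω : Type) [Field B₀] [Field B] [Field Ω] [Algebra B₀ B] [Algebra B Ω]
  [Algebra B₀ Ω] [IsScalarTower B₀ B Ω] (W : WeierstrassCurve B₀)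

/-- Points over the big field. -/
abbrev PO : Type := (W.baseChange Ω).toAffine.Point

/-- A generic point `(x, y)` of the curve, with `B = B₀(x)`. -/
structure CS where
  x : Ω
  y : Ω
  e : Fin 3 → Ω
  cub : Cub (W.baseChange Ω).toAffine (e 0) (e 1) (e 2)
  eB : ∀ i, e i ∈ (algebraMap B₀ Ω).range
  xB : x ∈ (algebraMap B Ω).range
  xtr : Transcendental B₀ x
  gen : ∀ b : B, algebraMap B Ω b ∈ IntermediateField.adjoin B₀ {x}
  eqn : y ^ 2 = (x - e 0) * (x - e 1) * (x - e 2)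

variable {B Ω W}

/-- The action on points. -/
abbrev pmO (g : Ω ≃ₐ[B] Ω) : PO Ω W →+ PO Ω W :=
  Point.map (W' := W.toAffine) (g.restrictScalars B₀ : Ω →ₐ[B₀] Ω)

theorem pmO_mul (g h : Ω ≃ₐ[B] Ω) (P : PO Ω W) : pmO (g * h) P = pmO g (pmO h P) := by
  cases P <;> rfl

theorem pmO_one (P : PO Ω W) : pmO (1 : Ω ≃ₐ[B] Ω) P = P := by cases P <;> rfl

theorem pmO_some (g : Ω ≃ₐ[B] Ω) {a b : Ω} (n : (W.baseChange Ω).toAffine.Nonsingular a b) :
    ∃ n', pmO g (.some a b n) = .some (g a) (g b) n' := ⟨_, rfl⟩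

variable (B₀ Ω) in
/-- The field of constants of the curve. -/
abbrev KK : IntermediateField B₀ Ω := algebraicClosure B₀ Ω

/-- Both coordinates lie in the set `S`. -/
def InS (S : Set Ω) : PO Ω W → Prop
  | .zero => True
  | .some a b _ => a ∈ S ∧ b ∈ S

namespace CS

variable (C : CS B Ω W)

/-- The function field of the line. -/
def E' (C : CS B Ω W) : IntermediateField B Ω := IntermediateField.adjoin B (KK B₀ Ω : Set Ω)

/-- The function field of the curve. -/
def E : IntermediateField B Ω := IntermediateField.adjoin B ((KK B₀ Ω : Set Ω) ∪ {C.y})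

/-- The affine coordinate ring of the curve. -/
def A : Subring Ω := Subring.closure ((KK B₀ Ω : Set Ω) ∪ {C.x, C.y})

abbrev H' : Subgroup (Ω ≃ₐ[B] Ω) := C.E'.fixingSubgroup

abbrev H : Subgroup (Ω ≃ₐ[B] Ω) := C.E.fixingSubgroup

/-- Valuation subrings centred on the affine curve. -/
def Hz (O : ValuationSubring Ω) : Prop := (∀ c ∈ KK B₀ Ω, c ∈ O) ∧ C.x ∈ O

/-- The value of the ideal of a point. -/
def vI (O : ValuationSubring Ω) : PO Ω W → O.ValueGroup
  | .zero => 1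
  | .some a b _ => max (O.valuation (C.x - a)) (O.valuation (C.y - b))

/-- A uniformiser at a point. -/
def un : PO Ω W → Ω
  | .zero => 1
  | .some a b _ => if b = 0 then C.y else C.x - a

variable [IsAlgClosed Ω]

/-- Unramified characters. -/
def Lam (n : ℕ) (χ : (Ω ≃ₐ[B] Ω) → Ω) : Prop :=
  Chr C.H n χ ∧ ∀ O, C.Hz O → ∀ σ ∈ C.H ⊓ Inr B O, χ σ = 1

/-- The divisor of `f` is `2^n` times the point `P`. -/
def Rep (n : ℕ) (P : PO Ω W) (f : Ω) : Prop :=
  f ∈ C.E ∧ f ≠ 0 ∧ ∀ O, C.Hz O → O.valuation f = C.vI O P ^ 2 ^ n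

/-- `χ` is the character attached to the torsion point `P`. -/
def Kp (n : ℕ) (P : PO Ω W) (χ : (Ω ≃ₐ[B] Ω) → Ω) : Prop :=
  2 ^ n • P = 0 ∧ ∃ f, C.Rep n P f ∧ ∀ h ∈ C.H, χ h = kum n f h

end CS

end

end Pool.Agent.Lib.MP_16ef92_ag.ET
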