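import Mathlib
import Pool.Agent.Lib.MP_16ef92_ag.Gal

set_option autoImplicit false
set_option linter.unusedSectionVars false
set_option linter.unusedVariables false

namespace Pool.Agent.Lib.MP_16ef92_ag.ET

open Polynomial
open scoped Classical

noncomputable section

variable {B Ω : Type} [Field B] [Field Ω] [Algebra B Ω]

/-- `g` fixes all roots of unity of 2-power order. -/
def Ru (g : Ω ≃ₐ[B] Ω) : Prop := ∀ (m : ℕ) (w : Ω), w ^ 2 ^ m = 1 → g w = w

/-- Continuity of a function on the subgroup `H`. -/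
def Cts {X : Type} (H : Subgroup (Ω ≃ₐ[B] Ω)) (f : (Ω ≃ₐ[B] Ω) → X) : Prop :=
  Near fun h => h ∈ H → ∀ g ∈ H, f (g * h) = f g

/-- Continuity of a function of two variables on the subgroup `H`. -/
def Cts2 {X : Type} (H : Subgroup (Ω ≃ₐ[B] Ω)) (c : (Ω ≃ₐ[B] Ω) → (Ω ≃ₐ[B] Ω) → X) : Prop :=
  Near fun h => h ∈ H → ∀ g ∈ H, ∀ l ∈ H, c (g * h) l = c g l ∧ c g (l * h) = c g l

/-- A continuous character of `H` with values in the `2^n`-th roots of unity. -/
structure Chr (H : Subgroup (Ω ≃ₐ[B] Ω)) (n : ℕ) (χ : (Ω ≃ₐ[B] Ω) → Ω) : Prop where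
  pow : ∀ g ∈ H, χ g ^ 2 ^ n = 1
  mul : ∀ g ∈ H, ∀ h ∈ H, χ (g * h) = χ g * χ h
  near : Near fun g => g ∈ H → χ g = 1

theorem gala_mem {O : ValuationSubring Ω} {a z : Ω} (h : O.valuation (a - z) < 1) (hz : z ∈ O) :
    a ∈ O := by
  rw [← sub_add_cancel a z]
  exact O.add_mem _ _ ((O.valuation_le_one_iff _).1 h.le) hz

theorem gala_st {O : ValuationSubring Ω} {g : Ω ≃ₐ[B] Ω}
    (hg : ∀ z ∈ O, O.valuation (g z - z) < 1) (z : Ω) : g z ∈ O ↔ z ∈ O := by
  refine ⟨fun h => by_contra fun hz => ?_, fun h => gala_mem (hg z h) h⟩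
  have h0 : z ≠ 0 := fun e => hz (e ▸ O.zero_mem)
  have h1 : 1 < O.valuation z := not_le.1 fun e => hz ((O.valuation_le_one_iff _).1 e)
  have h2 : O.valuation z⁻¹ < 1 := by
    rw [map_inv₀]
    exact inv_lt_one_of_one_lt₀ h1
  have h3 := O.valuation.map_add_lt (hg _ ((O.valuation_le_one_iff _).1 h2.le)) h2
  rw [sub_add_cancel, map_inv₀, map_inv₀, inv_lt_one₀ (zero_lt_iff.2
    ((Valuation.ne_zero_iff _).2 ((map_ne_zero g).2 h0)))] at h3
  exact h3.not_ge ((O.valuation_le_one_iff _).2 h)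

variable (B) in
/-- The inertia group of a valuation subring. -/
def Inr (O : ValuationSubring Ω) : Subgroup (Ω ≃ₐ[B] Ω) where
  carrier := {g | ∀ z ∈ O, O.valuation (g z - z) < 1}
  mul_mem' := fun {g h} hg hh z hz => by
    have := O.valuation.map_add_lt (hg _ (gala_mem (hh z hz) hz)) (hh z hz)
    rwa [sub_add_sub_cancel] at this
  one_mem' := fun z _ => by
    rw [AlgEquiv.one_apply, sub_self, map_zero]
    exact zero_lt_one
  inv_mem' := fun {g} hg z hz => by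
    have := hg (g⁻¹ z) ((gala_st hg _).1 (by rwa [self_apply_inv]))
    rwa [self_apply_inv, Valuation.map_sub_swap] at this

theorem mem_ine {O : ValuationSubring Ω} {g : Ω ≃ₐ[B] Ω} :
    g ∈ Inr B O ↔ ∀ z ∈ O, O.valuation (g z - z) < 1 := Iff.rfl

/-- If `z` is not in `O` its inverse is in the maximal ideal, and so is `g z⁻¹`. -/
theorem ine_st {O : ValuationSubring Ω} {g : Ω ≃ₐ[B] Ω} (hg : g ∈ Inr B O) (z : Ω) :
    g z ∈ O ↔ z ∈ O := gala_st hg z

/-- Transport of a valuation subring: `z ∈ O ↔ g z ∈ tr g O`. -/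
def tr (g : Ω ≃ₐ[B] Ω) (O : ValuationSubring Ω) : ValuationSubring Ω :=
  O.comap ((g⁻¹ : Ω ≃ₐ[B] Ω) : Ω →+* Ω)

theorem mem_tr {g : Ω ≃ₐ[B] Ω} {O : ValuationSubring Ω} {z : Ω} : g z ∈ tr g O ↔ z ∈ O := by
  change g⁻¹ (g z) ∈ O ↔ _
  rw [inv_apply_self]

theorem tr_val_le {g : Ω ≃ₐ[B] Ω} {O : ValuationSubring Ω} {z w : Ω} :
    (tr g O).valuation (g z) ≤ (tr g O).valuation (g w) ↔ O.valuation z ≤ O.valuation w := by
  rw [ValuationSubring.valuation_le_iff, ValuationSubring.valuation_le_iff]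
  refine ⟨fun ⟨⟨a, ha⟩, e⟩ => ?_, fun ⟨a, e⟩ => ⟨⟨g a, mem_tr.2 a.2⟩, by rw [← e, map_mul]⟩⟩
  obtain ⟨a, rfl⟩ := g.surjective a
  exact ⟨⟨a, mem_tr.1 ha⟩, g.injective ((map_mul g _ _).trans e)⟩

theorem tr_val_eq {g : Ω ≃ₐ[B] Ω} {O : ValuationSubring Ω} {z w : Ω} :
    (tr g O).valuation (g z) = (tr g O).valuation (g w) ↔ O.valuation z = O.valuation w := by
  rw [le_antisymm_iff, le_antisymm_iff, tr_val_le, tr_val_le]

theorem tr_val_lt_one {g : Ω ≃ₐ[B] Ω} {O : ValuationSubring Ω} {z : Ω} :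
    (tr g O).valuation (g z) < 1 ↔ O.valuation z < 1 := by
  have h := tr_val_le (g := g) (O := O) (z := 1) (w := z)
  rw [map_one, map_one, map_one] at h
  rw [← not_le, ← not_le, h]

theorem conj_mem_ine {g h : Ω ≃ₐ[B] Ω} {O : ValuationSubring Ω} :
    g * h * g⁻¹ ∈ Inr B (tr g O) ↔ h ∈ Inr B O := by
  rw [mem_ine, mem_ine, g.surjective.forall]
  refine forall_congr' fun z => ?_
  rw [mem_tr, AlgEquiv.mul_apply, AlgEquiv.mul_apply, inv_apply_self, ← map_sub, tr_val_lt_one]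

theorem Ru.conj {g : Ω ≃ₐ[B] Ω} (hg : Ru g) (s : Ω ≃ₐ[B] Ω) : Ru (s * g * s⁻¹) := fun m w hw => by
  rw [AlgEquiv.mul_apply, AlgEquiv.mul_apply, hg m _ (by rw [← map_pow, hw, map_one]),
    self_apply_inv]

/-- Orbits are finite (roots of the minimal polynomial), so the finite set can be made stable. -/
theorem near_normal [Algebra.IsAlgebraic B Ω] {P : (Ω ≃ₐ[B] Ω) → Prop} (h : Near P) :
    Near fun h => ∀ g, P (g⁻¹ * h * g) := by
  obtain ⟨S, hS⟩ := h
  refine ⟨S.biUnion fun s => ((minpoly B s).aroots Ω).toFinset, fun h hh g => hS _ fun s hs => ?_⟩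
  rw [AlgEquiv.mul_apply, AlgEquiv.mul_apply, hh _ (Finset.mem_biUnion.2 ⟨s, hs, ?_⟩),
    inv_apply_self]
  rw [Multiset.mem_toFinset, mem_aroots]
  exact ⟨minpoly.ne_zero (Algebra.IsIntegral.isIntegral _),
    by rw [aeval_algHom_apply, minpoly.aeval, map_zero]⟩

theorem Cts.left [Algebra.IsAlgebraic B Ω] {X : Type} {H : Subgroup (Ω ≃ₐ[B] Ω)}
    {f : (Ω ≃ₐ[B] Ω) → X} (h : Cts H f) : Near fun h => h ∈ H → ∀ g ∈ H, f (h * g) = f g :=   (near_normal h).mono fun l hl hH g hg => by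
    have := hl g (H.mul_mem (H.mul_mem (H.inv_mem hg) hH) hg) g hg
    rwa [mul_assoc, mul_inv_cancel_left] at this

section closed

variable [IsAlgClosed Ω]

/-- A chosen `2^n`-th root. -/
def rt (n : ℕ) (z : Ω) : Ω := (IsAlgClosed.exists_pow_nat_eq z (n := 2 ^ n) (by positivity)).choose

theorem rt_pow (n : ℕ) (z : Ω) : rt n z ^ 2 ^ n = z :=
  (IsAlgClosed.exists_pow_nat_eq z (n := 2 ^ n) (by positivity)).choose_spec

/-- The Kummer character of `z` at level `2^n`. -/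
def kum (n : ℕ) (z : Ω) (g : Ω ≃ₐ[B] Ω) : Ω := g (rt n z) / rt n z

variable {n : ℕ} {z y w : Ω} {g h : Ω ≃ₐ[B] Ω}

theorem gala_ne (h0 : z ≠ 0) (hw : w ^ 2 ^ n = z) : w ≠ 0 := fun e =>
  h0 (by rw [← hw, e, zero_pow (by positivity)])

theorem kum_spec (hg : Ru g) (h0 : z ≠ 0) (hw : w ^ 2 ^ n = z) : g w = kum n z g * w := by
  have h1 := gala_ne h0 (rt_pow n z)
  have h2 := hg n (w / rt n z) (by rw [div_pow, hw, rt_pow, div_self h0])
  rw [map_div₀, div_eq_iff ((map_ne_zero g).2 h1)] at h2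
  rw [h2, kum, div_mul_comm]

theorem kum_eq (hg : Ru g) (h0 : z ≠ 0) (hw : w ^ 2 ^ n = z) {a : Ω} (e : g w = a * w) :
    kum n z g = a :=   mul_right_cancel₀ (gala_ne h0 hw) ((kum_spec hg h0 hw).symm.trans e)

theorem kum_ne (h0 : z ≠ 0) : kum n z g ≠ 0 :=   div_ne_zero ((map_ne_zero g).2 (gala_ne h0 (rt_pow n z))) (gala_ne h0 (rt_pow n z))

theorem kum_pow_one (h0 : z ≠ 0) (hz : g z = z) : kum n z g ^ 2 ^ n = 1 := by
  rw [kum, div_pow, ← map_pow, rt_pow, hz, div_self h0]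

theorem kum_mul_left (hg : Ru g) (h0 : z ≠ 0) (h1 : y ≠ 0) :
    kum n (z * y) g = kum n z g * kum n y g :=   kum_eq hg (mul_ne_zero h0 h1) (w := rt n z * rt n y) (by rw [mul_pow, rt_pow, rt_pow]) (by
    rw [map_mul, kum_spec hg h0 (rt_pow n z), kum_spec hg h1 (rt_pow n y), mul_mul_mul_comm])

theorem kum_zpow (hg : Ru g) (h0 : z ≠ 0) (j : ℤ) : kum n (z ^ j) g = kum n z g ^ j :=   kum_eq hg (zpow_ne_zero j h0) (w := rt n z ^ j)
    (by rw [← zpow_natCast, ← zpow_mul, mul_comm, zpow_mul, zpow_natCast, rt_pow])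
    (by rw [map_zpow₀, kum_spec hg h0 (rt_pow n z), mul_zpow])

theorem kum_npow (hg : Ru g) (h0 : z ≠ 0) (j : ℕ) : kum n (z ^ j) g = kum n z g ^ j := by
  rw [← zpow_natCast, kum_zpow hg h0, zpow_natCast]

theorem kum_div (hg : Ru g) (h0 : z ≠ 0) (h1 : y ≠ 0) :
    kum n (z / y) g = kum n z g / kum n y g := by
  rw [div_eq_mul_inv, div_eq_mul_inv, kum_mul_left hg h0 (inv_ne_zero h1), ← zpow_neg_one y,
    kum_zpow hg h1, zpow_neg_one]

theorem kum_prod (hg : Ru g) {ι : Type} (s : Finset ι) (f : ι → Ω) (h0 : ∀ i ∈ s, f i ≠ 0) :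
    kum n (∏ i ∈ s, f i) g = ∏ i ∈ s, kum n (f i) g :=   kum_eq hg (Finset.prod_ne_zero_iff.2 h0) (w := ∏ i ∈ s, rt n (f i))
    (by rw [← Finset.prod_pow]; exact Finset.prod_congr rfl fun i _ => rt_pow n _) (by
      rw [map_prod, ← Finset.prod_mul_distrib]
      exact Finset.prod_congr rfl fun i hi => kum_spec hg (h0 i hi) (rt_pow n _))

theorem kum_of_fix (hg : Ru g) (h0 : z ≠ 0) (hw : w ^ 2 ^ n = z) (e : g w = w) :
    kum n z g = 1 := kum_eq hg h0 hw (e.trans (one_mul w).symm)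

theorem kum_level (hg : Ru g) (h0 : z ≠ 0) : kum (n + 1) z g ^ 2 = kum n z g :=   (kum_eq hg h0 (w := rt (n + 1) z ^ 2) (by rw [← pow_mul, ← pow_succ', rt_pow])
    (by rw [map_pow, kum_spec hg h0 (rt_pow (n + 1) z), mul_pow])).symm

theorem kum_sq (hg : Ru g) (h0 : z ≠ 0) : kum (n + 1) (z ^ 2) g = kum n z g :=   kum_eq hg (pow_ne_zero 2 h0) (w := rt n z) (by rw [pow_succ, pow_mul, rt_pow])
    (kum_spec hg h0 (rt_pow n z))

theorem kum_conj (s : Ω ≃ₐ[B] Ω) (hg : Ru g) (h0 : z ≠ 0) :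
    kum n (s z) (s * g * s⁻¹) = s (kum n z g) :=   kum_eq (hg.conj s) ((map_ne_zero s).2 h0) (w := s (rt n z)) (by rw [← map_pow, rt_pow]) (by
    rw [AlgEquiv.mul_apply, AlgEquiv.mul_apply, inv_apply_self, kum_spec hg h0 (rt_pow n z),
      map_mul])

theorem chr_kum {H : Subgroup (Ω ≃ₐ[B] Ω)} (hH : ∀ g ∈ H, Ru g) (h0 : z ≠ 0)
    (hz : ∀ g ∈ H, g z = z) : Chr H n (kum n z) :=   ⟨fun g hg => kum_pow_one h0 (hz g hg), fun g hg h hh =>
    kum_eq (hH _ (H.mul_mem hg hh)) h0 (rt_pow n z) (by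
      rw [AlgEquiv.mul_apply, kum_spec (hH h hh) h0 (rt_pow n z), map_mul,
        hH g hg n _ (kum_pow_one h0 (hz h hh)), kum_spec (hH g hg) h0 (rt_pow n z),
        mul_left_comm, mul_assoc]),
    (Near.fix (rt n z)).mono fun g e hg => kum_of_fix (hH g hg) h0 (rt_pow n z) e⟩

variable {O : ValuationSubring Ω}

/-- Roots of unity of 2-power order are distinct modulo the maximal ideal. -/
theorem root_eq_one (h2 : O.valuation 2 = 1) {m : ℕ} {u : Ω} (hu : u ^ 2 ^ m = 1)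
    (h : O.valuation (u - 1) < 1) : u = 1 := by
  induction m generalizing u with
  | zero => rwa [pow_zero, pow_one] at hu
  | succ m ih =>
    have h1 : O.valuation (u + 1) ≤ 1 := by
      rw [show u + 1 = u - 1 + 2 by ring]
      exact O.valuation.map_add_le h.le h2.le
    have h3 := ih (u := u ^ 2) (by rw [← pow_mul, ← pow_succ', hu]) (by
      rw [show u ^ 2 - 1 = (u - 1) * (u + 1) by ring, map_mul]
      exact (mul_le_of_le_one_right' h1).trans_lt h)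
    refine (sq_eq_one_iff.1 h3).resolve_right fun e => ?_
    rw [e, show (-1 : Ω) - 1 = -2 by ring, Valuation.map_neg, h2] at h
    exact lt_irrefl _ h

theorem kum_unit (h2 : O.valuation 2 = 1) (hg : g ∈ Inr B O) (hz : g z = z)
    (hv : O.valuation z = 1) : kum n z g = 1 := by
  have h0 : z ≠ 0 := fun e => by
    rw [e, map_zero] at hv
    exact zero_ne_one hv
  have h1 : O.valuation (rt n z) = 1 :=
    (pow_eq_one_iff_left (n := 2 ^ n) (by positivity)).1 (by rw [← map_pow, rt_pow, hv])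
  refine root_eq_one h2 (kum_pow_one h0 hz) ?_
  rw [kum, div_sub_one (gala_ne h0 (rt_pow n z)), map_div₀, h1, div_one]
  exact hg _ ((O.valuation_le_one_iff _).1 h1.le)

theorem kum_val (h2 : O.valuation 2 = 1) (hg : g ∈ Inr B O) (hr : Ru g) (hz : g z = z)
    (hy : g y = y) (h0 : y ≠ 0) {j : ℤ} (hv : O.valuation z = O.valuation y ^ j) :
    kum n z g = kum n y g ^ j := by
  have h1 : O.valuation y ^ j ≠ 0 := zpow_ne_zero j ((Valuation.ne_zero_iff _).2 h0)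
  have h3 : z ≠ 0 := (Valuation.ne_zero_iff _).1 (hv ▸ h1)
  have h4 := kum_unit (n := n) h2 hg (z := z / y ^ j) (by rw [map_div₀, map_zpow₀, hz, hy])
    (by rw [map_div₀, map_zpow₀, hv, div_self h1])
  rwa [kum_div hr h3 (zpow_ne_zero j h0), kum_zpow hr h0,
    div_eq_one_iff_eq (zpow_ne_zero j (kum_ne h0))] at h4

end closed

end

end Pool.Agent.Lib.MP_16ef92_ag.ET
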