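import Mathlib
import Pool.Agent.Lib.MP_16ef92_ag.ET.GalA

set_option autoImplicit false
set_option linter.unusedSectionVars false
set_option linter.unusedVariables false

namespace Pool.Agent.Lib.MP_16ef92_ag.ET

open Polynomial
open scoped Classical

noncomputable section

variable {B Ω : Type} [Field B] [Field Ω] [Algebra B Ω] [IsAlgClosed Ω] [Algebra.IsAlgebraic B Ω]

theorem odd_exp (h2 : (2 : Ω) ≠ 0) : Odd (ringExpChar Ω) := by
  rcases expChar_is_prime_or_one Ω (ringExpChar Ω) with h | h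
  · refine h.odd_of_ne_two fun e => h2 ?_
    have h3 := add_pow_expChar (p := ringExpChar Ω) (1 : Ω) 1
    rw [e] at h3
    apply mul_left_cancel₀ h2
    linear_combination h3 + h3
  · rw [h]
    exact odd_one

theorem gb1_up {E : IntermediateField B Ω} {z : Ω} {e : ℕ} (h : z ^ ringExpChar Ω ^ e ∈ E)
    (k : ℕ) : z ^ ringExpChar Ω ^ (e + k) ∈ E := by
  rw [pow_add, pow_mul]
  exact pow_mem h _

/-- The perfect closure of `E` in `Ω`. -/
def perf (E : IntermediateField B Ω) : IntermediateField B Ω where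
  carrier := {z | ∃ e : ℕ, z ^ ringExpChar Ω ^ e ∈ E}
  mul_mem' := by
    rintro a b ⟨e, he⟩ ⟨f, hf⟩
    refine ⟨e + f, ?_⟩
    rw [mul_pow]
    exact mul_mem (gb1_up he f) (add_comm f e ▸ gb1_up hf e)
  add_mem' := by
    rintro a b ⟨e, he⟩ ⟨f, hf⟩
    refine ⟨e + f, ?_⟩
    rw [add_pow_expChar_pow]
    exact add_mem (gb1_up he f) (add_comm f e ▸ gb1_up hf e)
  algebraMap_mem' := by
    intro b
    exact ⟨0, pow_mem (E.algebraMap_mem b) _⟩
  inv_mem' := by
    rintro a ⟨e, he⟩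
    refine ⟨e, ?_⟩
    rw [inv_pow]
    exact inv_mem he

theorem mem_perf {E : IntermediateField B Ω} {z : Ω} :
    z ∈ perf E ↔ ∃ e : ℕ, z ^ ringExpChar Ω ^ e ∈ E := Iff.rfl

theorem le_perf (E : IntermediateField B Ω) : E ≤ perf E := by
  intro z hz
  exact ⟨0, pow_mem hz _⟩

/-- The Frobenius is injective. -/
theorem fix_perf {E : IntermediateField B Ω} {g : Ω ≃ₐ[B] Ω} (hg : g ∈ E.fixingSubgroup) :
    g ∈ (perf E).fixingSubgroup := by
  rw [IntermediateField.mem_fixingSubgroup_iff] at hg ⊢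
  rintro z ⟨e, he⟩
  apply iterateFrobenius_inj Ω (ringExpChar Ω) e
  rw [iterateFrobenius_def, iterateFrobenius_def, ← map_pow, hg _ he]

/-- `perf E` is a perfect field (`Ω` has all roots), and `Ω` is an algebraic closure of it. -/
theorem galois_perf (E : IntermediateField B Ω) : IsGalois (perf E) Ω := by
  have h1 : ExpChar (perf E) (ringExpChar Ω) :=
    (algebraMap (perf E) Ω).expChar (algebraMap (perf E) Ω).injective _
  have h2 : PerfectRing (perf E) (ringExpChar Ω) := PerfectRing.ofSurjective _ _ fun y => by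
    obtain ⟨y, e, he⟩ := y
    obtain ⟨w, rfl⟩ := IsAlgClosed.exists_pow_nat_eq y (expChar_pos Ω (ringExpChar Ω))
    exact ⟨⟨w, e + 1, by rwa [pow_succ', pow_mul]⟩, Subtype.ext (by simp [frobenius_def])⟩
  have h3 := PerfectRing.toPerfectField (perf E) (ringExpChar Ω)
  have h4 : IsAlgClosure (perf E) Ω := ⟨inferInstance, inferInstance⟩
  exact ⟨⟩

theorem gb1_fix {E : IntermediateField B Ω} (g : Ω ≃ₐ[perf E] Ω) :
    g.restrictScalars B ∈ E.fixingSubgroup := by
  rw [IntermediateField.mem_fixingSubgroup_iff]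
  exact fun z hz => g.commutes ⟨z, le_perf E hz⟩

/-- `galois_perf` and `InfiniteGalois.mem_range_algebraMap_iff_fixed` (an automorphism over
`perf E` restricts scalars to one over `B` that fixes `E`). -/
theorem fix_pow (E : IntermediateField B Ω) {z : Ω} (h : ∀ g ∈ E.fixingSubgroup, g z = z) :
    ∃ e : ℕ, z ^ ringExpChar Ω ^ e ∈ E := by
  have h1 := galois_perf E
  obtain ⟨w, rfl⟩ := (InfiniteGalois.mem_range_algebraMap_iff_fixed (k := perf E) z).2
    fun g => h _ (gb1_fix g)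
  exact w.2

/-- `trans_val` over the perfect closure of `E` in `Ω`, over which `Ω` is Galois. -/
theorem trans_fix (E : IntermediateField B Ω) (O₁ O₂ : ValuationSubring Ω)
    (h : ∀ a ∈ E, a ∈ O₁ ↔ a ∈ O₂) : ∃ g ∈ E.fixingSubgroup, tr g O₁ = O₂ := by
  have h1 := galois_perf E
  have key : ∀ (O : ValuationSubring Ω) (z : Ω) (e : ℕ), z ^ ringExpChar Ω ^ e ∈ O ↔ z ∈ O :=
    fun O z e => by
      rw [← O.valuation_le_one_iff, ← O.valuation_le_one_iff, map_pow,
        pow_le_one_iff (expChar_pow_pos Ω (ringExpChar Ω) e).ne']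
  obtain ⟨g, hg⟩ := trans_val (M := perf E) O₁ O₂ (by
    rintro ⟨z, e, he⟩
    exact (key O₁ z e).symm.trans ((h _ he).trans (key O₂ z e)))
  refine ⟨g.restrictScalars B, gb1_fix g, ?_⟩
  ext z
  obtain ⟨w, rfl⟩ := (g.restrictScalars B).surjective z
  exact mem_tr.trans (hg w)

theorem gb1_alg {K : Type} [Field K] (φ : K →+* Ω) (h : ∀ b : B, ∃ k, φ k = algebraMap B Ω b) :
    letI := φ.toAlgebra
    IsAlgClosure K Ω := by
  letI := φ.toAlgebra
  refine ⟨inferInstance, ⟨fun z => ?_⟩⟩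
  obtain ⟨p, h1, h2⟩ := Algebra.IsAlgebraic.isAlgebraic (R := B) z
  obtain ⟨q, hq⟩ := (mem_lifts _).1 ((lifts_iff_coeff_lifts (f := φ)
    (p.map (algebraMap B Ω))).2 fun n => by
      rw [coeff_map]
      exact h _)
  refine ⟨q, fun h0 => h1 ?_, ?_⟩
  · rw [h0, Polynomial.map_zero] at hq
    exact (Polynomial.map_eq_zero _).1 hq.symm
  · rw [aeval_def, eval₂_eq_eval_map] at h2 ⊢
    exact (congrArg (eval z) hq).trans h2

theorem gb1_ext {K : Type} [Field K] (φ₁ φ₂ : K →+* Ω)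
    (h : ∀ b : B, ∃ k, φ₁ k = algebraMap B Ω b ∧ φ₂ k = algebraMap B Ω b) :
    ∃ g : Ω ≃ₐ[B] Ω, ∀ k, g (φ₁ k) = φ₂ k := by
  have h1 := gb1_alg φ₁ fun b => (h b).imp fun _ a => a.1
  have h2 := gb1_alg φ₂ fun b => (h b).imp fun _ a => a.2
  let g := @IsAlgClosure.equiv K _ _ Ω Ω _ _ φ₂.toAlgebra _ h2 φ₁.toAlgebra _ h1
  have hg : ∀ k, g (φ₁ k) = φ₂ k := fun k =>
    @AlgEquiv.commutes K Ω Ω _ _ _ φ₁.toAlgebra φ₂.toAlgebra g k
  let g' : Ω ≃+* Ω := @AlgEquiv.toRingEquiv K Ω Ω _ _ _ φ₁.toAlgebra φ₂.toAlgebra g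
  refine ⟨AlgEquiv.ofRingEquiv (f := g') fun b => ?_, hg⟩
  obtain ⟨k, a1, a2⟩ := h b
  exact (congrArg g a1.symm).trans ((hg k).trans a2)

/-- Two homomorphisms with the same kernel that agree on enough elements are conjugate. -/
theorem exists_conj {S : Type} [CommRing S] (τ₁ τ₂ : S →+* Ω) (hk : ∀ s, τ₁ s = 0 ↔ τ₂ s = 0)
    (hB : ∀ b : B, ∃ s t, τ₁ t ≠ 0 ∧ algebraMap B Ω b * τ₁ t = τ₁ s ∧
      algebraMap B Ω b * τ₂ t = τ₂ s) : ∃ g : Ω ≃ₐ[B] Ω, ∀ s, g (τ₁ s) = τ₂ s := by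
  have hp : (RingHom.ker τ₁).IsPrime := RingHom.ker_isPrime τ₁
  have i1 : Function.Injective (Ideal.Quotient.lift (RingHom.ker τ₁) τ₁ fun _ h => h) :=
    RingHom.lift_injective_of_ker_le_ideal _ _ le_rfl
  have i2 : Function.Injective
      (Ideal.Quotient.lift (RingHom.ker τ₁) τ₂ fun s h => (hk s).1 h) :=
    RingHom.lift_injective_of_ker_le_ideal _ _ fun s h => (hk s).2 h
  obtain ⟨g, hg⟩ := gb1_ext (B := B) (K := FractionRing (S ⧸ RingHom.ker τ₁))
    (IsFractionRing.lift i1) (IsFractionRing.lift i2) fun b => by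
      obtain ⟨s, t, h0, h1, h2⟩ := hB b
      refine ⟨algebraMap _ _ (Ideal.Quotient.mk (RingHom.ker τ₁) s) /
        algebraMap _ _ (Ideal.Quotient.mk (RingHom.ker τ₁) t), ?_, ?_⟩
      · rw [map_div₀, IsFractionRing.lift_algebraMap, IsFractionRing.lift_algebraMap,
          Ideal.Quotient.lift_mk, Ideal.Quotient.lift_mk, div_eq_iff h0, h1]
      · rw [map_div₀, IsFractionRing.lift_algebraMap, IsFractionRing.lift_algebraMap,
          Ideal.Quotient.lift_mk, Ideal.Quotient.lift_mk, div_eq_iff (mt (hk t).2 h0), h2]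
  refine ⟨g, fun s => ?_⟩
  have h1 := hg (algebraMap _ _ (Ideal.Quotient.mk (RingHom.ker τ₁) s))
  rwa [IsFractionRing.lift_algebraMap, IsFractionRing.lift_algebraMap, Ideal.Quotient.lift_mk,
    Ideal.Quotient.lift_mk] at h1

end

end Pool.Agent.Lib.MP_16ef92_ag.ET
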