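import Mathlib
import Pool.Agent.Lib.MP_16ef92_ag.Ext
import Pool.Agent.Lib.MP_16ef92_ag.ET.GalB1

set_option autoImplicit false
set_option linter.unusedSectionVars false
set_option linter.unusedVariables false

namespace Pool.Agent.Lib.MP_16ef92_ag.ET

open Polynomial
open scoped Classical

noncomputable section

variable {B Ω : Type} [Field B] [Field Ω] [Algebra B Ω]

/-- Ternary quadratic forms over the fixed fields of the open subgroups of `H` are isotropic. -/
def Quad (H : Subgroup (Ω ≃ₐ[B] Ω)) : Prop :=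
  ∀ H₁ : Subgroup (Ω ≃ₐ[B] Ω), H₁ ≤ H → (Near fun g => g ∈ H → g ∈ H₁) → ∀ cf : Fin 3 → Ω,
    (∀ i, ∀ g ∈ H₁, g (cf i) = cf i) →
      ∃ x : Fin 3 → Ω, x ≠ 0 ∧ (∀ i, ∀ g ∈ H₁, g (x i) = x i) ∧ ∑ i, cf i * x i ^ 2 = 0

theorem quad_geo {F : Type} [Field F] [Clos F] [Fintype F] [hq : Fact (Odd (Fintype.card F))] :
    Quad (Geo F) := fun H h1 h2 cf h3 => geo_tsen H h1 h2 cf h3

/-- As `geo_tsen`: with `S'` the finite set for `H₁`, a power `cf i ^ p ^ e` lies in the finite
extension `K(w)(S, S')` (`fix_pow`); the fixed field of `H₁` in it is finite over `K(w)`; apply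
`tsen` and take `p ^ e`-th roots. -/
theorem quad_fix [IsAlgClosed Ω] [Algebra.IsAlgebraic B Ω] (K : Subfield Ω) [IsAlgClosed K] (w : Ω)
    (hw : Transcendental K w) (hB : ∀ b : B, algebraMap B Ω b ∈ Subfield.closure (K ∪ {w} : Set Ω))
    (S : Finset Ω) :
    Quad (IntermediateField.adjoin B ((K : Set Ω) ∪ {w} ∪ S)).fixingSubgroup := by
  intro H₁ hH _ cf hcf
  let L : IntermediateField K Ω := IntermediateField.adjoin K ({w} : Set Ω)
  have hKL : ∀ b : B, algebraMap B Ω b ∈ L := fun b =>
    (Subfield.closure_le (t := L.toSubfield)).2 (by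
      rintro z (hz | hz)
      · exact L.algebraMap_mem ⟨z, hz⟩
      · exact IntermediateField.subset_adjoin K _ hz) (hB b)
  have hfL : ∀ g ∈ H₁, ∀ z ∈ L, g z = z := by
    intro g hg z hz
    have hg' := (IntermediateField.mem_fixingSubgroup_iff _ _).1 (hH hg)
    induction hz using IntermediateField.adjoin_induction with
    | mem x hx => exact hg' x (IntermediateField.subset_adjoin B _ (Or.inl (Or.inr hx)))
    | algebraMap x => exact hg' x (IntermediateField.subset_adjoin B _ (Or.inl (Or.inl x.2)))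
    | add x y _ _ h1 h2 => rw [map_add, h1, h2]
    | inv x _ h1 => rw [map_inv₀, h1]
    | mul x y _ _ h1 h2 => rw [map_mul, h1, h2]
  let _ : Algebra B L := ((algebraMap B Ω).codRestrict L hKL).toAlgebra
  have : IsScalarTower B L Ω := IsScalarTower.of_algebraMap_eq fun _ => rfl
  let M : IntermediateField L Ω := IntermediateField.adjoin L (Set.range cf)
  have : FiniteDimensional L M := IntermediateField.finiteDimensional_adjoin fun z _ =>
    (Algebra.IsIntegral.isIntegral (R := B) z).tower_top
  have hfM : ∀ g ∈ H₁, ∀ z ∈ M, g z = z := by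
    intro g hg z hz
    induction hz using IntermediateField.adjoin_induction with
    | mem x hx =>
      obtain ⟨i, rfl⟩ := hx
      exact hcf i g hg
    | algebraMap x => exact hfL g hg x x.2
    | add x y _ _ h1 h2 => rw [map_add, h1, h2]
    | inv x _ h1 => rw [map_inv₀, h1]
    | mul x y _ _ h1 h2 => rw [map_mul, h1, h2]
  obtain ⟨x, hx0, hx⟩ := tsen (k := K) (L := L) (M := M) (IntermediateField.AdjoinSimple.gen _ _)
    ((transcendental_algebraMap_iff (algebraMap L Ω).injective).1 hw) (by
      intro z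
      obtain ⟨p, q, e⟩ := (IntermediateField.mem_adjoin_simple_iff K z.1).1 z.2
      refine ⟨p, q, (algebraMap L Ω).injective ?_⟩
      rw [map_div₀, ← aeval_algebraMap_apply, ← aeval_algebraMap_apply]
      exact e) (fun i => ⟨cf i, IntermediateField.subset_adjoin L _ ⟨i, rfl⟩⟩)
  refine ⟨fun i => x i, fun e => hx0 (funext fun i => Subtype.ext (congrFun e i)),
    fun i g hg => hfM g hg _ (x i).2, ?_⟩
  have := congrArg (algebraMap M Ω) hx
  rw [map_sum, map_zero] at this
  exact this

end

end Pool.Agent.Lib.MP_16ef92_ag.ET
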