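import Mathlib
import Pool.Agent.Lib.MP_16ef92_ag.ET.GalB
import Pool.Agent.Lib.MP_16ef92_ag.ET.Tsen2a
import Pool.Agent.Lib.MP_16ef92_ag.ET.Tsen2b

set_option autoImplicit false
set_option linter.unusedSectionVars false
set_option linter.unusedVariables false

namespace Pool.Agent.Lib.MP_16ef92_ag.ET

open Polynomial
open scoped Classical

noncomputable section

variable {B Ω : Type} [Field B] [Field Ω] [Algebra B Ω]

instance uAct : MulDistribMulAction (Ω ≃ₐ[B] Ω) Ωˣ := inferInstance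

instance uAct' : MulAction (Ω ≃ₐ[B] Ω) Ωˣ := uAct.toMulAction

instance uAct'' : SMul (Ω ≃ₐ[B] Ω) Ωˣ := uAct.toSMul

/-- A normalised 2-cocycle on `G` with invariant values, trivial near the identity. -/
structure Co (G : Subgroup (Ω ≃ₐ[B] Ω)) where
  c : (Ω ≃ₐ[B] Ω) → (Ω ≃ₐ[B] Ω) → Ωˣ
  fix : ∀ g ∈ G, ∀ h ∈ G, ∀ l ∈ G, l • c g h = c g h
  assoc : ∀ g ∈ G, ∀ h ∈ G, ∀ l ∈ G, c g h * c (g * h) l = c h l * c g (h * l)
  one : ∀ g ∈ G, c g 1 = 1 ∧ c 1 g = 1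
  near : Near fun h => h ∈ G → ∀ g ∈ G, c g h = 1 ∧ c h g = 1

variable {G : Subgroup (Ω ≃ₐ[B] Ω)}

/-- The extension attached to a cocycle. -/
@[ext] structure Co.Ex (C : Co G) where
  a : Ωˣ
  g : G

instance (C : Co G) : Mul C.Ex :=
  ⟨fun x y => ⟨x.a * (x.g : Ω ≃ₐ[B] Ω) • y.a * C.c x.g y.g, x.g * y.g⟩⟩

instance (C : Co G) : One C.Ex := ⟨⟨1, 1⟩⟩

instance (C : Co G) : Inv C.Ex :=
  ⟨fun x => ⟨((x.g⁻¹ : G) : Ω ≃ₐ[B] Ω) • x.a⁻¹ * (C.c (x.g⁻¹ : G) x.g)⁻¹, x.g⁻¹⟩⟩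

theorem Co.Ex.mul_a {C : Co G} (x y : C.Ex) :
    (x * y).a = x.a * (x.g : Ω ≃ₐ[B] Ω) • y.a * C.c x.g y.g := rfl

theorem Co.Ex.mul_g {C : Co G} (x y : C.Ex) : (x * y).g = x.g * y.g := rfl

instance (C : Co G) : Group C.Ex :=
  Group.ofLeftAxioms
    (fun x y z => by
      refine Co.Ex.ext ?_ (mul_assoc _ _ _)
      have := C.assoc _ x.g.2 _ y.g.2 _ z.g.2
      simp only [Co.Ex.mul_a, Co.Ex.mul_g, smul_mul', C.fix _ y.g.2 _ z.g.2 _ x.g.2,
        Subgroup.coe_mul, mul_smul]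
      calc _ = x.a * (x.g : Ω ≃ₐ[B] Ω) • y.a * (x.g : Ω ≃ₐ[B] Ω) • (y.g : Ω ≃ₐ[B] Ω) • z.a *
            (C.c x.g y.g * C.c (x.g * y.g) z.g) := by
            simp only [mul_assoc, mul_comm, mul_left_comm]
        _ = _ := by
            rw [this]
            simp only [mul_assoc, mul_comm, mul_left_comm])
    (fun x => by
      refine Co.Ex.ext ?_ (one_mul _)
      change 1 * (1 : Ω ≃ₐ[B] Ω) • x.a * C.c 1 x.g = x.a
      rw [(C.one _ x.g.2).2, one_smul, one_mul, mul_one])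
    (fun x => by
      refine Co.Ex.ext ?_ (inv_mul_cancel _)
      change ((x.g⁻¹ : G) : Ω ≃ₐ[B] Ω) • x.a⁻¹ * (C.c (x.g⁻¹ : G) x.g)⁻¹ *
        ((x.g⁻¹ : G) : Ω ≃ₐ[B] Ω) • x.a * C.c (x.g⁻¹ : G) x.g = 1
      rw [smul_inv', mul_right_comm _ _ (_ • _), inv_mul_cancel, one_mul, inv_mul_cancel])

/-- A splitting of the cocycle on the subgroup `H`. -/
def Co.Sec (C : Co G) (H : Subgroup (Ω ≃ₐ[B] Ω)) : Prop :=
  ∃ a : (Ω ≃ₐ[B] Ω) → Ω, (∀ g ∈ H, a g ≠ 0) ∧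
    (∀ g ∈ H, ∀ h ∈ H, a (g * h) = a g * g (a h) * C.c g h) ∧
    Near fun g => g ∈ H → a g = 1

theorem Co.step [Algebra.IsAlgebraic B Ω] (h2 : (2 : Ω) ≠ 0) (hQ : Quad G) (C : Co G)
    (H H' : Subgroup (Ω ≃ₐ[B] Ω)) (hle : H ≤ H') (hG : H' ≤ G)
    (hn : Near fun g => g ∈ G → g ∈ H)
    (hidx : ∀ g ∈ H', ∀ h ∈ H', g ∉ H → h ∉ H → g * h ∈ H) (hS : C.Sec H) : C.Sec H' := by
  by_cases heq : H' ≤ H
  · rwa [le_antisymm heq hle]
  obtain ⟨g₀, hg₀, h0⟩ := SetLike.not_le_iff_exists.1 heq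
  obtain ⟨a, ha0, ham, han⟩ := hS
  have hi0 : g₀⁻¹ ∉ H := fun e => h0 (by simpa using H.inv_mem e)
  have hnm : ∀ g, g ∉ H → ∀ h ∈ H, h * g ∉ H ∧ g * h ∉ H := fun g hg h hh =>
    ⟨fun e => hg (by simpa using H.mul_mem (H.inv_mem hh) e),
      fun e => hg (by simpa using H.mul_mem e (H.inv_mem hh))⟩
  have hc : ∀ h ∈ H, g₀⁻¹ * h * g₀ ∈ H := fun h hh =>
    hidx _ (H'.mul_mem (H'.inv_mem hg₀) (hle hh)) _ hg₀ (hnm _ hi0 h hh).2 h0
  have hc' : ∀ h ∈ H, g₀ * h * g₀⁻¹ ∈ H := fun h hh =>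
    hidx _ (H'.mul_mem hg₀ (hle hh)) _ (H'.inv_mem hg₀) (hnm _ h0 h hh).2 hi0
  have hH' : ∀ g ∈ H', g ∈ H ∨ g₀⁻¹ * g ∈ H := fun g hg =>
    (em (g ∈ H)).imp id fun h => hidx _ (H'.inv_mem hg₀) _ hg hi0 h
  let p : C.Ex →* (Ω ≃ₐ[B] Ω) := MonoidHom.mk' (fun x => x.g) fun _ _ => rfl
  let i : Ωˣ →* C.Ex := MonoidHom.mk' (fun b => ⟨b, 1⟩) fun b b' => by
    refine Co.Ex.ext ?_ (one_mul _).symm
    change b * b' = b * (1 : Ω ≃ₐ[B] Ω) • b' * C.c 1 1
    rw [(C.one _ (one_mem _)).2, one_smul, mul_one]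
  let s : (Ω ≃ₐ[B] Ω) → C.Ex := fun g =>
    if h : g ∈ H then ⟨Units.mk0 _ (ha0 g h), ⟨g, hG (hle h)⟩⟩ else 1
  have hs : ∀ g (h : g ∈ H), s g = ⟨Units.mk0 _ (ha0 g h), ⟨g, hG (hle h)⟩⟩ :=
    fun g h => dif_pos h
  obtain ⟨y, hy0, hy⟩ := hilbert90 H' (fun g => if g ∈ H then (1 : Ω) else -1)
    (fun g _ => by split_ifs <;> simp) (by
      intro g hg h hh
      by_cases h1 : g ∈ H <;> by_cases h2 : h ∈ H
      · simp [h1, h2, H.mul_mem h1 h2]
      · simp [h1, h2, (hnm h h2 g h1).1]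
      · simp [h1, h2, (hnm g h1 h h2).2]
      · simp [h1, h2, hidx g hg h hh h1 h2])
    (hn.mono fun g hg hg' => if_pos (hg (hG hg')))
  have hy1 : ∀ g ∈ H, g y = y := fun g hg => by simpa [hg] using hy g (hle hg)
  have hy2 : g₀ y = -y := by simpa [h0] using hy g₀ hg₀
  obtain ⟨s', e1, e2, e3⟩ := ext_step p i (fun b b' e => congrArg Co.Ex.a e)
    (fun e he => ⟨e.a, Co.Ex.ext rfl (Subtype.ext he)⟩) (fun _ => rfl) (by
      intro e b
      refine Co.Ex.ext ?_ ((mul_one _).trans (one_mul _).symm)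
      change e.a * (e.g : Ω ≃ₐ[B] Ω) • b * C.c e.g 1 =
        (e.g : Ω ≃ₐ[B] Ω) • b * (1 : Ω ≃ₐ[B] Ω) • e.a * C.c 1 e.g
      rw [(C.one _ e.g.2).1, (C.one _ e.g.2).2, one_smul, mul_comm e.a])
    H g₀ ⟨1, ⟨g₀, hG hg₀⟩⟩ rfl hc hc' (hidx _ hg₀ _ hg₀ h0 h0) h0 s
    (fun h hh => by rw [hs h hh]; rfl) (by
      intro g hg h hh
      rw [hs g hg, hs h hh, hs _ (H.mul_mem hg hh)]
      exact Co.Ex.ext (Units.ext (ham g hg h hh)) rfl) (by
      intro z hz hzm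
      obtain ⟨b, hb0, hb⟩ := hilbert90 H (fun g => (z g : Ω)) (fun g _ => (z g).ne_zero)
        (fun g hg h hh => by rw [hzm g hg h hh]; rfl) (by
          refine ((han.and (han.conj g₀)).and (C.near.and (C.near.conj g₀))).mono ?_
          rintro h ⟨⟨h1, h2⟩, h3, h4⟩ hh
          have h5 := congrArg (fun x => (x.a : Ω)) (hz h hh)
          rw [hs h hh, hs _ (hc h hh)] at h5
          change 1 * g₀ (a (g₀⁻¹ * h * g₀)) * (C.c g₀ (g₀⁻¹ * h * g₀) : Ω) =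
            z h * (1 : Ω ≃ₐ[B] Ω) (a h) * (C.c 1 h : Ω) * (1 * h) 1 * (C.c (1 * h) g₀ : Ω) at h5
          rw [h1 hh, h2 (hc h hh), one_mul h, (h3 (hG (hle hh)) _ (hG hg₀)).2,
            (h4 (hG (hle (hc h hh))) _ (hG hg₀)).1, (C.one _ (hG (hle hh))).2] at h5
          simpa using h5.symm)
      exact ⟨Units.mk0 b hb0, fun h hh => Units.ext (hb h hh)⟩) (by
      intro b hb1 hb2
      have hfix : ∀ z : Ω, (∀ h ∈ H, h z = z) → g₀ z = z → ∀ g ∈ H', g z = z := by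
        intro z h1 h2 g hg
        rcases hH' g hg with h | h
        · exact h1 g h
        · have := congrArg g₀ (h1 _ h)
          rwa [AlgEquiv.mul_apply, self_apply_inv, h2] at this
      obtain ⟨x, hx0, hx, hx1⟩ := hQ H' hG (hn.mono fun g hg hg' => hle (hg hg'))
        ![1, -y ^ 2, -b] (by
          intro j
          fin_cases j
          · simp
          · exact hfix _ (fun h hh => by simp [hy1 h hh]) (by simp [hy2])
          · exact hfix _ (fun h hh => by simpa using congrArg Units.val (hb1 h hh))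
              (by simpa using congrArg Units.val hb2))
      simp only [Fin.sum_univ_three, Matrix.cons_val] at hx1
      have h6 : x 2 ≠ 0 := by
        intro h6
        have h3 : x 0 ^ 2 = (y * x 1) ^ 2 := by rw [h6] at hx1; linear_combination hx1
        have h4 : x 0 = 0 := by
          have h7 : x 0 = -x 0 := by
            rcases sq_eq_sq_iff_eq_or_eq_neg.1 h3 with h5 | h5
            · conv_lhs => rw [← hx 0 g₀ hg₀, h5, map_mul, hy2, hx 1 g₀ hg₀, neg_mul, ← h5]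
            · conv_lhs =>
                rw [← hx 0 g₀ hg₀, h5, map_neg, map_mul, hy2, hx 1 g₀ hg₀, neg_mul, ← h5]
          have : 2 * x 0 = 0 := by linear_combination h7
          exact (mul_eq_zero.1 this).resolve_left h2
        have h5 : x 1 = 0 := by
          rw [h4] at h3
          simpa [hy0] using h3.symm
        apply hx0
        funext j
        fin_cases j <;> assumption
      have h3 : (x 0 + y * x 1) / x 2 * g₀ ((x 0 + y * x 1) / x 2) = b := by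
        rw [map_div₀, map_add, map_mul, hy2, hx 0 _ hg₀, hx 1 _ hg₀, hx 2 _ hg₀]
        field_simp
        linear_combination hx1
      refine ⟨Units.mk0 _ (left_ne_zero_of_mul (h3 ▸ b.ne_zero)), fun h hh => Units.ext ?_,
        Units.ext h3⟩
      change h ((x 0 + y * x 1) / x 2) = (x 0 + y * x 1) / x 2
      rw [map_div₀, map_add, map_mul, hy1 h hh, hx 0 _ (hle hh), hx 1 _ (hle hh), hx 2 _ (hle hh)])
  refine ⟨fun g => (s' g).a, fun g _ => (s' g).a.ne_zero, fun g hg h hh => ?_, ?_⟩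
  · have h1 : ((s' g).g : Ω ≃ₐ[B] Ω) = g := e2 g (hH' g hg)
    have h2 : ((s' h).g : Ω ≃ₐ[B] Ω) = h := e2 h (hH' h hh)
    beta_reduce
    rw [e3 g (hH' g hg) h (hH' h hh), Co.Ex.mul_a, h1, h2]
    rfl
  · refine (hn.and han).mono fun g hg hg' => ?_
    have := hg.1 (hG hg')
    beta_reduce
    rw [e1 g this, hs g this]
    exact hg.2 this

theorem Co.phi [IsSepClosed Ω] [Algebra.IsAlgebraic B Ω] (h2 : (2 : Ω) ≠ 0) (C : Co G) {n : ℕ}
    (H : Subgroup (Ω ≃ₐ[B] Ω)) (hR : ∀ g ∈ H, Ru g)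
    (hp : ∀ g ∈ H, ∀ h ∈ H, (C.c g h : Ω) ^ 2 ^ n = 1) (hS : C.Sec H) :
    ∃ f : (Ω ≃ₐ[B] Ω) → Ω, (∀ g ∈ H, f g ^ 2 ^ n = 1) ∧
      (∀ g ∈ H, ∀ h ∈ H, f (g * h) = f g * f h * C.c g h) ∧ Near fun g => g ∈ H → f g = 1 := by
  obtain ⟨a, ha0, ham, han⟩ := hS
  obtain ⟨b, hb0, hb⟩ := hilbert90 H (fun g => a g ^ 2 ^ n)
    (fun g hg => pow_ne_zero _ (ha0 g hg))
    (fun g hg h hh => by rw [ham g hg h hh, mul_pow, hp g hg h hh, mul_one, mul_pow, map_pow])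
    (han.mono fun g hg hg' => by rw [hg hg', one_pow])
  have : NeZero ((2 ^ n : ℕ) : Ω) := ⟨by push_cast; exact pow_ne_zero _ h2⟩
  obtain ⟨w, hw⟩ := IsSepClosed.exists_pow_nat_eq b (2 ^ n)
  have hw0 : w ≠ 0 := fun e => hb0 (by rw [← hw, e]; simp)
  have h1 : ∀ g ∈ H, (a g * w / g w) ^ 2 ^ n = 1 := fun g hg => by
    rw [div_pow, mul_pow, ← map_pow, hw, hb g hg,
      div_self (mul_ne_zero (pow_ne_zero _ (ha0 g hg)) hb0)]
  refine ⟨fun g => a g * w / g w, h1, fun g hg h hh => ?_, ?_⟩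
  · beta_reduce
    rw [← hR g hg n _ (h1 h hh), ham g hg h hh, AlgEquiv.mul_apply, map_div₀, map_mul]
    have h3 : g w ≠ 0 := by simpa using hw0
    have h4 : g (h w) ≠ 0 := by simpa using hw0
    field_simp
  · refine (han.and (Near.fix w)).mono fun g hg hg' => ?_
    beta_reduce
    rw [hg.1 hg', hg.2, one_mul, div_self hw0]

theorem exists_normal [Algebra.IsAlgebraic B Ω] {P : (Ω ≃ₐ[B] Ω) → Prop} (h : Near P) :
    ∃ N : Subgroup (Ω ≃ₐ[B] Ω), N.Normal ∧ N.FiniteIndex ∧ (∀ g ∈ N, P g) ∧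
      Near fun g => g ∈ N := by
  obtain ⟨S, hS⟩ := h
  let N₀ : Subgroup (Ω ≃ₐ[B] Ω) := ⨅ s ∈ S, MulAction.stabilizer (Ω ≃ₐ[B] Ω) s
  have hm : ∀ g, g ∈ N₀ ↔ ∀ s ∈ S, g s = s := fun g => by
    simp only [N₀, Subgroup.mem_iInf, MulAction.mem_stabilizer_iff, AlgEquiv.smul_def]
  have : N₀.FiniteIndex := Subgroup.finiteIndex_iInf' _ fun s _ => ⟨by
    rw [MulAction.index_stabilizer]
    refine Set.ncard_ne_zero_of_mem (MulAction.mem_orbit_self s)
      (((minpoly B s).rootSet_finite Ω).subset ?_)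
    rintro _ ⟨g, rfl⟩
    rw [mem_rootSet]
    refine ⟨minpoly.ne_zero (Algebra.IsIntegral.isIntegral _), ?_⟩
    change aeval (g s) _ = 0
    rw [aeval_algHom_apply, minpoly.aeval, map_zero]⟩
  refine ⟨N₀.normalCore, inferInstance, inferInstance,
    fun g hg => hS g ((hm g).1 (N₀.normalCore_le hg)), ?_⟩
  have : Near fun g => g ∈ N₀ := ⟨S, fun g hg => (hm g).2 hg⟩
  exact (near_normal this).mono fun g hg b => by simpa using hg b⁻¹

/-- Climbing to a subgroup of odd index. -/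
theorem Co.climb [Algebra.IsAlgebraic B Ω] (h2 : (2 : Ω) ≠ 0) (hQ : Quad G) (C : Co G) :
    ∃ P : Subgroup G, Odd P.index ∧ (Near fun g => g ∈ G → g ∈ P.map G.subtype) ∧
      C.Sec (P.map G.subtype) := by
  obtain ⟨N, hN, hNf, hN1, hN2⟩ := exists_normal C.near
  let π : G →* G ⧸ N.subgroupOf G := QuotientGroup.mk' _
  have hπ : Function.Surjective π := QuotientGroup.mk'_surjective _
  have hm : ∀ (K : Subgroup (G ⧸ N.subgroupOf G)) g,
      g ∈ (K.comap π).map G.subtype ↔ ∃ hg : g ∈ G, π ⟨g, hg⟩ ∈ K := by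
    intro K g
    constructor
    · rintro ⟨x, hx, rfl⟩
      exact ⟨x.2, hx⟩
    · rintro ⟨hg, h⟩
      exact ⟨⟨g, hg⟩, h, rfl⟩
  have hk : ∀ g (hg : g ∈ G), π ⟨g, hg⟩ = 1 ↔ g ∈ N := fun g hg => QuotientGroup.eq_one_iff _
  have hnear : ∀ K : Subgroup (G ⧸ N.subgroupOf G),
      Near fun g => g ∈ G → g ∈ (K.comap π).map G.subtype := fun K =>
    hN2.mono fun g hg hg' => (hm K g).2 ⟨hg', by rw [(hk g hg').2 hg]; exact K.one_mem⟩
  obtain ⟨a, m, hodd, hcard⟩ :=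
    Nat.exists_eq_two_pow_mul_odd (Nat.card_pos (α := G ⧸ N.subgroupOf G)).ne'
  have key : ∀ i ≤ a, ∃ K : Subgroup (G ⧸ N.subgroupOf G), Nat.card K = 2 ^ i ∧
      C.Sec ((K.comap π).map G.subtype) := by
    intro i
    induction i with
    | zero =>
      intro _
      refine ⟨⊥, by simp, fun _ => 1, fun _ _ => one_ne_zero, fun g hg h hh => ?_,
        Near.of_forall fun _ _ => rfl⟩
      obtain ⟨hg', _⟩ := (hm _ g).1 hg
      obtain ⟨hh', e⟩ := (hm _ h).1 hh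
      rw [(hN1 h ((hk h hh').1 (Subgroup.mem_bot.1 e)) hh' g hg').1]
      simp
    | succ i ih =>
      intro hi
      obtain ⟨K, hK, hS⟩ := ih (by omega)
      obtain ⟨K', hK', hle⟩ := Sylow.exists_subgroup_card_pow_succ (p := 2) (n := i)
        (by rw [hcard]; exact (pow_dvd_pow 2 hi).mul_right m) hK
      have hidx : (K.subgroupOf K').index = 2 := by
        have h3 := (K.subgroupOf K').index_mul_card
        rw [Nat.card_congr (Subgroup.subgroupOfEquivOfLe hle).toEquiv, hK, hK', pow_succ,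
          mul_comm] at h3
        exact Nat.eq_of_mul_eq_mul_left (by positivity) h3
      refine ⟨K', hK', C.step h2 hQ _ _ (Subgroup.map_mono (Subgroup.comap_mono hle))
        (Subgroup.map_subtype_le _) (hnear K) ?_ hS⟩
      intro g hg h hh h3 h4
      obtain ⟨hg', e⟩ := (hm _ g).1 hg
      obtain ⟨hh', e'⟩ := (hm _ h).1 hh
      have := (Subgroup.mul_mem_iff_of_index_two hidx (a := ⟨_, e⟩) (b := ⟨_, e'⟩)).2
        (iff_of_false (fun x => h3 ((hm _ g).2 ⟨hg', x⟩)) fun x => h4 ((hm _ h).2 ⟨hh', x⟩))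
      exact (hm _ _).2 ⟨G.mul_mem hg' hh', this⟩
  obtain ⟨K, hK, hS⟩ := key a le_rfl
  refine ⟨K.comap π, ?_, hnear K, hS⟩
  rw [K.index_comap_of_surjective hπ]
  have h3 := K.index_mul_card
  rw [hK, hcard, mul_comm] at h3
  rwa [Nat.eq_of_mul_eq_mul_left (by positivity) h3]

/-- Vanishing of `H^2(H, μ)`: normalise `c`, take an open normal subgroup `N` of finite index on
which it is trivial, climb from `N` to the preimage of a Sylow 2-subgroup of `H / N` by steps of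
index 2 (`ext_step`; copy `Ex`, `Sec`, `sec_step`, `phi_of_sec` of `Ext.lean` with `Geo F` replaced
by a subgroup), then `gaschutz`. -/
theorem h2_zero [IsSepClosed Ω] [Algebra.IsAlgebraic B Ω] (h2 : (2 : Ω) ≠ 0)
    (H : Subgroup (Ω ≃ₐ[B] Ω)) (hR : ∀ g ∈ H, Ru g) (hQ : Quad H) {n : ℕ}
    (c : (Ω ≃ₐ[B] Ω) → (Ω ≃ₐ[B] Ω) → Ω) (hp : ∀ g ∈ H, ∀ h ∈ H, c g h ^ 2 ^ n = 1)
    (hc : ∀ g ∈ H, ∀ h ∈ H, ∀ l ∈ H, c g h * c (g * h) l = c h l * c g (h * l))
    (hn : Cts2 H c) :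
    ∃ b : (Ω ≃ₐ[B] Ω) → Ω, (∀ g ∈ H, b g ^ 2 ^ n = 1) ∧ Cts H b ∧
      ∀ g ∈ H, ∀ h ∈ H, c g h * b (g * h) = b g * b h := by
  have hne : ∀ {x : Ω}, x ^ 2 ^ n = 1 → x ≠ 0 := fun hx e => by
    rw [e, zero_pow (by positivity)] at hx
    exact zero_ne_one hx
  have h11 := hp 1 H.one_mem 1 H.one_mem
  have e1 : ∀ g ∈ H, c g 1 = c 1 1 := fun g hg => by
    have := hc g hg 1 H.one_mem 1 H.one_mem
    rw [mul_one, mul_one] at this
    exact mul_right_cancel₀ (hne (hp g hg 1 H.one_mem)) this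
  have e2 : ∀ g ∈ H, c 1 g = c 1 1 := fun g hg => by
    have := hc 1 H.one_mem 1 H.one_mem g hg
    rw [mul_one, one_mul] at this
    exact (mul_right_cancel₀ (hne (hp 1 H.one_mem g hg)) this).symm
  have hp' : ∀ g ∈ H, ∀ h ∈ H, (c g h / c 1 1) ^ 2 ^ n = 1 := fun g hg h hh => by
    rw [div_pow, hp g hg h hh, h11, div_one]
  let u : Ω → Ωˣ := fun x => if hx : x = 0 then 1 else Units.mk0 x hx
  have hu : ∀ {x : Ω}, x ^ 2 ^ n = 1 → (u x : Ω) = x := fun hx => by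
    simp only [u, dif_neg (hne hx), Units.val_mk0]
  let C : Co H :=
    { c := fun g h => u (c g h / c 1 1)
      fix := fun g hg h hh l hl => Units.ext (by
        change l (u (c g h / c 1 1) : Ω) = _
        rw [hu (hp' g hg h hh)]
        exact hR l hl n _ (hp' g hg h hh))
      assoc := fun g hg h hh l hl => Units.ext (by
        rw [Units.val_mul, Units.val_mul, hu (hp' g hg h hh), hu (hp' _ (H.mul_mem hg hh) l hl),
          hu (hp' h hh l hl), hu (hp' g hg _ (H.mul_mem hh hl)), div_mul_div_comm,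
          div_mul_div_comm, hc g hg h hh l hl])
      one := fun g hg => ⟨Units.ext (by
          rw [hu (hp' g hg 1 H.one_mem), e1 g hg, div_self (hne h11), Units.val_one]),
        Units.ext (by rw [hu (hp' 1 H.one_mem g hg), e2 g hg, div_self (hne h11), Units.val_one])⟩
      near := Near.mono hn fun h hh hh' g hg => ⟨Units.ext (by
          have := (hh hh' g hg 1 H.one_mem).2
          rw [one_mul] at this
          rw [hu (hp' g hg h hh'), this, e1 g hg, div_self (hne h11), Units.val_one]),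
        Units.ext (by
          have := (hh hh' 1 H.one_mem g hg).1
          rw [one_mul] at this
          rw [hu (hp' h hh' g hg), this, e2 g hg, div_self (hne h11), Units.val_one])⟩ }
  have hC : ∀ g ∈ H, ∀ h ∈ H, (C.c g h : Ω) = c g h / c 1 1 := fun g hg h hh => hu (hp' g hg h hh)
  obtain ⟨P, hP, hPn, hS⟩ := C.climb h2 hQ
  have hPle : P.map H.subtype ≤ H := Subgroup.map_subtype_le _
  obtain ⟨f, hf1, hf2, hf3⟩ := C.phi (n := n) h2 _ (fun g hg => hR g (hPle hg))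
    (fun g hg h hh => by
      rw [hC g (hPle hg) h (hPle hh)]; exact hp' g (hPle hg) h (hPle hh)) hS
  obtain ⟨N, hN, -, hN1, hN2⟩ := exists_normal ((hPn.and hf3).and (Near.and hn C.near))
  have hPm : ∀ g : H, g ∈ P → (g : Ω ≃ₐ[B] Ω) ∈ P.map H.subtype := fun g hg => ⟨g, hg, rfl⟩
  let r : Ω → rootsOfUnity (2 ^ n) Ω := fun x =>
    if hx : x ^ 2 ^ n = 1 then rootsOfUnity.mkOfPowEq x hx else 1
  have hr : ∀ {x : Ω}, x ^ 2 ^ n = 1 → ((r x : Ωˣ) : Ω) = x := fun hx => by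
    simp only [r, dif_pos hx, rootsOfUnity.val_mkOfPowEq_coe]
  have hrm : ∀ {x y z w : Ω}, x ^ 2 ^ n = 1 → y ^ 2 ^ n = 1 → z ^ 2 ^ n = 1 → w ^ 2 ^ n = 1 →
      x * y = z * w → r x * r y = r z * r w := fun hx hy hz hw e => Subtype.ext (Units.ext (by
    rw [Subgroup.coe_mul, Subgroup.coe_mul, Units.val_mul, Units.val_mul, hr hx, hr hy, hr hz,
      hr hw, e]))
  have hb : ∀ g : H, g ∈ P → (c 1 1 / f g) ^ 2 ^ n = 1 := fun g hg => by
    rw [div_pow, h11, hf1 _ (hPm g hg), div_one]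
  obtain ⟨b, hb1, hb2⟩ := gaschutz (G := H) (A := rootsOfUnity (2 ^ n) Ω) (n := n)
    (fun a => Subtype.ext a.2) P (N.subgroupOf H) (fun g hg => by
      obtain ⟨x, hx, e⟩ := (hN1 g hg).1.1 g.2
      rwa [← Subtype.ext e]) hP (fun g h => r (c g h))
    (fun g h l => hrm (hp _ g.2 _ h.2) (hp _ (g * h).2 _ l.2) (hp _ h.2 _ l.2)
      (hp _ g.2 _ (h * l).2) (hc _ g.2 _ h.2 _ l.2))
    (fun h hh g l => ⟨congrArg r ((hN1 h hh).2.1 h.2 g g.2 l l.2).1,
      congrArg r ((hN1 h hh).2.1 h.2 g g.2 l l.2).2⟩) (fun g => r (c 1 1 / f g))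
    (fun g hg h hh => hrm (hp _ g.2 _ h.2) (hb _ (P.mul_mem hg hh)) (hb g hg) (hb h hh) (by
      have h3 := hne (hf1 _ (hPm g hg))
      have h4 := hne (hf1 _ (hPm h hh))
      have h5 := hne h11
      have h6 := hne (hp _ g.2 _ h.2)
      rw [Subgroup.coe_mul, hf2 _ (hPm g hg) _ (hPm h hh), hC _ g.2 _ h.2]
      field_simp))
    (fun h hh g hg => by
      have h3 := (hN1 h hh).1.1 h.2
      beta_reduce
      rw [Subgroup.coe_mul, hf2 _ (hPm g hg) _ h3, (hN1 h hh).1.2 h3,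
        ((hN1 h hh).2.2 h.2 g g.2).1, Units.val_one, mul_one, mul_one])
  refine ⟨fun g => if hg : g ∈ H then ((b ⟨g, hg⟩ : Ωˣ) : Ω) else 1, fun g hg => ?_,
    hN2.mono fun h hh hh' g hg => ?_, fun g hg h hh => ?_⟩
  · beta_reduce
    rw [dif_pos hg]
    exact (mem_rootsOfUnity' _ _).1 (b ⟨g, hg⟩).2
  · beta_reduce
    rw [dif_pos hg, dif_pos (H.mul_mem hg hh'), ← hb2 ⟨h, hh'⟩ hh ⟨g, hg⟩]
    rfl
  · have := congrArg (fun x : rootsOfUnity (2 ^ n) Ω => ((x : Ωˣ) : Ω)) (hb1 ⟨g, hg⟩ ⟨h, hh⟩)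
    simp only [Subgroup.coe_mul, Units.val_mul] at this
    rw [hr (hp g hg h hh)] at this
    beta_reduce
    rw [dif_pos hg, dif_pos hh, dif_pos (H.mul_mem hg hh)]
    exact this

end

end Pool.Agent.Lib.MP_16ef92_ag.ET
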