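import Mathlib
import Pool.Agent.Lib.MP_16ef92_ag.ET.CDef
import Pool.Agent.Lib.MP_16ef92_ag.ET.Tsen2

set_option autoImplicit false
set_option linter.unusedSectionVars false
set_option linter.unusedVariables false

namespace Pool.Agent.Lib.MP_16ef92_ag.ET

open Polynomial WeierstrassCurve WeierstrassCurve.Affine
open scoped Classical

noncomputable section

variable {B₀ B Ω : Type} [Field B₀] [Field B] [Field Ω] [Algebra B₀ B] [Algebra B Ω]
  [Algebra B₀ Ω] [IsScalarTower B₀ B Ω] [IsAlgClosed Ω] [Algebra.IsAlgebraic B Ω]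
  {W : WeierstrassCurve B₀} (C : CS B Ω W)

theorem line_fix {S : Set Ω} {g : Ω ≃ₐ[B] Ω} :
    g ∈ (IntermediateField.adjoin B S).fixingSubgroup ↔ ∀ c ∈ S, g c = c := by
  rw [IntermediateField.mem_fixingSubgroup_iff]
  refine ⟨fun h c hc => h c (IntermediateField.subset_adjoin _ _ hc), fun h c hc => ?_⟩
  induction hc using IntermediateField.adjoin_induction with
  | mem c hc => exact h c hc
  | algebraMap c => exact g.commutes c
  | add a b _ _ ha hb => rw [map_add, ha, hb]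
  | inv a _ ha => rw [map_inv₀, ha]
  | mul a b _ _ ha hb => rw [map_mul, ha, hb]

theorem line_aeval {σ : Type} [SetLike σ Ω] [SubringClass σ Ω] {S : σ} {K : IntermediateField B₀ Ω}
    (hK : ∀ c ∈ K, c ∈ S) {x : Ω} (hx : x ∈ S) (p : K[X]) : aeval x p ∈ S := by
  rw [aeval_eq_sum_range]
  exact sum_mem fun i _ => by
    rw [Algebra.smul_def]
    exact mul_mem (hK _ (p.coeff i).2) (pow_mem hx i)

namespace CS

instance kk_closed : IsAlgClosed (KK B₀ Ω) := IsAlgClosure.isAlgClosed B₀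

theorem kk_map (s : Ω ≃ₐ[B] Ω) {c : Ω} : s c ∈ KK B₀ Ω ↔ c ∈ KK B₀ Ω := by
  rw [mem_algebraicClosure_iff, mem_algebraicClosure_iff]
  exact isAlgebraic_algHom_iff (s.restrictScalars B₀ : Ω →ₐ[B₀] Ω) s.injective

theorem root_kk {c w : Ω} {m : ℕ} (hm : 0 < m) (hc : c ∈ KK B₀ Ω) (h : w ^ m = c) :
    w ∈ KK B₀ Ω :=
  mem_algebraicClosure_iff.2 (.of_pow hm (h ▸ mem_algebraicClosure_iff.1 hc))

theorem e_kk (i : Fin 3) : C.e i ∈ KK B₀ Ω := by
  obtain ⟨b, hb⟩ := C.eB i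
  exact hb ▸ algebraMap_mem _ b

theorem fix_e (g : Ω ≃ₐ[B] Ω) (i : Fin 3) : g (C.e i) = C.e i := by
  obtain ⟨b, hb⟩ := C.eB i
  rw [← hb, IsScalarTower.algebraMap_apply B₀ B Ω, g.commutes]

theorem fix_x (g : Ω ≃ₐ[B] Ω) : g C.x = C.x := by
  obtain ⟨b, hb⟩ := C.xB
  rw [← hb, g.commutes]

theorem x_trans : Transcendental (KK B₀ Ω) C.x := C.xtr.algebraicClosure

theorem mem_H' {g : Ω ≃ₐ[B] Ω} : g ∈ C.H' ↔ ∀ c ∈ KK B₀ Ω, g c = c := line_fix

theorem mem_H {g : Ω ≃ₐ[B] Ω} : g ∈ C.H ↔ (∀ c ∈ KK B₀ Ω, g c = c) ∧ g C.y = C.y :=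
  line_fix.trans ⟨fun h => ⟨fun c hc => h c (Or.inl hc), h _ (Or.inr rfl)⟩,
    fun h c hc => hc.elim (h.1 c) fun e => e ▸ h.2⟩

theorem ru_H' {g : Ω ≃ₐ[B] Ω} (hg : g ∈ C.H') : Ru g := fun m w hw =>
  C.mem_H'.1 hg w (root_kk (by positivity) (one_mem _) hw)

theorem H_le : C.H ≤ C.H' := fun g hg => C.mem_H'.2 (C.mem_H.1 hg).1

theorem conj_H {s h : Ω ≃ₐ[B] Ω} (hs : s C.y = C.y ∨ s C.y = -C.y) (hh : h ∈ C.H) :
    s⁻¹ * h * s ∈ C.H := by
  obtain ⟨h1, h2⟩ := C.mem_H.1 hh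
  refine C.mem_H.2 ⟨fun c hc => ?_, ?_⟩
  · rw [AlgEquiv.mul_apply, AlgEquiv.mul_apply, h1 _ ((kk_map s).2 hc), inv_apply_self]
  · have : h (s C.y) = s C.y := by rcases hs with e | e <;> simp only [e, map_neg, h2]
    rw [AlgEquiv.mul_apply, AlgEquiv.mul_apply, this, inv_apply_self]

theorem y_cases (g : Ω ≃ₐ[B] Ω) : g C.y = C.y ∨ g C.y = -C.y :=
  sq_eq_sq_iff_eq_or_eq_neg.1 (by
    rw [← map_pow, C.eqn]
    simp only [map_mul, map_sub, C.fix_e, C.fix_x])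

theorem hz_tr (s : Ω ≃ₐ[B] Ω) {O : ValuationSubring Ω} : C.Hz (tr s O) ↔ C.Hz O := by
  refine and_congr ⟨fun h c hc => mem_tr.1 (h _ ((kk_map s).2 hc)), fun h c hc => ?_⟩ ?_
  · obtain ⟨c, rfl⟩ := s.surjective c
    exact mem_tr.2 (h c ((kk_map s).1 hc))
  · conv_lhs => rw [← C.fix_x s]
    exact mem_tr

theorem Hz.val {C : CS B Ω W} {O : ValuationSubring Ω} (h : C.Hz O) {c : Ω} (hc : c ∈ KK B₀ Ω)
    (h0 : c ≠ 0) : O.valuation c = 1 := val_of_field (KK B₀ Ω).toSubfield h.1 hc h0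

theorem Hz.two {C : CS B Ω W} {O : ValuationSubring Ω} (h : C.Hz O) : O.valuation 2 = 1 :=
  h.val (ofNat_mem _ 2) C.cub.two

theorem Hz.y {C : CS B Ω W} {O : ValuationSubring Ω} (h : C.Hz O) : C.y ∈ O := by
  have h1 : ∀ i, C.x - C.e i ∈ O := fun i => sub_mem h.2 (h.1 _ (C.e_kk i))
  have h2 := (O.valuation_le_one_iff _).2 (mul_mem (mul_mem (h1 0) (h1 1)) (h1 2))
  rw [← C.eqn, map_pow] at h2
  exact (O.valuation_le_one_iff _).1 ((pow_le_one_iff_of_nonneg zero_le two_ne_zero).1 h2)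

theorem Hz.ine {C : CS B Ω W} {O : ValuationSubring Ω} (h : C.Hz O) : Inr B O ≤ C.H' :=
  fun g hg => C.mem_H'.2 fun c hc => by_contra fun e =>
    (hg c (h.1 c hc)).ne (h.val (sub_mem ((kk_map g).2 hc) hc) (sub_ne_zero.2 e))

theorem aeval_ne {p : (KK B₀ Ω)[X]} (hp : p ≠ 0) : aeval C.x p ≠ 0 := fun e =>
  C.x_trans ⟨p, hp, e⟩

theorem sub_ne {c : Ω} (hc : c ∈ KK B₀ Ω) : C.x - c ≠ 0 := by
  simpa using C.aeval_ne (X_sub_C_ne_zero ⟨c, hc⟩)

theorem kk_E' {c : Ω} (hc : c ∈ KK B₀ Ω) : c ∈ C.E' := IntermediateField.subset_adjoin _ _ hc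

theorem x_E' : C.x ∈ C.E' := by
  obtain ⟨b, hb⟩ := C.xB
  exact hb ▸ algebraMap_mem _ b

theorem mem_E' {a : Ω} : a ∈ C.E' ↔
    ∃ p q : (KK B₀ Ω)[X], q ≠ 0 ∧ a * aeval C.x q = aeval C.x p := by
  constructor
  · intro ha
    have h1 : a ∈ IntermediateField.adjoin (KK B₀ Ω) {C.x} := by
      induction ha using IntermediateField.adjoin_induction with
      | mem c hc => exact algebraMap_mem _ (⟨c, hc⟩ : KK B₀ Ω)
      | algebraMap c =>
        exact (IntermediateField.adjoin_le_iff (T := (IntermediateField.adjoin (KK B₀ Ω)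
          {C.x}).restrictScalars B₀)).2 (Set.singleton_subset_iff.2
            (IntermediateField.mem_adjoin_simple_self (KK B₀ Ω) C.x)) (C.gen c)
      | add a b _ _ ha hb => exact add_mem ha hb
      | inv a _ ha => exact inv_mem ha
      | mul a b _ _ ha hb => exact mul_mem ha hb
    obtain ⟨p, q, rfl⟩ := (IntermediateField.mem_adjoin_simple_iff _ _).1 h1
    by_cases hq : q = 0
    · exact ⟨0, 1, one_ne_zero, by simp [hq]⟩
    · exact ⟨p, q, hq, div_mul_cancel₀ _ (C.aeval_ne hq)⟩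
  · rintro ⟨p, q, hq, e⟩
    rw [eq_div_of_mul_eq (C.aeval_ne hq) e]
    exact div_mem (line_aeval (fun c => C.kk_E') C.x_E' p) (line_aeval (fun c => C.kk_E') C.x_E' q)

/-- `quad_fix` with `S = {y}`. -/
theorem quad_H : Quad C.H := by
  have : IsAlgClosed (KK B₀ Ω).toSubfield := kk_closed
  have h := quad_fix (B := B) (KK B₀ Ω).toSubfield C.x C.x_trans (fun b =>
    Subfield.closure_mono (Set.union_subset_union_left _ (by
      rintro _ ⟨c, rfl⟩
      exact algebraMap_mem (KK B₀ Ω) c)) (C.gen b)) {C.y}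
  rwa [show IntermediateField.fixingSubgroup _ = C.H from Subgroup.ext fun g => by
    rw [line_fix, mem_H]
    simp [or_imp, forall_and, C.fix_x, and_comm]] at h

theorem exists_hz {c : Ω} (hc : c ∈ KK B₀ Ω) : ∃ O, C.Hz O ∧ O.valuation (C.x - c) < 1 := by
  obtain ⟨O, h1, h2⟩ := exists_val (k := KK B₀ Ω) (x := C.x - c) fun h => C.x_trans (by
    simpa using h.add (isAlgebraic_algebraMap (⟨c, hc⟩ : KK B₀ Ω)))
  exact ⟨O, ⟨fun d hd => h1 ⟨d, hd⟩, gala_mem h2 (h1 ⟨c, hc⟩)⟩, h2⟩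

theorem aeval_fac {p : (KK B₀ Ω)[X]} (hp : p ≠ 0) : aeval C.x p =
    p.leadingCoeff * ∏ c ∈ p.roots.toFinset, (C.x - c) ^ p.rootMultiplicity c := by
  conv_lhs => rw [(IsAlgClosed.splits p).eq_prod_roots, prod_multiset_root_eq_finset_root]
  simp

/-- If all `x - c` are units then `O` contains `E'`, over which `Ω` is algebraic. -/
theorem hz_center {O : ValuationSubring Ω} (h : C.Hz O) (hne : O ≠ ⊤) :
    ∃ c ∈ KK B₀ Ω, O.valuation (C.x - c) < 1 := by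
  by_contra h0
  push Not at h0
  have h1 : ∀ p : (KK B₀ Ω)[X], p ≠ 0 → O.valuation (aeval C.x p) = 1 := fun p hp => by
    rw [C.aeval_fac hp, map_mul, h.val p.leadingCoeff.2 (by simpa using hp), one_mul, map_prod]
    refine Finset.prod_eq_one fun c _ => ?_
    rw [map_pow, le_antisymm ((O.valuation_le_one_iff _).2 (sub_mem h.2 (h.1 _ c.2))) (h0 _ c.2),
      one_pow]
  have h3 : ∀ y : B, O.valuation (algebraMap B Ω y) ≠ 0 → O.valuation (algebraMap B Ω y) = 1 := by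
    intro y hy
    obtain ⟨p, q, hq, e⟩ := C.mem_E'.1 (algebraMap_mem _ y)
    have := congrArg O.valuation e
    rwa [map_mul, h1 q hq, mul_one, h1 p fun e' => mul_ne_zero ((Valuation.ne_zero_iff _).1 hy)
      (C.aeval_ne hq) (by rw [e, e', map_zero])] at this
  refine hne (eq_top_iff.2 fun z _ => ?_)
  by_cases e0 : z = 0
  · exact e0 ▸ zero_mem O
  obtain ⟨p, hp0, hp⟩ := Algebra.IsAlgebraic.isAlgebraic (R := B) z
  obtain ⟨i, m, hm, a, b, e⟩ := two_terms O.valuation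
    ((Polynomial.map_ne_zero_iff (algebraMap B Ω).injective).2 hp0) e0
    (by rw [eval_map_algebraMap, hp])
  rw [coeff_map] at a b e
  rw [coeff_map, h3 _ ((Valuation.ne_zero_iff _).2 a), h3 _ ((Valuation.ne_zero_iff _).2 b),
    one_mul] at e
  exact (O.valuation_le_one_iff z).1 ((pow_le_one_iff_of_nonneg zero_le hm.ne').1 e.ge)

theorem Hz.other {C : CS B Ω W} {O : ValuationSubring Ω} (h : C.Hz O) {c d : Ω}
    (hc : c ∈ KK B₀ Ω) (hd : d ∈ KK B₀ Ω) (hv : O.valuation (C.x - c) < 1) (e : c ≠ d) :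
    O.valuation (C.x - d) = 1 := by
  have h1 := h.val (sub_mem hc hd) (sub_ne_zero.2 e)
  rw [← h1]
  exact O.valuation.map_eq_of_sub_lt (by rwa [sub_sub_sub_cancel_right, h1])

theorem Hz.mult {C : CS B Ω W} {O : ValuationSubring Ω} (h : C.Hz O) {c : KK B₀ Ω}
    (hv : O.valuation (C.x - c) < 1) {p : (KK B₀ Ω)[X]} (hp : p ≠ 0) :
    O.valuation (aeval C.x p) = O.valuation (C.x - c) ^ p.rootMultiplicity c := by
  rw [C.aeval_fac hp, map_mul, h.val p.leadingCoeff.2 (by simpa using hp), one_mul, map_prod,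
    Finset.prod_eq_single c (fun d _ e => by
      rw [map_pow, h.other c.2 d.2 hv fun e' => e (Subtype.ext e').symm, one_pow])
      fun e => by rw [rootMultiplicity_eq_zero fun e' => e (by simpa [hp] using e'), pow_zero,
        map_one], map_pow]

theorem disc_line {O : ValuationSubring Ω} (h : C.Hz O) {c : Ω} (hc : c ∈ KK B₀ Ω)
    (hv : O.valuation (C.x - c) < 1) : Disc C.E' O (C.x - c) := by
  refine ⟨sub_mem C.x_E' (C.kk_E' hc), C.sub_ne hc, hv, fun a ha h0 => ?_⟩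
  obtain ⟨p, q, hq, e⟩ := C.mem_E'.1 ha
  have hp : p ≠ 0 := fun e' => mul_ne_zero h0 (C.aeval_ne hq) (by rw [e, e', map_zero])
  refine ⟨(p.rootMultiplicity ⟨c, hc⟩ : ℤ) - q.rootMultiplicity ⟨c, hc⟩, ?_⟩
  rw [eq_div_of_mul_eq (C.aeval_ne hq) e, map_div₀, h.mult (c := ⟨c, hc⟩) hv hp,
    h.mult (c := ⟨c, hc⟩) hv hq, zpow_sub₀ ((Valuation.ne_zero_iff _).2 (C.sub_ne hc)),
    zpow_natCast, zpow_natCast]

theorem line_int {a : Ω} (ha : a ∈ C.E') (h : ∀ O, C.Hz O → a ∈ O) :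
    ∃ p : (KK B₀ Ω)[X], a = aeval C.x p := by
  obtain ⟨p, q, hq, e⟩ := C.mem_E'.1 ha
  have h1 : q ∣ p := by
    by_cases hp : p = 0
    · exact hp ▸ dvd_zero q
    refine (IsAlgClosed.splits q).dvd_of_roots_le_roots hq (Multiset.le_iff_count.2 fun c => ?_)
    obtain ⟨O, h2, h3⟩ := C.exists_hz c.2
    have h4 := mul_le_of_le_one_left' (b := O.valuation a) (a := O.valuation (aeval C.x q))
      ((O.valuation_le_one_iff _).2 (h O h2))
    rw [← map_mul, e, h2.mult h3 hp, h2.mult h3 hq, pow_le_pow_iff_right_of_lt_one₀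
      (zero_lt_iff.2 ((Valuation.ne_zero_iff _).2 (C.sub_ne c.2))) h3] at h4
    rwa [count_roots, count_roots]
  obtain ⟨r, rfl⟩ := h1
  exact ⟨r, mul_right_cancel₀ (C.aeval_ne hq) (by rw [e, map_mul, mul_comm])⟩

theorem line_unit {a : Ω} (ha : a ∈ C.E') (h : ∀ O, C.Hz O → O.valuation a = 1) :
    a ∈ KK B₀ Ω := by
  obtain ⟨p, rfl⟩ := C.line_int ha fun O hO => (O.valuation_le_one_iff _).1 (h O hO).le
  by_cases hp : p = 0
  · simp [hp]
  rw [C.aeval_fac hp, Finset.prod_eq_one fun c _ => ?_, mul_one]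
  · exact p.leadingCoeff.2
  obtain ⟨O, h2, h3⟩ := C.exists_hz c.2
  have h4 := h O h2
  rw [h2.mult h3 hp] at h4
  rw [by_contra fun e => (pow_lt_one₀ zero_le h3 e).ne h4, pow_zero]

/-- `kummer` gives `χ = kum n f` with `f` in `E'`; factor `f` into linear factors over `KK`; for
`c` outside `S` the exponent of `x - c` is divisible by `2^n` (`Disc.prim`, `kum_val`). -/
theorem line_char (S : Finset Ω) (hS : ∀ c ∈ S, c ∈ KK B₀ Ω) {n : ℕ} {χ : (Ω ≃ₐ[B] Ω) → Ω}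
    (h : Chr C.H' n χ) (h0 : ∀ O, C.Hz O → (∀ c ∈ S, O.valuation (C.x - c) = 1) →
      ∀ σ ∈ C.H' ⊓ Inr B O, χ σ = 1) :
    ∃ a : Ω → ℕ, ∀ g ∈ C.H', χ g = ∏ c ∈ S, kum n (C.x - c) g ^ a c := by
  have hfix : ∀ g ∈ C.H', ∀ z ∈ C.E', g z = z := fun g hg =>
    (IntermediateField.mem_fixingSubgroup_iff _ _).1 hg
  have hE : ∀ p : (KK B₀ Ω)[X], aeval C.x p ∈ C.E' := line_aeval (fun c => C.kk_E') C.x_E'
  obtain ⟨P, hP, h1⟩ : ∃ P : (KK B₀ Ω)[X], P ≠ 0 ∧ ∀ g ∈ C.H', χ g = kum n (aeval C.x P) g := by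
    obtain ⟨f, hf, hf0, h1⟩ := kummer C.cub.two C.E' (fun g => C.ru_H') h
    obtain ⟨p, q, hq, e⟩ := C.mem_E'.1 hf
    obtain ⟨m, hm⟩ : ∃ m, 2 ^ n = m + 1 := ⟨2 ^ n - 1, (Nat.sub_add_cancel Nat.one_le_two_pow).symm⟩
    have h2 := C.aeval_ne hq
    refine ⟨p * q ^ m, mul_ne_zero (fun e' => mul_ne_zero hf0 h2 (by rw [e, e', map_zero]))
      (pow_ne_zero _ hq), fun g hg => ?_⟩
    rw [map_mul, map_pow, ← e, mul_assoc, ← pow_succ', ← hm,
      kum_mul_left (C.ru_H' hg) hf0 (pow_ne_zero _ h2), kum_npow (C.ru_H' hg) h2,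
      kum_pow_one h2 (hfix g hg _ (hE q)), mul_one, h1 g hg]
  have h2 : ∀ c : KK B₀ Ω, (c : Ω) ∉ S → 2 ^ n ∣ P.rootMultiplicity c := fun c hc => by
    obtain ⟨O, h2, h3⟩ := C.exists_hz c.2
    have hD := C.disc_line h2 c.2 h3
    obtain ⟨g, hg, h4⟩ := hD.prim h2.two (fun g => C.ru_H') n
    refine h4.dvd_of_pow_eq_one _ ?_
    rw [← zpow_natCast, ← kum_val h2.two hg.2 (C.ru_H' hg.1) (hfix g hg.1 _ (hE P))
      (hfix g hg.1 _ hD.mem) hD.ne (by rw [h2.mult h3 hP, zpow_natCast]), ← h1 g hg.1]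
    exact h0 O h2 (fun d hd => h2.other c.2 (hS d hd) h3 fun e => hc (e ▸ hd)) g hg
  refine ⟨fun c => if hc : c ∈ KK B₀ Ω then P.rootMultiplicity ⟨c, hc⟩ else 0, fun g hg => ?_⟩
  have h3 := C.ru_H' hg
  have h4 : (P.leadingCoeff : Ω) ≠ 0 := by simpa using hP
  rw [h1 g hg, C.aeval_fac hP, kum_mul_left h3 h4
      (Finset.prod_ne_zero_iff.2 fun c _ => pow_ne_zero _ (C.sub_ne c.2)),
    kum_of_fix h3 h4 (rt_pow n _) (C.mem_H'.1 hg _ (root_kk (by positivity) P.leadingCoeff.2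
      (rt_pow n _))), one_mul, kum_prod h3 _ _ fun c _ => pow_ne_zero _ (C.sub_ne c.2),
    ← Finset.prod_subtype_of_mem _ hS]
  simp only [kum_npow h3 (C.sub_ne (Subtype.property _)), Subtype.property, dif_pos]
  refine (Finset.prod_subset Finset.subset_union_left fun c _ hc => ?_).trans
    (Finset.prod_subset Finset.subset_union_right fun c _ hc => ?_).symm
  · rw [rootMultiplicity_eq_zero fun e => hc (by simpa [hP] using e), pow_zero]
  · obtain ⟨k, hk⟩ := h2 c fun e => hc (Finset.mem_subtype.2 e)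
    rw [hk, pow_mul, kum_pow_one (C.sub_ne c.2) (hfix g hg _ (sub_mem C.x_E' (C.kk_E' c.2))),
      one_pow]

end CS

end

end Pool.Agent.Lib.MP_16ef92_ag.ET
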