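import Mathlib
import Pool.Agent.Lib.MP_16ef92_ag.ET.Line

set_option autoImplicit false
set_option linter.unusedSectionVars false
set_option linter.unusedVariables false

namespace Pool.Agent.Lib.MP_16ef92_ag.ET

open Polynomial WeierstrassCurve WeierstrassCurve.Affine
open scoped Classical

noncomputable section

variable {B₀ B Ω : Type} [Field B₀] [Field B] [Field Ω] [Algebra B₀ B] [Algebra B Ω]
  [Algebra B₀ Ω] [IsScalarTower B₀ B Ω] [IsAlgClosed Ω] [Algebra.IsAlgebraic B Ω]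
  {W : WeierstrassCurve B₀} (C : CS B Ω W)

section Crv1as

theorem InS.map {S : Set Ω} {P : PO Ω W} (h : InS S P) (g : Ω ≃ₐ[B] Ω)
    (hg : ∀ c ∈ S, g c = c) : pmO g P = P := by
  rcases P with _ | ⟨a, b, n⟩
  · rfl
  · obtain ⟨n', e⟩ := pmO_some g n
    rw [e]
    simp only [Point.some.injEq]
    exact ⟨hg a h.1, hg b h.2⟩

/-- The points with coordinates in a subfield are the image of `Point.map S.val`. -/
theorem inS_iff (S : IntermediateField B₀ Ω) {P : PO Ω W} : InS (S : Set Ω) P ↔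
    ∃ Q : (W.baseChange S).toAffine.Point, Point.map (W' := W.toAffine) S.val Q = P := by
  constructor
  · rcases P with _ | ⟨a, b, n⟩
    · exact fun _ => ⟨0, rfl⟩
    · exact fun h => ⟨.some ⟨a, h.1⟩ ⟨b, h.2⟩
        ((W.toAffine.baseChange_nonsingular (f := S.val) Subtype.val_injective _ _).1 n), rfl⟩
  · rintro ⟨_ | ⟨a, b, n⟩, rfl⟩
    · trivial
    · exact ⟨a.2, b.2⟩

theorem InS.add {S : IntermediateField B₀ Ω} {P Q : PO Ω W} (h : InS (S : Set Ω) P)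
    (h' : InS (S : Set Ω) Q) : InS (S : Set Ω) (P + Q) := by
  obtain ⟨P, rfl⟩ := (inS_iff S).1 h
  obtain ⟨Q, rfl⟩ := (inS_iff S).1 h'
  exact (inS_iff S).2 ⟨P + Q, map_add _ _ _⟩

theorem InS.neg {S : IntermediateField B₀ Ω} {P : PO Ω W} (h : InS (S : Set Ω) P) :
    InS (S : Set Ω) (-P) := by
  obtain ⟨P, rfl⟩ := (inS_iff S).1 h
  exact (inS_iff S).2 ⟨-P, map_neg _ _⟩

theorem InS.nsmul {S : IntermediateField B₀ Ω} {P : PO Ω W} (h : InS (S : Set Ω) P) (m : ℕ) :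
    InS (S : Set Ω) (m • P) := by
  obtain ⟨P, rfl⟩ := (inS_iff S).1 h
  exact (inS_iff S).2 ⟨m • P, map_nsmul _ _ _⟩

namespace CS

theorem e_mem_c1a (S : IntermediateField B₀ Ω) (i : Fin 3) : C.e i ∈ S := by
  obtain ⟨b, hb⟩ := C.eB i
  exact hb ▸ S.algebraMap_mem b

theorem cub_c1a (S : IntermediateField B₀ Ω) : Cub (W.baseChange S).toAffine
    ⟨C.e 0, C.e_mem_c1a S 0⟩ ⟨C.e 1, C.e_mem_c1a S 1⟩ ⟨C.e 2, C.e_mem_c1a S 2⟩ :=
  ⟨Subtype.ext C.cub.a1, Subtype.ext C.cub.a3, Subtype.ext C.cub.a2, Subtype.ext C.cub.a4,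
    Subtype.ext C.cub.a6, fun h => C.cub.n12 (congrArg Subtype.val h),
    fun h => C.cub.n13 (congrArg Subtype.val h), fun h => C.cub.n23 (congrArg Subtype.val h),
    fun h => C.cub.two (congrArg Subtype.val h)⟩

include C in
/-- `Cub.half` for the curve over `S`. -/
theorem inS_div (S : IntermediateField B₀ Ω) (hS : ∀ z ∈ S, ∃ w ∈ S, w ^ 2 = z) {P : PO Ω W}
    (h : InS (S : Set Ω) P) (n : ℕ) : ∃ Q, InS (S : Set Ω) Q ∧ 2 ^ n • Q = P := by
  induction n with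
  | zero => exact ⟨P, h, one_smul _ _⟩
  | succ n ih =>
    obtain ⟨Q, h1, rfl⟩ := ih
    obtain ⟨Q, rfl⟩ := (inS_iff S).1 h1
    obtain ⟨R, rfl⟩ := (C.cub_c1a S).half (fun z => by
      obtain ⟨w, h2, h3⟩ := hS z z.2
      exact ⟨⟨w, h2⟩, Subtype.ext h3⟩) Q
    exact ⟨_, (inS_iff S).2 ⟨R, rfl⟩, by rw [pow_succ, mul_smul, two_smul, map_add]⟩

include C in
/-- Induction on `n` with `inS_div` and `Cub.two_tors`. -/
theorem inS_tors (S : IntermediateField B₀ Ω) (hS : ∀ z ∈ S, ∃ w ∈ S, w ^ 2 = z) {n : ℕ}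
    {P : PO Ω W} (h : 2 ^ n • P = 0) : InS (S : Set Ω) P := by
  induction n generalizing P with
  | zero =>
    rw [pow_zero, one_smul] at h
    rw [h]
    trivial
  | succ n ih =>
    rw [pow_succ, mul_smul] at h
    obtain ⟨Q, h1, h2⟩ := C.inS_div S hS (ih h) 1
    have h3 : P - Q + (P - Q) = 0 := by rw [← two_smul ℕ, smul_sub, ← h2, pow_one, sub_self]
    rw [← sub_add_cancel P Q]
    refine InS.add ?_ h1
    rcases C.cub.two_tors h3 with e | e | e | e <;> rw [e]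
    · trivial
    · exact ⟨C.e_mem_c1a S 0, S.zero_mem⟩
    · exact ⟨C.e_mem_c1a S 1, S.zero_mem⟩
    · exact ⟨C.e_mem_c1a S 2, S.zero_mem⟩

include C in
theorem finite_tors (n : ℕ) : {P : PO Ω W | 2 ^ n • P = 0}.Finite := by
  induction n with
  | zero => exact (Set.finite_singleton 0).subset fun P h => (one_smul ℕ P).symm.trans h
  | succ n ih =>
    choose f hf using C.cub.half fun z => IsAlgClosed.exists_pow_nat_eq z two_pos
    refine ((ih.image f).add (Set.toFinite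
      {0, C.cub.tp, C.cub.swap.tp, C.cub.swap'.swap.tp})).subset fun P h => ?_
    have h1 : 2 ^ n • (P + P) = 0 := by
      rw [← two_smul ℕ, ← mul_smul, ← pow_succ]
      exact h
    refine ⟨f (P + P), ⟨P + P, h1, rfl⟩, P - f (P + P), C.cub.two_tors ?_, add_sub_cancel _ _⟩
    rw [sub_add_sub_comm, hf, sub_self]

theorem vI_ne {P : PO Ω W} (h : InS (KK B₀ Ω : Set Ω) P) (O : ValuationSubring Ω) :
    C.vI O P ≠ 0 := by
  rcases P with _ | ⟨a, b, n⟩
  · exact one_ne_zero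
  · refine (lt_max_of_lt_left
      (zero_lt_iff.2 ((_root_.map_ne_zero _).2 (sub_ne_zero.2 fun e => ?_)))).ne'
    exact C.x_trans (e ▸ isAlgebraic_algebraMap (⟨a, h.1⟩ : KK B₀ Ω))

end CS

end Crv1as

section Crv1bs

namespace CS

theorem sq_Crv1b : ∃ c : (KK B₀ Ω)[X], c.natDegree = 3 ∧ C.y ^ 2 = aeval C.x c := by
  refine ⟨(X - Polynomial.C ⟨_, C.e_kk 0⟩) * (X - Polynomial.C ⟨_, C.e_kk 1⟩) *
    (X - Polynomial.C ⟨_, C.e_kk 2⟩), by compute_degree!, ?_⟩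
  simp only [map_mul, map_sub, aeval_X, aeval_C]
  exact C.eqn

theorem ind_Crv1b {a b : (KK B₀ Ω)[X]} (h : aeval C.x a + aeval C.x b * C.y = 0) :
    a = 0 ∧ b = 0 :=
  lin_indep C.x_trans (e₁ := ⟨_, C.e_kk 0⟩) (e₂ := ⟨_, C.e_kk 1⟩) (e₃ := ⟨_, C.e_kk 2⟩)
    (fun e => C.cub.n12 (sub_eq_zero.2 (congrArg Subtype.val e)))
    (fun e => C.cub.n13 (sub_eq_zero.2 (congrArg Subtype.val e))) C.eqn h

theorem ne_Crv1b {q : (KK B₀ Ω)[X]} (hq : q ≠ 0) : aeval C.x q ≠ 0 := fun h => C.x_trans ⟨q, hq, h⟩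

theorem sqE_Crv1b : C.y ^ 2 ∈ C.E' := by
  obtain ⟨c, -, hc⟩ := C.sq_Crv1b
  exact C.mem_E'.2 ⟨c, 1, one_ne_zero, by rw [map_one, mul_one, hc]⟩

theorem indE_Crv1b {u w : Ω} (hu : u ∈ C.E') (hw : w ∈ C.E') (h : u + w * C.y = 0) :
    u = 0 ∧ w = 0 := by
  obtain ⟨p, q, hq, e⟩ := C.mem_E'.1 hu
  obtain ⟨r, s, hs, e'⟩ := C.mem_E'.1 hw
  obtain ⟨h1, h2⟩ := C.ind_Crv1b (a := p * s) (b := r * q) (by
    rw [map_mul, map_mul, ← e, ← e']
    linear_combination aeval C.x q * aeval C.x s * h)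
  rw [(mul_eq_zero.1 h1).resolve_right hs, map_zero] at e
  rw [(mul_eq_zero.1 h2).resolve_right hq, map_zero] at e'
  exact ⟨(mul_eq_zero.1 e).resolve_right (C.ne_Crv1b hq),
    (mul_eq_zero.1 e').resolve_right (C.ne_Crv1b hs)⟩

theorem gen_Crv1b : (∀ c ∈ KK B₀ Ω, c ∈ C.A) ∧ C.x ∈ C.A ∧ C.y ∈ C.A :=
  ⟨fun c hc => Subring.subset_closure (Or.inl hc), Subring.subset_closure (Or.inr (Or.inl rfl)),
    Subring.subset_closure (Or.inr (Or.inr rfl))⟩

theorem mem_E {a : Ω} : a ∈ C.E ↔ ∃ u ∈ C.E', ∃ w ∈ C.E', a = u + w * C.y := by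
  refine ⟨fun h => ?_, ?_⟩
  · induction h using IntermediateField.adjoin_induction with
    | mem a ha =>
      rcases ha with ha | rfl
      · exact ⟨a, IntermediateField.subset_adjoin _ _ ha, 0, zero_mem _, by ring⟩
      · exact ⟨0, zero_mem _, 1, one_mem _, by ring⟩
    | algebraMap b => exact ⟨_, C.E'.algebraMap_mem b, 0, zero_mem _, by ring⟩
    | add a b _ _ ha hb =>
      obtain ⟨u, hu, w, hw, rfl⟩ := ha
      obtain ⟨u', hu', w', hw', rfl⟩ := hb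
      exact ⟨_, add_mem hu hu', _, add_mem hw hw', by ring⟩
    | inv a _ ha =>
      obtain ⟨u, hu, w, hw, rfl⟩ := ha
      have hN := sub_mem (pow_mem hu 2) (mul_mem (pow_mem hw 2) C.sqE_Crv1b)
      refine ⟨_, div_mem hu hN, _, div_mem (neg_mem hw) hN, ?_⟩
      by_cases h : u + -w * C.y = 0
      · obtain ⟨rfl, h1⟩ := C.indE_Crv1b hu (neg_mem hw) h
        rw [neg_eq_zero.1 h1]
        simp
      · rw [div_mul_eq_mul_div, ← add_div, show u ^ 2 - w ^ 2 * C.y ^ 2 =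
          (u + -w * C.y) * (u + w * C.y) by ring, div_mul_cancel_left₀ h]
    | mul a b _ _ ha hb =>
      obtain ⟨u, hu, w, hw, rfl⟩ := ha
      obtain ⟨u', hu', w', hw', rfl⟩ := hb
      exact ⟨_, add_mem (mul_mem hu hu') (mul_mem (mul_mem hw hw') C.sqE_Crv1b), _,
        add_mem (mul_mem hu hw') (mul_mem hw hu'), by ring⟩
  · rintro ⟨u, hu, w, hw, rfl⟩
    have h : C.E' ≤ C.E := IntermediateField.adjoin.mono _ _ _ Set.subset_union_left
    exact add_mem (h hu) (mul_mem (h hw) (IntermediateField.subset_adjoin _ _ (Or.inr rfl)))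

theorem mem_A {a : Ω} : a ∈ C.A ↔
    ∃ p q : (KK B₀ Ω)[X], a = aeval C.x p + aeval C.x q * C.y := by
  obtain ⟨h1, h2, h3⟩ := C.gen_Crv1b
  obtain ⟨c, -, hc⟩ := C.sq_Crv1b
  refine ⟨fun h => ?_, ?_⟩
  · induction h using Subring.closure_induction with
    | mem a ha =>
      rcases ha with ha | rfl | rfl
      · exact ⟨Polynomial.C ⟨a, ha⟩, 0, by simp⟩
      · exact ⟨X, 0, by simp⟩
      · exact ⟨0, 1, by simp⟩
    | zero => exact ⟨0, 0, by simp⟩
    | one => exact ⟨1, 0, by simp⟩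
    | add a b _ _ ha hb =>
      obtain ⟨p, q, rfl⟩ := ha
      obtain ⟨p', q', rfl⟩ := hb
      exact ⟨p + p', q + q', by rw [map_add, map_add]; ring⟩
    | neg a _ ha =>
      obtain ⟨p, q, rfl⟩ := ha
      exact ⟨-p, -q, by rw [map_neg, map_neg]; ring⟩
    | mul a b _ _ ha hb =>
      obtain ⟨p, q, rfl⟩ := ha
      obtain ⟨p', q', rfl⟩ := hb
      exact ⟨p * p' + q * q' * c, p * q' + q * p', by simp only [map_add, map_mul, ← hc]; ring⟩
  · have h4 : ∀ p : (KK B₀ Ω)[X], aeval C.x p ∈ C.A := fun p => by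
      induction p using Polynomial.induction_on' with
      | add p q hp hq => exact (map_add (aeval C.x) p q).symm ▸ add_mem hp hq
      | monomial n a =>
        rw [aeval_monomial]
        exact mul_mem (h1 _ a.2) (pow_mem h2 n)
    rintro ⟨p, q, rfl⟩
    exact add_mem (h4 p) (mul_mem (h4 q) h3)

theorem frac_A {a : Ω} (ha : a ∈ C.E) : ∃ b ∈ C.A, ∃ c ∈ C.A, c ≠ 0 ∧ a * c = b := by
  obtain ⟨u, hu, w, hw, rfl⟩ := C.mem_E.1 ha
  obtain ⟨p, q, hq, e⟩ := C.mem_E'.1 hu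
  obtain ⟨r, s, hs, e'⟩ := C.mem_E'.1 hw
  refine ⟨_, C.mem_A.2 ⟨p * s, r * q, rfl⟩, aeval C.x (q * s), C.mem_A.2 ⟨q * s, 0, by simp⟩,
    C.ne_Crv1b (mul_ne_zero hq hs), ?_⟩
  rw [map_mul, map_mul, map_mul, ← e, ← e']
  ring

theorem exists_iota : ∃ g ∈ C.H', g C.y = -C.y := by
  by_contra h
  obtain ⟨e, he⟩ := fix_pow C.E' fun g hg => (C.y_cases g).resolve_right fun a => h ⟨g, hg, a⟩
  obtain ⟨k, hk⟩ := (odd_exp C.cub.two).pow (n := e)
  rw [hk, pow_succ, pow_mul] at he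
  have h1 := (C.indE_Crv1b he (neg_mem (pow_mem C.sqE_Crv1b k)) (by ring)).2
  exact one_ne_zero (C.ind_Crv1b (a := 0) (b := 1) (by
    rw [eq_zero_of_pow_eq_zero (eq_zero_of_pow_eq_zero (neg_eq_zero.1 h1)), map_zero, mul_zero,
      add_zero])).2

theorem unit_const {f : Ω} (hf : f ∈ C.E) (h : ∀ O, C.Hz O → O.valuation f = 1) :
    f ∈ KK B₀ Ω := by
  obtain ⟨u, hu, w, hw, rfl⟩ := C.mem_E.1 hf
  obtain ⟨g, hg, hy⟩ := C.exists_iota
  have h' : ∀ O, C.Hz O → O.valuation (u - w * C.y) = 1 := fun O hO => by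
    have := (tr_val_eq (g := g)).2 ((h _ ((C.hz_tr g⁻¹).2 hO)).trans (map_one _).symm)
    rwa [← tr_mul, mul_inv_cancel, tr_one, map_one, map_one, map_add, map_mul, hy,
      (IntermediateField.mem_fixingSubgroup_iff _ _).1 hg u hu,
      (IntermediateField.mem_fixingSubgroup_iff _ _).1 hg w hw, mul_neg, ← sub_eq_add_neg] at this
  have hN := C.line_unit (sub_mem (pow_mem hu 2) (mul_mem (pow_mem hw 2) C.sqE_Crv1b))
    fun O hO => by rw [← mul_pow, sq_sub_sq, map_mul, h O hO, h' O hO, mul_one]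
  obtain ⟨p, rfl⟩ := C.line_int hu fun O hO => by
    have := O.valuation.map_add_le (h O hO).le (h' O hO).le
    rwa [add_add_sub_cancel, ← two_mul, map_mul, hO.two, one_mul, O.valuation_le_one_iff] at this
  obtain ⟨r, s, hs, e⟩ := C.mem_E'.1 hw
  obtain ⟨c, hc, hc'⟩ := C.sq_Crv1b
  have h1 : r ^ 2 * c = s ^ 2 * (p ^ 2 - Polynomial.C ⟨_, hN⟩) :=
    transcendental_iff_injective.1 C.x_trans (by
      rw [map_mul, map_mul, map_sub, map_pow, map_pow, map_pow, aeval_C, ← e, ← hc']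
      change _ = _ * (_ - (aeval C.x p ^ 2 - w ^ 2 * C.y ^ 2))
      ring)
  have hr : r = 0 := by_contra fun hr => by
    have h2 := mul_ne_zero (pow_ne_zero 2 hr) (ne_zero_of_natDegree_gt (n := 0) (hc ▸ three_pos))
    have h3 := congrArg natDegree h1
    rw [natDegree_mul (left_ne_zero_of_mul h2) (right_ne_zero_of_mul h2), natDegree_mul
      (pow_ne_zero 2 hs) (right_ne_zero_of_mul (h1 ▸ h2)), natDegree_sub_C, natDegree_pow,
      natDegree_pow, natDegree_pow, hc] at h3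
    omega
  rw [hr, map_zero] at e
  rw [(mul_eq_zero.1 e).resolve_right (C.ne_Crv1b hs)] at hN ⊢
  exact root_kk two_pos hN (by ring)

theorem norm_A {h : Ω} (hA : h ∈ C.A) (h0 : h ≠ 0) :
    ∃ h' ∈ C.A, ∃ N : (KK B₀ Ω)[X], N ≠ 0 ∧ h * h' = aeval C.x N := by
  obtain ⟨p, q, rfl⟩ := C.mem_A.1 hA
  obtain ⟨c, -, hc⟩ := C.sq_Crv1b
  have e : (aeval C.x p + aeval C.x q * C.y) * (aeval C.x p + aeval C.x (-q) * C.y) =
      aeval C.x (p ^ 2 - q ^ 2 * c) := by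
    simp only [map_sub, map_mul, map_pow, map_neg, ← hc]
    ring
  refine ⟨_, C.mem_A.2 ⟨p, -q, rfl⟩, _, fun hN => h0 ?_, e⟩
  rw [hN, map_zero] at e
  obtain ⟨h1, h2⟩ := C.ind_Crv1b ((mul_eq_zero.1 e).resolve_left h0)
  rw [h1, neg_eq_zero.1 h2, map_zero, zero_mul, add_zero]

theorem decomp_A {h : Ω} (hA : h ∈ C.A) {a b : Ω} (ha : a ∈ KK B₀ Ω) (hb : b ∈ KK B₀ Ω) :
    ∃ c ∈ KK B₀ Ω, ∃ α ∈ C.A, ∃ β ∈ C.A, h = c + (C.x - a) * α + (C.y - b) * β := by
  induction hA using Subring.closure_induction with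
  | mem z hz =>
    rcases hz with hz | rfl | rfl
    · exact ⟨z, hz, 0, zero_mem _, 0, zero_mem _, by ring⟩
    · exact ⟨a, ha, 1, one_mem _, 0, zero_mem _, by ring⟩
    · exact ⟨b, hb, 0, zero_mem _, 1, one_mem _, by ring⟩
  | zero => exact ⟨0, zero_mem _, 0, zero_mem _, 0, zero_mem _, by ring⟩
  | one => exact ⟨1, one_mem _, 0, zero_mem _, 0, zero_mem _, by ring⟩
  | add z w _ _ hz hw =>
    obtain ⟨c, hc, α, hα, β, hβ, rfl⟩ := hz
    obtain ⟨c', hc', α', hα', β', hβ', rfl⟩ := hw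
    exact ⟨_, add_mem hc hc', _, add_mem hα hα', _, add_mem hβ hβ', by ring⟩
  | neg z _ hz =>
    obtain ⟨c, hc, α, hα, β, hβ, rfl⟩ := hz
    exact ⟨_, neg_mem hc, _, neg_mem hα, _, neg_mem hβ, by ring⟩
  | mul z w _ h2 hz hw =>
    obtain ⟨c, hc, α, hα, β, hβ, rfl⟩ := hz
    obtain ⟨c', hc', α', hα', β', hβ', e⟩ := hw
    have h1 := C.gen_Crv1b.1 c hc
    exact ⟨_, mul_mem hc hc', _, add_mem (mul_mem hα h2) (mul_mem h1 hα'), _,
      add_mem (mul_mem hβ h2) (mul_mem h1 hβ'), by linear_combination c * e⟩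

theorem Hz.A_le {C : CS B Ω W} {O : ValuationSubring Ω} (h : C.Hz O) : ∀ a ∈ C.A, a ∈ O :=
  fun a ha => (Subring.closure_le (t := O.toSubring)).2 (by
    rintro z (hz | rfl | rfl)
    exacts [h.1 z hz, h.2, h.y]) ha

theorem kk_E {c : Ω} (hc : c ∈ KK B₀ Ω) : c ∈ C.E :=
  IntermediateField.subset_adjoin _ _ (Or.inl hc)

theorem x_E : C.x ∈ C.E := C.xB.elim fun b hb => hb ▸ C.E.algebraMap_mem b

theorem y_E : C.y ∈ C.E := IntermediateField.subset_adjoin _ _ (Or.inr rfl)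

theorem y_ne : C.y ≠ 0 := fun h =>
  one_ne_zero (C.ind_Crv1b (a := 0) (b := 1) (by rw [h, map_zero, mul_zero, add_zero])).2

theorem x_ne {c : Ω} (hc : c ∈ KK B₀ Ω) : C.x - c ≠ 0 := fun h =>
  C.x_trans (sub_eq_zero.1 h ▸ isAlgebraic_algebraMap (⟨c, hc⟩ : KK B₀ Ω))

end CS

end Crv1bs

section Crv1s

section gen

variable {R Γ : Type} [CommRing R] [LinearOrderedCommGroupWithZero Γ]

/-- `γ` is the largest value of an element of `J`. -/
def VIc (v : Valuation R Γ) (J : Ideal R) (γ : Γ) : Prop :=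
  (∀ a ∈ J, v a ≤ γ) ∧ ∃ a ∈ J, v a = γ

theorem VIc.uniq {v : Valuation R Γ} {J : Ideal R} {γ δ : Γ} (h : VIc v J γ) (h' : VIc v J δ) :
    γ = δ := by
  obtain ⟨a, ha, rfl⟩ := h.2
  obtain ⟨b, hb, rfl⟩ := h'.2
  exact le_antisymm (h'.1 a ha) (h.1 b hb)

theorem VIc.mul {v : Valuation R Γ} {I J : Ideal R} {γ δ : Γ} (h : VIc v I γ) (h' : VIc v J δ) :
    VIc v (I * J) (γ * δ) := by
  refine ⟨fun a ha => ?_, ?_⟩
  · refine Submodule.mul_induction_on ha (fun m hm n hn => ?_) fun x y hx hy => v.map_add_le hx hy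
    rw [map_mul]
    exact mul_le_mul' (h.1 m hm) (h'.1 n hn)
  · obtain ⟨a, ha, rfl⟩ := h.2
    obtain ⟨b, hb, rfl⟩ := h'.2
    exact ⟨a * b, Ideal.mul_mem_mul ha hb, map_mul _ _ _⟩

theorem vic_one {v : Valuation R Γ} (hv : ∀ r, v r ≤ 1) (a : R) : VIc v (Ideal.span {a}) (v a) := by
  refine ⟨fun b hb => ?_, a, Ideal.mem_span_singleton_self a, rfl⟩
  obtain ⟨c, rfl⟩ := Ideal.mem_span_singleton'.1 hb
  rw [map_mul]
  exact mul_le_of_le_one_left' (hv c)

theorem vic_two {v : Valuation R Γ} (hv : ∀ r, v r ≤ 1) (a b : R) :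
    VIc v (Ideal.span {a, b}) (max (v a) (v b)) := by
  refine ⟨fun c hc => ?_, ?_⟩
  · obtain ⟨s, t, rfl⟩ := Ideal.mem_span_pair.1 hc
    refine v.map_add_le ?_ ?_
    · rw [map_mul]
      exact (mul_le_of_le_one_left' (hv s)).trans (le_max_left _ _)
    · rw [map_mul]
      exact (mul_le_of_le_one_left' (hv t)).trans (le_max_right _ _)
  · rcases le_total (v a) (v b) with h | h
    · exact ⟨b, Ideal.subset_span (by simp), (max_eq_right h).symm⟩
    · exact ⟨a, Ideal.subset_span (by simp), (max_eq_left h).symm⟩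

variable {K : Type} [Field K] {V : Affine K}

/-- The value of the ideal of a point in the coordinate ring. -/
def vJc (v : Valuation V.CoordinateRing Γ) : V.Point → Γ
  | .zero => 1
  | .some a b _ => max (v (CoordinateRing.XClass V a)) (v (CoordinateRing.YClass V (Polynomial.C b)))

theorem lin_gen [DecidableEq K] (P Q : V.Point) : ∃ r s : V.CoordinateRing,
    (r = 1 ∨ ∃ a, r = CoordinateRing.XClass V a) ∧
    ∀ (Γ : Type) [LinearOrderedCommGroupWithZero Γ] (v : Valuation V.CoordinateRing Γ),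
      (∀ r, v r ≤ 1) → v r * (vJc v P * vJc v Q) = v s * vJc v (P + Q) := by
  rcases P with _ | ⟨x₁, y₁, h₁⟩
  · refine ⟨1, 1, Or.inl rfl, fun Γ _ v hv => ?_⟩
    rw [← Point.zero_def, zero_add, Point.zero_def, vJc, one_mul]
  rcases Q with _ | ⟨x₂, y₂, h₂⟩
  · refine ⟨1, 1, Or.inl rfl, fun Γ _ v hv => ?_⟩
    rw [← Point.zero_def, add_zero, Point.zero_def]
    simp only [vJc, mul_one]
  by_cases hxy : x₁ = x₂ ∧ y₁ = V.negY x₂ y₂
  · obtain ⟨rfl, rfl⟩ := hxy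
    refine ⟨1, CoordinateRing.XClass V x₁, Or.inl rfl, fun Γ _ v hv => ?_⟩
    rw [Point.add_of_Y_eq rfl rfl, Point.zero_def, map_one, one_mul]
    simp only [vJc, mul_one]
    have := (vic_two hv _ _).mul (vic_two hv _ _) (I := CoordinateRing.XYIdeal V x₁ (Polynomial.C (V.negY x₁ y₂))) (J := CoordinateRing.XYIdeal V x₁ (Polynomial.C y₂))
    rw [CoordinateRing.XYIdeal_neg_mul h₂] at this
    exact this.uniq (vic_one hv _)
  · refine ⟨CoordinateRing.XClass V (V.addX x₁ x₂ <| V.slope x₁ x₂ y₁ y₂),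
      CoordinateRing.YClass V (linePolynomial x₁ y₁ <| V.slope x₁ x₂ y₁ y₂), Or.inr ⟨_, rfl⟩,
      fun Γ _ v hv => ?_⟩
    rw [Point.add_some hxy]
    simp only [vJc]
    have := (vic_one hv _).mul ((vic_two hv _ _).mul (vic_two hv _ _) (I := CoordinateRing.XYIdeal V x₁ (Polynomial.C y₁)) (J := CoordinateRing.XYIdeal V x₂ (Polynomial.C y₂))) (I := CoordinateRing.XIdeal V (V.addX x₁ x₂ <| V.slope x₁ x₂ y₁ y₂))
    rw [CoordinateRing.XYIdeal_mul_XYIdeal h₁.left h₂.left hxy] at this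
    exact this.uniq ((vic_one hv _).mul (vic_two hv _ _))

end gen

namespace CS

theorem eqn_c1 : (W.baseChange (KK B₀ Ω)).toAffine.polynomial.eval₂
    (eval₂RingHom (algebraMap (KK B₀ Ω) Ω) C.x) C.y = 0 := by
  have h : (W.baseChange Ω).toAffine.Equation C.x C.y := (C.cub.eqn _ _).2 C.eqn
  rw [equation_iff'] at h
  rw [← h]
  simp only [WeierstrassCurve.Affine.polynomial, eval₂_add, eval₂_sub, eval₂_mul, eval₂_pow,
    eval₂_X, eval₂_C, coe_eval₂RingHom, WeierstrassCurve.baseChange, toAffine, map_a₁, map_a₂, map_a₃, map_a₄, map_a₆,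
    ← IsScalarTower.algebraMap_apply]
  ring

/-- The coordinate ring of the curve over the constants, evaluated at the generic point. -/
def phi : (W.baseChange (KK B₀ Ω)).toAffine.CoordinateRing →+* Ω :=
  AdjoinRoot.lift (eval₂RingHom (algebraMap (KK B₀ Ω) Ω) C.x) C.y C.eqn_c1

theorem phi_X (a : KK B₀ Ω) : C.phi (CoordinateRing.XClass _ a) = C.x - a := by
  rw [CoordinateRing.XClass, phi, AdjoinRoot.lift_mk]
  simp

theorem phi_Y (b : KK B₀ Ω) : C.phi (CoordinateRing.YClass _ (Polynomial.C b)) = C.y - b := by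
  rw [CoordinateRing.YClass, phi, AdjoinRoot.lift_mk]
  simp

theorem phi_mem (S : Subring Ω) (hk : ∀ c ∈ KK B₀ Ω, c ∈ S) (hx : C.x ∈ S) (hy : C.y ∈ S)
    (r : (W.baseChange (KK B₀ Ω)).toAffine.CoordinateRing) : C.phi r ∈ S := by
  induction r using AdjoinRoot.induction_on with
  | ih p =>
    rw [phi, AdjoinRoot.lift_mk, eval₂_eq_sum_range]
    refine sum_mem fun i _ => mul_mem ?_ (pow_mem hy _)
    rw [coe_eval₂RingHom, eval₂_eq_sum_range]
    exact sum_mem fun j _ => mul_mem (hk _ (Subtype.property _)) (pow_mem hx _)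

theorem vI_map (O : ValuationSubring Ω) (P : (W.baseChange (KK B₀ Ω)).toAffine.Point) :
    C.vI O (Point.map (W' := W.toAffine) (KK B₀ Ω).val P) = vJc (O.valuation.comap C.phi) P := by
  rcases P with _ | ⟨a, b, h⟩
  · rfl
  · simp only [vJc, Valuation.comap_apply, phi_X, phi_Y]
    rfl

/-- Work in the coordinate ring of the curve over `KK`, mapped to `Ω` by `(x, y)`, with the ideal
identities behind `Point.toClass`. -/
theorem lin {P Q : PO Ω W} (hP : InS (KK B₀ Ω : Set Ω) P) (hQ : InS (KK B₀ Ω : Set Ω) Q) :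
    ∃ g ∈ C.E, g ≠ 0 ∧ ∀ O, C.Hz O → C.vI O P * C.vI O Q = O.valuation g * C.vI O (P + Q) := by
  obtain ⟨P', rfl⟩ := (inS_iff _).1 hP
  obtain ⟨Q', rfl⟩ := (inS_iff _).1 hQ
  obtain ⟨r, s, hr, h⟩ := lin_gen P' Q'
  have hE := C.phi_mem C.E.toSubring (fun c hc => C.kk_E hc) C.x_E C.y_E
  have r0 : C.phi r ≠ 0 := by
    rcases hr with rfl | ⟨a, rfl⟩
    · rw [map_one]
      exact one_ne_zero
    · rw [phi_X]
      exact C.x_ne a.2
  have key : ∀ O, C.Hz O → O.valuation (C.phi r) * (C.vI O (Point.map (W' := W.toAffine) (KK B₀ Ω).val P') *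
      C.vI O (Point.map (W' := W.toAffine) (KK B₀ Ω).val Q')) = O.valuation (C.phi s) *
      C.vI O (Point.map (W' := W.toAffine) (KK B₀ Ω).val P' + Point.map (W' := W.toAffine) (KK B₀ Ω).val Q') := by
    intro O hO
    rw [← map_add, vI_map, vI_map, vI_map]
    exact h _ (O.valuation.comap C.phi) fun z =>
      (O.valuation_le_one_iff _).2 (C.phi_mem O.toSubring hO.1 hO.2 hO.y z)
  have s0 : C.phi s ≠ 0 := by
    intro e
    have := key ⊤ ⟨fun _ _ => trivial, trivial⟩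
    rw [e, map_zero, zero_mul] at this
    exact mul_ne_zero ((_root_.map_ne_zero _).2 r0) (mul_ne_zero (C.vI_ne hP _) (C.vI_ne hQ _)) this
  refine ⟨C.phi s / C.phi r, div_mem (hE s) (hE r), div_ne_zero s0 r0, fun O hO => ?_⟩
  rw [map_div₀, div_mul_eq_mul_div, ← key O hO, mul_div_cancel_left₀ _ ((_root_.map_ne_zero _).2 r0)]

theorem lin_pow {Q : PO Ω W} (hQ : InS (KK B₀ Ω : Set Ω) Q) (m : ℕ) :
    ∃ g ∈ C.E, g ≠ 0 ∧ ∀ O, C.Hz O → C.vI O Q ^ m = O.valuation g * C.vI O (m • Q) := by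
  induction m with
  | zero =>
    refine ⟨1, one_mem _, one_ne_zero, fun O _ => ?_⟩
    rw [pow_zero, map_one, zero_nsmul, one_mul]
    rfl
  | succ m ih =>
    obtain ⟨g, hg, g0, h⟩ := ih
    obtain ⟨g', hg', g0', h'⟩ := C.lin (hQ.nsmul m) hQ
    refine ⟨g * g', mul_mem hg hg', mul_ne_zero g0 g0', fun O hO => ?_⟩
    rw [pow_succ, h O hO, mul_assoc, h' O hO, map_mul, succ_nsmul, mul_assoc]

end CS

end Crv1s

end

end Pool.Agent.Lib.MP_16ef92_ag.ET
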