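import Mathlib
import Pool.Agent.Lib.MP_16ef92_ag.ET.Crv2

set_option autoImplicit false
set_option linter.unusedSectionVars false
set_option linter.unusedVariables false

namespace Pool.Agent.Lib.MP_16ef92_ag.ET

open Polynomial WeierstrassCurve WeierstrassCurve.Affine
open scoped Classical

noncomputable section

variable {B₀ B Ω : Type} [Field B₀] [Field B] [Field Ω] [Algebra B₀ B] [Algebra B Ω]
  [Algebra B₀ Ω] [IsScalarTower B₀ B Ω] [IsAlgClosed Ω] [Algebra.IsAlgebraic B Ω]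
  {W : WeierstrassCurve B₀} (C : CS B Ω W)

section Lam1s

namespace CS

variable {C} {n : ℕ} {P Q : PO Ω W} {χ χ' : (Ω ≃ₐ[B] Ω) → Ω}

theorem kk_Lam1 (C : CS B Ω W) (h : 2 ^ n • P = 0) : InS (KK B₀ Ω : Set Ω) P :=
  C.inS_tors _ (fun z hz => ⟨rt 1 z, root_kk (by positivity) hz (rt_pow 1 z),
    (pow_one 2 ▸ rt_pow 1 z :)⟩) h

theorem fix_Lam1 {f : Ω} (hf : f ∈ C.E) {g : Ω ≃ₐ[B] Ω} (hg : g ∈ C.H) : g f = f :=
  (IntermediateField.mem_fixingSubgroup_iff _ _).1 hg f hf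

theorem ru_Lam1 {g : Ω ≃ₐ[B] Ω} (hg : g ∈ C.H) : Ru g := C.ru_H' (C.H_le hg)

theorem div_Lam1 {f z : Ω} (h0 : f ≠ 0) (hz : z ∈ C.E) (h1 : z ≠ 0) {g : Ω ≃ₐ[B] Ω}
    (hg : g ∈ C.H) : kum n (f / z ^ 2 ^ n) g = kum n f g := by
  rw [kum_div (ru_Lam1 hg) h0 (pow_ne_zero _ h1),
    kum_of_fix (ru_Lam1 hg) (pow_ne_zero _ h1) rfl (fix_Lam1 hz hg), div_one]

theorem gen_Lam1 (hP : InS (KK B₀ Ω : Set Ω) P) (O : ValuationSubring Ω) :
    ∃ z ∈ C.E, O.valuation z = C.vI O P ∧ ∀ s : Ω ≃ₐ[B] Ω, s C.y = C.y →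
      (tr s O).valuation (s z) = C.vI (tr s O) (pmO s P) := by
  rcases P with _ | ⟨a, b, hn⟩
  · refine ⟨1, one_mem _, map_one _, fun s _ => ?_⟩
    rw [map_one, map_one]
    rfl
  · have key : ∀ s : Ω ≃ₐ[B] Ω, s C.y = C.y → C.vI (tr s O) (pmO s (.some a b hn)) =
        max ((tr s O).valuation (s (C.x - a))) ((tr s O).valuation (s (C.y - b))) := fun s hs => by
      obtain ⟨n', e⟩ := pmO_some s hn
      rw [e, map_sub s, map_sub s, C.fix_x, hs]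
      rfl
    rcases le_total (O.valuation (C.x - a)) (O.valuation (C.y - b)) with h | h
    · exact ⟨C.y - b, sub_mem C.y_E (C.kk_E hP.2), (max_eq_right h).symm,
        fun s hs => ((key s hs).trans (max_eq_right (tr_val_le.2 h))).symm⟩
    · exact ⟨C.x - a, sub_mem C.x_E (C.kk_E hP.1), (max_eq_left h).symm,
        fun s hs => ((key s hs).trans (max_eq_left (tr_val_le.2 h))).symm⟩

theorem Kp.congr (h : C.Kp n P χ) (e : ∀ g ∈ C.H, χ' g = χ g) : C.Kp n P χ' := by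
  obtain ⟨h0, f, hf, hχ⟩ := h
  exact ⟨h0, f, hf, fun g hg => (e g hg).trans (hχ g hg)⟩

theorem kp_ex (h : 2 ^ n • P = 0) : ∃ χ, C.Kp n P χ := by
  obtain ⟨g, hg, g0, hv⟩ := C.lin_pow (C.kk_Lam1 h) (2 ^ n)
  refine ⟨kum n g, h, g, ⟨hg, g0, fun O hO => ?_⟩, fun _ _ => rfl⟩
  rw [hv O hO, h]
  exact (mul_one _).symm

theorem kp_zero : C.Kp n 0 fun _ => 1 :=
  ⟨smul_zero _, 1, ⟨one_mem _, one_ne_zero, fun O _ => (map_one _).trans (one_pow _).symm⟩,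
    fun g hg => (kum_of_fix (ru_Lam1 hg) one_ne_zero (one_pow _) (map_one g)).symm⟩

theorem Kp.lam (h : C.Kp n P χ) : C.Lam n χ := by
  obtain ⟨h0, f, ⟨hf, f0, hv⟩, hχ⟩ := h
  have hc : Chr C.H n (kum n f) := chr_kum (fun g => ru_Lam1) f0 fun g => fix_Lam1 hf
  refine ⟨⟨fun g hg => ?_, fun g hg l hl => ?_, hc.near.mono fun g i hg => (hχ g hg).trans (i hg)⟩,
    fun O hO σ hσ => ?_⟩
  · rw [hχ g hg]
    exact hc.pow g hg
  · rw [hχ g hg, hχ l hl, hχ _ (C.H.mul_mem hg hl)]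
    exact hc.mul g hg l hl
  · obtain ⟨z, hz, e, -⟩ := gen_Lam1 (C := C) (C.kk_Lam1 h0) O
    have z0 : z ≠ 0 := (Valuation.ne_zero_iff _).1 (e ▸ C.vI_ne (C.kk_Lam1 h0) O)
    rw [hχ σ hσ.1, kum_val hO.two hσ.2 (ru_Lam1 hσ.1) (fix_Lam1 hf hσ.1) (fix_Lam1 hz hσ.1) z0
      (j := (2 ^ n : ℕ)) (by rw [zpow_natCast, hv O hO, e]), zpow_natCast]
    exact kum_pow_one z0 (fix_Lam1 hz hσ.1)

/-- `unit_const`; constants have trivial Kummer character on `H`. -/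
theorem Kp.uniq (h : C.Kp n P χ) (h' : C.Kp n P χ') : ∀ g ∈ C.H, χ g = χ' g := by
  obtain ⟨h0, f, ⟨hf, f0, hv⟩, hχ⟩ := h
  obtain ⟨-, f', ⟨hf', f0', hv'⟩, hχ'⟩ := h'
  intro g hg
  have hk : f / f' ∈ KK B₀ Ω := C.unit_const (div_mem hf hf') fun O hO => by
    rw [map_div₀, hv O hO, hv' O hO, div_self (pow_ne_zero _ (C.vI_ne (C.kk_Lam1 h0) O))]
  have h1 := kum_of_fix (ru_Lam1 hg) (div_ne_zero f0 f0') (rt_pow n _)
    ((C.mem_H.1 hg).1 _ (root_kk (by positivity) hk (rt_pow n _)))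
  rw [kum_div (ru_Lam1 hg) f0 f0', div_eq_one_iff_eq (kum_ne f0')] at h1
  rw [hχ g hg, hχ' g hg, h1]

theorem Kp.add (h : C.Kp n P χ) (h' : C.Kp n Q χ') : C.Kp n (P + Q) (χ * χ') := by
  obtain ⟨h0, f, ⟨hf, f0, hv⟩, hχ⟩ := h
  obtain ⟨h0', f', ⟨hf', f0', hv'⟩, hχ'⟩ := h'
  obtain ⟨g, hg, g0, hl⟩ := C.lin (C.kk_Lam1 h0) (C.kk_Lam1 h0')
  refine ⟨by rw [smul_add, h0, h0', add_zero], f * f' / g ^ 2 ^ n,
    ⟨div_mem (mul_mem hf hf') (pow_mem hg _),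
      div_ne_zero (mul_ne_zero f0 f0') (pow_ne_zero _ g0), fun O hO => ?_⟩, fun l hl => ?_⟩
  · rw [map_div₀, map_mul, map_pow, hv O hO, hv' O hO, ← mul_pow, hl O hO, ← div_pow,
      mul_div_cancel_left₀ _ ((Valuation.ne_zero_iff _).2 g0)]
  · rw [div_Lam1 (mul_ne_zero f0 f0') hg g0 hl, kum_mul_left (ru_Lam1 hl) f0 f0', Pi.mul_apply,
      hχ l hl, hχ' l hl]

theorem Kp.sub (h : C.Kp n P χ) (h' : C.Kp n Q χ') : C.Kp n (P - Q) (χ / χ') := by
  obtain ⟨ψ, hψ⟩ := kp_ex (C := C) (n := n) (P := P - Q) (by rw [smul_sub, h.1, h'.1, sub_zero])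
  have h1 := hψ.add h'
  rw [sub_add_cancel] at h1
  refine hψ.congr fun g hg => ?_
  obtain ⟨-, f', ⟨-, f0', -⟩, hχ'⟩ := h'
  rw [Pi.div_apply, h.uniq h1 g hg, Pi.mul_apply, mul_div_cancel_right₀]
  rw [hχ' g hg]
  exact kum_ne f0'

theorem Kp.sq (h : C.Kp (n + 1) P χ) : C.Kp n (2 • P) (χ ^ 2) := by
  obtain ⟨h0, f, ⟨hf, f0, hv⟩, hχ⟩ := h
  obtain ⟨g, hg, g0, hl⟩ := C.lin_pow (C.kk_Lam1 h0) 2
  refine ⟨by rw [smul_smul, ← pow_succ, h0], f / g ^ 2 ^ n,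
    ⟨div_mem hf (pow_mem hg _), div_ne_zero f0 (pow_ne_zero _ g0), fun O hO => ?_⟩,
    fun l hl => ?_⟩
  · rw [map_div₀, map_pow, hv O hO, pow_succ', pow_mul, hl O hO, ← div_pow,
      mul_div_cancel_left₀ _ ((Valuation.ne_zero_iff _).2 g0)]
  · rw [div_Lam1 f0 hg g0 hl, Pi.pow_apply, hχ l hl, kum_level (ru_Lam1 hl) f0]

theorem Kp.up (h : C.Kp n P χ) : C.Kp (n + 1) P χ := by
  obtain ⟨h0, f, ⟨hf, f0, hv⟩, hχ⟩ := h
  refine ⟨by rw [pow_succ', ← smul_smul, h0, smul_zero], f ^ 2,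
    ⟨pow_mem hf _, pow_ne_zero _ f0, fun O hO => ?_⟩, fun l hl => ?_⟩
  · rw [map_pow, hv O hO, ← pow_mul, ← pow_succ]
  · rw [kum_sq (ru_Lam1 hl) f0, hχ l hl]

theorem Kp.conj (h : C.Kp n P χ) {s : Ω ≃ₐ[B] Ω} (hs : s C.y = C.y) :
    C.Kp n (pmO s P) fun g => s (χ (s⁻¹ * g * s)) := by
  obtain ⟨h0, f, ⟨hf, f0, hv⟩, hχ⟩ := h
  have hE : C.E ≤ C.E.comap (s : Ω →ₐ[B] Ω) := IntermediateField.adjoin_le_iff.2 (by
    rintro z (hz | rfl)
    · exact C.kk_E ((kk_map s).2 hz)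
    · change s C.y ∈ C.E
      rw [hs]
      exact C.y_E)
  refine ⟨by rw [← map_nsmul, h0, map_zero], s f,
    ⟨hE hf, (map_ne_zero s).2 f0, fun O hO => ?_⟩, fun l hl => ?_⟩
  · obtain ⟨O, rfl⟩ : ∃ O', tr s O' = O := ⟨tr s⁻¹ O, by rw [← tr_mul, mul_inv_cancel, tr_one]⟩
    obtain ⟨z, -, e, e'⟩ := gen_Lam1 (C := C) (C.kk_Lam1 h0) O
    rw [← e' s hs, ← map_pow, ← map_pow, tr_val_eq, map_pow, e]
    exact hv O ((C.hz_tr s).1 hO)
  · have hm := C.conj_H (Or.inl hs) hl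
    have h1 := kum_conj (n := n) s (ru_Lam1 hm) f0
    rw [show s * (s⁻¹ * l * s) * s⁻¹ = l by group] at h1
    rw [h1, ← hχ _ hm]

end CS

end Lam1s

section Lam2s

namespace CS

variable {C} {n : ℕ} {P Q : PO Ω W} {χ χ' : (Ω ≃ₐ[B] Ω) → Ω}

theorem inj_lam2 : Function.Injective C.e := by
  have h1 := sub_ne_zero.1 C.cub.n12
  have h2 := sub_ne_zero.1 C.cub.n13
  have h3 := sub_ne_zero.1 C.cub.n23
  intro i j h
  fin_cases i <;> fin_cases j <;> first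
    | rfl | exact absurd h ‹_› | exact absurd h.symm ‹_›

theorem unit_lam2 {O : ValuationSubring Ω} (hO : C.Hz O) {i j : Fin 3}
    (hv : O.valuation (C.x - C.e i) < 1) (h : j ≠ i) : O.valuation (C.x - C.e j) = 1 := by
  have h1 : O.valuation (C.e i - C.e j) = 1 := val_of_field (KK B₀ Ω).toSubfield hO.1
    (sub_mem (C.e_kk i) (C.e_kk j)) (sub_ne_zero.2 (inj_lam2.ne h.symm))
  rw [← sub_add_sub_cancel _ (C.e i), O.valuation.map_add_eq_of_lt_right (h1 ▸ hv), h1]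

theorem eqn_lam2 : C.y ^ 2 = ∏ j, (C.x - C.e j) := by rw [C.eqn, Fin.prod_univ_three]

/-- The point `(e i, 0)` has the function `x - e i`. -/
theorem kp_two (i : Fin 3) {n' : (W.baseChange Ω).toAffine.Nonsingular (C.e i) 0} :
    C.Kp 1 (.some (C.e i) 0 n') (kum 1 (C.x - C.e i)) := by
  refine ⟨?_, _, ⟨sub_mem C.x_E (C.kk_E (C.e_kk i)), C.x_ne (C.e_kk i), fun O hO => ?_⟩,
    fun _ _ => rfl⟩
  · rw [pow_one, two_nsmul]
    exact Point.add_self_of_Y_eq (by rw [C.cub.negY, neg_zero])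
  have h1 := (O.valuation_le_one_iff _).2 hO.y
  rw [vI, sub_zero, pow_one]
  rcases ((O.valuation_le_one_iff _).2 (O.sub_mem hO.2 (hO.1 _ (C.e_kk i)))).eq_or_lt with h | h
  · rw [h, max_eq_left h1, one_pow]
  have h2 := congrArg O.valuation (eqn_lam2 (C := C))
  rw [map_pow, map_prod, Finset.prod_eq_single i (fun j _ hj => unit_lam2 hO h hj) (by simp)] at h2
  rw [← h2, max_eq_right (pow_le_of_le_one zero_le h1 two_ne_zero)]

theorem rt_lam2 (i : Fin 3) : rt 1 (C.x - C.e i) ≠ 0 := fun e => C.x_ne (C.e_kk i) (by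
  rw [← rt_pow 1 (C.x - C.e i), e, zero_pow (by norm_num)])

theorem flip_lam2 (i : Fin 3) : ∃ g ∈ C.H', g C.y = -C.y ∧
    g (rt 1 (C.x - C.e i)) = -rt 1 (C.x - C.e i) ∧
      ∀ j ≠ i, g (rt 1 (C.x - C.e j)) = rt 1 (C.x - C.e j) := by
  obtain ⟨O, hO, hv⟩ := C.exists_hz (C.e_kk i)
  obtain ⟨g, hg, h1⟩ := (C.disc_line hO (C.e_kk i) hv).flip hO.two (rt_pow 1 _)
  have h2 : ∀ j ≠ i, g (rt 1 (C.x - C.e j)) = rt 1 (C.x - C.e j) := fun j hj =>
    (div_eq_one_iff_eq (rt_lam2 j)).1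
      (kum_unit hO.two hg.2 (by rw [map_sub, C.fix_x, C.fix_e]) (unit_lam2 hO hv hj))
  have h3 : g (∏ j, rt 1 (C.x - C.e j)) = -∏ j, rt 1 (C.x - C.e j) := by
    rw [← Finset.mul_prod_erase _ _ (Finset.mem_univ i), map_mul, h1, map_prod,
      Finset.prod_congr rfl fun j hj => h2 j (Finset.ne_of_mem_erase hj), neg_mul]
  refine ⟨g, hg.1, ?_, h1, h2⟩
  have h4 : C.y ^ 2 = (∏ j, rt 1 (C.x - C.e j)) ^ 2 := by
    rw [eqn_lam2, ← Finset.prod_pow]
    exact Finset.prod_congr rfl fun j _ => (rt_pow 1 _).symm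
  rcases sq_eq_sq_iff_eq_or_eq_neg.1 h4 with e | e
  · rw [e, h3]
  · rw [e, map_neg, h3]

/-- The product of inertia generators of the line at `e i` and at another root fixes `y` and
changes the sign of the square root of `x - e i` (`Disc.flip`, `kum_unit`). -/
theorem kum_two_ne (i : Fin 3) : ∃ g ∈ C.H, kum 1 (C.x - C.e i) g ≠ 1 := by
  obtain ⟨j, hj⟩ := exists_ne i
  obtain ⟨g, g1, g2, g3, -⟩ := flip_lam2 (C := C) i
  obtain ⟨l, l1, l2, -, l3⟩ := flip_lam2 (C := C) j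
  refine ⟨g * l, C.mem_H.2 ⟨C.mem_H'.1 (mul_mem g1 l1), ?_⟩, fun e => ?_⟩
  · rw [AlgEquiv.mul_apply, l2, map_neg, g2, neg_neg]
  · have h := (div_eq_one_iff_eq (rt_lam2 i)).1 e
    rw [AlgEquiv.mul_apply, l3 i hj.symm, g3] at h
    exact mul_ne_zero C.cub.two (rt_lam2 (C := C) i) (by linear_combination -h)

theorem two_lam2 (i : Fin 3) {n' : (W.baseChange Ω).toAffine.Nonsingular (C.e i) 0}
    (h : C.Kp (n + 1) (.some (C.e i) 0 n') χ) (h1 : ∀ g ∈ C.H, χ g = 1) : False := by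
  have h2 : C.Kp (n + 1) (.some (C.e i) 0 n') (kum 1 (C.x - C.e i)) := by
    clear h
    induction n with
    | zero => exact kp_two i
    | succ n ih => exact ih.up
  obtain ⟨g, hg, e⟩ := kum_two_ne (C := C) i
  exact e ((h2.uniq h g hg).trans (h1 g hg))

/-- Otherwise a multiple of `P` is a point of order 2 with trivial character. -/
theorem Kp.inj (h : C.Kp n P χ) (h1 : ∀ g ∈ C.H, χ g = 1) : P = 0 := by
  induction n generalizing P χ with
  | zero => simpa using h.1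
  | succ n ih =>
    have h2 := ih h.sq fun g hg => by rw [Pi.pow_apply, h1 g hg, one_pow]
    rw [two_nsmul] at h2
    rcases C.cub.two_tors h2 with e | rfl | rfl | rfl
    · exact e
    exacts [(two_lam2 0 h h1).elim, (two_lam2 1 h h1).elim, (two_lam2 2 h h1).elim]

theorem Kp.eq (h : C.Kp n P χ) (h' : C.Kp n Q χ') (e : ∀ g ∈ C.H, χ g = χ' g) : P = Q := by
  refine sub_eq_zero.1 ((h.sub h').inj fun g hg => ?_)
  obtain ⟨-, f, hf, h1⟩ := h'
  rw [Pi.div_apply, e g hg, h1 g hg, div_self (kum_ne hf.2.1)]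

end CS

end Lam2s

section Lams

section grp

variable {G A : Type} [Group G] [CommMonoid A] {H H' : Subgroup G} {χ : G → A} {ι : G}

theorem idx_conj (hle : H ≤ H') (hidx : ∀ g ∈ H', ∀ h ∈ H', g ∉ H → h ∉ H → g * h ∈ H) {s g : G}
    (hs : s ∈ H') (hg : g ∈ H) : s * g * s⁻¹ ∈ H := by
  by_cases h : s ∈ H
  · exact mul_mem (mul_mem h hg) (inv_mem h)
  · exact hidx _ (mul_mem hs (hle hg)) _ (inv_mem hs)
      (fun e => h ((mul_mem_cancel_right hg).1 e)) fun e => h (inv_mem_iff.1 e)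

theorem idx_inner (hm : ∀ g ∈ H, ∀ h ∈ H, χ (g * h) = χ g * χ h) (h1 : χ 1 = 1) {s g : G}
    (hs : s ∈ H) (hg : g ∈ H) : χ (s * g * s⁻¹) = χ g := by
  rw [hm _ (mul_mem hs hg) _ (inv_mem hs), hm _ hs _ hg, mul_right_comm, ← hm _ hs _ (inv_mem hs),
    mul_inv_cancel, h1, one_mul]

/-- The transfer to a group of index two is multiplicative. -/
theorem idx_transfer (hle : H ≤ H') (hidx : ∀ g ∈ H', ∀ h ∈ H', g ∉ H → h ∉ H → g * h ∈ H)
    (hι : ι ∈ H') (hι' : ι ∉ H) (hm : ∀ g ∈ H, ∀ h ∈ H, χ (g * h) = χ g * χ h) (h1 : χ 1 = 1)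
    (T : G → A) (hT : ∀ g ∈ H, T g = χ g * χ (ι⁻¹ * g * ι)) (hT' : ∀ g, g ∉ H → T g = χ (g * g)) :
    ∀ g ∈ H', ∀ h ∈ H', T (g * h) = T g * T h := by
  have cj : ∀ g ∈ H, ι⁻¹ * g * ι ∈ H := fun g hg => by
    have := idx_conj hle hidx (inv_mem hι) hg
    rwa [inv_inv] at this
  have out : ∀ s ∈ H', s ∉ H → ∀ g ∈ H, χ (s * g * s⁻¹) = χ (ι⁻¹ * g * ι) := fun s hs hs' g hg => by
    rw [← idx_inner hm h1 (hidx s hs ι hι hs' hι') (cj g hg)]
    congr 1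
    group
  intro g hg h hh
  by_cases a : g ∈ H <;> by_cases b : h ∈ H
  · rw [hT _ (mul_mem a b), hT _ a, hT _ b, hm _ a _ b,
      show ι⁻¹ * (g * h) * ι = ι⁻¹ * g * ι * (ι⁻¹ * h * ι) by group, hm _ (cj _ a) _ (cj _ b),
      mul_mul_mul_comm]
  · rw [hT' _ (fun e => b ((mul_mem_cancel_left a).1 e)), hT _ a, hT' _ b,
      show g * h * (g * h) = g * (h * g * h⁻¹) * (h * h) by group,
      hm _ (mul_mem a (idx_conj hle hidx hh a)) _ (hidx _ hh _ hh b b),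
      hm _ a _ (idx_conj hle hidx hh a), out h hh b g a]
  · rw [hT' _ (fun e => a ((mul_mem_cancel_right b).1 e)), hT _ b, hT' _ a,
      show g * h * (g * h) = g * h * g⁻¹ * (g * g * h) by group,
      hm _ (idx_conj hle hidx hg b) _ (mul_mem (hidx _ hg _ hg a a) b),
      hm _ (hidx _ hg _ hg a a) _ b, out g hg a h b, mul_comm, mul_assoc]
  · have c := hidx _ hg _ hh a b
    have d := hidx _ hh _ hh b b
    rw [hT _ c, hT' _ a, hT' _ b, ← out g⁻¹ (inv_mem hg) (fun e => a (inv_mem_iff.1 e)) _ c,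
      ← hm _ c _ (idx_conj hle hidx (inv_mem hg) c),
      show g * h * (g⁻¹ * (g * h) * g⁻¹⁻¹) = g * (h * h) * g⁻¹ * (g * g) by group,
      hm _ (idx_conj hle hidx hg d) _ (hidx _ hg _ hg a a), out g hg a _ d, ← out h hh b _ d,
      show h * (h * h) * h⁻¹ = h * h by group, mul_comm]

/-- An invariant character that kills `ι ^ 2` extends. -/
theorem idx_extend (hle : H ≤ H') (hidx : ∀ g ∈ H', ∀ h ∈ H', g ∉ H → h ∉ H → g * h ∈ H)
    (hι : ι ∈ H') (hι' : ι ∉ H) (hm : ∀ g ∈ H, ∀ h ∈ H, χ (g * h) = χ g * χ h)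
    (hc : ∀ g ∈ H, χ (ι * g * ι⁻¹) = χ g) (h2 : χ (ι * ι) = 1)
    (T : G → A) (hT : ∀ g ∈ H, T g = χ g) (hT' : ∀ g, g ∉ H → T g = χ (g * ι⁻¹)) :
    ∀ g ∈ H', ∀ h ∈ H', T (g * h) = T g * T h := by
  have k : ∀ g ∈ H', g ∉ H → g * ι⁻¹ ∈ H := fun g hg a =>
    hidx _ hg _ (inv_mem hι) a fun e => hι' (inv_mem_iff.1 e)
  intro g hg h hh
  by_cases a : g ∈ H <;> by_cases b : h ∈ H
  · rw [hT _ (mul_mem a b), hT _ a, hT _ b, hm _ a _ b]
  · rw [hT' _ (fun e => b ((mul_mem_cancel_left a).1 e)), hT _ a, hT' _ b, mul_assoc,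
      hm _ a _ (k h hh b)]
  · rw [hT' _ (fun e => a ((mul_mem_cancel_right b).1 e)), hT _ b, hT' _ a,
      show g * h * ι⁻¹ = g * ι⁻¹ * (ι * h * ι⁻¹) by group,
      hm _ (k g hg a) _ (idx_conj hle hidx hι b), hc h b]
  · rw [hT _ (hidx _ hg _ hh a b), hT' _ a, hT' _ b,
      show g * h = g * ι⁻¹ * (ι * (h * ι⁻¹) * ι⁻¹) * (ι * ι) by group,
      hm _ (mul_mem (k g hg a) (idx_conj hle hidx hι (k h hh b))) _ (hidx _ hι _ hι hι' hι'),
      hm _ (k g hg a) _ (idx_conj hle hidx hι (k h hh b)), hc _ (k h hh b), h2, mul_one]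

end grp

namespace CS

variable {C} {n : ℕ} {P Q : PO Ω W} {χ χ' : (Ω ≃ₐ[B] Ω) → Ω}

theorem lam_notMem {g : Ω ≃ₐ[B] Ω} (hg : g ∈ C.H') (h : g ∉ C.H) : g C.y = -C.y :=
  (C.y_cases g).resolve_left fun e => h (C.mem_H.2 ⟨C.mem_H'.1 hg, e⟩)

theorem lam_idx : ∀ g ∈ C.H', ∀ h ∈ C.H', g ∉ C.H → h ∉ C.H → g * h ∈ C.H := fun g hg h hh a b =>
  C.mem_H.2 ⟨C.mem_H'.1 (mul_mem hg hh), by
    rw [AlgEquiv.mul_apply, lam_notMem hh b, map_neg, lam_notMem hg a, neg_neg]⟩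

theorem lam_near : Near fun g : Ω ≃ₐ[B] Ω => g ∈ C.H' → g ∈ C.H :=
  (Near.fix C.y).mono fun g e hg => C.mem_H.2 ⟨C.mem_H'.1 hg, e⟩

theorem lam_ne {H : Subgroup (Ω ≃ₐ[B] Ω)} (h : Chr H n χ) {g : Ω ≃ₐ[B] Ω} (hg : g ∈ H) :
    χ g ≠ 0 := fun e => by
  have := h.pow g hg
  rw [e, zero_pow (by positivity)] at this
  exact zero_ne_one this

theorem lam_one {H : Subgroup (Ω ≃ₐ[B] Ω)} (h : Chr H n χ) : χ 1 = 1 := by
  have := h.mul 1 (one_mem _) 1 (one_mem _)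
  rw [mul_one] at this
  exact mul_left_cancel₀ (lam_ne h (one_mem _)) (this.symm.trans (mul_one _).symm)

theorem Kp.npow (h : C.Kp n P χ) (k : ℕ) : C.Kp n (k • P) (χ ^ k) := by
  induction k with
  | zero =>
    rw [zero_nsmul]
    exact kp_zero.congr fun g _ => by rw [pow_zero, Pi.one_apply]
  | succ k ih =>
    rw [succ_nsmul, pow_succ]
    exact ih.add h

theorem lam_ns (i : Fin 3) : (W.baseChange Ω).toAffine.Nonsingular (C.e i) 0 := by
  fin_cases i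
  · exact C.cub.ns0
  · exact C.cub.swap.ns0
  · exact C.cub.swap'.swap.ns0

theorem lam_prod (S : Finset Ω) (hS : ∀ c ∈ S, ∃ i, C.e i = c) (a : Ω → ℕ) :
    ∃ P, C.Kp 1 P fun g => ∏ c ∈ S, kum 1 (C.x - c) g ^ a c := by
  induction S using Finset.induction_on with
  | empty => exact ⟨0, kp_zero.congr fun g _ => Finset.prod_empty⟩
  | insert c S hc ih =>
    obtain ⟨P, hP⟩ := ih fun d hd => hS d (Finset.mem_insert_of_mem hd)
    obtain ⟨i, rfl⟩ := hS c (Finset.mem_insert_self _ _)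
    exact ⟨_, (((kp_two i (n' := lam_ns i)).npow (a (C.e i))).add hP).congr fun g _ =>
      Finset.prod_insert hc⟩

/-- The transfer to `H'` (`g ↦ χ g * χ (ι⁻¹ g ι)` on `H`, `g ↦ χ (g * g)` outside) is unramified
on the affine line, hence trivial (`line_char` with the empty set).  So `χ` extends to `H'` by
`ι ↦ 1`; apply `line_char` with the three roots (at other places inertia fixes `y`), then
`kp_two` and `Kp.add`. -/
theorem Lam.surj_one (h : C.Lam 1 χ) : ∃ P, C.Kp 1 P χ := by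
  obtain ⟨ι, hι, hy⟩ := C.exists_iota
  have hι' : ι ∉ C.H := fun e => by
    have := (C.mem_H.1 e).2
    rw [hy] at this
    exact mul_ne_zero C.cub.two C.y_ne (by linear_combination -this)
  have cj : ∀ g ∈ C.H, ι⁻¹ * g * ι ∈ C.H := fun g hg => C.conj_H (Or.inr hy) hg
  let T : (Ω ≃ₐ[B] Ω) → Ω := fun g => if g ∈ C.H then χ g * χ (ι⁻¹ * g * ι) else χ (g * g)
  have hT : Chr C.H' 1 T := by
    refine ⟨fun g hg => ?_, idx_transfer C.H_le lam_idx hι hι' h.1.mul (lam_one h.1) T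
      (fun g hg => if_pos hg) fun g hg => if_neg hg, ?_⟩
    · by_cases a : g ∈ C.H
      · simp only [T, if_pos a]
        rw [mul_pow, h.1.pow g a, h.1.pow _ (cj g a), mul_one]
      · simp only [T, if_neg a]
        exact h.1.pow _ (lam_idx g hg g hg a a)
    · refine ((lam_near (C := C)).and (h.1.near.and (h.1.near.conj ι))).mono fun g e hg => ?_
      have a := e.1 hg
      simp only [T, if_pos a]
      rw [e.2.1 a, e.2.2 (cj g a), mul_one]
  obtain ⟨a, ha⟩ := C.line_char ∅ (by simp) hT (fun O hO _ σ hσ => by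
    by_cases b : σ ∈ C.H
    · simp only [T, if_pos b]
      rw [h.2 O hO σ ⟨b, hσ.2⟩, one_mul]
      refine h.2 (tr ι⁻¹ O) ((C.hz_tr _).2 hO) _ ⟨cj σ b, ?_⟩
      have := (conj_mem_ine (g := ι⁻¹) (O := O)).2 hσ.2
      rwa [inv_inv] at this
    · simp only [T, if_neg b]
      exact h.2 O hO _ ⟨lam_idx σ hσ.1 σ hσ.1 b b, mul_mem hσ.2 hσ.2⟩)
  simp only [Finset.prod_empty] at ha
  have hc : ∀ g ∈ C.H, χ (ι * g * ι⁻¹) = χ g := fun g hg => by
    have m := idx_conj C.H_le lam_idx hι hg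
    have e := ha _ (C.H_le m)
    simp only [T, if_pos m] at e
    rw [show ι⁻¹ * (ι * g * ι⁻¹) * ι = g by group] at e
    have p := h.1.pow g hg
    rw [pow_one, pow_two] at p
    exact mul_right_cancel₀ (lam_ne h.1 hg) (e.trans p.symm)
  have h2 : χ (ι * ι) = 1 := by
    have e := ha _ hι
    simp only [T, if_neg hι'] at e
    exact e
  let U : (Ω ≃ₐ[B] Ω) → Ω := fun g => if g ∈ C.H then χ g else χ (g * ι⁻¹)
  have hU : Chr C.H' 1 U := by
    refine ⟨fun g hg => ?_, idx_extend C.H_le lam_idx hι hι' h.1.mul hc h2 U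
      (fun g hg => if_pos hg) fun g hg => if_neg hg, ?_⟩
    · by_cases b : g ∈ C.H
      · simp only [U, if_pos b]
        exact h.1.pow g b
      · simp only [U, if_neg b]
        exact h.1.pow _ (lam_idx g hg _ (inv_mem hι) b fun e => hι' (inv_mem_iff.1 e))
    · refine ((lam_near (C := C)).and h.1.near).mono fun g e hg => ?_
      have b := e.1 hg
      simp only [U, if_pos b]
      exact e.2 b
  obtain ⟨b, hb⟩ := C.line_char (Finset.univ.image C.e) (fun c hc => by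
    obtain ⟨i, _, rfl⟩ := Finset.mem_image.1 hc
    exact C.e_kk i) hU (fun O hO hv σ hσ => by
    have hv' : ∀ i, O.valuation (C.x - C.e i) = 1 := fun i =>
      hv _ (Finset.mem_image_of_mem _ (Finset.mem_univ i))
    have vy : O.valuation C.y = 1 := by
      have := congrArg O.valuation C.eqn
      rw [map_pow, map_mul, map_mul, hv', hv', hv', mul_one, mul_one] at this
      exact (pow_eq_one_iff_of_nonneg zero_le two_ne_zero).1 this
    have m : σ ∈ C.H := by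
      by_contra m
      have := mem_ine.1 hσ.2 _ hO.y
      rw [lam_notMem hσ.1 m, show -C.y - C.y = -(2 * C.y) by ring, Valuation.map_neg, map_mul,
        hO.two, vy, mul_one] at this
      exact lt_irrefl _ this
    simp only [U, if_pos m]
    exact h.2 O hO σ ⟨m, hσ.2⟩)
  obtain ⟨P, hP⟩ := lam_prod (C := C) (Finset.univ.image C.e) (fun c hc => by
    obtain ⟨i, _, rfl⟩ := Finset.mem_image.1 hc
    exact ⟨i, rfl⟩) b
  refine ⟨P, hP.congr fun g hg => ?_⟩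
  rw [← hb g (C.H_le hg)]
  simp only [U, if_pos hg]

theorem Kp.down (h : C.Kp (n + 1) P χ) : C.Kp 1 (2 ^ n • P) (χ ^ 2 ^ n) := by
  induction n generalizing P χ with
  | zero => rwa [pow_zero, one_nsmul, pow_one]
  | succ n ih =>
    have := ih h.sq
    rwa [← mul_nsmul', ← pow_mul, ← pow_succ, ← pow_succ'] at this

/-- Induction: `χ ^ 2 ^ n` belongs to `T` of order 2, `T = 2^n P`, and `χ / χ_P` has level `n`. -/
theorem Lam.surj (h : C.Lam n χ) : ∃ P, C.Kp n P χ := by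
  have hS : ∀ z ∈ KK B₀ Ω, ∃ w ∈ KK B₀ Ω, w ^ 2 = z := fun z hz => by
    obtain ⟨w, hw⟩ := IsAlgClosed.exists_pow_nat_eq z two_pos
    exact ⟨w, root_kk two_pos hz hw, hw⟩
  induction n generalizing χ with
  | zero => exact ⟨0, kp_zero.congr fun g hg => by simpa using h.1.pow g hg⟩
  | succ n ih =>
    have h1 : C.Lam 1 (χ ^ 2 ^ n) :=
      ⟨⟨fun g hg => by rw [Pi.pow_apply, ← pow_mul, ← pow_add, h.1.pow g hg],
        fun g hg l hl => by simp only [Pi.pow_apply, h.1.mul g hg l hl, mul_pow],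
        h.1.near.mono fun g e hg => by rw [Pi.pow_apply, e hg, one_pow]⟩,
        fun O hO σ hσ => by rw [Pi.pow_apply, h.2 O hO σ hσ, one_pow]⟩
    obtain ⟨T, hT⟩ := h1.surj_one
    obtain ⟨R, -, rfl⟩ := C.inS_div _ hS (C.inS_tors _ hS hT.1) n
    obtain ⟨ψ, hψ⟩ := kp_ex (C := C) (n := n + 1) (P := R) (by
      rw [← hT.1, ← mul_nsmul', ← pow_add, add_comm])
    have e := hT.uniq hψ.down
    have l := hψ.lam
    have h2 : C.Lam n (χ / ψ) :=
      ⟨⟨fun g hg => by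
          have := e g hg
          simp only [Pi.pow_apply] at this
          rw [Pi.div_apply, div_pow, this, div_self (pow_ne_zero _ (lam_ne l.1 hg))],
        fun g hg k hk => by
          simp only [Pi.div_apply, h.1.mul g hg k hk, l.1.mul g hg k hk, mul_div_mul_comm],
        (h.1.near.and l.1.near).mono fun g e hg => by rw [Pi.div_apply, e.1 hg, e.2 hg, div_one]⟩,
        fun O hO σ hσ => by rw [Pi.div_apply, h.2 O hO σ hσ, l.2 O hO σ hσ, div_one]⟩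
    obtain ⟨S, hS'⟩ := ih h2
    exact ⟨_, (hS'.up.add hψ).congr fun g hg => by
      rw [Pi.mul_apply, Pi.div_apply, div_mul_cancel₀ _ (lam_ne l.1 hg)]⟩

end CS

end Lams

end

end Pool.Agent.Lib.MP_16ef92_ag.ET
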