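import Mathlib
import Pool.Agent.Lib.MP_16ef92_ag.ET.DDef

set_option autoImplicit false
set_option linter.unusedSectionVars false
set_option linter.unusedVariables false

namespace Pool.Agent.Lib.MP_16ef92_ag.ET

open Polynomial WeierstrassCurve WeierstrassCurve.Affine
open scoped Classical

noncomputable section

theorem dsc1_fix {K L : Type} [Field K] [Field L] [Algebra K L] {S : Set L} {g : L ≃ₐ[K] L} :
    g ∈ (IntermediateField.adjoin K S).fixingSubgroup ↔ ∀ s ∈ S, g s = s := by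
  rw [IntermediateField.mem_fixingSubgroup_iff]
  refine ⟨fun h s hs => h s (IntermediateField.subset_adjoin K S hs), fun h z hz => ?_⟩
  induction hz using IntermediateField.adjoin_induction with
  | mem z hz => exact h z hz
  | algebraMap z => exact g.commutes z
  | add a b _ _ ha hb => rw [map_add, ha, hb]
  | inv a _ ha => rw [map_inv₀, ha]
  | mul a b _ _ ha hb => rw [map_mul, ha, hb]

theorem dsc1_nhds {K L : Type} [Field K] [Field L] [Algebra K L] [Algebra.IsAlgebraic K L]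
    {U : Set (L ≃ₐ[K] L)} : U ∈ nhds (1 : L ≃ₐ[K] L) ↔ Near fun g => g ∈ U := by
  rw [krullTopology_mem_nhds_one_iff]
  constructor
  · rintro ⟨E, hE, hU⟩
    obtain ⟨S, rfl⟩ := (IntermediateField.essFiniteType_iff (K := E)).1 inferInstance
    exact ⟨S, fun g hg => hU (dsc1_fix.2 hg)⟩
  · rintro ⟨S, hS⟩
    exact ⟨IntermediateField.adjoin K (S : Set L), IntermediateField.finiteDimensional_adjoin
      fun z _ => Algebra.IsIntegral.isIntegral z, fun g hg => hS g (dsc1_fix.1 hg)⟩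

variable {F : Type} [Field F] [Fintype F] [Clos F] [hq : Fact (Odd (Fintype.card F))]
  {B Ω : Type} [Field B] [Field Ω] [Algebra (RatFunc F) B] [Algebra B Ω] [Algebra (RatFunc F) Ω]
  [IsScalarTower (RatFunc F) B Ω] [IsAlgClosed Ω] [Algebra.IsAlgebraic B Ω]
  [Algebra F Ω] [IsScalarTower F (RatFunc F) Ω]
  [Algebra (Om F) Ω] [IsScalarTower (RatFunc F) (Om F) Ω]
  {W : WeierstrassCurve (RatFunc F)} (C : CS B Ω W)

theorem dsc1_tower : IsScalarTower F (Om F) Ω := IsScalarTower.of_algebraMap_eq fun a => by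
  rw [IsScalarTower.algebraMap_apply F (RatFunc F) Ω, IsScalarTower.algebraMap_apply F (RatFunc F)
    (Om F), ← IsScalarTower.algebraMap_apply (RatFunc F) (Om F) Ω]

theorem dsc1_alg {z : Om F} : IsAlgebraic F (algebraMap (Om F) Ω z) ↔ IsAlgebraic F z := by
  have := dsc1_tower (F := F) (Ω := Ω)
  exact isAlgebraic_algebraMap_iff (algebraMap (Om F) Ω).injective

/-- `F` is perfect and `Om F` is separably closed, so its constants fill those of `Ω`. -/
theorem const_range {c : Ω} (hc : IsAlgebraic F c) :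
    ∃ z : Om F, IsAlgebraic F z ∧ algebraMap (Om F) Ω z = c := by
  have := dsc1_tower (F := F) (Ω := Ω)
  have hi := hc.isIntegral
  obtain ⟨z, hz⟩ := (IsSepClosed.splits_codomain (f := algebraMap F (Om F)) (minpoly F c)
    (PerfectField.separable_of_irreducible (minpoly.irreducible hi))).mem_range_of_isRoot
    (Polynomial.map_ne_zero (minpoly.ne_zero hi)) (i := algebraMap (Om F) Ω) (x := c) (by
      rw [Polynomial.map_map, ← IsScalarTower.algebraMap_eq, IsRoot, eval_map_algebraMap,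
        minpoly.aeval])
  exact ⟨z, dsc1_alg.1 (hz ▸ hc), hz⟩

theorem res_geo {g : Ω ≃ₐ[B] Ω} : res F g ∈ Geo F ↔ ∀ c : Ω, IsAlgebraic F c → g c = c := by
  refine ⟨fun h c hc => ?_, fun h z hz => (algebraMap (Om F) Ω).injective ?_⟩
  · obtain ⟨z, hz, rfl⟩ := const_range hc
    rw [← res_spec, h z hz]
  · rw [res_spec, h _ (dsc1_alg.2 hz)]

theorem res_fr {g : Ω ≃ₐ[B] Ω} {Q : ℕ} (h : ∀ c : Ω, IsAlgebraic F c → g c = c ^ Q) :
    Fr (res F g) Q := fun c => (algebraMap (Om F) Ω).injective (by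
  rw [res_spec, h _ (dsc1_alg.2 (mem_algebraicClosure_iff.1 c.2)), map_pow])

/-- `KK` is purely inseparable over the image of `Om F`. -/
theorem kk_pow {c : Ω} (hc : c ∈ KK (RatFunc F) Ω) :
    ∃ (e : ℕ) (z : Om F), algebraMap (Om F) Ω z = c ^ ringExpChar Ω ^ e := by
  have h1 : ExpChar (Om F) (ringExpChar Ω) :=
    (algebraMap (Om F) Ω).expChar (algebraMap (Om F) Ω).injective _
  have h2 : c ∈ algebraicClosure (Om F) Ω :=
    mem_algebraicClosure_iff'.2 (mem_algebraicClosure_iff'.1 hc).tower_top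
  obtain ⟨e, z, hz⟩ := IsPurelyInseparable.pow_mem (Om F) (ringExpChar Ω)
    (⟨c, h2⟩ : algebraicClosure (Om F) Ω)
  exact ⟨e, z, congrArg Subtype.val hz⟩

theorem res_one {g : Ω ≃ₐ[B] Ω} : res F g = 1 ↔ ∀ c ∈ KK (RatFunc F) Ω, g c = c := by
  refine ⟨fun h c hc => ?_, fun h => AlgEquiv.ext fun z => (algebraMap (Om F) Ω).injective ?_⟩
  · obtain ⟨e, z, hz⟩ := kk_pow hc
    apply iterateFrobenius_inj Ω (ringExpChar Ω) e
    rw [iterateFrobenius_def, iterateFrobenius_def, ← map_pow, ← hz, ← res_spec, h,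
      AlgEquiv.one_apply]
  · rw [res_spec, AlgEquiv.one_apply]
    exact h _ (mem_algebraicClosure_iff.2 (Algebra.IsAlgebraic.isAlgebraic z).algebraMap)

theorem CS.mem_G {g : Ω ≃ₐ[B] Ω} :
    g ∈ C.L.fixingSubgroup ↔ (∀ c : Ω, IsAlgebraic F c → g c = c) ∧ g C.y = C.y := by
  rw [CS.L, dsc1_fix]
  refine ⟨fun h => ⟨fun c hc => h c (Or.inl hc), h _ (Or.inr rfl)⟩, ?_⟩
  rintro ⟨h1, h2⟩ s (hs | rfl)
  exacts [h1 s hs, h2]

theorem CS.L_le : C.L ≤ C.E :=
  IntermediateField.adjoin.mono _ _ _ (Set.union_subset_union_left _ fun c hc =>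
    mem_algebraicClosure_iff.2 (IsAlgebraic.tower_top (RatFunc F) hc))

theorem near_res {P : Gam F → Prop} (h : Near P) :
    Near fun g : Ω ≃ₐ[B] Ω => P (res F g) := by
  obtain ⟨S, hS⟩ := h
  refine ⟨S.image (algebraMap (Om F) Ω), fun g hg => hS _ fun s hs =>
    (algebraMap (Om F) Ω).injective ?_⟩
  rw [res_spec, hg _ (Finset.mem_image_of_mem _ hs)]

/-- `exists_conj` for the ring `(Om F)[X]`, evaluated at `x` with and without `γ` on the
coefficients; then correct the sign of `y` by `exists_iota`. -/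
theorem CS.res_surj (γ : Gam F) : ∃ g : Ω ≃ₐ[B] Ω, g C.y = C.y ∧ res F g = γ := by
  have hx : Transcendental (Om F) C.x := C.xtr.extendScalars _
  have hi := transcendental_iff_injective.1 hx
  let τ₁ : (Om F)[X] →+* Ω := (aeval C.x : (Om F)[X] →ₐ[Om F] Ω)
  let τ₂ : (Om F)[X] →+* Ω := τ₁.comp (mapRingHom (γ : Om F →+* Om F))
  have e1 : ∀ r : (RatFunc F)[X], τ₁ (r.map (algebraMap _ (Om F))) = aeval C.x r := fun r =>
    aeval_map_algebraMap (Om F) C.x r
  have e2 : ∀ r : (RatFunc F)[X], τ₂ (r.map (algebraMap _ (Om F))) = aeval C.x r := fun r => by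
    have : (γ : Om F →+* Om F).comp (algebraMap (RatFunc F) (Om F)) = algebraMap _ _ :=
      RingHom.ext γ.commutes
    rw [← e1, RingHom.comp_apply, coe_mapRingHom, Polynomial.map_map, this]
  obtain ⟨g, hg⟩ := exists_conj (B := B) τ₁ τ₂ (fun s => by
    rw [map_eq_zero_iff τ₁ hi, map_eq_zero_iff τ₂ (hi.comp (map_injective _ γ.injective))])
    fun b => by
      obtain ⟨r, s, h⟩ := (IntermediateField.mem_adjoin_simple_iff _ _).1 (C.gen b)
      by_cases h0 : aeval C.x s = 0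
      · refine ⟨0, 1, by simp, ?_, ?_⟩ <;> rw [h, h0, div_zero, zero_mul, map_zero]
      · refine ⟨r.map (algebraMap _ _), s.map (algebraMap _ _), by rwa [e1], ?_, ?_⟩
        · rw [e1, e1, h, div_mul_cancel₀ _ h0]
        · rw [e2, e2, h, div_mul_cancel₀ _ h0]
  have hr : res F g = γ := AlgEquiv.ext fun z => (algebraMap (Om F) Ω).injective (by
    have := hg (Polynomial.C z)
    rw [res_spec]
    simpa [τ₁, τ₂] using this)
  rcases C.y_cases g with h | h
  · exact ⟨g, h, hr⟩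
  · obtain ⟨i, hi1, hi2⟩ := C.exists_iota
    exact ⟨g * i, by rw [AlgEquiv.mul_apply, hi2, map_neg, h, neg_neg],
      by rw [map_mul, hr, res_one.2 (C.mem_H'.1 hi1), mul_one]⟩

/-- Let `E = B(S, y)` for the finite set `S`.  Its fixing group is compact (the Galois group of
`Ω` over `perf E`) and `res` is continuous, so the image `U` is a closed subgroup of `Gam F`; it
has finite index by `res_surj` and `near_sub`, hence is open. -/
theorem CS.res_near {P : (Ω ≃ₐ[B] Ω) → Prop} (h : Near P) :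
    Near fun γ : Gam F => ∃ g : Ω ≃ₐ[B] Ω, g C.y = C.y ∧ res F g = γ ∧ P g := by
  obtain ⟨S, hS⟩ := h.and (Near.fix C.y)
  let E : IntermediateField B Ω := IntermediateField.adjoin B (S : Set Ω)
  have hG := galois_perf E
  let φ : (Ω ≃ₐ[perf E] Ω) →* Gam F := (res F).comp
    (MonoidHom.mk' (fun g : Ω ≃ₐ[perf E] Ω => g.restrictScalars B) fun _ _ => rfl)
  have hφ : Continuous φ := continuous_of_continuousAt_one φ fun U hU => by
    rw [map_one] at hU
    obtain ⟨T, hT⟩ := near_res (B := B) (Ω := Ω) (dsc1_nhds.1 hU)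
    exact dsc1_nhds.2 ⟨T, fun g hg => hT (g.restrictScalars B) hg⟩
  have hT : T2Space (Gam F) := krullTopology_t2
  have hc : IsClosed (φ.range : Set (Gam F)) := (isCompact_range hφ).isClosed
  obtain ⟨N, -, hN, -, hNf⟩ := near_sub (B := B) (Ω := Ω) (P := fun g => ∀ s ∈ S, g s = s)
    ⟨S, fun _ h => h⟩
  have h1 : (N.map (res F)).FiniteIndex := ⟨ne_zero_of_dvd_ne_zero hNf.index_ne_zero
    (N.index_map_dvd fun γ => (C.res_surj γ).imp fun _ h => h.2)⟩
  have h2 : φ.range.FiniteIndex := Subgroup.finiteIndex_of_le (H := N.map (res F)) (by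
    rintro _ ⟨g, hg, rfl⟩
    exact ⟨(perf E).fixingSubgroupEquiv ⟨g, fix_perf (dsc1_fix.2 (hN g hg))⟩, rfl⟩)
  refine (dsc1_nhds.1 ((φ.range.isOpen_of_isClosed_of_finiteIndex hc).mem_nhds
    φ.range.one_mem)).mono ?_
  rintro _ ⟨g, rfl⟩
  have h3 := hS _ (dsc1_fix.1 (gb1_fix g))
  exact ⟨g.restrictScalars B, h3.2, rfl, h3.1⟩

end

end Pool.Agent.Lib.MP_16ef92_ag.ET
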