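import Mathlib
import Pool.Agent.Lib.MP_16ef92_ag.ET.Dsc1
import Pool.Agent.Lib.MP_16ef92_ag.ET.Nrm2

set_option autoImplicit false
set_option linter.unusedSectionVars false
set_option linter.unusedVariables false

namespace Pool.Agent.Lib.MP_16ef92_ag.ET

open Polynomial WeierstrassCurve WeierstrassCurve.Affine
open scoped Classical

noncomputable section

variable {F : Type} [Field F] [Fintype F] [Clos F] [hq : Fact (Odd (Fintype.card F))]
  {B Ω : Type} [Field B] [Field Ω] [Algebra (RatFunc F) B] [Algebra B Ω] [Algebra (RatFunc F) Ω]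
  [IsScalarTower (RatFunc F) B Ω] [IsAlgClosed Ω] [Algebra.IsAlgebraic B Ω]
  [Algebra F Ω] [IsScalarTower F (RatFunc F) Ω]
  [Algebra (Om F) Ω] [IsScalarTower (RatFunc F) (Om F) Ω]
  {W : WeierstrassCurve (RatFunc F)} (C : CS B Ω W)

theorem dsc2_root {L : Type} [Field L] [Algebra F L] {m : ℕ} {w : L} (h : w ^ 2 ^ m = 1) :
    IsAlgebraic F w :=
  IsAlgebraic.of_pow (n := 2 ^ m) (by positivity) (h ▸ isAlgebraic_one)

theorem CS.dsc2_geo {g : Ω ≃ₐ[B] Ω} (hg : g ∈ C.L.fixingSubgroup) : res F g ∈ Geo F :=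
  res_geo.2 (C.mem_G.1 hg).1

theorem CS.dsc2_lift {γ : Gam F} (h : γ ∈ Geo F) : ∃ g ∈ C.L.fixingSubgroup, res F g = γ := by
  obtain ⟨g, h1, rfl⟩ := C.res_surj γ
  exact ⟨g, C.mem_G.2 ⟨res_geo.1 h, h1⟩, rfl⟩

theorem CS.dsc2_ker {g l : Ω ≃ₐ[B] Ω} (hg : g ∈ C.L.fixingSubgroup) (hl : l ∈ C.L.fixingSubgroup)
    (h : res F g = res F l) : ∃ k ∈ C.H, l = g * k :=
  ⟨g⁻¹ * l, C.mem_H.2 ⟨res_one.1 (by rw [map_mul, map_inv, h, inv_mul_cancel]),
    (C.mem_G.1 (mul_mem (inv_mem hg) hl)).2⟩, (mul_inv_cancel_left g l).symm⟩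

/-- Choose a section of `res` on `Geo F`; the values of `c` are roots of unity, so they come from
`Om F`; apply `h2_zero` with `quad_geo`, and pull back along `res`. -/
theorem CS.tsq : TsQ C.L.fixingSubgroup C.H := by
  intro n c hp hc hn hH
  have hi := (algebraMap (Om F) Ω).injective
  choose! σ hσ hr using fun γ => C.dsc2_lift (γ := γ)
  have hHG : C.H ≤ C.L.fixingSubgroup := IntermediateField.fixingSubgroup_antitone C.L_le
  let c' : Gam F → Gam F → Om F := fun γ δ => Function.invFun (algebraMap (Om F) Ω) (c (σ γ) (σ δ))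
  have key : ∀ g ∈ C.L.fixingSubgroup, ∀ l ∈ C.L.fixingSubgroup,
      algebraMap (Om F) Ω (c' (res F g) (res F l)) = c g l := fun g hg l hl => by
    obtain ⟨k, hk, e⟩ := C.dsc2_ker hg (hσ _ (C.dsc2_geo hg)) (hr _ (C.dsc2_geo hg)).symm
    obtain ⟨k', hk', e'⟩ := C.dsc2_ker hl (hσ _ (C.dsc2_geo hl)) (hr _ (C.dsc2_geo hl)).symm
    have e1 : c (σ (res F g)) (σ (res F l)) = c g l := by
      rw [e, e', (hH k hk g hg _ (mul_mem hl (hHG hk'))).1, (hH k' hk' g hg l hl).2]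
    simp only [c', e1]
    exact Function.invFun_eq ((const_range (dsc2_root (hp g hg l hl))).imp fun _ h => h.2)
  obtain ⟨b, hb1, hb2, hb3⟩ := h2_zero (n := n) two_ne (Geo F)
    (fun g hg m w hw => hg w (dsc2_root hw)) quad_geo c'
    (fun γ hγ δ hδ => by
      obtain ⟨g, hg, rfl⟩ := C.dsc2_lift hγ
      obtain ⟨l, hl, rfl⟩ := C.dsc2_lift hδ
      exact hi (by rw [map_pow, key g hg l hl, hp g hg l hl, map_one]))
    (fun γ hγ δ hδ ε hε => by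
      obtain ⟨g, hg, rfl⟩ := C.dsc2_lift hγ
      obtain ⟨h, hh, rfl⟩ := C.dsc2_lift hδ
      obtain ⟨l, hl, rfl⟩ := C.dsc2_lift hε
      refine hi ?_
      rw [map_mul, map_mul, ← map_mul (res F), ← map_mul (res F), key g hg h hh,
        key _ (mul_mem hg hh) l hl, key h hh l hl, key g hg _ (mul_mem hh hl), hc g hg h hh l hl])
    ((C.res_near hn).mono (by
      rintro _ ⟨k, hy, rfl, hk⟩ hγ γ hγ' δ hδ
      obtain ⟨g, hg, rfl⟩ := C.dsc2_lift hγ'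
      obtain ⟨l, hl, rfl⟩ := C.dsc2_lift hδ
      have hkG := C.mem_G.2 ⟨res_geo.1 hγ, hy⟩
      obtain ⟨h1, h2⟩ := hk hkG g hg l hl
      refine ⟨hi ?_, hi ?_⟩
      · rw [← map_mul (res F), key _ (mul_mem hg hkG) l hl, key g hg l hl, h1]
      · rw [← map_mul (res F), key g hg _ (mul_mem hl hkG), key g hg l hl, h2]))
  refine ⟨fun g => algebraMap (Om F) Ω (b (res F g)), ⟨fun g hg => ?_, ?_, fun g hg h hh => ?_⟩,
    fun h hh g hg => ?_⟩
  · rw [← map_pow, hb1 _ (C.dsc2_geo hg), map_one]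
  · refine (near_res hb2).mono fun h e hh g hg => ?_
    beta_reduce
    rw [map_mul, e (C.dsc2_geo hh) _ (C.dsc2_geo hg)]
  · rw [← key g hg h hh, ← map_mul, ← map_mul, map_mul (res F),
      hb3 _ (C.dsc2_geo hg) _ (C.dsc2_geo hh)]
  · beta_reduce
    rw [map_mul, res_one.2 (C.mem_H.1 hh).1, mul_one]

theorem emb_inj : Function.Injective (emb Ω : Pt W → PO Ω W) := Point.map_injective _

theorem emb_pm (g : Ω ≃ₐ[B] Ω) (P : Pt W) : emb Ω (pm (res F g) P) = pmO g (emb Ω P) := by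
  cases P with
  | zero => rfl
  | some a b h =>
    simp only [Point.map_some, Point.some.injEq]
    exact ⟨res_spec g a, res_spec g b⟩

include C in
/-- `inS_tors` for the image of `Om F`. -/
theorem CS.emb_tors {n : ℕ} {P : PO Ω W} (h : 2 ^ n • P = 0) : ∃ Q : Pt W, emb Ω Q = P := by
  have h1 := C.inS_tors (IsScalarTower.toAlgHom (RatFunc F) (Om F) Ω).fieldRange (by
    rintro _ ⟨z, rfl⟩
    have : NeZero ((2 : ℕ) : Om F) := ⟨by exact_mod_cast two_ne⟩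
    obtain ⟨w, rfl⟩ := IsSepClosed.exists_pow_nat_eq z 2
    exact ⟨_, ⟨w, rfl⟩, (map_pow _ w 2).symm⟩) h
  cases P with
  | zero => exact ⟨0, rfl⟩
  | some a b hn =>
    obtain ⟨⟨a, rfl⟩, b, rfl⟩ := h1
    exact ⟨.some a b ((baseChange_nonsingular (W := W.toAffine)
      (f := IsScalarTower.toAlgHom (RatFunc F) (Om F) Ω) (algebraMap (Om F) Ω).injective a b).1
      hn), rfl⟩

/-- If `res g = res g'` then `g' = g h` with `h` in `H`. -/
theorem CS.descend {n : ℕ} {a : (Ω ≃ₐ[B] Ω) → PO Ω W}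
    (h1 : ∀ g ∈ C.L.fixingSubgroup, 2 ^ n • a g = 0)
    (h2 : ∀ g ∈ C.L.fixingSubgroup, ∀ l ∈ C.L.fixingSubgroup, a (g * l) = a g + pmO g (a l))
    (h3 : ∀ g ∈ C.H, a g = 0) :
    ∃ c : Gam F → Pt W, ∀ g ∈ C.L.fixingSubgroup, emb Ω (c (res F g)) = a g := by
  choose! σ hσ hr using fun γ => C.dsc2_lift (γ := γ)
  refine ⟨fun γ => Function.invFun (emb Ω) (a (σ γ)), fun g hg => ?_⟩
  obtain ⟨k, hk, e⟩ := C.dsc2_ker hg (hσ _ (C.dsc2_geo hg)) (hr _ (C.dsc2_geo hg)).symm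
  beta_reduce
  rw [e, h2 g hg k (IntermediateField.fixingSubgroup_antitone C.L_le hk), h3 k hk, map_zero,
    add_zero]
  exact Function.invFun_eq (C.emb_tors (h1 g hg))

theorem CS.dsc2_conj {s : Ω ≃ₐ[B] Ω} (hy : s C.y = C.y) {g : Ω ≃ₐ[B] Ω}
    (hg : g ∈ C.L.fixingSubgroup) : s⁻¹ * g * s ∈ C.L.fixingSubgroup := by
  refine C.mem_G.2 ⟨res_geo.1 fun z hz => ?_, ?_⟩
  · rw [map_mul, map_mul, map_inv, AlgEquiv.mul_apply, AlgEquiv.mul_apply,
      C.dsc2_geo hg (res F s z)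
      (hz.algHom ((res F s).restrictScalars F : Om F →ₐ[F] Om F)), inv_apply_self]
  · rw [AlgEquiv.mul_apply, AlgEquiv.mul_apply, hy, (C.mem_G.1 hg).2, inv_fix hy]

open CategoryTheory AlgebraicGeometry in
/-- Take `Cl n x c` to mean: there are `β e a` with `Cls n x β e`, `C.Ac G n β e a` and
`emb (c (res g)) = a g` for `g` in `G`. -/
theorem CS.bridge_of {R : Type} [CommRing R] {ι : R →+* Ω} {Pi : Set R} (hF : C.Fib ι C.L Pi)
    {Cls : ∀ n : ℕ, (mu (Spec (CommRingCat.of R)) (2 ^ n)).H 2 →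
      ((Ω ≃ₐ[B] Ω) → (Ω ≃ₐ[B] Ω) → Ω) → (ValuationSubring Ω → (Ω ≃ₐ[B] Ω) → Ω) → Prop}
    (hS : SInt ι C.L Pi Cls) (σ : R ≃+* R) (s : Ω ≃ₐ[B] Ω) (hs : ∀ r, s (ι r) = ι (σ r))
    (hy : s C.y = C.y) :
    ∃ Cl, BInt W (res F s) (fun n => (mu (Spec (CommRingCat.of R)) (2 ^ n)).H 2)
      (fun n => Sheaf.H.map (sq (Spec (CommRingCat.of R)) n) 2)
      (fun n => actH (Scheme.Spec.mapIso σ.toCommRingCatIso.op) (2 ^ n) 2) Cl := by
  refine ⟨fun n x c => ∃ β e a, Cls n x β e ∧ C.Ac C.L.fixingSubgroup n β e a ∧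
    ∀ g ∈ C.L.fixingSubgroup, emb Ω (c (res F g)) = a g, ?_, ?_, ?_, ?_, ?_, ?_, ?_, ?_, ?_⟩
  · intro n x
    obtain ⟨β, e, h⟩ := hS.total n x
    have hp := hS.pr n x β e h
    obtain ⟨a, ha⟩ := CS.ac_ex hF hp
    obtain ⟨c, hc⟩ := C.descend (fun g hg => ha.tors hg) (fun g hg l hl => ha.mul hF hp hg hl)
      fun g hg => ha.zero_H hF hp hg
    exact ⟨c, β, e, a, h, ha, hc⟩
  · rintro n x c ⟨β, e, a, h, ha, hc⟩ γ hγ
    obtain ⟨g, hg, rfl⟩ := C.dsc2_lift hγ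
    exact emb_inj (Ω := Ω) (by rw [map_nsmul, hc g hg, ha.tors hg, map_zero])
  · rintro n x c ⟨β, e, a, h, ha, hc⟩ γ hγ δ hδ
    obtain ⟨g, hg, rfl⟩ := C.dsc2_lift hγ
    obtain ⟨l, hl, rfl⟩ := C.dsc2_lift hδ
    refine emb_inj (Ω := Ω) ?_
    rw [← map_mul, map_add, emb_pm, hc g hg, hc l hl, hc _ (mul_mem hg hl),
      ha.mul hF (hS.pr n x β e h) hg hl]
  · rintro n x c ⟨β, e, a, h, ha, hc⟩
    refine (C.res_near (ha.near hF (hS.pr n x β e h))).mono ?_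
    rintro _ ⟨g, h1, rfl, h2⟩ hγ
    have hg := C.mem_G.2 ⟨res_geo.1 hγ, h1⟩
    exact emb_inj (Ω := Ω) (by rw [hc g hg, h2 hg, map_zero])
  · rintro n x c x' c' ⟨β, e, a, h, ha, hc⟩ ⟨β', e', a', h', ha', hc'⟩
    exact ⟨_, _, _, hS.sub n x β e x' β' e' h h',
      ha.sub hF (hS.pr n x β e h) (hS.pr n x' β' e' h') ha', fun g hg => by
        rw [_root_.Pi.sub_apply, map_sub, hc g hg, hc' g hg, _root_.Pi.sub_apply]⟩
  · rintro n c ⟨β, e, a, h, ha, hc⟩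
    obtain ⟨b, hb, he⟩ := hS.zero n β e h
    obtain ⟨P, hP, hP'⟩ := ha.cob hF (hS.pr n 0 β e h) hb he
    obtain ⟨Q, rfl⟩ := C.emb_tors hP
    refine ⟨Q, emb_inj (Ω := Ω) (by rw [map_nsmul, hP, map_zero]), fun γ hγ => ?_⟩
    obtain ⟨g, hg, rfl⟩ := C.dsc2_lift hγ
    exact emb_inj (Ω := Ω) (by rw [hc g hg, hP' g hg, map_sub, emb_pm])
  · rintro n x c P ⟨β, e, a, h, ha, hc⟩ hP hP'
    obtain ⟨b, hb, he⟩ := ha.inj hF (hS.pr n x β e h) (P := emb Ω P)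
      (by rw [← map_nsmul, hP, map_zero]) fun g hg => by
        rw [← hc g hg, hP' _ (C.dsc2_geo hg), map_sub, emb_pm]
    exact hS.inj n x β e b h hb he
  · rintro n x c ⟨β, e, a, h, ha, hc⟩
    exact ⟨_, _, _, hS.sq n x β e h, ha.sq, fun g hg => by
      rw [_root_.Pi.smul_apply, map_nsmul, hc g hg, _root_.Pi.smul_apply]⟩
  · rintro n x c ⟨β, e, a, h, ha, hc⟩
    refine ⟨_, _, _, hS.act σ s hs n x β e h, ha.act hF hy fun g hg => C.dsc2_conj hy hg,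
      fun g hg => ?_⟩
    beta_reduce
    rw [emb_pm, ← hc _ (C.dsc2_conj hy hg), map_mul, map_mul, map_inv]

end

end Pool.Agent.Lib.MP_16ef92_ag.ET
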