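import Mathlib
import Pool.Agent.Lib.MP_16ef92_ag.ET.Dsc1
import Pool.Agent.Lib.MP_16ef92_ag.ET.Rng2

set_option autoImplicit false
set_option linter.unusedSectionVars false
set_option linter.unusedVariables false

namespace Pool.Agent.Lib.MP_16ef92_ag.ET

open Polynomial WeierstrassCurve WeierstrassCurve.Affine
open scoped Classical

noncomputable section

variable {F : Type} [Field F] [Fintype F] [hq : Fact (Odd (Fintype.card F))]
  {B Ω : Type} [Field B] [Field Ω] [Algebra (RatFunc F) B] [Algebra B Ω] [Algebra (RatFunc F) Ω]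
  [IsScalarTower (RatFunc F) B Ω] [IsAlgClosed Ω] [Algebra.IsAlgebraic B Ω]
  [Algebra F Ω] [IsScalarTower F (RatFunc F) Ω] {P Q D : F[X]}

theorem rng_rf (p : F[X]) : algebraMap (RatFunc F) Ω (rf p) =
    aeval (algebraMap (RatFunc F) Ω RatFunc.X) p := by
  rw [aeval_algebraMap_apply, RatFunc.aeval_X_left_eq_algebraMap]

theorem rng_frac {S : Type} [CommRing S] (f : S →+* Ω) {a : Ω}
    (ha : a ∈ Subfield.closure (Set.range f)) : ∃ b c, f c ≠ 0 ∧ a * f c = f b := by
  obtain ⟨y, hy, z, hz, rfl⟩ := Subfield.mem_closure_iff.1 ha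
  rw [← RingHom.coe_range, Subring.closure_eq] at hy hz
  obtain ⟨b, rfl⟩ := hy
  obtain ⟨c, rfl⟩ := hz
  by_cases h : f c = 0
  · exact ⟨0, 1, by simp, by simp [h]⟩
  · exact ⟨b, c, h, div_mul_cancel₀ _ h⟩

theorem rng_base {W : WeierstrassCurve (RatFunc F)} (C : CS B Ω W) (S : Subfield Ω)
    (h1 : ∀ p : F[X], aeval (algebraMap (RatFunc F) Ω RatFunc.X) p ∈ S) (h2 : C.x ∈ S) (b : B) :
    algebraMap B Ω b ∈ S := by
  have h3 : ∀ a : RatFunc F, algebraMap (RatFunc F) Ω a ∈ S := fun a => by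
    rw [← RatFunc.num_div_denom a, map_div₀]
    exact div_mem (rng_rf (Ω := Ω) a.num ▸ h1 _) (rng_rf (Ω := Ω) a.denom ▸ h1 _)
  exact (IntermediateField.adjoin_simple_le_iff (K := S.toIntermediateField h3)).2 h2 (C.gen b)

theorem rng_int {K : Type} [Field K] [Algebra K Ω] (O : ValuationSubring Ω)
    (h : ∀ a : K, algebraMap K Ω a ∈ O) {c : Ω} (hc : IsAlgebraic K c) : c ∈ O := by
  let f : K →+* O := (algebraMap K Ω).codRestrict O h
  obtain ⟨p, hp, e⟩ := hc.isIntegral
  have : IsIntegral O c := ⟨p.map f, hp.map f, by rw [eval₂_map]; exact e⟩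
  obtain ⟨z, rfl⟩ := IsIntegrallyClosed.isIntegral_iff.1 this
  exact z.2

theorem CS.rng (C : CS B Ω (curve P Q D)) (h0 : P * Q * (P - Q) * D ≠ 0)
    (he : C.e = ![0, algebraMap (RatFunc F) Ω (rf (D * P)), algebraMap (RatFunc F) Ω (rf (D * Q))]) :
    ∃ (ι : Rb P Q D →+* Ω) (Pi : Set (Rb P Q D)), Amb ι C.L Pi ∧
      (∀ O, C.Hz O → Ov ι O) ∧ (∀ O, Ov ι O → (∀ p ∈ Pi, O.valuation (ι p) = 1) → C.Hz O) ∧
      ∃ s : Ω ≃ₐ[B] Ω, (∀ r, s (ι r) = ι (frR P Q D r)) ∧ s C.y = C.y ∧
        ∀ c : Ω, IsAlgebraic F c → s c = c ^ Fintype.card F := by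
  let k := AlgebraicClosure F
  let j : k →ₐ[F] Ω := IsAlgClosed.lift
  let _ : Algebra k Ω := j.toRingHom.toAlgebra
  have : IsScalarTower F k Ω := IsScalarTower.of_algebraMap_eq fun a => (j.commutes a).symm
  have hP := pres_rb (P := P) (Q := Q) (D := D)
  set T := inR P Q D (MvPolynomial.X 0)
  set X' := inR P Q D (MvPolynomial.X 1)
  set Y := inR P Q D (MvPolynomial.X 2)
  set Z := inR P Q D (MvPolynomial.X 3)
  set N := (P * Q * (P - Q) * D).map (algebraMap F k) with hN
  set t : Ω := algebraMap (RatFunc F) Ω RatFunc.X with ht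
  have htF : Transcendental F t :=
    (transcendental_algebraMap_iff (algebraMap (RatFunc F) Ω).injective).2 RatFunc.transcendental_X
  have htk : Transcendental k t := htF.extendScalars k
  have hti : Function.Injective (aeval t : k[X] →ₐ[k] Ω) := transcendental_iff_injective.1 htk
  have hj : ∀ c : Ω, IsAlgebraic F c → ∃ a : k, algebraMap k Ω a = c := fun c hc =>
    hc.isIntegral.mem_range_algebraMap_of_minpoly_splits (K := k) (IsAlgClosed.splits _)
  have hja : ∀ a : k, IsAlgebraic F (algebraMap k Ω a) := fun a =>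
    (Algebra.IsAlgebraic.isAlgebraic a).algebraMap
  have hN0 : N ≠ 0 := (Polynomial.map_ne_zero_iff (algebraMap F k).injective).2 h0
  have hNt : aeval t N ≠ 0 := fun e => hN0 (hti (e.trans (map_zero _).symm))
  obtain ⟨φ, h1, h2, h3, h4⟩ := hP.lift Ω t C.x C.y (aeval t N)⁻¹ (by
    rw [C.eqn, he, aeval_map_algebraMap, aeval_map_algebraMap, ← rng_rf, ← rng_rf]
    simp) (inv_mul_cancel₀ hNt)
  have hS : ∀ S : Subfield Ω, (∀ a : k, algebraMap k Ω a ∈ S) → t ∈ S → ∀ a : k[X], aeval t a ∈ S := by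
    intro S e1 e2 a
    induction a using Polynomial.induction_on' with
    | add p q hp hq => rw [map_add]; exact add_mem hp hq
    | monomial n c => rw [aeval_monomial]; exact mul_mem (e1 c) (pow_mem e2 n)
  have hkK : ∀ a : k, algebraMap k Ω a ∈ KK (RatFunc F) Ω := fun a =>
    mem_algebraicClosure_iff.2 ((hja a).tower_top _)
  have hK : ∀ a : k[X], aeval t a ∈ KK (RatFunc F) Ω :=
    hS (KK (RatFunc F) Ω).toSubfield hkK ((KK (RatFunc F) Ω).algebraMap_mem _)
  have hne : D * P ≠ 0 ∧ D * Q ≠ 0 := by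
    simp only [ne_eq, mul_eq_zero, not_or] at h0 ⊢
    exact ⟨⟨h0.2, h0.1.1.1⟩, h0.2, h0.1.1.2⟩
  have hinj : Function.Injective φ := hP.inj φ
    ((aeval t : k[X] →ₐ[k] Ω).toRingHom.codRestrict (KK (RatFunc F) Ω) hK)
    (fun a b e => hti (congrArg Subtype.val e)) (fun a => by rw [h1]; rfl)
    (by rw [h2]; exact C.x_trans)
    ((Polynomial.map_ne_zero_iff (algebraMap F k).injective).2 hne.1)
    ((Polynomial.map_ne_zero_iff (algebraMap F k).injective).2 hne.2)
  have : IsDomain (Rb P Q D) := hinj.isDomain φ.toRingHom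
  have : Algebra.FiniteType k (Rb P Q D) := ⟨⟨{T, X', Y, Z}, by simpa using hP.gen⟩⟩
  have h2k : (2 : k) ≠ 0 := fun e => C.cub.two (by
    rw [← map_ofNat (algebraMap k Ω) 2, e, map_zero])
  have hall : ∀ S : Subring Ω, (∀ a : k, algebraMap k Ω a ∈ S) → t ∈ S → C.x ∈ S → C.y ∈ S →
      (aeval t N)⁻¹ ∈ S → ∀ r, φ r ∈ S := by
    intro S e0 e1 e2 e3 e4 r
    have hr : r ∈ Algebra.adjoin k {T, X', Y, Z} := by rw [hP.gen]; trivial
    induction hr using Algebra.adjoin_induction with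
    | mem x hx =>
      rcases hx with rfl | rfl | rfl | rfl
      exacts [h1 ▸ e1, h2 ▸ e2, h3 ▸ e3, h4 ▸ e4]
    | algebraMap c => rw [φ.commutes]; exact e0 c
    | add x y _ _ hx hy => rw [map_add]; exact add_mem hx hy
    | mul x y _ _ hx hy => rw [map_mul]; exact mul_mem hx hy
  have hb : ∀ b : B, ∃ s c, φ (inR P Q D c) ≠ 0 ∧
      algebraMap B Ω b * φ (inR P Q D c) = φ (inR P Q D s) := fun b =>
    rng_frac (φ.toRingHom.comp (inR P Q D).toRingHom) (rng_base C _
      (fun p => Subfield.subset_closure (Set.mem_range.2 ⟨aeval (MvPolynomial.X 0) p, by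
        change (φ.restrictScalars F) (inR P Q D _) = _
        rw [← aeval_algHom_apply, ← aeval_algHom_apply]
        exact congrArg (aeval · p) h1⟩))
      (Subfield.subset_closure (Set.mem_range.2 ⟨MvPolynomial.X 1, h2⟩)) b)
  have hp : ∀ c : k, φ (T - algebraMap k _ c) = t - algebraMap k Ω c := fun c => by
    rw [map_sub, h1, φ.commutes]
  refine ⟨φ.toRingHom, {p | ∃ c : k, N.eval c ≠ 0 ∧ p = T - algebraMap k _ c},
    ⟨hinj, ?_, ?_, ?_, ?_, Algebra.FiniteType.isNoetherianRing k _,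
      isJacobsonRing_of_finiteType (A := k), ?_, ?_, ?_⟩, ?_, ?_, ?_⟩
  · have e0 : ∀ a : k, algebraMap k Ω a ∈ C.L := fun a =>
      IntermediateField.subset_adjoin _ _ (Or.inl (hja a))
    have e1 : t ∈ C.L := by
      rw [ht, IsScalarTower.algebraMap_apply (RatFunc F) B Ω]
      exact C.L.algebraMap_mem _
    obtain ⟨b, hb⟩ := C.xB
    exact hall C.L.toSubfield.toSubring e0 e1 (hb ▸ C.L.algebraMap_mem b)
      (IntermediateField.subset_adjoin _ _ (Or.inr rfl))
      (C.L.inv_mem (hS C.L.toSubfield e0 e1 N))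
  · intro a ha
    refine rng_frac φ.toRingHom ((IntermediateField.adjoin_le_iff
      (T := (Subfield.closure (Set.range φ.toRingHom)).toIntermediateField fun b => ?_)).2 ?_ ha)
    · obtain ⟨s, c, e1, e2⟩ := hb b
      rw [eq_div_of_mul_eq e1 e2]
      exact div_mem (Subfield.subset_closure ⟨_, rfl⟩) (Subfield.subset_closure ⟨_, rfl⟩)
    · rintro c (hc | rfl)
      · obtain ⟨a, rfl⟩ := hj c hc
        exact Subfield.subset_closure ⟨_, φ.commutes a⟩
      · exact Subfield.subset_closure ⟨_, h3⟩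
  · intro m w hw
    obtain ⟨a, rfl⟩ := hj w (IsAlgebraic.of_pow (n := 2 ^ m) (by positivity)
      (by rw [hw]; exact isAlgebraic_one))
    exact ⟨_, φ.commutes a⟩
  · rw [← map_ofNat (algebraMap k (Rb P Q D)) 2]
    exact (IsUnit.mk0 _ h2k).map _
  · rintro _ ⟨c, hc, rfl⟩
    refine hP.prime hc fun e => htk ?_
    have := hp c
    rw [e, map_zero, eq_comm, sub_eq_zero] at this
    exact this ▸ isAlgebraic_algebraMap c
  · rintro _ ⟨c, hc, rfl⟩ _ ⟨c', hc', rfl⟩ hne
    rw [sub_sub_sub_cancel_left, ← map_sub]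
    exact (IsUnit.mk0 _ (sub_ne_zero.2 fun e => hne (by rw [e]))).map _
  · intro m hm
    obtain ⟨c, hc, w, s, h⟩ := hP.good h2k m hm
    exact ⟨_, ⟨c, hc, rfl⟩, w, s, h⟩
  · intro O hO
    exact hall O.toSubring (fun a => hO.1 _ (hkK a))
      (hO.1 _ ((KK (RatFunc F) Ω).algebraMap_mem _)) hO.2 hO.y
      (hO.1 _ ((KK (RatFunc F) Ω).inv_mem (hK N)))
  · intro O hO hv
    have le1 : ∀ r, O.valuation (φ r) ≤ 1 := fun r => (O.valuation_le_one_iff _).2 (hO r)
    have le2 : ∀ a : k[X], O.valuation (aeval t a) ≤ 1 := fun a => by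
      rw [← h1, aeval_algHom_apply]
      exact le1 _
    have one : ∀ a b : Ω, O.valuation a ≤ 1 → O.valuation b ≤ 1 → O.valuation (a * b) = 1 →
        O.valuation a = 1 := fun a b e1 e2 e3 => by
      refine le_antisymm e1 ?_
      rw [← e3, map_mul]
      exact mul_le_of_le_one_right zero_le e2
    have e1 : O.valuation (aeval t N) = 1 :=
      one _ _ (le2 N) (h4 ▸ le1 Z) (by rw [mul_inv_cancel₀ hNt, map_one])
    have e2 : ∀ c : k, O.valuation (aeval t (X - Polynomial.C c)) = 1 := fun c => by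
      by_cases hc : N.eval c = 0
      · obtain ⟨d, hd⟩ := dvd_iff_isRoot.2 hc
        exact one _ _ (le2 _) (le2 d) (by rw [← map_mul, ← hd, e1])
      · have := hv _ ⟨c, hc, rfl⟩
        change O.valuation (φ _) = 1 at this
        rw [hp] at this
        simpa using this
    have e3 : ∀ a : k[X], a ≠ 0 → O.valuation (aeval t a) = 1 := fun a ha => by
      rw [(IsAlgClosed.splits a).eq_prod_roots, map_mul, map_mul, map_multiset_prod,
        map_multiset_prod, Multiset.prod_eq_one, mul_one]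
      · refine one _ _ (le2 _) (le2 (Polynomial.C a.leadingCoeff⁻¹)) ?_
        rw [← map_mul, ← C_mul, mul_inv_cancel₀ (leadingCoeff_ne_zero.2 ha)]
        simp
      · intro z hz
        simp only [Multiset.mem_map] at hz
        obtain ⟨_, ⟨_, ⟨c, -, rfl⟩, rfl⟩, rfl⟩ := hz
        exact e2 c
    refine ⟨fun c hc => rng_int (K := RatFunc F) O (fun a => ?_) (mem_algebraicClosure_iff.1 hc),
      h2 ▸ hO X'⟩
    rw [← O.valuation_le_one_iff, ← RatFunc.num_div_denom a, map_div₀, rng_rf, rng_rf, map_div₀,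
      ← aeval_map_algebraMap k, ← aeval_map_algebraMap k _ a.denom,
      e3 _ ((Polynomial.map_ne_zero_iff (algebraMap F k).injective).2 a.denom_ne_zero), div_one]
    exact le2 _
  · obtain ⟨s, hs⟩ := exists_conj (B := B) φ.toRingHom (φ.toRingHom.comp (frR P Q D).toRingHom)
      (fun r => by
        change φ r = 0 ↔ φ (frR P Q D r) = 0
        rw [map_eq_zero_iff _ hinj, map_eq_zero_iff _ hinj, map_eq_zero_iff _ (frR P Q D).injective])
      (fun b => by
        obtain ⟨s, c, e1, e2⟩ := hb b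
        refine ⟨inR P Q D s, inR P Q D c, e1, e2, ?_⟩
        change _ * φ (frR P Q D _) = φ (frR P Q D _)
        rw [frR_inR, frR_inR, e2])
    have hs' : ∀ r, s (φ r) = φ (frR P Q D r) := hs
    refine ⟨s, hs, by rw [← h3, hs', frR_inR], fun c hc => ?_⟩
    obtain ⟨a, rfl⟩ := hj c hc
    rw [← φ.commutes, hs', frR_const, φ.commutes, φ.commutes, map_pow]

theorem exists_cs (h0 : P * Q * (P - Q) * D ≠ 0) :
    ∃ C : CS (RatFunc (RatFunc F)) (AlgebraicClosure (RatFunc (RatFunc F))) (curve P Q D),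
      C.e = ![0, algebraMap (RatFunc F) _ (rf (D * P)), algebraMap (RatFunc F) _ (rf (D * Q))] := by
  let B := RatFunc (RatFunc F)
  let Ω := AlgebraicClosure B
  let x : Ω := algebraMap B Ω RatFunc.X
  let a : Ω := algebraMap (RatFunc F) Ω (rf (D * P))
  let b : Ω := algebraMap (RatFunc F) Ω (rf (D * Q))
  obtain ⟨y, hy⟩ := IsAlgClosed.exists_pow_nat_eq ((x - 0) * (x - a) * (x - b)) two_pos
  have hi : ∀ p : F[X], p ≠ 0 → algebraMap (RatFunc F) Ω (rf p) ≠ 0 := fun p hp => by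
    rw [_root_.map_ne_zero]
    exact (map_ne_zero_iff _ (IsFractionRing.injective F[X] (RatFunc F))).2 hp
  simp only [ne_eq, mul_eq_zero, not_or] at h0
  have h2 : (2 : F) ≠ 0 := fun e => by
    have h := FiniteField.even_card_of_char_two (F := F) (by
      have := ringChar.spec F 2
      rw [Nat.cast_ofNat] at this
      exact ((Nat.dvd_prime Nat.prime_two).1 (this.1 e)).resolve_left CharP.ringChar_ne_one)
    have := Nat.odd_iff.1 hq.out
    omega
  refine ⟨⟨x, y, ![0, a, b], ⟨?_, ?_, ?_, ?_, ?_, ?_, ?_, ?_, ?_⟩, ?_, ⟨_, rfl⟩, ?_, ?_, hy⟩, rfl⟩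
  · simp [curve]
  · simp [curve]
  · simp [curve, a, b, Ω, B]
  · simp [curve, a, b, Ω, B]
  · simp [curve]
  · exact sub_ne_zero.2 (hi (D * P) (mul_ne_zero h0.2 h0.1.1.1)).symm
  · exact sub_ne_zero.2 (hi (D * Q) (mul_ne_zero h0.2 h0.1.1.2)).symm
  · have := hi (D * (P - Q)) (mul_ne_zero h0.2 h0.1.2)
    rwa [mul_sub, rf, map_sub, map_sub] at this
  · rw [← map_ofNat (algebraMap F Ω) 2, _root_.map_ne_zero]
    exact h2
  · intro i
    fin_cases i
    exacts [zero_mem _, ⟨_, rfl⟩, ⟨_, rfl⟩]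
  · exact (transcendental_algebraMap_iff (algebraMap B Ω).injective).2 RatFunc.transcendental_X
  · intro c
    have h : ∀ p : (RatFunc F)[X], algebraMap B Ω (algebraMap _ B p) ∈
        IntermediateField.adjoin (RatFunc F) {x} := fun p => by
      rw [← RatFunc.aeval_X_left_eq_algebraMap, ← aeval_algebraMap_apply]
      exact IntermediateField.algebra_adjoin_le_adjoin _ _ (aeval_mem_adjoin_singleton _ _)
    rw [← RatFunc.num_div_denom c, map_div₀]
    exact div_mem (h _) (h _)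

end

end Pool.Agent.Lib.MP_16ef92_ag.ET
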