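import Mathlib
import Pool.Agent.Lib.MP_16ef92_ag.ET.Dsc2
import Pool.Agent.Lib.MP_16ef92_ag.ET.Rng
import Pool.Agent.Lib.MP_16ef92_ag.ET.SMain

set_option autoImplicit false
set_option linter.unusedSectionVars false
set_option linter.unusedVariables false

namespace Pool.Agent.Lib.MP_16ef92_ag.ET

open Polynomial WeierstrassCurve WeierstrassCurve.Affine
open scoped Classical

noncomputable section

open CategoryTheory AlgebraicGeometry

theorem bridge {F : Type} [Field F] [Fintype F] [Clos F] [hq : Fact (Odd (Fintype.card F))]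
    {P Q D : F[X]} (h0 : P * Q * (P - Q) * D ≠ 0) :
    ∃ s : Gam F, Fr s (Fintype.card F) ∧ ∃ Cl, BInt (curve P Q D) s
      (fun n => (mu (bar F (surf P Q D)) (2 ^ n)).H 2)
      (fun n => Sheaf.H.map (sq (bar F (surf P Q D)) n) 2)
      (fun n => actH (frob F (surf P Q D)) (2 ^ n) 2) Cl := by
  obtain ⟨C, he⟩ := exists_cs h0
  letI : Algebra (Om F) (AlgebraicClosure (RatFunc (RatFunc F))) :=
    (IsAlgClosed.lift : Om F →ₐ[RatFunc F] _).toRingHom.toAlgebra
  haveI : IsScalarTower (RatFunc F) (Om F) (AlgebraicClosure (RatFunc (RatFunc F))) :=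
    IsScalarTower.of_algebraMap_eq fun a =>
      ((IsAlgClosed.lift : Om F →ₐ[RatFunc F] _).commutes a).symm
  obtain ⟨ι, Pi, hA, h1, h2, s, hs, hy, hc⟩ := C.rng h0 he
  obtain ⟨Cls, hS⟩ := sheaf_side hA
  exact ⟨res F s, res_fr hc, C.bridge_of ⟨hA, C.L_le,
    IntermediateField.subset_adjoin _ _ (Or.inr rfl), h1, h2, C.tsq⟩ hS (frR P Q D) s hs hy⟩

end

end Pool.Agent.Lib.MP_16ef92_ag.ET
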