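import Pool.Agent.Lib.MP_16ef92_ag.ET.SInt
import Pool.Agent.Lib.MP_16ef92_ag.ET.Ufd
import Pool.Agent.Lib.MP_16ef92_ag.ET.SRing1

/-! Etale algebras over the ambient ring and their points. -/

namespace Pool.Agent.Lib.MP_16ef92_ag.ET

variable {B Ω : Type} [Field B] [Field Ω] [Algebra B Ω] {R : Type} [CommRing R] [Algebra R Ω]
  {L : IntermediateField B Ω} {Pi : Set R} {S : Type} [CommRing S]

theorem Amb.isDomain (h : Amb (algebraMap R Ω) L Pi) : IsDomain R := h.inj.isDomain _

theorem Amb.good' (h : Amb (algebraMap R Ω) L Pi) : Good R := fun m hm => by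
  obtain ⟨p, hp, w, s, h1, h2, h3, h4, h5⟩ := h.good m hm
  exact ⟨p, h1, w, h2, s, h3, h5, (h.prime p hp).ne_zero, fun a ha =>
    ((h.prime p hp).dvd_or_dvd ha).resolve_left h4⟩

theorem Amb.mem_fix (h : Amb (algebraMap R Ω) L Pi) {g : Ω ≃ₐ[B] Ω} :
    g ∈ L.fixingSubgroup ↔ ∀ r, g (algebraMap R Ω r) = algebraMap R Ω r := by
  rw [IntermediateField.mem_fixingSubgroup_iff]
  refine ⟨fun hg r => hg _ (h.mem r), fun hg a ha => ?_⟩
  obtain ⟨b, c, h1, h2⟩ := h.frac a ha
  rw [eq_div_of_mul_eq h1 h2, map_div₀, hg, hg]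

theorem Amb.ru (h : Amb (algebraMap R Ω) L Pi) {g : Ω ≃ₐ[B] Ω} (hg : g ∈ L.fixingSubgroup) :
    Ru g := fun m w hw => by
  obtain ⟨r, rfl⟩ := h.root m w hw
  exact h.mem_fix.1 hg r

variable [Algebra R S] [Algebra.Etale R S]

/-- `Ω ⊗[R] S` is finite over `Ω` (`Algebra.FormallyUnramified.finite_of_free`). -/
theorem pt_finite : Finite (S →ₐ[R] Ω) :=
  have := Algebra.FormallyUnramified.finite_of_free Ω (TensorProduct R Ω S)
  Finite.of_equiv _ (AlgHom.liftEquiv R Ω S Ω).symm

/-- Take a maximal ideal `m ⊇ p`; `etale_ufd`; the kernel of `S → S_m` is finitely generated, hence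
killed by one `f ∉ m`. -/
theorem dom_chart (h : Amb (algebraMap R Ω) L Pi) (p : Ideal S) [p.IsPrime] :
    ∃ f ∉ p, IsDomain (Localization.Away f) := by
  have := h.isDomain
  have := h.noeth
  have := h.jac
  have : IsNoetherianRing S := Algebra.FiniteType.isNoetherianRing R S
  obtain ⟨m, hm, hpm⟩ := p.exists_le_maximal (Ideal.IsPrime.ne_top ‹_›)
  obtain ⟨hd, -⟩ := etale_ufd h.good' m
  obtain ⟨s, hs⟩ := IsNoetherian.noetherian (RingHom.ker (algebraMap S (Localization.AtPrime m)))
  choose t ht using fun g : s => (IsLocalization.map_eq_zero_iff m.primeCompl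
    (Localization.AtPrime m) (g : S)).1 (hs.le (Ideal.subset_span g.2))
  obtain ⟨f, hf, h1⟩ : ∃ f ∈ m.primeCompl, ∀ a, algebraMap S (Localization.AtPrime m) a = 0 →
      f * a = 0 := by
    refine ⟨∏ g, t g, prod_mem fun g _ => (t g).2, fun a ha => ?_⟩
    refine (Ideal.span_le (I := LinearMap.ker (LinearMap.mulLeft S (∏ g, (t g : S))))).2
      (fun g hg => ?_) (hs.ge ha)
    obtain ⟨c, hc⟩ := Finset.dvd_prod_of_mem (fun g => (t g : S)) (Finset.mem_univ ⟨g, hg⟩)
    change (∏ g, (t g : S)) * g = 0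
    rw [hc, mul_right_comm, ht ⟨g, hg⟩, zero_mul]
  refine ⟨f, fun e => hf (hpm e), Function.Injective.isDomain (IsLocalization.Away.lift f
    (IsLocalization.map_units (Localization.AtPrime m) (⟨f, hf⟩ : m.primeCompl)))
    ((injective_iff_map_eq_zero _).2 fun x hx => ?_)⟩
  obtain ⟨⟨a, b⟩, e⟩ := IsLocalization.surj (Submonoid.powers f) x
  have h2 := congrArg (IsLocalization.Away.lift (S := Localization.Away f) f
    (IsLocalization.map_units (Localization.AtPrime m) (⟨f, hf⟩ : m.primeCompl))) e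
  rw [map_mul, hx, zero_mul, IsLocalization.Away.lift_eq] at h2
  have h3 := congrArg (algebraMap S (Localization.Away f)) (h1 a h2.symm)
  rw [map_mul, map_zero, (IsLocalization.Away.algebraMap_isUnit f).mul_right_eq_zero] at h3
  exact (IsLocalization.map_units _ b).mul_left_eq_zero.1 (e.trans h3)

/-- `S` is of finite type over `R`. -/
theorem pt_near (φ : S →ₐ[R] Ω) : Near fun g : Ω ≃ₐ[B] Ω =>
    (∀ r, g (algebraMap R Ω r) = algebraMap R Ω r) → ∀ s, g (φ s) = φ s := by
  classical
  obtain ⟨T, hT⟩ := Algebra.FiniteType.out (R := R) (A := S)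
  refine ⟨T.image φ, fun g hg hL s => ?_⟩
  refine Algebra.adjoin_induction (p := fun s _ => g (φ s) = φ s)
    (fun x hx => hg _ (Finset.mem_image_of_mem _ hx)) (fun r => ?_) (fun x y _ _ hx hy => ?_)
    (fun x y _ _ hx hy => ?_) (hT.ge (Algebra.mem_top (x := s)))
  · rw [φ.commutes, hL]
  · rw [map_add, map_add, hx, hy]
  · rw [map_mul, map_mul, hx, hy]

omit [Algebra R Ω] in
theorem etale_alg [IsDomain R] : Algebra.IsAlgebraic R S := ⟨fun s => by
  have := Algebra.FormallyUnramified.finite_of_free (FractionRing R)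
    (TensorProduct R (FractionRing R) S)
  exact (isAlgebraic_algHom_iff _ (Algebra.TensorProduct.includeRight_injective
    (IsFractionRing.injective R (FractionRing R)))).1 ((IsFractionRing.isAlgebraic_iff R
      (FractionRing R) _).2 (Algebra.IsAlgebraic.isAlgebraic _))⟩

variable [IsDomain S]

/-- The kernel lies above zero and `S` is algebraic over `R` (or quasi-finite). -/
theorem pt_inj (h : Amb (algebraMap R Ω) L Pi) (φ : S →ₐ[R] Ω) : Function.Injective φ := by
  have := h.isDomain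
  refine (injective_iff_map_eq_zero _).2 fun s hs => by_contra fun h0 => ?_
  obtain ⟨r, hr, c, hc⟩ := ((etale_alg (R := R)).1 s).exists_nonzero_dvd
    (mem_nonZeroDivisors_of_ne_zero h0)
  exact hr (h.inj (by rw [← φ.commutes, hc, map_mul, hs, zero_mul, map_zero]))

variable [IsAlgClosed Ω]

/-- `R → S` is injective by flatness, `S` is algebraic over `R`; `IsAlgClosed.lift`. -/
theorem exists_pt (h : Amb (algebraMap R Ω) L Pi) : Nonempty (S →ₐ[R] Ω) := by
  have := h.isDomain
  have := etale_alg (R := R) (S := S)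
  have : FaithfulSMul R Ω := (faithfulSMul_iff_algebraMap_injective _ _).2 h.inj
  have : FaithfulSMul R S := (faithfulSMul_iff_algebraMap_injective _ _).2
    ((injective_iff_map_eq_zero _).2 fun r hr => by_contra fun h0 => by
      simpa using flat_dvd (T := S) (p := 0) (w := r) (fun a h => by simpa [h0] using h) 1
        (by simp [hr]))
  exact ⟨IsAlgClosed.lift⟩

variable [Algebra.IsAlgebraic B Ω]

/-- `exists_conj`, `pt_inj`, `Amb.mem_fix`. -/
theorem pt_conj (h : Amb (algebraMap R Ω) L Pi) (φ ψ : S →ₐ[R] Ω) :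
    ∃ g ∈ L.fixingSubgroup, ∀ s, g (φ s) = ψ s := by
  obtain ⟨g, hg⟩ := exists_conj (B := B) φ.toRingHom ψ.toRingHom
    (fun s => (map_eq_zero_iff _ (pt_inj h φ)).trans (map_eq_zero_iff _ (pt_inj h ψ)).symm)
    fun b => by
      obtain ⟨x, y, h1, h2⟩ := h.frac _ (L.algebraMap_mem b)
      exact ⟨algebraMap R S x, algebraMap R S y, by simpa using h1, by simpa using h2,
        by simpa using h2⟩
  exact ⟨g, h.mem_fix.2 fun r => by simpa using hg (algebraMap R S r), hg⟩

end Pool.Agent.Lib.MP_16ef92_ag.ET
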