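import Pool.Agent.Lib.MP_16ef92_ag.ET.Site
import Pool.Agent.Lib.MP_16ef92_ag.ET.SRing1

/-! Affine charts and coverings in the small etale site. -/

set_option backward.isDefEq.respectTransparency false

namespace Pool.Agent.Lib.MP_16ef92_ag.ET

open CategoryTheory Limits AlgebraicGeometry Opposite

variable {Ω : Type} [Field Ω] {R : Type} [CommRing R]

theorem unr_ext {S O : Type} [CommRing S] [Algebra R S] [Algebra.Etale R S] [CommRing O]
    [IsDomain O] [IsLocalRing O] (φ ψ : S →+* O)
    (h : ∀ r, φ (algebraMap R S r) = ψ (algebraMap R S r))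
    (h' : ∀ s, φ s - ψ s ∈ IsLocalRing.maximalIdeal O) : φ = ψ := by
  let _ : Algebra R O := (φ.comp (algebraMap R S)).toAlgebra
  let P := Algebra.TensorProduct.productMap (⟨φ, fun _ => rfl⟩ : S →ₐ[R] O)
    (⟨ψ, fun r => (h r).symm⟩ : S →ₐ[R] O)
  have hP : ∀ a b, P (TensorProduct.tmul R a b) = φ a * ψ b := fun _ _ => rfl
  obtain ⟨t, h1, h2⟩ :=
    (Algebra.FormallyUnramified.iff_exists_tensorProduct (R := R) (S := S)).1 inferInstance
  have h3 : ∀ t, φ (Algebra.TensorProduct.lmul' R t) - P t ∈ IsLocalRing.maximalIdeal O := by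
    intro t
    induction t with
    | zero => rw [map_zero, map_zero, map_zero, sub_zero]; exact zero_mem _
    | tmul a b =>
      rw [hP, Algebra.TensorProduct.lmul'_apply_tmul, map_mul, ← mul_sub]
      exact Ideal.mul_mem_left _ _ (h' b)
    | add a b ha hb =>
      rw [map_add, map_add, map_add, add_sub_add_comm]
      exact add_mem ha hb
  refine RingHom.ext fun s => ?_
  have h4 := congrArg P (h1 s)
  rw [map_mul, map_sub, hP, hP, map_one, map_one, one_mul, mul_one, map_zero] at h4
  refine (sub_eq_zero.1 ((mul_eq_zero.1 h4).resolve_right fun e => ?_)).symm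
  have h5 := h3 t
  rw [h2, e, map_one, sub_zero] at h5
  exact Ideal.IsPrime.one_notMem inferInstance h5

theorem exists_chart (U : (Xs R).Etale) (v : U.left) :
    ∃ (S : Type) (_ : CommRing S) (_ : Algebra R S) (_ : Algebra.Etale R S) (f : Aff R S ⟶ U)
      (_ : IsOpenImmersion f.left) (p : Xs S), f.left p = v := by
  obtain ⟨A, i, hi, p, hp⟩ := Scheme.exists_Spec_apply_eq v
  obtain ⟨φ, hφ⟩ := Spec.map_surjective (R := .of R) (i ≫ U.hom)
  have : Etale U.hom := U.prop
  have h : Etale (Spec.map φ) := hφ ▸ inferInstance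
  let _ := φ.hom.toAlgebra
  exact ⟨A, inferInstance, inferInstance, HasRingHomProperty.Spec_iff.1 h,
    MorphismProperty.Over.homMk i hφ.symm, hi, p, hp⟩

theorem Ptv.exists_aff {O : Type} [CommRing O] [IsLocalRing O] {j : R →+* O} {U : (Xs R).Etale}
    (x : Ptv j U) : ∃ (S : Type) (_ : CommRing S) (_ : Algebra R S) (_ : Algebra.Etale R S)
      (f : Aff R S ⟶ U) (y : Ptv j (Aff R S)), y.im f = x := by
  obtain ⟨S, _, _, hS, f, _, p, hp⟩ := exists_chart U (x.hom (IsLocalRing.closedPoint O))
  have h : Set.range x.hom ⊆ Set.range f.left := by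
    rintro _ ⟨a, rfl⟩
    exact ((IsLocalRing.specializes_closedPoint a).map x.hom.continuous).mem_open
      f.left.isOpenEmbedding.isOpen_range ⟨p, hp⟩
  have e := IsOpenImmersion.lift_fac f.left x.hom h
  exact ⟨S, _, _, hS, f, .mk (IsOpenImmersion.lift f.left x.hom h) (by
    rw [← x.w, ← MorphismProperty.Over.w f, ← Category.assoc, e]), Ptv.ext e⟩

theorem isPt_val [IsAlgClosed Ω] (O : ValuationSubring Ω) (j : R →+* O) :
    IsPt (Xs R).smallEtaleTopology (fib j) := by
  refine ⟨fun {V} T hT (x : Ptv j V) => ?_, fun {V Y Y'} f f' y y' h => ?_⟩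
  · obtain ⟨W, f, w, hf, hw⟩ := (mem_cover T).1 hT (x.hom (IsLocalRing.closedPoint O))
    obtain ⟨z, -, hz⟩ := Scheme.Pullback.exists_preimage_pullback (f := f.left) (g := x.hom) _ _ hw
    obtain ⟨S, _, _, _, g, -, p, rfl⟩ :=
      exists_chart (Scheme.Etale.mk (pullback.snd f.left x.hom)) z
    have e : g.left ≫ pullback.snd f.left x.hom = spm (algebraMap O S) := MorphismProperty.Over.w g
    obtain ⟨s⟩ := val_section O p.asIdeal
      (congrArg PrimeSpectrum.asIdeal ((congrArg (fun k => k p) e).symm.trans hz))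
    have e' : (spm (s : S →+* O) ≫ g.left ≫ pullback.fst f.left x.hom) ≫ f.left = x.hom := by
      rw [Category.assoc, Category.assoc, pullback.condition, reassoc_of% e, ← Category.assoc,
        spm_comp, s.comp_algebraMap]
      exact (congrArg (· ≫ x.hom) (Spec.map_id _)).trans (Category.id_comp _)
    exact ⟨W, f, Ptv.mk _ (by rw [← MorphismProperty.Over.w f, ← Category.assoc, e', x.w]), hf,
      Ptv.ext e'⟩
  · have : IsCofiltered (fib j).Elements := Functor.isCofiltered_elements
      (Scheme.Etale.forget (Xs R) ⋙ coyoneda.obj (op (Over.mk (spm j))))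
    let a : (fib j).Elements := ⟨Y, y⟩
    let a' : (fib j).Elements := ⟨Y', y'⟩
    let b : (fib j).Elements := ⟨V, (fib j).map f y⟩
    obtain ⟨W, g, g', e⟩ := IsCofiltered.cospan (CategoryOfElements.homMk a b f rfl)
      (CategoryOfElements.homMk a' b f' h.symm)
    exact ⟨W.1, g.1, g'.1, W.2, congrArg Subtype.val e, g.2, g'.2⟩

end Pool.Agent.Lib.MP_16ef92_ag.ET
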