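import Pool.Agent.Lib.MP_16ef92_ag.ET.Cov
import Pool.Agent.Lib.MP_16ef92_ag.ET.Rp

/-! The complex of sheaves of cochains. -/

set_option backward.isDefEq.respectTransparency false

namespace Pool.Agent.Lib.MP_16ef92_ag.ET

open CategoryTheory Limits AlgebraicGeometry Opposite

noncomputable section

variable {B Ω : Type} [Field B] [Field Ω] [Algebra B Ω] {R : Type} [CommRing R] [Algebra R Ω]
  {n : ℕ}

/-- The roots of unity, written additively. -/
abbrev Mu (Ω : Type) [Field Ω] (n : ℕ) : Type := Additive (rootsOfUnity (2 ^ n) Ω)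

/-- The value of a root of unity. -/
def Mu.val (a : Mu Ω n) : Ω := (a.toMul.1 : Ωˣ)

theorem Mu.ext {a b : Mu Ω n} (h : a.val = b.val) : a = b := Subtype.ext (Units.ext h)

theorem Mu.val_add (a b : Mu Ω n) : (a + b).val = a.val * b.val := rfl

theorem Mu.val_zero : (0 : Mu Ω n).val = 1 := rfl

theorem Mu.val_sub (a b : Mu Ω n) : (a - b).val = a.val / b.val := Units.val_div_eq_div_val _ _

theorem Mu.val_ne (a : Mu Ω n) : a.val ≠ 0 := Units.ne_zero _

theorem Mu.val_pow (a : Mu Ω n) : a.val ^ 2 ^ n = 1 := congrArg Units.val a.toMul.2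

theorem Mu.exists_val {w : Ω} (h : w ^ 2 ^ n = 1) : ∃ a : Mu Ω n, a.val = w :=
  ⟨.ofMul (rootsOfUnity.mkOfPowEq w h), rfl⟩

variable (B R Ω) in
/-- The automorphisms that fix the image of `R`. -/
def Gf : Subgroup (Ω ≃ₐ[B] Ω) where
  carrier := {g | ∀ r, g (algebraMap R Ω r) = algebraMap R Ω r}
  mul_mem' hg hh r := by rw [AlgEquiv.mul_apply, hh, hg]
  one_mem' _ := rfl
  inv_mem' {g} hg r := g.injective (by rw [self_apply_inv, hg])

theorem Amb.fix_eq {L : IntermediateField B Ω} {Pi : Set R} (h : Amb (algebraMap R Ω) L Pi) :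
    L.fixingSubgroup = Gf B Ω R := Subgroup.ext fun _ => h.mem_fix

variable (Ω) in
/-- Geometric points above the generic point. -/
abbrev Pg (U : (Xs R).Etale) : Type := Ptv (algebraMap R Ω) U

variable {U V : (Xs R).Etale}

instance : MulAction (Gf B Ω R) (Pg Ω U) where
  smul g x := x.mp (g.1 : Ω →+* Ω) (RingHom.ext g.2)
  one_smul x := x.mp_id _ _ fun _ => rfl
  mul_smul g h x := x.mp_mp (h.1 : Ω →+* Ω) _ (g.1 : Ω →+* Ω) _ _ _ fun _ => rfl

theorem smul_im (g : Gf B Ω R) (f : U ⟶ V) (x : Pg Ω U) : (g • x).im f = g • x.im f :=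
  (x.mp_im _ _ f).symm

theorem ev_smul (g : Gf B Ω R) (x : Pg Ω U) (a : Γ(U.left, ⊤)) : (g • x).ev a = g.1 (x.ev a) :=
  x.ev_mp _ _ a

section

variable {S : Type} [CommRing S] [Algebra R S] [Algebra.Etale R S]

/-- The algebra map of a point. -/
def Ptv.alg (x : Pg Ω (Aff R S)) : S →ₐ[R] Ω := ⟨x.hm, x.hm_alg⟩

theorem hm_smul (g : Gf B Ω R) (x : Pg Ω (Aff R S)) (b : S) : (g • x).hm b = g.1 (x.hm b) :=
  ev_smul g x _

end

theorem near_fix (x : Pg Ω U) :
    Near fun h : Ω ≃ₐ[B] Ω => ∀ hh : h ∈ Gf B Ω R, (⟨h, hh⟩ : Gf B Ω R) • x = x := by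
  obtain ⟨S, _, _, _, f, y, rfl⟩ := x.exists_aff
  refine (pt_near y.alg).mono fun g hg hh => ?_
  rw [← smul_im, Ptv.hm_ext fun b => (hm_smul _ y b).trans (hg hh b)]

/-- The map to a valuation subring that contains the image of `R`. -/
def jv {O : ValuationSubring Ω} (h : Ov (algebraMap R Ω) O) : R →+* O :=
  (algebraMap R Ω).codRestrict O h

variable {O : ValuationSubring Ω} {hO : Ov (algebraMap R Ω) O}

/-- The generic point of an integral point. -/
def Ptv.gen (x : Ptv (jv hO) U) : Pg Ω U := x.mp O.subtype rfl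

theorem gen_im (f : U ⟶ V) (x : Ptv (jv hO) U) : (x.im f).gen = x.gen.im f := x.mp_im _ _ f

theorem ine_fix (x : Ptv (jv hO) U) {g : Gf B Ω R} (hg : g.1 ∈ Inr B O) : g • x.gen = x.gen := by
  obtain ⟨S, _, _, _, f, y, rfl⟩ := x.exists_aff
  rw [gen_im, ← smul_im]
  refine congrArg _ (Ptv.hm_ext fun b => ?_)
  have := unr_ext (R := R) (((g.1 : Ω →+* Ω).comp (O.subtype.comp y.hm)).codRestrict O
    fun s => (ine_st hg _).2 (y.hm s).2) y.hm
    (fun r => Subtype.ext (by
      change g.1 (y.hm _ : O) = _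
      rw [y.hm_alg]
      exact g.2 r)) fun s => (O.valuation_lt_one_iff _).2 (hg _ (y.hm s).2)
  rw [hm_smul, Ptv.gen, Ptv.hm_mp]
  exact congrArg (fun t => (t b : Ω)) this

variable (B Ω R n) in
/-- Continuous cochains. -/
def LC : AddSubgroup (Gf B Ω R → Mu Ω n) where
  carrier := {c | Near fun h : Ω ≃ₐ[B] Ω => ∀ (hh : h ∈ Gf B Ω R) g, c (g * ⟨h, hh⟩) = c g}
  add_mem' ha hb := (Near.and ha hb).mono fun _ e hh g => by
    rw [Pi.add_apply, Pi.add_apply, e.1, e.2]
  zero_mem' := .of_forall fun _ _ _ => rfl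
  neg_mem' ha := Near.mono ha fun _ e hh g => by rw [Pi.neg_apply, Pi.neg_apply, e]

variable (B) in
/-- The arguments of the cochains of degree two. -/
inductive Q2 (P : ValuationSubring Ω → Prop) (U : (Xs R).Etale) : Type
  | gen (x : Pg Ω U) (g h : Gf B Ω R)
  | val (O : ValuationSubring Ω) (hO : Ov (algebraMap R Ω) O) (hP : P O) (x : Ptv (jv hO) U)
      (g : Gf B Ω R) (hg : g.1 ∈ Inr B O)

variable {P : ValuationSubring Ω → Prop}

/-- The image of an argument. -/
def Q2.im (f : U ⟶ V) : Q2 B P U → Q2 B P V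
  | .gen x g h => .gen (x.im f) g h
  | .val O hO hP x g hg => .val O hO hP (x.im f) g hg

variable (B R P) in
/-- The functor of arguments. -/
def qf : (Xs R).Etale ⥤ Type where
  obj U := Q2 B P U
  map f := TypeCat.ofHom (Q2.im f)
  map_id U := by
    ext (⟨x, g, h⟩ | ⟨O, hO, hP, x, g, hg⟩)
    · exact congrArg (Q2.gen · g h) (Ptv.ext (Category.comp_id _))
    · exact congrArg (Q2.val O hO hP · g hg) (Ptv.ext (Category.comp_id _))
  map_comp f f' := by
    ext (⟨x, g, h⟩ | ⟨O, hO, hP, x, g, hg⟩)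
    · exact congrArg (Q2.gen · g h) (x.im_comp f f')
    · exact congrArg (Q2.val O hO hP · g hg) (x.im_comp f f')

section

variable [IsAlgClosed Ω]

variable (R Ω) in
theorem isG : IsPt (Xs R).smallEtaleTopology (fib (algebraMap R Ω)) :=
  isPt_point (Scheme.pointSmallEtale (spm (algebraMap R Ω)))

variable (B R P) in
theorem isQ : IsPt (Xs R).smallEtaleTopology (qf B R P) where
  lift Q hQ
    | .gen x g h => by
      obtain ⟨Y, f, y, h1, rfl⟩ := (isG Ω R).lift Q hQ x
      exact ⟨Y, f, .gen y g h, h1, rfl⟩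
    | .val O hO hP x g hg => by
      obtain ⟨Y, f, y, h1, rfl⟩ := (isPt_val O _).lift Q hQ x
      exact ⟨Y, f, .val O hO hP y g hg, h1, rfl⟩
  pair f f'
    | .gen x g h, .gen x' g' h', e => by
      obtain ⟨e', rfl, rfl⟩ := Q2.gen.inj e
      obtain ⟨W, a, a', z, h1, rfl, rfl⟩ := (isG Ω R).pair f f' x x' e'
      exact ⟨W, a, a', .gen z g h, h1, rfl, rfl⟩
    | .val O hO hP x g hg, .val O' hO' hP' x' g' hg', e => by
      obtain ⟨rfl, e', rfl⟩ := Q2.val.inj e
      obtain ⟨W, a, a', z, h1, rfl, rfl⟩ := (isPt_val O _).pair f f' x x' (eq_of_heq e')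
      exact ⟨W, a, a', .val O hO hP z g hg, h1, rfl, rfl⟩
    | .gen .., .val .., e => nomatch e
    | .val .., .gen .., e => nomatch e

end

/-- The value of a root of unity at a point. -/
def eV (U : (Xs R).Etale) : Additive (rootsOfUnity (2 ^ n) Γ(U.left, ⊤)) →+ Pg Ω U → Mu Ω n :=
  AddMonoidHom.pi fun x => MonoidHom.toAdditive (restrictRootsOfUnity x.ev (2 ^ n))

variable (B) in
/-- The first differential. -/
def d0V (U : (Xs R).Etale) : (Pg Ω U → Mu Ω n) →+ Pg Ω U → LC B Ω R n :=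
  .mk' (fun a x => ⟨fun g => a (g • x) - a x, (near_fix x).mono fun h e hh g => by
    simp only [mul_smul, e]⟩) fun _ _ => funext fun _ => Subtype.ext (funext fun _ =>
      add_sub_add_comm _ _ _ _)

/-- The second differential, on elements. -/
def d1F (c : Pg Ω U → LC B Ω R n) : Q2 B P U → Mu Ω n
  | .gen x g h => (c (h • x)).1 g - (c x).1 (g * h) + (c x).1 h
  | .val _ _ _ x g _ => (c x.gen).1 g

variable (P) in
/-- The second differential. -/
def d1V (U : (Xs R).Etale) : (Pg Ω U → LC B Ω R n) →+ Q2 B P U → Mu Ω n :=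
  .mk' d1F fun _ _ => funext fun
    | .gen .. => (congrArg (· + _) (add_sub_add_comm _ _ _ _)).trans (add_add_add_comm _ _ _ _)
    | .val .. => rfl

variable [IsAlgClosed Ω]

variable (P n) in
/-- The complex. -/
def cx (hr : ∀ ⦃g⦄, g ∈ Gf B Ω R → Ru g) : Cy (mu (Spec (.of R)) (2 ^ n)) where
  A0 := fnS (isG Ω R) (Mu Ω n)
  A1 := fnS (isG Ω R) (LC B Ω R n)
  A2 := fnS (isQ B R P) (Mu Ω n)
  e := mkH eV fun f a => funext fun x => Mu.ext (Ptv.ev_im f x _).symm
  d0 := fnH _ _ (d0V B) fun f a x => Subtype.ext (funext fun g =>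
    congrArg (fun t => a t - _) (smul_im g f x))
  d1 := fnH _ _ (d1V P) fun f a => fun
    | .gen x g h => congrArg (fun t => (a t).1 g - _ + _) (smul_im h f x)
    | .val _ _ _ x g _ => congrArg (fun t => (a t).1 g) (gen_im f x).symm
  e_d0 := hom_ext' fun V a => funext fun x => Subtype.ext (funext fun g =>
    sub_eq_zero.2 (Mu.ext ((ev_smul g x _).trans (hr g.2 n _ (eV V a x).val_pow))))
  d0_d1 := hom_ext' fun V a => funext fun
    | .gen x g h => by
      change a (g • h • x) - a (h • x) - (a ((g * h) • x) - a x) + (a (h • x) - a x) = 0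
      rw [mul_smul]
      abel
    | .val _ _ _ x g hg => sub_eq_zero.2 (congrArg a (ine_fix x hg))

variable {hr : ∀ ⦃g⦄, g ∈ Gf B Ω R → Ru g}

/-- The values of a global cochain of degree two. -/
structure Vals (t : Q2 B P (tm R) → Mu Ω n) (β : (Ω ≃ₐ[B] Ω) → (Ω ≃ₐ[B] Ω) → Ω)
    (e : ValuationSubring Ω → (Ω ≃ₐ[B] Ω) → Ω) : Prop where
  gen : ∀ g h : Gf B Ω R, β g h = (t (.gen default g h)).val
  val : ∀ O hO hP (g : Gf B Ω R) hg, e O g = (t (.val O hO hP default g hg)).val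

variable (hr n) in
/-- The pair represents the class. -/
def Cls (β : (Ω ≃ₐ[B] Ω) → (Ω ≃ₐ[B] Ω) → Ω) (e : ValuationSubring Ω → (Ω ≃ₐ[B] Ω) → Ω) :
    (mu (Spec (.of R)) (2 ^ n)).H 2 → Prop :=
  Rv (X := Spec (.of R)) (tmT R) (cx n (fun _ => True) hr) fun t => Vals t β e

end

end Pool.Agent.Lib.MP_16ef92_ag.ET
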