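import Mathlib
import Pool.Agent.Lib.MP_16ef92_ag.Loc
import Pool.Agent.Lib.MP_16ef92_ag.GF.Simple

set_option autoImplicit false
set_option linter.unusedSectionVars false
set_option linter.unusedVariables false

namespace Pool.Agent.Lib.MP_16ef92_ag.ET

open GF
open scoped Classical

noncomputable section

variable {F : Type} [Field F] [Clos F] [Fintype F] [hq : Fact (Odd (Fintype.card F))]
  {W : WeierstrassCurve (RatFunc F)} {c d : Gam F → ℕ → Pt W} {s : Gam F}

theorem act_sub (g : Gam F) (P Q : ℕ → Pt W) : act g (P - Q) = act g P - act g Q :=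
  funext fun n => (pm g).map_sub _ _

theorem act_nsmul (g : Gam F) (k : ℕ) (P : ℕ → Pt W) : act g (k • P) = k • act g P :=
  funext fun n => (pm g).map_nsmul _ _

theorem tate_sub {P Q : ℕ → Pt W} (hP : InTate P) (hQ : InTate Q) : InTate (P - Q) :=
  ⟨by rw [Pi.sub_apply, hP.1, hQ.1, sub_self], fun n => by
    rw [Pi.sub_apply, smul_sub, hP.2, hQ.2, Pi.sub_apply]⟩

theorem tate_nsmul {P : ℕ → Pt W} (hP : InTate P) (k : ℕ) : InTate (k • P) :=
  ⟨by rw [Pi.smul_apply, hP.1, smul_zero], fun n => by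
    rw [Pi.smul_apply, smul_comm, hP.2, Pi.smul_apply]⟩

theorem null_sub (hc : IsNull c) (hd : IsNull d) : IsNull (c - d) := by
  obtain ⟨j, m, hm, h1⟩ := isNull_iff.1 hc
  obtain ⟨i, n, hn, h2⟩ := isNull_iff.1 hd
  refine isNull_iff.2 ⟨j + i, 2 ^ i • m - 2 ^ j • n,
    tate_sub (tate_nsmul hm _) (tate_nsmul hn _), fun g hg => ?_⟩
  rw [act_sub, act_nsmul, act_nsmul, Pi.sub_apply, pow_add]
  linear_combination (norm := module) 2 ^ i • h1 g hg - 2 ^ j • h2 g hg

theorem null_subOne (s : Gam F) (hc : IsNull c) : IsNull (subOne s c) := by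
  obtain ⟨j, m, hm, h1⟩ := isNull_iff.1 hc
  refine isNull_iff.2 ⟨j, act s m - m, tate_sub (hm.act s) hm, fun g hg => ?_⟩
  rw [subOne, smul_sub, ← act_nsmul, h1 g hg, h1 _ (geo_conj hg s), act_sub, act_sub, ← act_mul,
    ← act_mul, show s * (s⁻¹ * g * s) = g * s by group]
  abel

theorem null_zsm (b : ℤ_[2]) (hc : IsNull c) : IsNull (zsm b c) := by
  obtain ⟨j, m, hm, h1⟩ := isNull_iff.1 hc
  refine isNull_iff.2 ⟨j, pe m hm.1 hm.2 b, ⟨by
    rw [pe_eq m hm.1 hm.2 (m := 0) (by simp), zero_smul], pe_two m hm.1 hm.2 b⟩,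
    fun g hg => funext fun n => ?_⟩
  have h2 := congrArg (fun P => (red n b).val • P n) (h1 g hg)
  simp only [Pi.smul_apply, Pi.sub_apply, act_apply, zsm, smul_sub, ← map_nsmul] at h2 ⊢
  rw [smul_comm]
  exact h2

theorem null_of_zsm' (hc : ∀ g ∈ Geo F, InTate (c g)) {b : ℤ_[2]} (hb : b ≠ 0)
    (h : IsNull (zsm b c)) : IsNull c := by
  obtain ⟨u, i, hu⟩ : ∃ (u : ℤ_[2]) (i : ℕ), u * b = 2 ^ i :=
    ⟨(PadicInt.unitCoeff hb)⁻¹.1, b.valuation, by
      rw [Units.inv_mul_eq_iff_eq_mul]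
      exact PadicInt.unitCoeff_spec hb⟩
  obtain ⟨j, m, hm, h1⟩ := isNull_iff.1 (null_zsm u h)
  refine isNull_iff.2 ⟨j + i, m, hm, fun g hg => funext fun n => ?_⟩
  have h3 := hc g hg
  have h4 : (red n (u * b)).val • c g n = ((red n u).val * (red n b).val) • c g n :=
    val_smul_eq _ h3.1 h3.2 (red_eq.1 (by simp))
  rw [val_smul_eq _ h3.1 h3.2 (m := 2 ^ i) (by simp [hu])] at h4
  rw [← h1 g hg, Pi.smul_apply, pow_add, mul_smul, h4, mul_smul]
  rfl

/-- For a simple twist the eigenvalue one is semisimple. -/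
theorem simple_ss (hS : Simple (Om F) W) (hs : Fr s (Fintype.card F)) (hc : IsClass c)
    (h : IsNull (subOne s (subOne s c))) : IsNull (subOne s c) := by
  obtain ⟨c₀, -, h1, h2⟩ := hS s fun z hz => hs ⟨z, mem_algebraicClosure_iff.2 hz⟩
  obtain ⟨a, b, h3, h4⟩ := h2 c hc h
  refine null_of_zsm' (fun g hg => tate_sub ((hc.mem _ (geo_conj hg s)).act s) (hc.mem g hg)) h3 ?_
  have h5 := null_sub (null_subOne s h4) (null_zsm b h1)
  rwa [show subOne s (zsm a c + zsm b c₀) - zsm b (subOne s c₀) = zsm a (subOne s c) from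
    funext fun g => funext fun n => by
      simp only [subOne, zsm, Pi.sub_apply, Pi.add_apply, act_apply, map_add, map_nsmul, smul_sub]
      abel] at h5

end

end Pool.Agent.Lib.MP_16ef92_ag.ET
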