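import Mathlib
import Pool.Agent.Lib.MP_16ef92_ag.ET.GalB1

set_option autoImplicit false
set_option linter.unusedSectionVars false
set_option linter.unusedVariables false

namespace Pool.Agent.Lib.MP_16ef92_ag.ET

open Polynomial
open scoped Classical

noncomputable section

variable {B Ω : Type} [Field B] [Field Ω] [Algebra B Ω] [IsAlgClosed Ω] [Algebra.IsAlgebraic B Ω]

theorem galb2_core {M L : Type} [Field M] [Field L] [Algebra M L] [IsGalois M L]
    (O : ValuationSubring L) (φ : L ≃+* L) (hφ : ∀ z, φ z ∈ O ↔ z ∈ O)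
    (h : ∀ a : M, algebraMap M L a ∈ O →
      O.valuation (φ (algebraMap M L a) - algebraMap M L a) < 1) :
    ∃ g : L ≃ₐ[M] L, ∀ z ∈ O, O.valuation (g z - φ z) < 1 := by
  let A : ValuationSubring M := O.comap (algebraMap M L)
  let R : Subring L := hull M O
  have hRO : ∀ z ∈ R, z ∈ O := fun z hz => hz O fun _ ha => ha
  have hinv : ∀ (g : L ≃ₐ[M] L) (z : L), z ∈ R → g z ∈ R := by
    intro g z hz O' h'
    exact hz (O'.comap (g : L →+* L)) fun a ha => by
      change g (algebraMap M L a) ∈ O'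
      rw [g.commutes]
      exact h' a ha
  have : IsInvariantSubring (L ≃ₐ[M] L) R := ⟨fun g {z} hz => hinv g z hz⟩
  let : Algebra A R := (((algebraMap M L).comp A.subtype).codRestrict R
    fun a O' h' => h' a.1 a.2).toAlgebra
  have : SMulCommClass (L ≃ₐ[M] L) A R := ⟨fun g a b => by
    apply Subtype.ext
    change g (algebraMap M L a.1 * b.1) = algebraMap M L a.1 * g b.1
    rw [map_mul, g.commutes]⟩
  let : TopologicalSpace R := ⊥
  have : DiscreteTopology R := ⟨rfl⟩
  have : ContinuousSMul (L ≃ₐ[M] L) R := by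
    rw [continuousSMul_iff_stabilizer_isOpen]
    intro b
    have e : (MulAction.stabilizer (L ≃ₐ[M] L) b : Set (L ≃ₐ[M] L)) =
        MulAction.stabilizer (L ≃ₐ[M] L) b.1 := Set.ext fun g => Subtype.ext_iff
    rw [e]
    exact stabilizer_isOpen_of_isIntegral (K := M) b.1
  have : Algebra.IsInvariant A R (L ≃ₐ[M] L) := ⟨fun b hb => by
    obtain ⟨a, ha⟩ := (InfiniteGalois.mem_range_algebraMap_iff_fixed (k := M) b.1).2
      fun g => congrArg Subtype.val (hb g)
    refine ⟨⟨a, ?_⟩, Subtype.ext ha⟩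
    change algebraMap M L a ∈ O
    rw [ha]
    exact hRO _ b.2⟩
  have : Algebra.IsIntegral A R := Algebra.IsInvariant.isIntegral_of_profinite (G := L ≃ₐ[M] L)
  let f : R →+* IsLocalRing.ResidueField O :=
    (IsLocalRing.residue O).comp (R.subtype.codRestrict O fun b => hRO _ b.2)
  have hres : ∀ x y : O, IsLocalRing.residue O x = IsLocalRing.residue O y ↔
      O.valuation (x.1 - y.1) < 1 := fun x y =>
    Ideal.Quotient.eq.trans (O.valuation_lt_one_iff _)
  have hP : ∀ b : R, b ∈ RingHom.ker f ↔ O.valuation b.1 < 1 := fun b =>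
    (IsLocalRing.residue_eq_zero_iff _).trans (O.valuation_lt_one_iff _)
  have := RingHom.ker_isPrime f
  have hmax : (RingHom.ker f).IsMaximal := by
    refine Ideal.isMaximal_of_isIntegral_of_isMaximal_comap (R := A) _ ?_
    rw [show (RingHom.ker f).comap (algebraMap A R) = IsLocalRing.maximalIdeal A from ?_]
    · infer_instance
    ext a
    rw [Ideal.mem_comap, hP, A.valuation_lt_one_iff, val_lt_one_iff, val_lt_one_iff]
    change algebraMap M L a.1 = 0 ∨ (algebraMap M L a.1)⁻¹ ∉ O ↔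
      a.1 = 0 ∨ algebraMap M L a.1⁻¹ ∉ O
    rw [map_inv₀, map_eq_zero]
  have hf : Function.Surjective f := fun z => by
    obtain ⟨z, rfl⟩ := IsLocalRing.residue_surjective z
    obtain ⟨c, d, hc, hd, hv, e⟩ := hull_frac (M := M) O z.1 z.2
    obtain ⟨y, i, hi, e'⟩ := hmax.exists_inv (mt (hP ⟨c, hc⟩).1 hv)
    have e1 : f ⟨d, hd⟩ = f ⟨c, hc⟩ * IsLocalRing.residue O z :=
      (congrArg (IsLocalRing.residue O) (Subtype.ext e.symm)).trans (map_mul _ _ _)
    have e2 := congrArg f e'
    rw [map_add, map_mul, map_one, (RingHom.mem_ker).1 hi, add_zero] at e2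
    exact ⟨y * ⟨d, hd⟩, by rw [map_mul, e1, ← mul_assoc, e2, one_mul]⟩
  let e := RingHom.quotientKerEquivOfSurjective hf
  let φO : O ≃+* O := RingEquiv.ofBijective ((φ.toRingHom.comp O.subtype).codRestrict O
    fun z => (hφ _).2 z.2) ⟨fun x y hxy => Subtype.ext (φ.injective (congrArg Subtype.val hxy)),
      fun y => ⟨⟨φ.symm y, (hφ _).1 (by rw [φ.apply_symm_apply]; exact y.2)⟩,
        Subtype.ext (φ.apply_symm_apply _)⟩⟩
  obtain ⟨g, hg⟩ := Ideal.Quotient.stabilizerHom_surjective_of_profinite (G := L ≃ₐ[M] L)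
    ((RingHom.ker f).under A) (RingHom.ker f) (AlgEquiv.ofRingEquiv
      (f := (e.trans (IsLocalRing.ResidueField.mapEquiv φO)).trans e.symm) fun a => by
        obtain ⟨a, rfl⟩ := Ideal.Quotient.mk_surjective a
        exact e.symm_apply_eq.2 ((hres _ _).2 (h a.1 a.2)))
  have key : ∀ b ∈ R, O.valuation (g.1 b - φ b) < 1 := fun b hb =>
    (hres ⟨g.1 b, hRO _ (hinv _ b hb)⟩ ⟨φ b, (hφ b).2 (hRO b hb)⟩).1 (e.eq_symm_apply.1
      (DFunLike.congr_fun hg (Ideal.Quotient.mk _ ⟨b, hb⟩)))
  refine ⟨g.1, fun z hz => ?_⟩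
  obtain ⟨c, d, hc, hd, hv, rfl⟩ := hull_frac (M := M) O z hz
  have h1 : ¬ O.valuation (φ c) < 1 := by
    rwa [val_lt_one_iff, map_eq_zero, ← map_inv₀, hφ, ← val_lt_one_iff]
  have h2 : 1 ≤ O.valuation (g.1 c) := not_lt.1 fun h2 => h1 (by
    have := O.valuation.map_sub_lt h2 (key c hc)
    rwa [sub_sub_cancel] at this)
  have h3 : O.valuation (g.1 c * (g.1 z - φ z)) < 1 := by
    rw [show g.1 c * (g.1 z - φ z) = g.1 (c * z) - φ (c * z) - (g.1 c - φ c) * φ z by
      rw [map_mul, map_mul]; ring]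
    refine O.valuation.map_sub_lt (key _ hd) ?_
    rw [map_mul]
    exact (mul_le_of_le_one_right' ((O.valuation_le_one_iff _).2 ((hφ z).2 hz))).trans_lt (key c hc)
  rw [map_mul] at h3
  exact (le_mul_of_one_le_left' h2).trans_lt h3

/-- The decomposition group surjects to the automorphisms of the residue field:
`Ideal.Quotient.stabilizerHom_surjective_of_profinite` for the ring `hull` of `trans_val`, over
the perfect closure of `E`; `hull / P` is a field and maps onto the residue field of `O`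
(`hull_frac`).  Copy the set-up of `trans_val` (Gal.lean) with `M = perf E` (`galois_perf`).  `φ` need
not preserve `hull`: for `b` in `hull` choose `b'` in `hull` with `v (φ b - b') < 1` (`P` is maximal:
`Algebra.IsInvariant.isIntegral_of_profinite`, `Ideal.isMaximal_of_isIntegral_of_isMaximal_comap`),
or transport along the bijection `hull / P → ResidueField O`.  On `perf E` use that
`v (φ a - a) ^ p ^ e = v (φ (a ^ p ^ e) - a ^ p ^ e)`.  For `z` in `O` pick `b` in `hull` with
`v (z - b) < 1`; `g` preserves `{v < 1}`: write `c z = d` (`hull_frac`) and use `g • P = P`. -/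
theorem ine_lift (E : IntermediateField B Ω) (O : ValuationSubring Ω) (φ : Ω ≃ₐ[B] Ω)
    (hφ : ∀ z, φ z ∈ O ↔ z ∈ O) (h : ∀ a ∈ E, a ∈ O → O.valuation (φ a - a) < 1) :
    ∃ g ∈ E.fixingSubgroup, ∀ z ∈ O, O.valuation (g z - φ z) < 1 := by
  have := galois_perf E
  obtain ⟨g, hg⟩ := galb2_core (M := perf E) O φ.toRingEquiv hφ fun ⟨a, e, he⟩ ha => by
    have h1 := h _ he (pow_mem ha _)
    rw [map_pow, ← sub_pow_expChar_pow, map_pow] at h1
    exact not_le.1 fun h2 => h1.not_ge (one_le_pow₀ h2)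
  exact ⟨g.restrictScalars B, (IntermediateField.mem_fixingSubgroup_iff _ _).2 fun x hx =>
    g.commutes ⟨x, le_perf E hx⟩, hg⟩

end

end Pool.Agent.Lib.MP_16ef92_ag.ET
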