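import Mathlib
import Pool.Agent.Lib.MP_16ef92_ag.ET.GalB2
import Pool.Agent.Lib.MP_16ef92_ag.ET.GalB3

set_option autoImplicit false
set_option linter.unusedSectionVars false
set_option linter.unusedVariables false

namespace Pool.Agent.Lib.MP_16ef92_ag.ET

open Polynomial
open scoped Classical

noncomputable section

variable {B Ω : Type} [Field B] [Field Ω] [Algebra B Ω] [IsAlgClosed Ω] [Algebra.IsAlgebraic B Ω]

variable {E : IntermediateField B Ω} {O : ValuationSubring Ω} {π : Ω}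

theorem two_ne_GalB4 (h2 : O.valuation 2 = 1) : (2 : Ω) ≠ 0 := by
  intro e
  rw [e, map_zero] at h2
  exact zero_ne_one h2

theorem Disc.inj_GalB4 (hD : Disc E O π) {i j : ℤ}
    (h : O.valuation π ^ i = O.valuation π ^ j) : i = j :=
  zpow_right_injective₀ (zero_lt_iff.2 ((Valuation.ne_zero_iff _).2 hD.ne)) (ne_of_lt hD.lt) h

theorem Disc.parity_GalB4 (hD : Disc E O π) {w : Ω} (hw : w ^ 2 = π) {a b : Ω} (ha : a ∈ E)
    (hb : b ∈ E) (ha0 : a ≠ 0) (hb0 : b ≠ 0) : O.valuation a ≠ O.valuation (b * w) := by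
  intro e
  obtain ⟨i, hi⟩ := hD.val a ha ha0
  obtain ⟨j, hj⟩ := hD.val b hb hb0
  have h0 : O.valuation π ≠ 0 := (Valuation.ne_zero_iff _).2 hD.ne
  have h1 : O.valuation a ^ 2 = O.valuation b ^ 2 * O.valuation π := by
    rw [e, map_mul, mul_pow, ← hw, map_pow]
  have h3 : O.valuation π ^ (i * 2) = O.valuation π ^ (j * 2 + 1) := by
    rw [zpow_add₀ h0, zpow_one, zpow_mul, zpow_mul, ← hi, ← hj]
    exact_mod_cast h1
  have := hD.inj_GalB4 h3
  omega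

theorem Disc.mem_add_GalB4 (hD : Disc E O π) {w : Ω} (hw : w ^ 2 = π) {a b : Ω} (ha : a ∈ E)
    (hb : b ∈ E) : a + b * w ∈ O ↔ a ∈ O ∧ b * w ∈ O := by
  refine ⟨fun h => ?_, fun h => add_mem h.1 h.2⟩
  by_cases ha0 : a = 0
  · subst ha0
    rw [zero_add] at h
    exact ⟨zero_mem _, h⟩
  by_cases hb0 : b = 0
  · subst hb0
    rw [zero_mul, add_zero] at h
    exact ⟨h, by rw [zero_mul]; exact zero_mem _⟩
  have h1 := Valuation.map_add_of_distinct_val O.valuation (hD.parity_GalB4 hw ha hb ha0 hb0)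
  rw [← O.valuation_le_one_iff, h1, max_le_iff] at h
  exact ⟨(O.valuation_le_one_iff _).1 h.1, (O.valuation_le_one_iff _).1 h.2⟩

theorem Disc.neg_GalB4 (h2 : O.valuation 2 = 1) (hD : Disc E O π) {w : Ω} (hw : w ^ 2 = π) :
    ∃ g ∈ E.fixingSubgroup, g w = -w := by
  by_contra hc
  push Not at hc
  have hw0 : w ≠ 0 := fun e => hD.ne (by rw [← hw, e]; simp)
  have hfix : ∀ g ∈ E.fixingSubgroup, g w = w := by
    intro g hg
    have : (g w) ^ 2 = w ^ 2 := by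
      rw [← map_pow, hw]
      exact (IntermediateField.mem_fixingSubgroup_iff _ _).1 hg π hD.mem
    exact (sq_eq_sq_iff_eq_or_eq_neg.1 this).resolve_right (hc g hg)
  obtain ⟨e, he⟩ := fix_pow E hfix
  obtain ⟨j, hj⟩ := hD.val _ he (pow_ne_zero _ hw0)
  have h3 : O.valuation π ^ ((ringExpChar Ω ^ e : ℕ) : ℤ) = O.valuation π ^ (j * 2) := by
    rw [zpow_mul, ← hj, zpow_natCast, ← hw, map_pow, map_pow, ← pow_mul, mul_comm, pow_mul]
    exact (zpow_natCast _ 2).symm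
  have h4 := hD.inj_GalB4 h3
  obtain ⟨c, hc⟩ : Odd (ringExpChar Ω ^ e) := (odd_exp (two_ne_GalB4 h2)).pow
  omega

/-- The field `E(w)` when an automorphism over `E` sends `w` to `-w`. -/
def quad_GalB4 (E : IntermediateField B Ω) (w : Ω) (hw : w ^ 2 ∈ E) (g : Ω ≃ₐ[B] Ω)
    (hg : g ∈ E.fixingSubgroup) (hgw : g w = -w) : IntermediateField B Ω where
  carrier := {z | ∃ a ∈ E, ∃ b ∈ E, z = a + b * w}
  mul_mem' := by
    rintro _ _ ⟨a, ha, b, hb, rfl⟩ ⟨c, hc, d, hd, rfl⟩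
    exact ⟨a * c + b * d * w ^ 2, add_mem (mul_mem ha hc) (mul_mem (mul_mem hb hd) hw),
      a * d + b * c, add_mem (mul_mem ha hd) (mul_mem hb hc), by ring⟩
  add_mem' := by
    rintro _ _ ⟨a, ha, b, hb, rfl⟩ ⟨c, hc, d, hd, rfl⟩
    exact ⟨a + c, add_mem ha hc, b + d, add_mem hb hd, by ring⟩
  algebraMap_mem' := fun r => ⟨algebraMap B Ω r, E.algebraMap_mem r, 0, zero_mem _, by ring⟩
  inv_mem' := by
    rintro _ ⟨a, ha, b, hb, rfl⟩
    by_cases h0 : a + b * w = 0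
    · exact ⟨0, zero_mem _, 0, zero_mem _, by rw [h0]; simp⟩
    have hf := (IntermediateField.mem_fixingSubgroup_iff _ _).1 hg
    have h1 : a - b * w ≠ 0 := by
      intro e
      have := congrArg g e
      rw [map_sub, map_mul, hf a ha, hf b hb, hgw, map_zero] at this
      exact h0 (by rw [← this]; ring)
    have hN : a ^ 2 - b ^ 2 * w ^ 2 ∈ E := sub_mem (pow_mem ha 2) (mul_mem (pow_mem hb 2) hw)
    have hN' : a ^ 2 - b ^ 2 * w ^ 2 = (a + b * w) * (a - b * w) := by ring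
    refine ⟨a / (a ^ 2 - b ^ 2 * w ^ 2), div_mem ha hN, -b / (a ^ 2 - b ^ 2 * w ^ 2),
      div_mem (neg_mem hb) hN, ?_⟩
    rw [hN']
    field_simp
    ring

/-- `w` is not in `E`; elements of `E(w)` are `a + b w` with `v a ≠ v (b w)`; extend the
conjugation to `Ω`, correct by `trans_fix` and `ine_lift` for the field `E(w)`.  In detail: some `g₀` fixing `E` has
`g₀ w = -w` (else `fix_pow`, `odd_exp` and parity of values); define `E₁ = {a + b w}` by hand;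
`a + b w ∈ O ↔ a ∈ O ∧ b w ∈ O`, and then `v (b w) < 1`; `φ = g₁ g₀` stabilises `O`; with `g₂` from
`ine_lift` take `g = φ⁻¹ g₂`. -/
theorem Disc.flip (h2 : O.valuation 2 = 1) (hD : Disc E O π) {w : Ω} (hw : w ^ 2 = π) :
    ∃ g ∈ E.fixingSubgroup ⊓ Inr B O, g w = -w := by
  obtain ⟨g₀, hg₀, hw₀⟩ := hD.neg_GalB4 h2 hw
  have hf₀ := (IntermediateField.mem_fixingSubgroup_iff _ _).1 hg₀
  let E₁ := quad_GalB4 E w (hw ▸ hD.mem) g₀ hg₀ hw₀
  have hmem : ∀ z, z ∈ E₁ ↔ ∃ a ∈ E, ∃ b ∈ E, z = a + b * w := fun z => Iff.rfl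
  have hE : ∀ a ∈ E, a ∈ E₁ := fun a ha => (hmem a).2 ⟨a, ha, 0, zero_mem _, by ring⟩
  have hwE : w ∈ E₁ := (hmem w).2 ⟨0, zero_mem _, 1, one_mem _, by ring⟩
  obtain ⟨g₁, hg₁, hO⟩ := trans_fix E₁ (tr g₀ O) O (by
    intro z hz
    obtain ⟨a, ha, b, hb, rfl⟩ := (hmem z).1 hz
    have e : a + b * w = g₀ (a + (-b) * w) := by
      rw [map_add, map_mul, map_neg, hf₀ a ha, hf₀ b hb, hw₀]
      ring
    rw [hD.mem_add_GalB4 hw ha hb]
    conv_lhs => rw [e]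
    rw [mem_tr, hD.mem_add_GalB4 hw ha (neg_mem hb), neg_mul, neg_mem_iff])
  have hf₁ := (IntermediateField.mem_fixingSubgroup_iff _ _).1 hg₁
  have hφ : ∀ z, (g₁ * g₀) z ∈ O ↔ z ∈ O := by
    intro z
    rw [AlgEquiv.mul_apply]
    conv_lhs => rw [← hO]
    rw [mem_tr, mem_tr]
  have hφa : ∀ a ∈ E, (g₁ * g₀) a = a := fun a ha => by
    rw [AlgEquiv.mul_apply, hf₀ a ha, hf₁ a (hE a ha)]
  have hφw : (g₁ * g₀) w = -w := by
    rw [AlgEquiv.mul_apply, hw₀, map_neg, hf₁ w hwE]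
  generalize g₁ * g₀ = φ at hφ hφa hφw
  obtain ⟨g₂, hg₂, hv⟩ := ine_lift E₁ O φ hφ (by
    intro z hz hzO
    obtain ⟨a, ha, b, hb, rfl⟩ := (hmem z).1 hz
    have hbw := ((hD.mem_add_GalB4 hw ha hb).1 hzO).2
    have e : φ (a + b * w) - (a + b * w) = -(2 * (b * w)) := by
      rw [map_add, map_mul, hφa a ha, hφa b hb, hφw]
      ring
    rw [e, Valuation.map_neg, map_mul, h2, one_mul]
    by_cases hb0 : b = 0
    · rw [hb0, zero_mul, map_zero]
      exact zero_lt_one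
    refine lt_of_le_of_ne ((O.valuation_le_one_iff _).2 hbw) fun e1 => ?_
    exact hD.parity_GalB4 hw (one_mem E) hb one_ne_zero hb0 (by rw [map_one, e1]))
  have hf₂ := (IntermediateField.mem_fixingSubgroup_iff _ _).1 hg₂
  have happ : ∀ z, φ (φ⁻¹ z) = z := fun z => by
    rw [← AlgEquiv.mul_apply, mul_inv_cancel, AlgEquiv.one_apply]
  have htr : tr φ O = O := by
    ext z
    rw [← happ z, mem_tr, hφ]
  refine ⟨φ⁻¹ * g₂, ⟨(IntermediateField.mem_fixingSubgroup_iff _ _).2 fun a ha => ?_,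
    mem_ine.2 fun z hz => ?_⟩, ?_⟩
  · rw [AlgEquiv.mul_apply, hf₂ a (hE a ha)]
    conv_lhs => rw [← hφa a ha]
    exact inv_apply_self φ a
  · have h1 := tr_val_lt_one (g := φ) (O := O) (z := (φ⁻¹ * g₂) z - z)
    rw [htr, map_sub, AlgEquiv.mul_apply, happ] at h1
    exact h1.1 (hv z hz)
  · rw [AlgEquiv.mul_apply, hf₂ w hwE]
    have e : w = φ (-w) := by rw [map_neg, hφw, neg_neg]
    conv_lhs => rw [e]
    exact inv_apply_self φ (-w)

theorem kum_level_GalB4 {g : Ω ≃ₐ[B] Ω} {z : Ω} (hg : Ru g) (h0 : z ≠ 0) (n a : ℕ) :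
    kum (n + a) z g ^ 2 ^ a = kum n z g := by
  induction a with
  | zero => rw [pow_zero, pow_one, Nat.add_zero]
  | succ a ih => rw [pow_succ', pow_mul, ← Nat.add_assoc, kum_level hg h0, ih]

/-- `flip` for `w = rt 1 π`, `kum_level` iterated, `orderOf_eq_prime_pow`. -/
theorem Disc.prim (h2 : O.valuation 2 = 1) (hE : ∀ g ∈ E.fixingSubgroup, Ru g) (hD : Disc E O π)
    (n : ℕ) : ∃ g ∈ E.fixingSubgroup ⊓ Inr B O, IsPrimitiveRoot (kum n π g) (2 ^ n) := by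
  have hw : rt 1 π ^ 2 = π := by
    have := rt_pow 1 π
    rwa [pow_one] at this
  obtain ⟨g, hg, hgw⟩ := hD.flip h2 hw
  have hπ : g π = π := (IntermediateField.mem_fixingSubgroup_iff _ _).1 hg.1 π hD.mem
  have hr := hE g hg.1
  refine ⟨g, hg, ?_⟩
  have hp := kum_pow_one (n := n) hD.ne hπ
  cases n with
  | zero =>
    rw [pow_zero, pow_one] at hp
    rw [hp, pow_zero]
    exact IsPrimitiveRoot.one
  | succ m =>
    have h1 : kum 1 π g = -1 := kum_eq hr hD.ne (rt_pow 1 π) (by rw [hgw]; ring)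
    have h3 : ¬ kum (m + 1) π g ^ 2 ^ m = 1 := by
      rw [Nat.add_comm m 1, kum_level_GalB4 hr hD.ne, h1]
      intro e
      exact two_ne_GalB4 h2 (by linear_combination -e)
    have h4 := orderOf_eq_prime_pow h3 hp
    rw [← h4]
    exact IsPrimitiveRoot.orderOf _

/-- As `Over.local_char` in `Kum.lean`, written multiplicatively. -/
theorem Disc.local_char (h2 : O.valuation 2 = 1) (hE : ∀ g ∈ E.fixingSubgroup, Ru g)
    (hD : Disc E O π) {n : ℕ} {χ : (Ω ≃ₐ[B] Ω) → Ω} (h : Chr (E.fixingSubgroup ⊓ Inr B O) n χ) :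
    ∃ j : ℕ, ∀ g ∈ E.fixingSubgroup ⊓ Inr B O, χ g = kum n π g ^ j := by
  have hπ : ∀ g ∈ E.fixingSubgroup ⊓ Inr B O, g π = π := fun g hg =>
    (IntermediateField.mem_fixingSubgroup_iff _ _).1 hg.1 π hD.mem
  have hχ0 : ∀ g ∈ E.fixingSubgroup ⊓ Inr B O, χ g ≠ 0 := fun g hg e => by
    have := h.pow g hg
    rw [e, zero_pow (by positivity)] at this
    exact zero_ne_one this
  obtain ⟨b, hb0, hb⟩ := hilbert90 (E.fixingSubgroup ⊓ Inr B O) χ hχ0
    (fun g hg l hl => by rw [h.mul g hg l hl, hE g hg.1 n _ (h.pow l hl)]) h.near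
  obtain ⟨m, j, hm0, hv⟩ := hD.val_pow hb0
  obtain ⟨a, m₁, hodd, rfl⟩ := Nat.exists_eq_two_pow_mul_odd hm0.ne'
  have hv0 : O.valuation π ≠ 0 := (Valuation.ne_zero_iff _).2 hD.ne
  obtain ⟨y, hy⟩ : ∃ y : Ω, y ^ 2 ^ (n + a) = π := ⟨_, rt_pow (n + a) π⟩
  have hy0 : y ≠ 0 := fun e => hD.ne (by rw [← hy, e]; simp)
  have hu : O.valuation (b ^ m₁ / (y ^ 2 ^ n) ^ j) = 1 := by
    apply (pow_eq_one_iff_of_nonneg zero_le (n := 2 ^ a) (by positivity)).1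
    rw [map_div₀, div_pow, map_pow, ← pow_mul, mul_comm m₁, hv, ← map_pow, ← zpow_natCast,
      ← zpow_mul, mul_comm j, zpow_mul, zpow_natCast, ← pow_mul, ← pow_add, hy,
      map_zpow₀, div_self (zpow_ne_zero _ hv0)]
  have key : ∀ g ∈ E.fixingSubgroup ⊓ Inr B O,
      χ g ^ m₁ = (kum (n + a) π g ^ 2 ^ n) ^ j := by
    intro g hg
    have h1 := kum_spec (hE g hg.1) hD.ne hy
    have hk0 : kum (n + a) π g ≠ 0 := kum_ne hD.ne
    have hk1 : kum (n + a) π g ^ 2 ^ (n + a) = 1 := kum_pow_one hD.ne (hπ g hg)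
    have e : g (b ^ m₁ / (y ^ 2 ^ n) ^ j) - b ^ m₁ / (y ^ 2 ^ n) ^ j =
        (χ g ^ m₁ / (kum (n + a) π g ^ 2 ^ n) ^ j - 1) * (b ^ m₁ / (y ^ 2 ^ n) ^ j) := by
      rw [map_div₀, map_zpow₀, map_pow, map_pow, hb g hg, h1, mul_pow, mul_pow, mul_zpow,
        sub_mul, one_mul, div_mul_div_comm]
    have h3 := mem_ine.1 hg.2 _ ((O.valuation_le_one_iff _).1 hu.le)
    rw [e, map_mul, hu, mul_one] at h3
    have h4 : (χ g ^ m₁ / (kum (n + a) π g ^ 2 ^ n) ^ j) ^ 2 ^ (n + a) = 1 := by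
      have e1 : (χ g ^ m₁) ^ 2 ^ (n + a) = 1 := by
        rw [← pow_mul, mul_comm, pow_mul, pow_add, pow_mul, h.pow g hg, one_pow, one_pow]
      have e2 : ((kum (n + a) π g ^ 2 ^ n) ^ j) ^ 2 ^ (n + a) = 1 := by
        rw [← zpow_natCast _ (2 ^ (n + a)), ← zpow_mul, mul_comm, zpow_mul, zpow_natCast,
          ← pow_mul, mul_comm, pow_mul, hk1, one_pow, one_zpow]
      rw [div_pow, e1, e2, div_one]
    exact (div_eq_one_iff_eq (zpow_ne_zero _ (pow_ne_zero _ hk0))).1 (root_eq_one h2 h4 h3)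
  obtain ⟨g₀, hg₀, hu₀⟩ := hD.prim h2 hE (n + a)
  have hdiv : (2 ^ a : ℤ) ∣ 2 ^ n * j := by
    have h1 := congrArg (· ^ 2 ^ n) (key g₀ hg₀)
    beta_reduce at h1
    rw [← pow_mul, mul_comm m₁, pow_mul, h.pow g₀ hg₀, one_pow, ← zpow_natCast _ (2 ^ n),
      ← zpow_natCast _ (2 ^ n), ← zpow_mul, ← zpow_mul] at h1
    have h3 := (hu₀.zpow_eq_one_iff_dvd _).1 h1.symm
    push_cast at h3
    rw [pow_add, mul_comm ((2 : ℤ) ^ n) (2 ^ a), ← mul_assoc] at h3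
    exact Int.dvd_of_mul_dvd_mul_right (by positivity) h3
  obtain ⟨j', hj'⟩ := hdiv
  have hco : IsCoprime (m₁ : ℤ) ((2 ^ n : ℕ) : ℤ) :=
    Nat.isCoprime_iff_coprime.2 (Nat.Coprime.pow_right _ (Nat.coprime_two_right.2 hodd))
  obtain ⟨u, t, hut⟩ := hco
  have hpos : (0 : ℤ) < ((2 ^ n : ℕ) : ℤ) := by positivity
  refine ⟨((j' * u) % ((2 ^ n : ℕ) : ℤ)).toNat, fun g hg => ?_⟩
  have h4 := key g hg
  rw [← zpow_natCast _ (2 ^ n), ← zpow_mul] at h4
  push_cast at h4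
  rw [hj', zpow_mul, ← Nat.cast_ofNat, ← Nat.cast_pow, zpow_natCast,
    kum_level_GalB4 (hE g hg.1) hD.ne] at h4
  have hk0 : kum n π g ≠ 0 := kum_ne hD.ne
  have hk1 : kum n π g ^ 2 ^ n = 1 := kum_pow_one hD.ne (hπ g hg)
  have h5 : χ g = kum n π g ^ (j' * u) := by
    rw [zpow_mul, ← h4, ← zpow_natCast, ← zpow_mul]
    conv_lhs => rw [← zpow_one (χ g), ← hut, zpow_add₀ (hχ0 g hg), mul_comm t, zpow_mul _ _ t,
      zpow_natCast, h.pow g hg, one_zpow, mul_one, mul_comm]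
  rw [h5, ← zpow_natCast, Int.toNat_of_nonneg (Int.emod_nonneg _ hpos.ne')]
  conv_lhs => rw [← Int.emod_add_mul_ediv (j' * u) ((2 ^ n : ℕ) : ℤ), zpow_add₀ hk0, zpow_mul,
    zpow_natCast, hk1, one_zpow, mul_one]

end

end Pool.Agent.Lib.MP_16ef92_ag.ET
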