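import Pool.Agent.Lib.MP_16ef92_ag.ET.Defs
import Pool.Agent.Lib.MP_16ef92_ag.ET.Fn

/-! Points of etale schemes over an affine scheme with values in a ring. -/

set_option backward.isDefEq.respectTransparency false

namespace Pool.Agent.Lib.MP_16ef92_ag.ET

open CategoryTheory Limits AlgebraicGeometry Opposite

noncomputable section

variable {R : Type} [CommRing R]

variable (R) in
/-- The affine scheme. -/
abbrev Xs : Scheme.{0} := Spec (.of R)

/-- The morphism of affine schemes given by a ring map. -/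
abbrev spm {O O' : Type} [CommRing O] [CommRing O'] (θ : O →+* O') : Xs O' ⟶ Xs O :=
  Spec.map (CommRingCat.ofHom θ)

theorem spm_comp {O O' O'' : Type} [CommRing O] [CommRing O'] [CommRing O''] (θ : O →+* O')
    (θ' : O' →+* O'') : spm θ' ≫ spm θ = spm (θ'.comp θ) := (Spec.map_comp _ _).symm

variable (R) in
/-- The terminal object of the site. -/
def tm : (Xs R).Etale := Scheme.Etale.mk (𝟙 (Xs R))

/-- The structure map. -/
def toTm (U : (Xs R).Etale) : U ⟶ tm R := MorphismProperty.Over.homMk U.hom (Category.comp_id _)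

variable (R) in
/-- It is terminal. -/
def tmT : IsTerminal (tm R) := IsTerminal.ofUniqueHom toTm fun _ f =>
  MorphismProperty.Over.Hom.ext ((Category.comp_id _).symm.trans (MorphismProperty.Over.w f))

section points

variable {O O' O'' : Type} [CommRing O] [CommRing O'] [CommRing O'']

/-- The functor of points with values in `O`. -/
def fib (j : R →+* O) : (Xs R).Etale ⥤ Type :=
  Scheme.Etale.forget (Xs R) ⋙ coyoneda.obj (op (Over.mk (spm j)))

/-- Points with values in `O`. -/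
def Ptv (j : R →+* O) (U : (Xs R).Etale) : Type := (fib j).obj U

variable {j : R →+* O} {j' : R →+* O'} {j'' : R →+* O''} {U V W : (Xs R).Etale}

/-- The underlying morphism of schemes. -/
def Ptv.hom (x : Ptv j U) : Xs O ⟶ U.left := x.left

theorem Ptv.w (x : Ptv j U) : x.hom ≫ U.hom = spm j := Over.w x

/-- The point given by a morphism of schemes. -/
def Ptv.mk (x : Xs O ⟶ U.left) (h : x ≫ U.hom = spm j) : Ptv j U := Over.homMk x h

theorem Ptv.ext {x y : Ptv j U} (h : x.hom = y.hom) : x = y := Over.OverMorphism.ext h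

/-- The image of a point. -/
def Ptv.im (f : U ⟶ V) (x : Ptv j U) : Ptv j V := (fib j).map f x

theorem Ptv.im_hom (f : U ⟶ V) (x : Ptv j U) : (x.im f).hom = x.hom ≫ f.left := rfl

theorem Ptv.im_comp (f : U ⟶ V) (g : V ⟶ W) (x : Ptv j U) : x.im (f ≫ g) = (x.im f).im g :=
  Ptv.ext (Category.assoc _ _ _).symm

/-- Evaluation of functions at a point. -/
def Ptv.ev (x : Ptv j U) : Γ(U.left, ⊤) →+* O :=
  (x.hom.appTop ≫ (Scheme.ΓSpecIso (.of O)).hom).hom

theorem Ptv.ev_im (f : U ⟶ V) (x : Ptv j U) (a : Γ(V.left, ⊤)) :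
    (x.im f).ev a = x.ev (f.left.appTop a) := by
  simp only [Ptv.ev, Ptv.im_hom, Scheme.Hom.comp_appTop]
  rfl

/-- Change of the ring of values. -/
def Ptv.mp (θ : O →+* O') (h : θ.comp j = j') (x : Ptv j U) : Ptv j' U :=
  .mk (spm θ ≫ x.hom) (by rw [Category.assoc, x.w, spm_comp, h])

theorem ev_spm (θ : O →+* O') {Y : Scheme.{0}} (x : Xs O ⟶ Y) (a : Γ(Y, ⊤)) :
    ((spm θ ≫ x).appTop ≫ (Scheme.ΓSpecIso (.of O')).hom).hom a =
      θ ((x.appTop ≫ (Scheme.ΓSpecIso (.of O)).hom).hom a) := by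
  rw [Scheme.Hom.comp_appTop, Category.assoc, Scheme.ΓSpecIso_naturality]
  rfl

theorem Ptv.ev_mp (θ : O →+* O') (h : θ.comp j = j') (x : Ptv j U) (a : Γ(U.left, ⊤)) :
    (x.mp θ h).ev a = θ (x.ev a) := ev_spm θ x.hom a

theorem Ptv.mp_im (θ : O →+* O') (h : θ.comp j = j') (f : U ⟶ V) (x : Ptv j U) :
    (x.im f).mp θ h = (x.mp θ h).im f := Ptv.ext (Category.assoc _ _ _).symm

theorem Ptv.mp_id (θ : O →+* O) (h : θ.comp j = j) (e : ∀ z, θ z = z) (x : Ptv j U) :
    x.mp θ h = x := by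
  obtain rfl : θ = RingHom.id O := RingHom.ext e
  exact Ptv.ext ((congrArg (· ≫ x.hom) (Spec.map_id _)).trans (Category.id_comp _))

theorem Ptv.mp_mp (θ : O →+* O') (h : θ.comp j = j') (θ' : O' →+* O'') (h' : θ'.comp j' = j'')
    (θ'' : O →+* O'') (h'' : θ''.comp j = j'') (e : ∀ z, θ'' z = θ' (θ z)) (x : Ptv j U) :
    x.mp θ'' h'' = (x.mp θ h).mp θ' h' := by
  obtain rfl : θ'' = θ'.comp θ := RingHom.ext e
  exact Ptv.ext ((congrArg (· ≫ x.hom) (spm_comp θ θ').symm).trans (Category.assoc _ _ _))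

/-- Change of the ring of values over an automorphism of the base. -/
def Ptv.tw (σ : R ≃+* R) (θ : O →+* O') (h : θ.comp (j.comp σ) = j') (x : Ptv j U) :
    Ptv j' ((tw (Scheme.Spec.mapIso σ.toCommRingCatIso.op)).obj U) :=
  .mk (spm θ ≫ x.hom) (by
    change (spm θ ≫ x.hom) ≫ U.hom ≫ spm (σ : R →+* R) = _
    rw [Category.assoc, reassoc_of% x.w, spm_comp, spm_comp, ← h])

theorem Ptv.ev_tw (σ : R ≃+* R) (θ : O →+* O') (h : θ.comp (j.comp σ) = j') (x : Ptv j U)
    (a : Γ(U.left, ⊤)) : (x.tw σ θ h).ev a = θ (x.ev a) := ev_spm θ x.hom a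

theorem Ptv.tw_im (σ : R ≃+* R) (θ : O →+* O') (h : θ.comp (j.comp σ) = j') (f : U ⟶ V)
    (x : Ptv j U) : (x.im f).tw σ θ h = (x.tw σ θ h).im ((ET.tw _).map f) :=
  Ptv.ext (Category.assoc _ _ _).symm

theorem spm_sq {O₁ : Type} [CommRing O₁] {Y : Scheme.{0}} {a : O →+* O'} {b : O' →+* O''}
    {c : O →+* O₁} {d : O₁ →+* O''} (h : ∀ z, b (a z) = d (c z)) (x : Xs O ⟶ Y) :
    spm b ≫ spm a ≫ x = spm d ≫ spm c ≫ x := by
  rw [← Category.assoc, spm_comp, show b.comp a = d.comp c from RingHom.ext h, ← spm_comp,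
    Category.assoc]

instance (j : R →+* O) : Unique (Ptv j (tm R)) where
  default := .mk (spm j) (Category.comp_id _)
  uniq x := Ptv.ext ((Category.comp_id _).symm.trans x.w)

end points

section aff

variable (R) (S : Type) [CommRing S] [Algebra R S] [Algebra.Etale R S]

instance : Etale (spm (algebraMap R S)) :=
  HasRingHomProperty.Spec_iff.2 (RingHom.etale_algebraMap.2 inferInstance)

/-- The affine object of the site. -/
def Aff : (Xs R).Etale := Scheme.Etale.mk (spm (algebraMap R S))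

/-- Functions on an affine object. -/
def fa : S ≃+* Γ((Aff R S).left, ⊤) :=
  (Scheme.ΓSpecIso (.of S)).symm.commRingCatIsoToRingEquiv

variable {R S} {S' : Type} [CommRing S'] [Algebra R S'] [Algebra.Etale R S']

/-- The map of affine objects. -/
def afm (g : S →ₐ[R] S') : Aff R S' ⟶ Aff R S :=
  MorphismProperty.Over.homMk (spm (g : S →+* S'))
    ((spm_comp _ _).trans (congrArg spm g.comp_algebraMap))

variable {O O' : Type} [CommRing O] [CommRing O'] {j : R →+* O} {j' : R →+* O'}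

/-- The ring map of a point of an affine object. -/
def Ptv.hm (x : Ptv j (Aff R S)) : S →+* O := x.ev.comp (fa R S)

theorem Ptv.ev_fa (x : Ptv j (Aff R S)) (b : S) : x.ev (fa R S b) = x.hm b := rfl

theorem Ptv.hom_eq (x : Ptv j (Aff R S)) : x.hom = spm x.hm := by
  obtain ⟨φ, hφ⟩ := Spec.map_surjective (R := .of S) (S := .of O) x.hom
  have : x.hm = φ.hom := by
    change ((Scheme.ΓSpecIso (.of S)).inv ≫ x.hom.appTop ≫ (Scheme.ΓSpecIso (.of O)).hom).hom = _
    rw [← hφ, Scheme.ΓSpecIso_naturality, Iso.inv_hom_id_assoc]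
  rw [this, ← hφ]
  rfl

theorem Ptv.hm_alg (x : Ptv j (Aff R S)) (r : R) : x.hm (algebraMap R S r) = j r := by
  have h : spm x.hm ≫ spm (algebraMap R S) = spm j := x.hom_eq ▸ x.w
  exact congrArg (fun t => t.hom r) (Spec.map_injective ((spm_comp _ _).symm.trans h))

theorem Ptv.hm_ext {x y : Ptv j (Aff R S)} (h : ∀ b, x.hm b = y.hm b) : x = y :=
  Ptv.ext (by rw [x.hom_eq, y.hom_eq, RingHom.ext h])

theorem Ptv.of_hom (φ : S →+* O) (h : ∀ r, φ (algebraMap R S r) = j r) :
    ∃ x : Ptv j (Aff R S), ∀ b, x.hm b = φ b := by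
  let x : Ptv j (Aff R S) := .mk (spm φ) ((spm_comp _ _).trans (congrArg spm (RingHom.ext h)))
  exact ⟨x, fun b => congrArg (fun t => t.hom b) (Spec.map_injective x.hom_eq.symm)⟩

theorem Ptv.hm_im (g : S →ₐ[R] S') (x : Ptv j (Aff R S')) (b : S) :
    (x.im (afm g)).hm b = x.hm (g b) := by
  have h : spm (x.im (afm g)).hm = spm x.hm ≫ spm (g : S →+* S') := by
    rw [← Ptv.hom_eq, ← Ptv.hom_eq]
    rfl
  exact congrArg (fun t => t.hom b) (Spec.map_injective (h.trans (spm_comp _ _)))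

theorem Ptv.hm_mp (θ : O →+* O') (h : θ.comp j = j') (x : Ptv j (Aff R S)) (b : S) :
    (x.mp θ h).hm b = θ (x.hm b) := x.ev_mp θ h _

end aff

end

end Pool.Agent.Lib.MP_16ef92_ag.ET
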