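import Mathlib
import Pool.Agent.Lib.MP_16ef92_ag.ET.Top1
import Pool.Agent.Lib.MP_16ef92_ag.ET.Br
import Pool.Agent.Lib.MP_16ef92_ag.ET.One
import Pool.Agent.Lib.MP_16ef92_ag.ET.Smo
import Pool.Agent.Lib.MP_16ef92_ag.GF.Top

set_option autoImplicit false
set_option linter.unusedSectionVars false
set_option linter.unusedVariables false

namespace Pool.Agent.Lib.MP_16ef92_ag.ET

open Polynomial Filter GF AlgebraicGeometry
open scoped Classical

noncomputable section

variable {F : Type} [Field F] [Fintype F]

theorem simpleEt_of [Clos F] [hq : Fact (Odd (Fintype.card F))] {A B D : F[X]} (hF : Fam0 A B D)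
    (hS : Simple (Om F) (curve A B D)) : SimpleOn (frob F (surf A B D)) := by
  obtain ⟨s, hs, Cl, h⟩ := bridge hF.sq.ne_zero
  have := h.simple hF hs hS
  exact this

/-- Almost all admissible twists have a simple eigenvalue one on etale cohomology. -/
theorem final_et (hq : Odd (Fintype.card F)) {A B : F[X]} (hsq : Squarefree (A * B * (A - B)))
    (hA : 0 < A.natDegree) (hB : B.natDegree = A.natDegree)
    (hC : (A - B).natDegree = A.natDegree) :
    Tendsto (fun d : ℕ => (({D : F[X] | D.natDegree = d ∧ Squarefree (A * B * (A - B) * D) ∧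
      SmoothOfRelativeDimension 2 (Spec.map (CommRingCat.ofHom (algebraMap F (surf A B D)))) ∧
      SimpleOn (frob F (surf A B D))}.ncard : ℝ)) /
      ({D : F[X] | D.natDegree = d ∧ Squarefree (A * B * (A - B) * D)}.ncard : ℝ))
      atTop (nhds 1) := by
  have : Fact (Odd (Fintype.card F)) := ⟨hq⟩
  let L := separableClosure (RatFunc F) (AlgebraicClosure (RatFunc F))
  letI : Clos F := ⟨L, inferInstance, inferInstance, inferInstance, inferInstance, inferInstance,
    inferInstance⟩
  refine tendsto_of_tendsto_of_tendsto_of_le_of_le (final hsq hA hB hC) tendsto_const_nhds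
    (fun d => div_le_div_of_nonneg_right (Nat.cast_le.2 (Set.ncard_le_ncard (fun D hD =>
      ⟨hD.1, hD.2.1, surf_smooth two_neF A B D, simpleEt_of ⟨hD.2.1, hB, hC, hA⟩ hD.2.2⟩)
      ((finite_deg d).subset fun D hD => hD.1))) (Nat.cast_nonneg _))
    fun d => div_le_one_of_le₀ (Nat.cast_le.2 (Set.ncard_le_ncard (fun D hD => ⟨hD.1, hD.2.1⟩)
      ((finite_deg d).subset fun D hD => hD.1))) (Nat.cast_nonneg _)

end

end Pool.Agent.Lib.MP_16ef92_ag.ET
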