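import Mathlib
import Pool.Agent.Lib.MP_16ef92_ag.ET.One

set_option autoImplicit false

namespace Pool.Agent.Lib.MP_16ef92_ag.ET

open CategoryTheory AlgebraicGeometry

noncomputable section

/-- On the inverse limit of the tower `H` with 2 inverted, the kernel of `(f - 1)^2` lies in the
kernel of `f - 1`: the eigenvalue 1 of `f` is semisimple. -/
def SemiT {H : ℕ → Type} [∀ n, AddCommGroup (H n)] (s : ∀ n, H (n + 1) →+ H n)
    (f : ∀ n, H n → H n) : Prop :=
  ∀ x : ∀ n, H n, InLim s x → Tors (subId f (subId f x)) → Tors (subId f x)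

/-- The eigenvalue 1 of the automorphism `φ` of `X` on `H^2(X, ℚ_2(1))` is semisimple;
`H^2(X, ℤ_2(1))` is the inverse limit of the `H^2(X, μ_(2^n))`. -/
def SemiOn {X : Scheme.{0}} (φ : X ≅ X) : Prop :=
  SemiT (sqH X) fun n => actH φ (2 ^ n) 2

end

end Pool.Agent.Lib.MP_16ef92_ag.ET
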