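import Mathlib
import Pool.Agent.Lib.MP_16ef92_ag.ET.Top1
import Pool.Agent.Lib.MP_16ef92_ag.ET.Br
import Pool.Agent.Lib.MP_16ef92_ag.ET.Two
import Pool.Agent.Lib.MP_16ef92_ag.ET.Smo
import Pool.Agent.Lib.MP_16ef92_ag.Main

set_option autoImplicit false
set_option linter.unusedSectionVars false
set_option linter.unusedVariables false

namespace Pool.Agent.Lib.MP_16ef92_ag.ET

open Polynomial GF AlgebraicGeometry
open scoped Classical

noncomputable section

variable {F : Type} [Field F] [Fintype F]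

theorem BInt.semi [Clos F] [hq : Fact (Odd (Fintype.card F))] {A B D : F[X]} {s : Gam F}
    {H : ℕ → Type} [∀ n, AddCommGroup (H n)] {sq : ∀ n, H (n + 1) →+ H n} {fr : ∀ n, H n → H n}
    {Cl : ∀ n, H n → (Gam F → Pt (curve A B D)) → Prop}
    (h : BInt (curve A B D) s H (fun n => sq n) fr Cl) (hF : Fam0 A B D)
    (hs : Fr s (Fintype.card F)) (hS : ∀ c : Gam F → ℕ → Pt (curve A B D), IsClass c →
      IsNull (subOne s (subOne s c)) → IsNull (subOne s c)) : SemiT sq fr := by
  intro x hx h0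
  obtain ⟨c, c1, c2, c3⟩ := h.cls hF hs hx h0
  exact h.sat.tors_of_null (d := subOne s c)
    (fun n => h.sat.sub _ _ _ _ _ (h.sat.act _ _ _ (c1 n)) (c1 n)) (hS c c2 c3)

/-- The two-descent criterion on etale cohomology. -/
theorem semi_of_sel (hq : Odd (Fintype.card F)) {A B D : F[X]}
    (hsq : Squarefree (A * B * (A - B) * D)) (hA : 0 < A.natDegree)
    (hB : B.natDegree = A.natDegree) (hC : (A - B).natDegree = A.natDegree)
    (hD : Even (A.natDegree + D.natDegree))
    (hSel : ∀ d₁ d₂ : F[X], IsSel A B D d₁ d₂ → 4 ∣ wt D d₁ d₂ → IsTorsImage A B D d₁ d₂) :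
    SmoothOfRelativeDimension 2 (Spec.map (CommRingCat.ofHom (algebraMap F (surf A B D)))) ∧
      SemiOn (frob F (surf A B D)) := by
  have : Fact (Odd (Fintype.card F)) := ⟨hq⟩
  let L := separableClosure (RatFunc F) (AlgebraicClosure (RatFunc F))
  letI : Clos F := ⟨L, inferInstance, inferInstance, inferInstance, inferInstance, inferInstance,
    inferInstance⟩
  obtain ⟨s, hs, Cl, h⟩ := bridge hsq.ne_zero
  have := BInt.semi (sq := sqH (bar F (surf A B D))) h ⟨hsq, hB, hC, hA⟩ hs fun c hc h2 =>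
    Fam.final ⟨hsq, hB, hC, hD⟩ hSel (fun z hz => hs ⟨z, mem_algebraicClosure_iff.2 hz⟩) hc h2
  exact ⟨surf_smooth two_neF A B D, this⟩

end

end Pool.Agent.Lib.MP_16ef92_ag.ET
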